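import Pool.Agent.BIN.Defs
set_option autoImplicit false
set_option linter.all false

/-!
# BIN: the thick doubling
The bin of `L` is replaced by a block of `m + 1` bins with `2 m + 1` new balls
`Sum.inr b`, `b : ZMod (2 m + 1)`; the old balls are `Sum.inl a`.
Every ball which passes `L` in the old word passes the block (one *pass*); the passes are
numbered by the time `t = 0, ..., 2 m`.
-/

namespace Bn

variable {α : Type}

/-- the balls of the thick word -/
abbrev Tb (α : Type) (m : ℕ) : Type := α ⊕ ZMod (2 * m + 1)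

/-- a new ball -/
def hb (α : Type) (m : ℕ) (b : ZMod (2 * m + 1)) : Tb α m := Sum.inr b

/-- an old ball -/
def ob (m : ℕ) (a : α) : Tb α m := Sum.inl a

/-- the exchange of the pass `t` at the place `π`; `y` is the passing ball -/
def pit (m : ℕ) (κ : ℕ → ℕ → Kd) (t : ℕ) (y : α) (π : ℕ) : It (Tb α m) :=
  It.mv (hb α m ((t : ZMod (2 * m + 1)) - (π : ZMod (2 * m + 1))))
    (hb α m ((t : ZMod (2 * m + 1)) + (π : ZMod (2 * m + 1)))) (ob m y)
    (hb α m ((t : ZMod (2 * m + 1)) + (π : ZMod (2 * m + 1)) + 2)) (κ t π)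

/-- the pass at an odd time: `y` from the bottom to the top of the block -/
def pOdd (m : ℕ) (κ : ℕ → ℕ → Kd) (t : ℕ) (y : α) : List (It (Tb α m)) :=
  ((List.range m).map (fun (j : ℕ) => pit m κ t y (2 * j + 1))).reverse

/-- first exchange of the pass at an even time; `y` comes from the bin `s(y, w)` below -/
def pEv1 (m : ℕ) (κ : ℕ → ℕ → Kd) (t : ℕ) (y w : α) : It (Tb α m) :=
  It.mv (hb α m ((t : ZMod (2 * m + 1)) + 1)) (hb α m ((t : ZMod (2 * m + 1)) - 1))
    (ob m y) (ob m w) (κ t (2 * m))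

/-- the other exchanges of the pass at an even time; at last `y` meets `v` at the top -/
def pEv2 (m : ℕ) (κ : ℕ → ℕ → Kd) (t : ℕ) (v y : α) : List (It (Tb α m)) :=
  ((List.range (m - 1)).map (fun (j : ℕ) => pit m κ t y (2 * j + 2))).reverse ++
    [It.mv (hb α m (t : ZMod (2 * m + 1))) (ob m v) (ob m y)
      (hb α m ((t : ZMod (2 * m + 1)) + 2)) (κ t 0)]

/-- the pass of `K` down through the block at time 0 -/
def pDown (m : ℕ) (κ0 : ℕ → Kd) (K : α) : List (It (Tb α m)) :=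
  (List.range m).map (fun (j : ℕ) =>
    It.mv (ob m K) (hb α m (-(2 * (j : ZMod (2 * m + 1)))))
      (hb α m (2 * (j : ZMod (2 * m + 1)) + 2)) (hb α m (-(2 * (j : ZMod (2 * m + 1)) + 2)))
      (κ0 (j + 1)))

/-- the block before the pass `t` (odd), `y` at the bottom -/
def Bot (m t : ℕ) (y : Tb α m) : List (Sym2 (Tb α m)) :=
  (List.range m).map (fun (j : ℕ) =>
    s(hb α m ((t : ZMod (2 * m + 1)) - (2 * (j : ZMod (2 * m + 1)) + 1)),
      hb α m ((t : ZMod (2 * m + 1)) + (2 * (j : ZMod (2 * m + 1)) + 1)))) ++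
    [s(hb α m (t : ZMod (2 * m + 1)), y)]

/-- the bins of the block below the top bin at an even time -/
def Tp2 (α : Type) (m t : ℕ) : List (Sym2 (Tb α m)) :=
  (List.range m).map (fun (j : ℕ) =>
    s(hb α m ((t : ZMod (2 * m + 1)) - (2 * (j : ZMod (2 * m + 1)) + 2)),
      hb α m ((t : ZMod (2 * m + 1)) + (2 * (j : ZMod (2 * m + 1)) + 2))))

/-- the block before the pass `t` (even), `y` at the top -/
def Top (m t : ℕ) (y : Tb α m) : List (Sym2 (Tb α m)) :=
  s(y, hb α m (t : ZMod (2 * m + 1))) :: Tp2 α m t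

/-- the middle part: old word `w`, time `t`, mate `y` of `L` -/
def thk [DecidableEq α] (m : ℕ) (κ : ℕ → ℕ → Kd) (L : α) :
    ℕ → α → List (It α) → List (It (Tb α m))
  | _, _, [] => []
  | t, y, (It.mv p x q z k) :: w =>
      if p = L then pOdd m κ t y ++ (pEv1 m κ (t + 1) q z :: pEv2 m κ (t + 1) y q) ++
          thk m κ L (t + 2) z w
      else It.mv (ob m p) (ob m x) (ob m q) (ob m z) k :: thk m κ L t y w
  | t, y, (It.qd e d a x c w') :: w =>
      It.qd (ob m e) (ob m d) (ob m a) (ob m x) (ob m c) (ob m w') :: thk m κ L t y w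

/-- number of moves of the ball `b` -/
def nmv [DecidableEq α] (b : α) (w : List (It α)) : ℕ := (wpas b w).length / 2

/-- the phase `w2` of the thick word -/
def thw2 [DecidableEq α] (m : ℕ) (κ : ℕ → ℕ → Kd) (κ0 : ℕ → Kd) (kA : Kd) (c : CW α) :
    List (It (Tb α m)) :=
  (pDown m κ0 c.K).tail ++ (It.mv (ob m c.K) (hb α m 1) (ob m c.q) (ob m c.z) kA ::
    (thk m κ c.L 1 c.q c.w2 ++ pOdd m κ (2 * m - 1) c.y))

/-- the whole thick word -/
def thword [DecidableEq α] (m : ℕ) (κ : ℕ → ℕ → Kd) (κ0 : ℕ → Kd) (kA : Kd) (c : CW α) :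
    List (It (Tb α m)) :=
  wmap (ob m) c.w1 ++
    (It.mv (ob m c.K) (hb α m 0) (hb α m 2) (hb α m (-2)) (κ0 1) ::
      (thw2 m κ κ0 kA c ++
        (It.mv (hb α m 0) (hb α m (-2)) (ob m c.x) (ob m c.K) (κ (2 * m) (2 * m)) ::
          (pEv2 m κ (2 * m) c.y c.x ++ wmap (ob m) c.w3))))

/-- labels of the times -/
inductive Lab
  | no | A | B (s : Bool) (d : ℕ) | S
  deriving DecidableEq

/-- 0 or 1 -/
def bz (m : ℕ) (s : Bool) : ZMod (2 * m + 1) := if s then 1 else 0

/-- the three balls (or one ball) which are swapped because of the label at time `t`; `Y` is the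
order of the passing balls -/
def cov (m : ℕ) (Y : ℕ → α) (t : ℕ) : Lab → Multiset (Tb α m)
  | Lab.no => 0
  | Lab.A => {ob m (Y t), ob m (Y (t + 1)), hb α m ((t : ZMod (2 * m + 1)) + 1)}
  | Lab.B s d => {ob m (Y t),
      hb α m ((t : ZMod (2 * m + 1)) + bz m s - (d : ZMod (2 * m + 1))),
      hb α m ((t : ZMod (2 * m + 1)) + bz m s + (d : ZMod (2 * m + 1)))}
  | Lab.S => {ob m (Y t)}

/-- correct labels -/
def LabOK (m : ℕ) (lab : ℕ → Lab) : Prop :=
  ∀ t, t < 2 * m + 1 →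
    (∀ s d, lab t = Lab.B s d → 1 ≤ d ∧ d ≤ m) ∧
    (lab t = Lab.A → t + 1 < 2 * m + 1 ∧ lab (t + 1) = Lab.no) ∧
    (lab t = Lab.S → t = 1 ∧ 2 ≤ m)

/-- the kind of the exchange at time `t ≥ 1`, place `π` -/
def kd (m : ℕ) (lab : ℕ → Lab) (t π : ℕ) : Kd :=
  match lab t with
  | Lab.no => if π = 0 ∧ 1 ≤ t ∧ lab (t - 1) = Lab.A then Kd.U else Kd.n
  | Lab.A => if π = 2 * m then Kd.L else Kd.n
  | Lab.B false d => if π = d ∨ π + d = 2 * m + 1 then Kd.U else Kd.n
  | Lab.B true d => if π + 1 = d ∨ π + 1 + d = 2 * m + 1 then Kd.L else Kd.n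
  | Lab.S => if π = t + 2 then Kd.c else Kd.n

/-- the kind of the exchange number `j ≥ 1` of the pass down -/
def kd0 (m : ℕ) (lab : ℕ → Lab) (j : ℕ) : Kd :=
  match lab 0 with
  | Lab.B false d => if 2 * j = d ∨ 2 * j + d = 2 * m + 1 then Kd.L else Kd.n
  | Lab.B true d => if 2 * j = d + 1 ∨ 2 * j + d = 2 * m + 2 then Kd.U else Kd.n
  | _ => Kd.n

/-- the kind of the old leaving move -/
def kdA (lab : ℕ → Lab) : Kd := if lab 0 = Lab.A then Kd.U else Kd.n

/-- number of flags of a label -/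
def nlab : Lab → ℕ
  | Lab.no => 0
  | _ => 1

end Bn
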