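import Pool.Agent.BIN.Exec
import Pool.Agent.BIN.Th
set_option autoImplicit false
set_option linter.all false

/-!
# BIN: the base words (generated by program)
-/

namespace Bn

/-- the data of a clean word with coded balls -/
structure BD where
  K : ℕ
  L : ℕ
  B0 : List (ℕ × ℕ)
  w1 : List (It ℕ)
  k1 : Kd
  q : ℕ
  z : ℕ
  B1 : List (ℕ × ℕ)
  w2 : List (It ℕ)
  A : List (ℕ × ℕ)
  y : ℕ
  x : ℕ
  k2 : Kd
  w3 : List (It ℕ)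

/-- the whole word -/
def BD.word (d : BD) : List (It ℕ) :=
  d.w1 ++ (It.mv d.K d.L d.q d.z d.k1 :: (d.w2 ++ (It.mv d.L d.y d.x d.K d.k2 :: d.w3)))

/-- the checks -/
def BD.okb (d : BD) : Bool :=
  chk [] d.w1 d.B0 ((d.q, d.z) :: d.B1) &&
  chk [d.K, d.L] d.w2 ((d.L, d.q) :: (d.K, d.z) :: d.B1) (d.A ++ [(d.L, d.y), (d.K, d.x)]) &&
  chk [] d.w3 (d.A ++ [(d.y, d.x)]) d.B0.reverse &&
  ndB ((d.K, d.L) :: d.B0) && decide d.k1.tr && decide d.k2.tr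

/-- base word on 2 bins -/
def bd2 : BD where
  K := 0
  L := 1
  B0 := [(2, 3)]
  w1 := []
  k1 := .n
  q := 2
  z := 3
  B1 := []
  w2 := []
  A := []
  y := 2
  x := 3
  k2 := .n
  w3 := []

/-- base word on 4 bins -/
def bd4 : BD where
  K := 0
  L := 1
  B0 := [(2, 3), (4, 5), (6, 7)]
  w1 := []
  k1 := .n
  q := 3
  z := 2
  B1 := [(4, 5), (6, 7)]
  w2 := [.mv 0 2 5 4 .n, .mv 1 3 5 2 .n, .mv 0 4 7 6 .n, .mv 1 2 7 4 .n, .mv 3 5 7 2 .n]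
  A := [(5, 7), (2, 3)]
  y := 4
  x := 6
  k2 := .n
  w3 := [.mv 3 2 6 4 .n, .mv 2 6 4 3 .n, .mv 5 7 6 4 .n]

/-- base word on 11 bins -/
def bd11 : BD where
  K := 0
  L := 1
  B0 := [(2, 3), (4, 5), (6, 7), (8, 9), (10, 11), (12, 13), (14, 15), (16, 17), (18, 19), (20, 21)]
  w1 := [.mv 18 19 20 21 .n, .mv 6 7 9 8 .n, .mv 10 11 13 12 .n, .mv 16 17 20 19 .L, .mv 4 5 9 7 .n,
    .mv 6 8 13 11 .n, .mv 15 14 20 17 .n, .mv 15 17 19 16 .n, .mv 4 7 13 8 .n, .mv 10 12 20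
    14 .n, .mv 10 14 19 17 .n, .mv 6 11 20 12 .n, .mv 6 12 19 14 .n, .mv 4 8 20 11 .n, .mv 4
    11 19 12 .n, .mv 4 12 14 6 .n, .mv 4 6 17 10 .n, .mv 4 10 16 15 .n, .mv 4 15 21 18 .n,
    .mv 7 13 20 8 .n, .mv 7 8 19 11 .n, .mv 5 9 20 13 .n, .mv 3 2 20 9 .n, .mv 3 9 13 5 .n,
    .mv 3 5 19 8 .n]
  k1 := .n
  q := 20
  z := 2
  B1 := [(9, 13), (5, 19), (3, 8), (7, 11), (12, 14), (6, 17), (10, 16), (15, 21), (4, 18)]
  w2 := [.mv 0 2 13 9 .n, .mv 0 9 19 5 .n, .mv 0 5 8 3 .n, .mv 0 3 11 7 .U, .mv 0 7 14 12 .n, .mv 0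
    12 17 6 .n, .mv 0 6 16 10 .n, .mv 0 10 21 15 .n, .mv 0 15 18 4 .n, .mv 3 11 14 7 .n, .mv
    3 7 17 12 .n, .mv 3 12 16 6 .n, .mv 3 6 21 10 .n, .mv 3 10 18 15 .n, .mv 5 8 14 11 .n,
    .mv 5 11 17 7 .n, .mv 5 7 16 12 .n, .mv 5 12 21 6 .L, .mv 5 6 18 10 .n, .mv 7 16 21 12
    .n, .mv 11 17 21 16 .n, .mv 8 14 21 17 .n, .mv 9 19 21 14 .n, .mv 2 13 21 19 .n, .mv 1
    20 21 13 .n, .mv 1 13 19 2 .n, .mv 1 2 14 9 .n, .mv 1 9 17 8 .n, .mv 1 8 16 11 .n, .mv 1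
    11 12 7 .n, .mv 1 7 18 6 .U, .mv 1 6 10 5 .n, .mv 1 5 15 3 .n]
  A := [(20, 21), (13, 19), (2, 14), (9, 17), (8, 16), (11, 12), (7, 18), (6, 10), (5, 15)]
  y := 3
  x := 4
  k2 := .n
  w3 := [.mv 2 14 17 9 .U, .mv 2 9 16 8 .n, .mv 2 8 12 11 .n, .mv 2 11 18 7 .n, .mv 2 7 10 6 .n, .mv
    2 6 15 5 .n, .mv 2 5 4 3 .c, .mv 8 12 18 11 .n, .mv 7 10 15 6 .n, .mv 9 16 18 12 .n, .mv
    8 11 15 10 .n, .mv 14 17 18 16 .n, .mv 9 12 15 11 .n, .mv 9 11 10 8 .L, .mv 13 19 18 17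
    .n, .mv 13 17 16 14 .n, .mv 13 14 15 12 .L]

/-- base word on 12 bins -/
def bd12 : BD where
  K := 0
  L := 1
  B0 := [(2, 3), (4, 5), (6, 7), (8, 9), (10, 11), (12, 13), (14, 15), (16, 17), (18, 19), (20, 21),
    (22, 23)]
  w1 := [.mv 15 14 16 17 .n, .mv 15 17 18 19 .n, .mv 5 4 7 6 .n, .mv 21 20 23 22 .n, .mv 15 19 23 20
    .n, .mv 15 20 22 21 .n, .mv 17 18 23 19 .n, .mv 17 19 22 20 .L, .mv 14 16 23 18 .n, .mv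
    14 18 22 19 .n, .mv 14 19 20 17 .n, .mv 12 13 23 16 .n, .mv 12 16 22 18 .n, .mv 10 11 23
    13 .n, .mv 10 13 22 16 .n, .mv 8 9 23 11 .n, .mv 8 11 22 13 .n, .mv 5 6 23 9 .n, .mv 5 9
    22 11 .n, .mv 5 11 13 8 .n, .mv 5 8 16 10 .n, .mv 5 10 18 12 .n, .mv 5 12 20 19 .n, .mv
    4 7 23 6 .n, .mv 3 2 23 7 .n]
  k1 := .L
  q := 23
  z := 2
  B1 := [(3, 7), (4, 6), (9, 22), (11, 13), (8, 16), (10, 18), (12, 20), (5, 19), (14, 17), (15,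
    21)]
  w2 := [.mv 0 2 7 3 .n, .mv 0 3 6 4 .n, .mv 0 4 22 9 .n, .mv 0 9 13 11 .n, .mv 0 11 16 8 .n, .mv 0
    8 18 10 .n, .mv 0 10 20 12 .n, .mv 0 12 19 5 .n, .mv 0 5 17 14 .n, .mv 0 14 21 15 .n,
    .mv 3 6 22 4 .n, .mv 3 4 13 9 .n, .mv 8 18 20 10 .n, .mv 8 10 19 12 .n, .mv 2 7 22 6 .n,
    .mv 11 16 20 18 .n, .mv 1 23 22 7 .n, .mv 3 9 20 16 .n, .mv 3 16 18 11 .n, .mv 3 11 19
    10 .L, .mv 3 10 12 8 .n, .mv 3 8 17 5 .n, .mv 3 5 21 14 .n, .mv 4 13 20 9 .n, .mv 4 9 18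
    16 .L, .mv 2 6 20 13 .n, .mv 2 13 18 9 .n, .mv 2 9 16 4 .n, .mv 2 4 19 11 .n, .mv 1 7 20
    6 .n, .mv 1 6 18 13 .n, .mv 1 13 16 9 .n, .mv 1 9 19 4 .n, .mv 1 4 11 2 .n, .mv 1 2 12
    10 .n, .mv 1 10 17 8 .n, .mv 1 8 21 5 .L, .mv 1 5 14 3 .n]
  A := [(22, 23), (7, 20), (6, 18), (13, 16), (9, 19), (4, 11), (2, 12), (10, 17), (8, 21), (5,
    14)]
  y := 3
  x := 15
  k2 := .n
  w3 := [.mv 2 12 17 10 .n, .mv 2 10 21 8 .n, .mv 2 8 14 5 .n, .mv 2 5 15 3 .n, .mv 4 11 17 12 .n,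
    .mv 4 12 21 10 .n, .mv 4 10 14 8 .n, .mv 4 8 15 5 .n, .mv 11 17 21 12 .n, .mv 9 19 21 17
    .n, .mv 13 16 21 19 .n, .mv 6 18 21 16 .n, .mv 6 16 19 13 .n, .mv 6 13 17 9 .n, .mv 6 9
    12 11 .n, .mv 6 11 14 10 .n, .mv 6 10 15 8 .n, .mv 7 20 21 18 .n, .mv 7 18 19 16 .n, .mv
    7 16 17 13 .n, .mv 9 12 14 11 .L, .mv 9 11 15 10 .n, .mv 7 13 14 12 .n, .mv 7 12 15 11
    .n, .mv 7 11 10 9 .n, .mv 7 9 8 6 .L, .mv 13 14 15 12 .L]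

/-- **Target T_MKB** (a checked base word is a clean word).

Proof.  T_CHK: the `chk` facts are runs for the tracked sets `{a | a ∈ []} = ∅` and
`{a | a ∈ [K, L]} = {K, L}` (`Set.ext`, `simp`) between the coded states; `st` of appended, reversed
and consed lists.  `ndB` gives the repetition-free ball multiset. -/
def T_MKB : Prop :=
  ∀ d : BD, d.okb = true → ∃ c : CW ℕ, c.n = d.B0.length + 1 ∧ c.word = d.word ∧
    c.S = st ((d.K, d.L) :: d.B0)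

/-- **Target T_BAS** (the base words).

Proof.  T_MKB for `bd2, bd4, bd11, bd12` (`okb` by `decide +kernel`).  All conditions on the word
are
decided by `decide +kernel` after rewriting `c.word = d.word`: the numbers of moves are
2, 10, 77, 92; `bd2`, `bd4` have only items of kind n (`List.all` with a boolean test, or
unfold the lists); `wsw bd11.word = ball (st ..)`, `wsw bd12.word = ball (st ..)` (multisets of
natural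
numbers, decidable); `bd11` has 8 flags, no quadrangle; `bd12` has only kinds n, U, L. -/
def T_BAS : Prop := Perf 2 ∧ NearP 4 ∧ PE 11 ∧ PZ 12

end Bn
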