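import Mathlib
set_option autoImplicit false
set_option linter.all false

/-!
# Sorting two balls per bin: words of exchanges (project BIN, problem MP_ab7cc8_co)

A state is a list of bins, a bin is an unordered pair `s(a, b)` of balls.
A word is a list of items.
* The item `mv p x q z k` exchanges the ball `p` of the bin `s(p, x)` with the ball `q` of the
  next bin `s(q, z)`; result `s(x, q)`, `s(p, z)`.  Here `x` is the mate of `p` and `z` is the
  mate of `q`.  The kind `k` is a decoration: it says which balls are *swapped* by the item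
  when the word is doubled: `n` none, `U` the balls p, x, q, `L` the balls p, q, z,
  `ax` the balls p, x, `c` the ball q.
* The item `qd e d a x c w` is a (flagged) quadrangle: on the three bins
  `s(e, d)`, `s(a, x)`, `s(c, w)` it exchanges first a with c and then d with x, result
  `s(e, x)`, `s(c, d)`, `s(a, w)`.  It counts two moves, the swapped balls are d, a, x, c.
-/

namespace Bn

/-- decoration of an exchange -/
inductive Kd
  | n | U | L | ax | c
  deriving DecidableEq

/-- the kinds which are allowed for a move of a tracked ball -/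
def Kd.tr (k : Kd) : Prop := k = Kd.n ∨ k = Kd.U ∨ k = Kd.L

instance (k : Kd) : Decidable k.tr := by unfold Kd.tr; infer_instance

/-- one item of a word -/
inductive It (α : Type) where
  | mv : α → α → α → α → Kd → It α
  | qd : α → α → α → α → α → α → It α
  deriving DecidableEq

variable {α β : Type}

namespace It

/-- the bins before the item -/
def l : It α → List (Sym2 α)
  | mv p x q z _ => [s(p, x), s(q, z)]
  | qd e d a x c w => [s(e, d), s(a, x), s(c, w)]

/-- the bins after the item -/
def r : It α → List (Sym2 α)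
  | mv p x q z _ => [s(x, q), s(p, z)]
  | qd e d a x c w => [s(e, x), s(c, d), s(a, w)]

/-- the item is safe for the set `T` of tracked balls: only `p` may be tracked, and then the
kind is one of n, U, L -/
def ok (T : Set α) : It α → Prop
  | mv p x q z k => x ∉ T ∧ q ∉ T ∧ z ∉ T ∧ (p ∈ T → k.tr)
  | qd e d a x c w => e ∉ T ∧ d ∉ T ∧ a ∉ T ∧ x ∉ T ∧ c ∉ T ∧ w ∉ T

/-- the swapped balls -/
def sw : It α → Multiset α
  | mv _ _ _ _ Kd.n => 0
  | mv p x q _ Kd.U => {p, x, q}
  | mv p _ q z Kd.L => {p, q, z}
  | mv p x _ _ Kd.ax => {p, x}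
  | mv _ _ q _ Kd.c => {q}
  | qd _ d a x c _ => {d, a, x, c}

/-- number of moves -/
def N : It α → ℕ
  | mv _ _ _ _ _ => 1
  | qd _ _ _ _ _ _ => 2

/-- number of flagged half moves -/
def F : It α → ℕ
  | mv _ _ _ _ Kd.n => 0
  | mv _ _ _ _ _ => 1
  | qd _ _ _ _ _ _ => 0

/-- number of quadrangles -/
def Q : It α → ℕ
  | mv _ _ _ _ _ => 0
  | qd _ _ _ _ _ _ => 1

/-- renaming the balls -/
def map (f : α → β) : It α → It β
  | mv p x q z k => mv (f p) (f x) (f q) (f z) k
  | qd e d a x c w => qd (f e) (f d) (f a) (f x) (f c) (f w)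

/-- the item read backwards in time and space; the decoration of a move is dropped -/
def tau : It α → It α
  | mv p x q z _ => mv p z q x Kd.n
  | qd e d a x c w => qd w a d c x e

/-- the item without decoration, as one or two moves -/
def fg : It α → List (It α)
  | mv p x q z _ => [mv p x q z Kd.n]
  | qd e d a x c w => [mv a x c w Kd.n, mv d e x c Kd.n]

/-- the balls which are passed by the ball `b` -/
def pas [DecidableEq α] (b : α) : It α → List α
  | mv p _ q z _ => if p = b then [q, z] else []
  | qd _ _ _ _ _ _ => []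

/-- an undecorated move -/
def isn : It α → Prop
  | mv _ _ _ _ k => k = Kd.n
  | qd _ _ _ _ _ _ => False

/-- an undecorated move or a quadrangle -/
def isnq : It α → Prop
  | mv _ _ _ _ k => k = Kd.n
  | qd _ _ _ _ _ _ => True

/-- a move of kind n, U, L or a quadrangle -/
def isfq : It α → Prop
  | mv _ _ _ _ k => k.tr
  | qd _ _ _ _ _ _ => True

end It

/-- `Run T w S S'`: the word `w` is a correct word from the state `S` to the state `S'`, and
all its items are safe for the tracked balls `T` -/
def Run (T : Set α) : List (It α) → List (Sym2 α) → List (Sym2 α) → Prop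
  | [], S, S' => S = S'
  | i :: w, S, S' => i.ok T ∧ ∃ A B, S = A ++ (i.l ++ B) ∧ Run T w (A ++ (i.r ++ B)) S'

/-- number of moves of a word -/
def wN (w : List (It α)) : ℕ := (w.map It.N).sum
/-- number of flags of a word -/
def wF (w : List (It α)) : ℕ := (w.map It.F).sum
/-- number of quadrangles of a word -/
def wQ (w : List (It α)) : ℕ := (w.map It.Q).sum
/-- the swapped balls of a word -/
def wsw (w : List (It α)) : Multiset α := (w.map It.sw).sum
/-- renaming -/
def wmap (f : α → β) (w : List (It α)) : List (It β) := w.map (It.map f)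
/-- the word read backwards -/
def wtau (w : List (It α)) : List (It α) := (w.map It.tau).reverse
/-- the word without decoration -/
def wfg (w : List (It α)) : List (It α) := w.flatMap It.fg
/-- the balls passed by `b` -/
def wpas [DecidableEq α] (b : α) (w : List (It α)) : List α := w.flatMap (It.pas b)

/-- all balls of a state -/
def ball (S : List (Sym2 α)) : Multiset α := (S.map Sym2.toMultiset).sum

/-- renaming of a state -/
def smap (f : α → β) (S : List (Sym2 α)) : List (Sym2 β) := S.map (Sym2.map f)

/-- A clean reversal word.  Start: `s(K, L) :: B0`; phase `w1` in the bins `B0`; `K` leaves the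
first bin (exchange of `K` with `q`); phase `w2`, in which `K` and `L` are tracked; `L` joins
`K` in the last bin (exchange of `L` with `x`); phase `w3` outside the last bin.
End: the start state reversed. -/
structure CW (α : Type) where
  K : α
  L : α
  B0 : List (Sym2 α)
  w1 : List (It α)
  k1 : Kd
  q : α
  z : α
  B1 : List (Sym2 α)
  w2 : List (It α)
  A : List (Sym2 α)
  y : α
  x : α
  k2 : Kd
  w3 : List (It α)
  hk1 : k1.tr
  hk2 : k2.tr
  nd : (ball (s(K, L) :: B0)).Nodup
  r1 : Run ∅ w1 B0 (s(q, z) :: B1)
  r2 : Run {K, L} w2 (s(L, q) :: s(K, z) :: B1) (A ++ [s(L, y), s(K, x)])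
  r3 : Run ∅ w3 (A ++ [s(y, x)]) B0.reverse

namespace CW

variable (c : CW α)

/-- the start state -/
def S : List (Sym2 α) := s(c.K, c.L) :: c.B0
/-- number of bins -/
def n : ℕ := c.B0.length + 1
/-- the leaving move -/
def lv : It α := It.mv c.K c.L c.q c.z c.k1
/-- the joining move -/
def jn : It α := It.mv c.L c.y c.x c.K c.k2
/-- the whole word -/
def word : List (It α) := c.w1 ++ (c.lv :: (c.w2 ++ (c.jn :: c.w3)))
/-- number of moves -/
def N : ℕ := wN c.word
/-- number of flags -/
def F : ℕ := wF c.word
/-- number of quadrangles -/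
def Q : ℕ := wQ c.word
/-- swapped balls -/
def sw : Multiset α := wsw c.word
/-- the balls passed by `L`, in order of time -/
def P [DecidableEq α] : List α := c.K :: c.q :: (wpas c.L c.w2 ++ [c.x])
/-- the balls passed by `K`, in order of time -/
def PK [DecidableEq α] : List α := c.L :: c.q :: c.z :: wpas c.K c.w2
/-- every ball is swapped exactly once -/
def Cov : Prop := c.sw = ball c.S
def Plain : Prop := ∀ i ∈ c.word, i.isn
def PlainQ : Prop := ∀ i ∈ c.word, i.isnq
def FullQ : Prop := ∀ i ∈ c.word, i.isfq

end CW

/-! ## the classes of the recursion -/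

/-- a perfect word on `n` bins: `3 N = n (2 n - 1)` -/
def Perf (n : ℕ) : Prop :=
  ∃ (α : Type) (_ : DecidableEq α) (c : CW α), c.n = n ∧ c.Plain ∧ 3 * c.N + n = 2 * n * n

/-- a word on `n` bins with `3 N = n (2 n - 1) + 2` -/
def NearP (n : ℕ) : Prop :=
  ∃ (α : Type) (_ : DecidableEq α) (c : CW α), c.n = n ∧ c.Plain ∧ 3 * c.N + n = 2 * n * n + 2

/-- a perfect word whose balls are partitioned into flagged triangles -/
def PZ (n : ℕ) : Prop :=
  ∃ (α : Type) (_ : DecidableEq α) (c : CW α), c.n = n ∧ c.Cov ∧ c.FullQ ∧ c.Q = 0 ∧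
    3 * c.N + n = 2 * n * n

/-- a perfect word with a decoration of waste 2 -/
def PE (n : ℕ) : Prop :=
  ∃ (α : Type) (_ : DecidableEq α) (c : CW α), c.n = n ∧ c.Cov ∧ c.Q = 0 ∧
    3 * c.F = 2 * n + 2 ∧ 3 * c.N + n = 2 * n * n

/-- a nearly perfect word with two quadrangles at fixed places of the order `P` -/
def NPW (n : ℕ) : Prop :=
  ∃ (α : Type) (_ : DecidableEq α) (c : CW α), c.n = n ∧ c.PlainQ ∧ c.Q = 2 ∧
    3 * c.N + n = 2 * n * n + 2 ∧
    ∃ (a : α) (b : ℕ → α) (r : List α), c.P = a :: ((List.range 17).map b ++ r) ∧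
      c.sw = {b 1, b 2, b 5, b 7, b 9, b 10, b 11, b 16}

/-- a word with two quadrangles and all other balls partitioned into flagged triangles -/
def WDI (n : ℕ) : Prop :=
  ∃ (α : Type) (_ : DecidableEq α) (c : CW α), c.n = n ∧ c.Cov ∧ c.FullQ ∧ c.Q = 2 ∧
    3 * c.N + n = 2 * n * n + 2

end Bn
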