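import Pool.Agent.BIN.Defs
set_option autoImplicit false
set_option linter.all false

/-!
# BIN: the executable checker for words with coded balls
-/

namespace Bn

/-- equality of unordered pairs -/
def eqp (e f : ℕ × ℕ) : Bool :=
  (e.1 == f.1 && e.2 == f.2) || (e.1 == f.2 && e.2 == f.1)

/-- a coded state as a state -/
def st (S : List (ℕ × ℕ)) : List (Sym2 ℕ) := S.map (fun e => s(e.1, e.2))

/-- the exchange of `p` and `q` at the first place which fits -/
def ex2 (p x q z : ℕ) : List (ℕ × ℕ) → Option (List (ℕ × ℕ))
  | e :: f :: S =>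
      if eqp e (p, x) && eqp f (q, z) then some ((x, q) :: (p, z) :: S)
      else (ex2 p x q z (f :: S)).map (fun R => e :: R)
  | _ => none

/-- the quadrangle at the first place which fits -/
def ex3 (e d a x c w : ℕ) : List (ℕ × ℕ) → Option (List (ℕ × ℕ))
  | f :: g :: h :: S =>
      if eqp f (e, d) && eqp g (a, x) && eqp h (c, w) then
        some ((e, x) :: (c, d) :: (a, w) :: S)
      else (ex3 e d a x c w (g :: h :: S)).map (fun R => f :: R)
  | _ => none

/-- one item -/
def ex1 : It ℕ → List (ℕ × ℕ) → Option (List (ℕ × ℕ))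
  | It.mv p x q z _, S => ex2 p x q z S
  | It.qd e d a x c w, S => ex3 e d a x c w S

/-- safety of an item -/
def okB (T : List ℕ) : It ℕ → Bool
  | It.mv p x q z k => !(T.contains x) && !(T.contains q) && !(T.contains z) &&
      (!(T.contains p) || (k == Kd.n || k == Kd.U || k == Kd.L))
  | It.qd e d a x c w => !(T.contains e) && !(T.contains d) && !(T.contains a) &&
      !(T.contains x) && !(T.contains c) && !(T.contains w)

/-- a whole word -/
def runB (T : List ℕ) : List (It ℕ) → List (ℕ × ℕ) → Option (List (ℕ × ℕ))
  | [], S => some S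
  | i :: w, S => if okB T i then
      (match ex1 i S with
        | some S' => runB T w S'
        | none => none)
      else none

/-- equality of coded states -/
def eqS : List (ℕ × ℕ) → List (ℕ × ℕ) → Bool
  | [], [] => true
  | e :: S, f :: S' => eqp e f && eqS S S'
  | _, _ => false

/-- the checker -/
def chk (T : List ℕ) (w : List (It ℕ)) (S S' : List (ℕ × ℕ)) : Bool :=
  match runB T w S with
  | some R => eqS R S'
  | none => false

/-- no ball occurs twice -/
def ndB (S : List (ℕ × ℕ)) : Bool := decide ((S.flatMap (fun e => [e.1, e.2])).Nodup)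

/-- **Target T_CHK** (the checker is sound).
(1) If `chk T w S S' = true` then `Run {a | a ∈ T} w (st S) (st S')`.
(2) If `ndB S = true` then `(ball (st S)).Nodup`, and `ball (st S)` is the multiset of the list
`S.flatMap (fun e => [e.1, e.2])`.

Proof.  (1) `eqp e f = true` implies `s(e.1, e.2) = s(f.1, f.2)` (`Sym2.eq_iff`).
By induction on `S` (functional induction of `ex2`): if `ex2 p x q z S = some S'` then there are
lists `A, B` with `st S = A ++ (s(p, x) :: s(q, z) :: B)` and
`st S' = A ++ (s(x, q) :: s(p, z) :: B)` (first case: `A = []`; second case: take `e` in front of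
the `A` of the induction hypothesis).  The same for `ex3`.  So `ex1 i S = some S'` gives `A, B` with
`st S = A ++ (i.l ++ B)` and `st S' = A ++ (i.r ++ B)`.  `okB T i = true` gives
`i.ok {a | a ∈ T}` (`List.contains_iff_mem` or `List.elem_iff`, the kinds by cases).  Induction on
`w` gives: `runB T w S = some R` implies `Run {a | a ∈ T} w (st S) (st R)`.  At last
`eqS R S' = true` implies `st R = st S'` (induction on both lists).
(2) `ball (st S)` is by induction on `S` equal to the coerced list (`Sym2.toMultiset` of
`s(a, b)` is `{a, b}`: `simp [Sym2.toMultiset]` or `rfl`), and `Multiset.coe_nodup`. -/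
def T_CHK : Prop :=
  (∀ (T : List ℕ) (w : List (It ℕ)) (S S' : List (ℕ × ℕ)), chk T w S S' = true →
    Run {a | a ∈ T} w (st S) (st S')) ∧
  (∀ S : List (ℕ × ℕ),
    ball (st S) = ((S.flatMap (fun e => [e.1, e.2]) : List ℕ) : Multiset ℕ) ∧
    (ndB S = true → (ball (st S)).Nodup))

end Bn
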