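import Pool.Agent.BIN.TE
set_option autoImplicit false
set_option linter.all false

/-!
# BIN: proof of `T_BCAT` (blocks can be put together)
-/

namespace Bn

namespace BCAT_

theorem hZ_shift (t s : ℤ) (x : Lab) : hZ (t + s) x = (hZ t x).map (fun a => a + s) := by
  cases x with
  | no => rfl
  | S => rfl
  | A =>
    simp only [hZ, Multiset.map_singleton]
    rw [add_right_comm]
  | B b d =>
    simp only [hZ, Multiset.insert_eq_cons, Multiset.map_cons, Multiset.map_singleton]
    rw [show t + s + (if b then 1 else 0) - (d : ℤ) =
        t + (if b then 1 else 0) - (d : ℤ) + s by ring,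
      show t + s + (if b then 1 else 0) + (d : ℤ) =
        t + (if b then 1 else 0) + (d : ℤ) + s by ring]

theorem yN_shift (t s : ℕ) (x : Lab) : yN (t + s) x = (yN t x).map (fun a => a + s) := by
  cases x with
  | no => rfl
  | S => rfl
  | B b d => rfl
  | A =>
    simp only [yN, Multiset.insert_eq_cons, Multiset.map_cons, Multiset.map_singleton]
    rw [add_right_comm]

theorem cH_shift (l : List Lab) : ∀ t s : ℤ, cH (t + s) l = (cH t l).map (fun a => a + s) := by
  induction l with
  | nil => intro t s; rfl
  | cons x l ih =>
    intro t s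
    simp only [cH, Multiset.map_add]
    rw [hZ_shift, ← ih (t + 1) s, add_right_comm t s 1]

theorem cY_shift (l : List Lab) : ∀ t s : ℕ, cY (t + s) l = (cY t l).map (fun a => a + s) := by
  induction l with
  | nil => intro t s; rfl
  | cons x l ih =>
    intro t s
    simp only [cY, Multiset.map_add]
    rw [yN_shift, ← ih (t + 1) s, add_right_comm t s 1]

theorem cH_app (l l' : List Lab) :
    ∀ t : ℤ, cH t (l ++ l') = cH t l + cH (t + (l.length : ℤ)) l' := by
  induction l with
  | nil => intro t; simp [cH]
  | cons x l ih =>
    intro t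
    simp only [List.cons_append, cH, ih, List.length_cons, Nat.cast_add, Nat.cast_one]
    rw [show t + 1 + (l.length : ℤ) = t + ((l.length : ℤ) + 1) by ring, add_assoc (hZ t x)]

theorem cY_app (l l' : List Lab) : ∀ t : ℕ, cY t (l ++ l') = cY t l + cY (t + l.length) l' := by
  induction l with
  | nil => intro t; simp [cY]
  | cons x l ih =>
    intro t
    simp only [List.cons_append, cY, ih, List.length_cons]
    rw [show t + 1 + l.length = t + (l.length + 1) by ring, add_assoc (yN t x)]

theorem aOK_app (l' : List Lab) (h' : aOK l' = true) :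
    ∀ l : List Lab, aOK l = true → aOK (l ++ l') = true
  | [], _ => h'
  | [x], h => by
    cases l' with
    | nil => exact h
    | cons y r =>
      simp only [List.cons_append, List.nil_append, aOK] at h ⊢
      rw [h, h']
      rfl
  | x :: y :: r, h => by
    simp only [List.cons_append, aOK, Bool.and_eq_true] at h ⊢
    exact ⟨h.1, aOK_app l' h' (y :: r) h.2⟩

theorem two (D : ℕ) (E : List ℤ) (X : List ℕ) (l l' : List Lab) (h1 : Blk D E X l)
    (h2 : Blk D E [] l') : Blk D E X (l ++ l') := by
  refine ⟨?_, ?_, aOK_app l' h2.a l h1.a⟩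
  · have e2 := congrArg (Multiset.map (fun a : ℤ => a + (l.length : ℤ))) h2.h
    rw [Multiset.map_add, Multiset.map_add] at e2
    have e1 := h1.h
    rw [cH_app, cH_shift l' 0 (l.length : ℤ)]
    have eE : (((E.map (fun a => a + ((l ++ l').length : ℤ)) : List ℤ) : Multiset ℤ)) =
        Multiset.map (fun a : ℤ => a + (l.length : ℤ))
          ((E.map (fun a => a + (l'.length : ℤ)) : List ℤ) : Multiset ℤ) := by
      rw [Multiset.map_coe, List.map_map]
      congr 1
      apply List.map_congr_left
      intro a _
      simp only [Function.comp, List.length_append, Nat.cast_add]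
      ring
    have eR : ((((List.range (l ++ l').length).map (fun (i : ℕ) => (i : ℤ) - (D : ℤ)) :
        List ℤ) : Multiset ℤ)) =
        (((List.range l.length).map (fun (i : ℕ) => (i : ℤ) - (D : ℤ)) : List ℤ) : Multiset ℤ) +
        Multiset.map (fun a : ℤ => a + (l.length : ℤ))
          (((List.range l'.length).map (fun (i : ℕ) => (i : ℤ) - (D : ℤ)) : List ℤ) :
            Multiset ℤ) := by
      rw [Multiset.map_coe, Multiset.coe_add, List.length_append, List.range_add,
        List.map_append, List.map_map, List.map_map]
      congr 2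
      apply List.map_congr_left
      intro a _
      simp only [Function.comp, Nat.cast_add]
      ring
    have eF : ((E.map (fun a => a + (l.length : ℤ)) : List ℤ) : Multiset ℤ) =
        Multiset.map (fun a : ℤ => a + (l.length : ℤ)) (E : Multiset ℤ) := by
      rw [Multiset.map_coe]
    rw [eE, eR]
    rw [eF] at e1
    calc cH 0 l + Multiset.map (fun a => a + (l.length : ℤ)) (cH 0 l') + (E : Multiset ℤ)
        = (cH 0 l + (E : Multiset ℤ)) + Multiset.map (fun a => a + (l.length : ℤ)) (cH 0 l') := by
          abel
      _ = _ + (Multiset.map (fun a => a + (l.length : ℤ)) (cH 0 l') +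
            Multiset.map (fun a : ℤ => a + (l.length : ℤ)) (E : Multiset ℤ)) := by
          rw [e1]; abel
      _ = _ := by rw [e2]; abel
  · have e1 := h1.y
    have e2 := h2.y
    rw [show (([] : List ℕ) : Multiset ℕ) = 0 from rfl, add_zero] at e2
    rw [cY_app, cY_shift l' 0 l.length, e2, List.length_append, Multiset.range_add, ← e1]
    rw [show (fun a => a + l.length) = (fun a => l.length + a) by funext a; ring]
    abel

theorem many (D : ℕ) (E : List ℤ) (X : List ℕ) (l' : List Lab) (h2 : Blk D E [] l') (k : ℕ) :
    ∀ l : List Lab, Blk D E X l → Blk D E X (l ++ (List.replicate k l').flatten) := by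
  induction k with
  | zero => intro l h; simpa using h
  | succ k ih =>
    intro l h
    rw [List.replicate_succ, List.flatten_cons, ← List.append_assoc]
    exact ih (l ++ l') (two D E X l l' h h2)

end BCAT_

theorem p_BCAT : T_BCAT :=
  ⟨BCAT_.two, fun D E X l l' k h1 h2 => BCAT_.many D E X l' h2 k l h1⟩

end Bn
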