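import Pool.Agent.BIN.TA
set_option autoImplicit false
set_option linter.all false

/-!
# BIN: forgetting the decoration of a clean word (CFG)
-/

namespace Bn

namespace CFG_

variable {α : Type}

theorem wN_append (w w' : List (It α)) : wN (w ++ w') = wN w + wN w' := by
  unfold wN
  rw [List.map_append, List.sum_append]

theorem wN_cons (i : It α) (w : List (It α)) : wN (i :: w) = i.N + wN w := by
  unfold wN
  rw [List.map_cons, List.sum_cons]

end CFG_

open CFG_

theorem p_CFG (h2 : T_RTAU) : T_CFG := by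
  intro α c
  obtain ⟨-, hfg, hnum⟩ := h2
  refine ⟨{ K := c.K, L := c.L, B0 := c.B0, w1 := wfg c.w1, k1 := Kd.n, q := c.q, z := c.z,
            B1 := c.B1, w2 := wfg c.w2, A := c.A, y := c.y, x := c.x, k2 := Kd.n,
            w3 := wfg c.w3, hk1 := Or.inl rfl, hk2 := Or.inl rfl, nd := c.nd,
            r1 := hfg _ _ _ _ _ c.r1, r2 := hfg _ _ _ _ _ c.r2,
            r3 := hfg _ _ _ _ _ c.r3 }, rfl, ?_, ?_⟩
  · show wN (wfg c.w1 ++ (It.mv c.K c.L c.q c.z Kd.n :: (wfg c.w2 ++
      (It.mv c.L c.y c.x c.K Kd.n :: wfg c.w3)))) = wN (c.w1 ++ (c.lv :: (c.w2 ++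
      (c.jn :: c.w3))))
    rw [wN_append, wN_cons, wN_append, wN_cons, wN_append, wN_cons, wN_append, wN_cons,
      (hnum α c.w1).2.2.1, (hnum α c.w2).2.2.1, (hnum α c.w3).2.2.1]
    rfl
  · intro i hi
    have hi' : i ∈ wfg c.w1 ++ (It.mv c.K c.L c.q c.z Kd.n :: (wfg c.w2 ++
      (It.mv c.L c.y c.x c.K Kd.n :: wfg c.w3))) := hi
    rw [List.mem_append, List.mem_cons, List.mem_append, List.mem_cons] at hi'
    rcases hi' with h | h | h | h | h
    · exact (hnum α c.w1).2.2.2.2.2 i h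
    · rw [h]
      rfl
    · exact (hnum α c.w2).2.2.2.2.2 i h
    · rw [h]
      rfl
    · exact (hnum α c.w3).2.2.2.2.2 i h

end Bn
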