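import Pool.Agent.BIN.Exec
set_option autoImplicit false
set_option linter.all false

/-!
# BIN: the checker is sound
-/

namespace Bn

namespace CHK_

lemma eqp_eq {e f : ℕ × ℕ} (h : eqp e f = true) : s(e.1, e.2) = s(f.1, f.2) := by
  unfold eqp at h
  rw [Sym2.eq_iff]
  simp only [Bool.or_eq_true, Bool.and_eq_true, beq_iff_eq] at h
  exact h

lemma ex2_spec (p x q z : ℕ) : ∀ S S' : List (ℕ × ℕ), ex2 p x q z S = some S' →
    ∃ A B : List (Sym2 ℕ), st S = A ++ ([s(p, x), s(q, z)] ++ B) ∧
      st S' = A ++ ([s(x, q), s(p, z)] ++ B)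
  | [], S', h => by simp [ex2] at h
  | [e], S', h => by simp [ex2] at h
  | e :: f :: S, S', h => by
    unfold ex2 at h
    split at h
    · rename_i hc
      rw [Bool.and_eq_true] at hc
      have h1 := eqp_eq hc.1
      have h2 := eqp_eq hc.2
      simp only [Option.some.injEq] at h
      subst h
      refine ⟨[], st S, ?_, ?_⟩
      · simp [st, h1, h2]
      · simp [st]
    · rw [Option.map_eq_some_iff] at h
      obtain ⟨R, hR, rfl⟩ := h
      obtain ⟨A, B, h1, h2⟩ := ex2_spec p x q z (f :: S) R hR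
      refine ⟨s(e.1, e.2) :: A, B, ?_, ?_⟩
      · have : st (e :: f :: S) = s(e.1, e.2) :: st (f :: S) := by simp [st]
        rw [this, h1]; simp
      · have : st (e :: R) = s(e.1, e.2) :: st R := by simp [st]
        rw [this, h2]; simp

lemma ex3_spec (e d a x c w : ℕ) : ∀ S S' : List (ℕ × ℕ), ex3 e d a x c w S = some S' →
    ∃ A B : List (Sym2 ℕ), st S = A ++ ([s(e, d), s(a, x), s(c, w)] ++ B) ∧
      st S' = A ++ ([s(e, x), s(c, d), s(a, w)] ++ B)
  | [], S', h => by simp [ex3] at h
  | [f], S', h => by simp [ex3] at h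
  | [f, g], S', h => by simp [ex3] at h
  | f :: g :: k :: S, S', h => by
    unfold ex3 at h
    split at h
    · rename_i hc
      rw [Bool.and_eq_true, Bool.and_eq_true] at hc
      have h1 := eqp_eq hc.1.1
      have h2 := eqp_eq hc.1.2
      have h3 := eqp_eq hc.2
      simp only [Option.some.injEq] at h
      subst h
      refine ⟨[], st S, ?_, ?_⟩
      · simp [st, h1, h2, h3]
      · simp [st]
    · rw [Option.map_eq_some_iff] at h
      obtain ⟨R, hR, rfl⟩ := h
      obtain ⟨A, B, h1, h2⟩ := ex3_spec e d a x c w (g :: k :: S) R hR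
      refine ⟨s(f.1, f.2) :: A, B, ?_, ?_⟩
      · have : st (f :: g :: k :: S) = s(f.1, f.2) :: st (g :: k :: S) := by simp [st]
        rw [this, h1]; simp
      · have : st (f :: R) = s(f.1, f.2) :: st R := by simp [st]
        rw [this, h2]; simp

lemma ex1_spec (i : It ℕ) (S S' : List (ℕ × ℕ)) (h : ex1 i S = some S') :
    ∃ A B : List (Sym2 ℕ), st S = A ++ (i.l ++ B) ∧ st S' = A ++ (i.r ++ B) := by
  cases i with
  | mv p x q z k => exact ex2_spec p x q z S S' h
  | qd e d a x c w => exact ex3_spec e d a x c w S S' h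

lemma okB_spec (T : List ℕ) (i : It ℕ) (h : okB T i = true) : i.ok {a | a ∈ T} := by
  cases i with
  | mv p x q z k =>
    simp only [okB, Bool.and_eq_true, Bool.not_eq_true', Bool.or_eq_true, beq_iff_eq,
      List.contains_eq_mem, decide_eq_false_iff_not] at h
    obtain ⟨⟨⟨h1, h2⟩, h3⟩, h4⟩ := h
    refine ⟨h1, h2, h3, fun hp => ?_⟩
    rcases h4 with h4 | (h4 | h4) | h4
    · exact absurd hp h4
    · exact Or.inl h4
    · exact Or.inr (Or.inl h4)
    · exact Or.inr (Or.inr h4)
  | qd e d a x c w =>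
    simp only [okB, Bool.and_eq_true, Bool.not_eq_true',
      List.contains_eq_mem, decide_eq_false_iff_not] at h
    obtain ⟨⟨⟨⟨⟨h1, h2⟩, h3⟩, h4⟩, h5⟩, h6⟩ := h
    exact ⟨h1, h2, h3, h4, h5, h6⟩

lemma runB_spec (T : List ℕ) (w : List (It ℕ)) : ∀ S R : List (ℕ × ℕ),
    runB T w S = some R → Run {a | a ∈ T} w (st S) (st R) := by
  induction w with
  | nil =>
    intro S R h
    simp only [runB, Option.some.injEq] at h
    subst h
    rfl
  | cons i w ih =>
    intro S R h
    unfold runB at h
    split at h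
    · rename_i hok
      split at h
      · rename_i S' hS'
        obtain ⟨A, B, h1, h2⟩ := ex1_spec i S S' hS'
        refine ⟨okB_spec T i hok, A, B, h1, ?_⟩
        rw [← h2]
        exact ih S' R h
      · exact absurd h (by simp)
    · exact absurd h (by simp)

lemma eqS_spec : ∀ S S' : List (ℕ × ℕ), eqS S S' = true → st S = st S'
  | [], [], _ => rfl
  | [], f :: S', h => by simp [eqS] at h
  | e :: S, [], h => by simp [eqS] at h
  | e :: S, f :: S', h => by
    unfold eqS at h
    rw [Bool.and_eq_true] at h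
    have h1 := eqp_eq h.1
    have h2 := eqS_spec S S' h.2
    have h3 : st (e :: S) = s(e.1, e.2) :: st S := by simp [st]
    have h4 : st (f :: S') = s(f.1, f.2) :: st S' := by simp [st]
    rw [h3, h4, h1, h2]

lemma toMultiset_mk (a b : ℕ) : Sym2.toMultiset s(a, b) = (([a, b] : List ℕ) : Multiset ℕ) := by
  rfl

lemma ball_eq : ∀ S : List (ℕ × ℕ),
    ball (st S) = ((S.flatMap (fun e => [e.1, e.2]) : List ℕ) : Multiset ℕ)
  | [] => rfl
  | e :: S => by
    have h1 : ball (st (e :: S)) = Sym2.toMultiset s(e.1, e.2) + ball (st S) := by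
      simp [ball, st]
    rw [h1, ball_eq S, toMultiset_mk, List.flatMap_cons, ← Multiset.coe_add]

end CHK_

open CHK_ in
theorem p_CHK : T_CHK := by
  refine ⟨fun T w S S' h => ?_, fun S => ⟨ball_eq S, fun h => ?_⟩⟩
  · unfold chk at h
    split at h
    · rename_i R hR
      have h1 := runB_spec T w S R hR
      rwa [eqS_spec R S' h] at h1
    · exact absurd h (by simp)
  · rw [ball_eq S, Multiset.coe_nodup]
    exact of_decide_eq_true h

end Bn
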