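import Pool.Agent.BIN.TE
set_option autoImplicit false
set_option linter.all false

/-!
# BIN: labels for PZ (target T_CP0)
-/

namespace Bn

namespace CP0_

lemma dmono {m m' : ℕ} (h : m ≤ m') (l : List Lab) (hl : dOK m l = true) : dOK m' l = true := by
  unfold dOK at *
  rw [List.all_eq_true] at *
  intro x hx
  have h1 := hl x hx
  cases x with
  | no => rfl
  | A => rfl
  | S => rfl
  | B s d =>
    simp only [Bool.and_eq_true, decide_eq_true_eq] at h1 ⊢
    exact ⟨h1.1, le_trans h1.2 h⟩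

lemma dapp (m : ℕ) (l l' : List Lab) (hl : dOK m l = true) (hl' : dOK m l' = true) :
    dOK m (l ++ l') = true := by
  unfold dOK at *
  rw [List.all_append, hl, hl']
  rfl

lemma drep (m : ℕ) (l' : List Lab) (hl' : dOK m l' = true) (k : ℕ) :
    dOK m (List.replicate k l').flatten = true := by
  induction k with
  | zero => rfl
  | succ k ih =>
    rw [List.replicate_succ, List.flatten_cons]
    exact dapp m _ _ hl' ih

lemma memrep (l' : List Lab) (k : ℕ) (x : Lab) (hx : x ∈ (List.replicate k l').flatten) :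
    x ∈ l' := by
  rw [List.mem_flatten] at hx
  obtain ⟨l, h1, h2⟩ := hx
  rw [List.eq_of_mem_replicate h1] at h2
  exact h2

lemma lenrep (l' : List Lab) (k : ℕ) :
    (List.replicate k l').flatten.length = k * l'.length := by
  simp

/-- a list without S has no entry S -/
lemma noS (l : List Lab) (hl : Lab.S ∉ l) (t : ℕ) : l.getD t Lab.no ≠ Lab.S := by
  intro ht
  by_cases h' : t < l.length
  · rw [List.getD_eq_getElem _ _ h'] at ht
    have hx := List.getElem_mem h'
    rw [ht] at hx
    exact hl hx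
  · rw [List.getD_eq_default _ _ (not_lt.mp h')] at ht
    exact absurd ht (by decide)

/-- the conclusion from a block -/
lemma core (h2 : T_CYC) (m : ℕ) (hm : 1 ≤ m) (E : List ℤ) (l : List Lab)
    (hl : l.length = 2 * m + 1) (hb : Blk 4 E [] l) (hd : dOK m l = true) (hS : Lab.S ∉ l) :
    ∃ lab : ℕ → Lab, LabOK m lab ∧ (∀ t, lab t ≠ Lab.S) ∧
    ∀ (α : Type) (Y : ℕ → α), ∑ t ∈ Finset.range (2 * m + 1), cov m Y t (lab t) =
      (Multiset.range (2 * m + 1)).map (fun t => ob m (Y t)) +
        (Finset.univ : Finset (ZMod (2 * m + 1))).val.map (Bn.hb α m) := by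
  obtain ⟨a1, a2, -⟩ := h2 m 4 E [] l hm hl hb hd
    (fun t ht => absurd ht (noS l hS t))
  refine ⟨fun t => l.getD t Lab.no, a1, noS l hS, ?_⟩
  intro α Y
  have := a2 α Y
  rw [Multiset.coe_nil, Multiset.map_zero, add_zero] at this
  exact this

/-- a block followed by copies of `L12` -/
lemma long (h1 : T_BCAT) (h2 : T_CYC) (b12 : Blk 4 [-4, -2, -1, 1] [] L12) (m : ℕ)
    (hm : 4 ≤ m) (l : List Lab) (hb : Blk 4 [-4, -2, -1, 1] [] l) (hd : dOK 4 l = true)
    (hS : Lab.S ∉ l) (k : ℕ) (hk : 2 * m + 1 = l.length + 12 * k) :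
    ∃ lab : ℕ → Lab, LabOK m lab ∧ (∀ t, lab t ≠ Lab.S) ∧
    ∀ (α : Type) (Y : ℕ → α), ∑ t ∈ Finset.range (2 * m + 1), cov m Y t (lab t) =
      (Multiset.range (2 * m + 1)).map (fun t => ob m (Y t)) +
        (Finset.univ : Finset (ZMod (2 * m + 1))).val.map (Bn.hb α m) := by
  have len12 : L12.length = 12 := by decide
  refine core h2 m (by omega) [-4, -2, -1, 1] (l ++ (List.replicate k L12).flatten) ?_
    (h1.2 4 _ [] l L12 k hb b12) ?_ ?_
  · rw [List.length_append, lenrep, len12]
    omega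
  · exact dmono hm _ (dapp 4 _ _ hd (drep 4 _ (by decide) k))
  · intro hx
    rcases List.mem_append.mp hx with hx | hx
    · exact hS hx
    · exact absurd (memrep _ _ _ hx) (by decide)

end CP0_

open CP0_ in
/-- labels for PZ -/
theorem p_CP0 (h1 : T_BCAT) (h2 : T_CYC) (h3 : T_BLKS) : T_CP0 := by
  obtain ⟨b9, b12, b15, b21, -, -, -, -, -⟩ := h3
  intro m hm hmod
  have len15 : L15.length = 15 := by decide
  have len21 : L21.length = 21 := by decide
  by_cases h4 : m = 4
  · subst h4
    exact core h2 4 (by norm_num) _ L9 (by decide) b9 (by decide) (by decide)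
  · by_cases hp : (2 * m + 1) % 12 = 3
    · obtain ⟨k, hk⟩ : ∃ k, 2 * m + 1 = 15 + 12 * k := ⟨(2 * m + 1 - 15) / 12, by omega⟩
      exact long h1 h2 b12 m hm L15 b15 (by decide) (by decide) k (by rw [len15]; exact hk)
    · obtain ⟨k, hk⟩ : ∃ k, 2 * m + 1 = 21 + 12 * k := ⟨(2 * m + 1 - 21) / 12, by omega⟩
      exact long h1 h2 b12 m hm L21 b21 (by decide) (by decide) k (by rw [len21]; exact hk)

end Bn
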