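import Pool.Agent.BIN.TE
set_option autoImplicit false
set_option linter.all false

/-!
# BIN: labels for PE (target T_CP1)
-/

namespace Bn

namespace CP1_

lemma dmono {m m' : ℕ} (h : m ≤ m') (l : List Lab) (hl : dOK m l = true) : dOK m' l = true := by
  unfold dOK at *
  rw [List.all_eq_true] at *
  intro x hx
  have h1 := hl x hx
  cases x with
  | no => rfl
  | A => rfl
  | S => rfl
  | B s d =>
    simp only [Bool.and_eq_true, decide_eq_true_eq] at h1 ⊢
    exact ⟨h1.1, le_trans h1.2 h⟩

lemma dapp (m : ℕ) (l l' : List Lab) (hl : dOK m l = true) (hl' : dOK m l' = true) :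
    dOK m (l ++ l') = true := by
  unfold dOK at *
  rw [List.all_append, hl, hl']
  rfl

lemma drep (m : ℕ) (l' : List Lab) (hl' : dOK m l' = true) (k : ℕ) :
    dOK m (List.replicate k l').flatten = true := by
  induction k with
  | zero => rfl
  | succ k ih =>
    rw [List.replicate_succ, List.flatten_cons]
    exact dapp m _ _ hl' ih

lemma memrep (l' : List Lab) (k : ℕ) (x : Lab) (hx : x ∈ (List.replicate k l').flatten) :
    x ∈ l' := by
  rw [List.mem_flatten] at hx
  obtain ⟨l, h1, h2⟩ := hx
  rw [List.eq_of_mem_replicate h1] at h2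
  exact h2

lemma lenrep (l' : List Lab) (k : ℕ) :
    (List.replicate k l').flatten.length = k * l'.length := by
  simp

lemma sumrep (l' : List Lab) (k : ℕ) :
    ((List.replicate k l').flatten.map nlab).sum = k * (l'.map nlab).sum := by
  induction k with
  | zero => simp
  | succ k ih =>
    rw [List.replicate_succ, List.flatten_cons, List.map_append, List.sum_append, ih]
    ring

/-- the conclusion from a block -/
lemma core (h2 : T_CYC) (m : ℕ) (hm : 2 ≤ m) (l : List Lab) (hl : l.length = 2 * m + 1)
    (hb : Blk 3 [-3, -1] [] l) (hd : dOK m l = true)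
    (hS : ∀ t, l.getD t Lab.no = Lab.S → t = 1)
    (hs : 3 * (l.map nlab).sum = 2 * (2 * m + 1) + 2) :
    ∃ lab : ℕ → Lab, LabOK m lab ∧
    3 * ∑ t ∈ Finset.range (2 * m + 1), nlab (lab t) = 2 * (2 * m + 1) + 2 ∧
    ∀ (α : Type) (Y : ℕ → α), ∑ t ∈ Finset.range (2 * m + 1), cov m Y t (lab t) =
      (Multiset.range (2 * m + 1)).map (fun t => ob m (Y t)) +
        (Finset.univ : Finset (ZMod (2 * m + 1))).val.map (Bn.hb α m) := by
  obtain ⟨a1, a2, a3⟩ := h2 m 3 [-3, -1] [] l (by omega) hl hb hd (fun t ht => ⟨hS t ht, hm⟩)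
  refine ⟨fun t => l.getD t Lab.no, a1, ?_, ?_⟩
  · rw [a3, hs]
  · intro α Y
    have := a2 α Y
    rw [Multiset.coe_nil, Multiset.map_zero, add_zero] at this
    exact this

lemma s29 : ∀ t < 29, L29.getD t Lab.no = Lab.S → t = 1 := by decide

lemma s17 : ∀ t < 17, L17.getD t Lab.no = Lab.S → t = 1 := by decide

end CP1_

open CP1_ in
/-- labels for PE -/
theorem p_CP1 (h1 : T_BCAT) (h2 : T_CYC) (h3 : T_BLKS) : T_CP1 := by
  obtain ⟨-, -, -, -, b17, b29, b18, -, -⟩ := h3
  intro m hm
  rcases hm with rfl | ⟨hm, hmod⟩
  · refine core h2 8 (by norm_num) L17 (by decide) b17 (by decide) ?_ (by decide)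
    intro t ht
    by_cases h : t < 17
    · exact s17 t h ht
    · rw [List.getD_eq_default _ _ (by simpa [L17] using not_lt.mp h)] at ht
      exact absurd ht (by decide)
  · obtain ⟨k, hk⟩ : ∃ k, m = 14 + 9 * k := ⟨(m - 14) / 9, by omega⟩
    have len29 : L29.length = 29 := by decide
    have len18 : L18.length = 18 := by decide
    have n29 : (L29.map nlab).sum = 20 := by decide
    have n18 : (L18.map nlab).sum = 12 := by decide
    refine core h2 m (by omega) (L29 ++ (List.replicate k L18).flatten) ?_
      (h1.2 3 [-3, -1] [] L29 L18 k b29 b18) ?_ ?_ ?_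
    · rw [List.length_append, lenrep, len29, len18]
      omega
    · exact dmono (show 4 ≤ m by omega) _ (dapp 4 _ _ (by decide) (drep 4 _ (by decide) k))
    · intro t ht
      by_cases h : t < 29
      · rw [List.getD_append _ _ _ _ (by rw [len29]; exact h)] at ht
        exact s29 t h ht
      · rw [List.getD_append_right _ _ _ _ (by rw [len29]; omega)] at ht
        exfalso
        by_cases h' : t - L29.length < (List.replicate k L18).flatten.length
        · rw [List.getD_eq_getElem _ _ h'] at ht
          have hx := List.getElem_mem h'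
          rw [ht] at hx
          have := memrep _ _ _ hx
          revert this
          decide
        · rw [List.getD_eq_default _ _ (not_lt.mp h')] at ht
          exact absurd ht (by decide)
    · rw [List.map_append, List.sum_append, sumrep, n29, n18]
      omega

end Bn
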