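import Pool.Agent.BIN.TC
set_option autoImplicit false

/-!
# BIN: target CSUM, the contributions of the passes and of the labels
-/

namespace Bn

namespace CSUM_

variable {α : Type}

/-- the three balls of the label `A` -/
def tri (m : ℕ) (Y : ℕ → α) (t : ℕ) : Multiset (Tb α m) :=
  {ob m (Y t), ob m (Y (t + 1)), hb α m ((t : ZMod (2 * m + 1)) + 1)}

theorem cov_eq (m : ℕ) (Y : ℕ → α) (t : ℕ) (l : Lab) :
    cov m Y t l = lsw α m t (ob m (Y t)) l + (if l = Lab.A then tri m Y t else 0) := by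
  cases l <;> simp [cov, lsw, tri]

theorem nlab_eq (l : Lab) : nlab l = lF l + (if l = Lab.A then 1 else 0) := by
  cases l <;> simp [nlab, lF]

theorem rot {β : Type} (a b c : β) : ({c, a, b} : Multiset β) = {a, b, c} := by
  have h : ∀ x y z : β, ({x, y, z} : Multiset β) = {x} + {y} + {z} := by
    intro x y z
    rw [add_assoc, Multiset.singleton_add, Multiset.singleton_add]
    rfl
  rw [h, h]
  abel

theorem pc_odd (m : ℕ) (lab : ℕ → Lab) (Y : ℕ → α) (u : ℕ) (hu : u % 2 = 1) :
    pc m lab Y u = lsw α m u (ob m (Y u)) (lab u) := by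
  have h : ¬ u % 2 = 0 := by omega
  simp [pc, h]

theorem pcF_odd (lab : ℕ → Lab) (u : ℕ) (hu : u % 2 = 1) : pcF lab u = lF (lab u) := by
  have h : ¬ u % 2 = 0 := by omega
  simp [pcF, h]

theorem two (m : ℕ) (lab : ℕ → Lab) (Y : ℕ → α) (hl : LabOK m lab) (u : ℕ) (hu : u % 2 = 1)
    (hm : u + 1 < 2 * m + 1) :
    pc m lab Y u + pc m lab Y (u + 1) = cov m Y u (lab u) + cov m Y (u + 1) (lab (u + 1)) := by
  have h0 : (u + 1) % 2 = 0 := by omega
  rw [pc_odd m lab Y u hu, cov_eq, cov_eq]
  have h1 : pc m lab Y (u + 1) = lsw α m (u + 1 : ℕ) (ob m (Y (u + 1))) (lab (u + 1)) +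
      (if lab (u + 1) = Lab.A then tri m Y (u + 1) else 0) +
      (if lab u = Lab.A then tri m Y u else 0) := by
    unfold pc
    simp only [h0, true_and, Nat.add_sub_cancel]
    congr 1
    by_cases hA : lab u = Lab.A
    · have h2 := ((hl u (by omega)).2.1 hA).2
      simp only [h2, hA, and_self, if_true]
      rw [rot]
      unfold tri
      push_cast
      rfl
    · simp only [hA, and_false, if_false]
  rw [h1]
  abel

theorem twoF (m : ℕ) (lab : ℕ → Lab) (hl : LabOK m lab) (u : ℕ) (hu : u % 2 = 1)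
    (hm : u + 1 < 2 * m + 1) :
    pcF lab u + pcF lab (u + 1) = nlab (lab u) + nlab (lab (u + 1)) := by
  have h0 : (u + 1) % 2 = 0 := by omega
  rw [pcF_odd lab u hu, nlab_eq, nlab_eq]
  have h1 : pcF lab (u + 1) = lF (lab (u + 1)) +
      (if lab (u + 1) = Lab.A then 1 else 0) + (if lab u = Lab.A then 1 else 0) := by
    unfold pcF
    simp only [h0, true_and, Nat.add_sub_cancel]
    congr 1
    by_cases hA : lab u = Lab.A
    · have h2 := ((hl u (by omega)).2.1 hA).2
      simp only [h2, hA, and_self, if_true]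
    · simp only [hA, and_false, if_false]
  rw [h1]
  omega

theorem main (m : ℕ) (lab : ℕ → Lab) (Y : ℕ → α) (hl : LabOK m lab) (j : ℕ) (hj : j ≤ m) :
    lsw α m 0 (ob m (Y 0)) (lab 0) +
      (if lab 0 = Lab.A then {ob m (Y 0), ob m (Y 1), hb α m 1} else 0) +
      ∑ i ∈ Finset.range (2 * j), pc m lab Y (1 + i) =
      ∑ t ∈ Finset.range (2 * j + 1), cov m Y t (lab t) := by
  induction j with
  | zero =>
    rw [Nat.mul_zero, Finset.sum_range_zero, add_zero, Nat.zero_add, Finset.sum_range_one,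
      cov_eq]
    congr 2
    unfold tri
    rw [Nat.cast_zero, zero_add, zero_add]
  | succ j ih =>
    have e1 : 2 * (j + 1) = 2 * j + 1 + 1 := by ring
    rw [e1, Finset.sum_range_succ, Finset.sum_range_succ,
      Finset.sum_range_succ (fun t => cov m Y t (lab t)) (2 * j + 1 + 1),
      Finset.sum_range_succ (fun t => cov m Y t (lab t)) (2 * j + 1), ← ih (by omega)]
    have h2 := two m lab Y hl (2 * j + 1) (by omega) (by omega)
    have e2 : 1 + (2 * j) = 2 * j + 1 := by ring
    have e3 : 1 + (2 * j + 1) = 2 * j + 1 + 1 := by ring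
    rw [e2, e3, add_assoc (∑ i ∈ Finset.range (2 * j), pc m lab Y (1 + i)), h2]
    abel

theorem mainF (m : ℕ) (lab : ℕ → Lab) (hl : LabOK m lab) (j : ℕ) (hj : j ≤ m) :
    lF (lab 0) + (if lab 0 = Lab.A then 1 else 0) +
      ∑ i ∈ Finset.range (2 * j), pcF lab (1 + i) =
      ∑ t ∈ Finset.range (2 * j + 1), nlab (lab t) := by
  induction j with
  | zero =>
    rw [Nat.mul_zero, Finset.sum_range_zero, add_zero, Nat.zero_add, Finset.sum_range_one,
      nlab_eq]
  | succ j ih =>
    have e1 : 2 * (j + 1) = 2 * j + 1 + 1 := by ring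
    rw [e1, Finset.sum_range_succ, Finset.sum_range_succ,
      Finset.sum_range_succ (fun t => nlab (lab t)) (2 * j + 1 + 1),
      Finset.sum_range_succ (fun t => nlab (lab t)) (2 * j + 1), ← ih (by omega)]
    have h2 := twoF m lab hl (2 * j + 1) (by omega) (by omega)
    have e2 : 1 + (2 * j) = 2 * j + 1 := by ring
    have e3 : 1 + (2 * j + 1) = 2 * j + 1 + 1 := by ring
    rw [e2, e3]
    omega

end CSUM_

theorem p_CSUM : T_CSUM := by
  intro α m lab Y _ hl
  exact ⟨CSUM_.main m lab Y hl m le_rfl, CSUM_.mainF m lab hl m le_rfl⟩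

end Bn
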