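import Pool.Agent.BIN.TA
set_option autoImplicit false
set_option linter.all false

namespace Bn

namespace CTAU_

variable {α : Type}

theorem ball_app (A B : List (Sym2 α)) : ball (A ++ B) = ball A + ball B := by
  simp [ball]

theorem ball_cons (e : Sym2 α) (B : List (Sym2 α)) : ball (e :: B) = e.toMultiset + ball B := by
  simp [ball]

theorem once {b m : α} {A B : List (Sym2 α)} (h : (ball (A ++ (s(b, m) :: B))).Nodup) :
    b ∉ ball A ∧ b ∉ ball B := by
  rw [ball_app, ball_cons] at h
  have h1 := Multiset.nodup_add.1 h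
  have h2 := Multiset.nodup_add.1 h1.2.1
  have hb : b ∈ (s(b, m)).toMultiset := by simp [Sym2.mem_toMultiset]
  constructor
  · intro hA
    exact Multiset.disjoint_left.1 h1.2.2 hA (Multiset.mem_add.2 (Or.inl hb))
  · intro hB
    exact Multiset.disjoint_left.1 h2.2.2 hb hB

theorem uniq (h3 : T_SPLT) {b m m' : α} {A B A' B' : List (Sym2 α)}
    (h : (ball (A ++ (s(b, m) :: B))).Nodup)
    (he : A ++ (s(b, m) :: B) = A' ++ (s(b, m') :: B')) : m = m' := by
  have h' := h
  rw [he] at h'
  have ho := once h'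
  exact (h3.2.1 α A B A' B' b m m' he ho.1 ho.2).2.1

theorem wtau_cons (i : It α) (w : List (It α)) : wtau (i :: w) = wtau w ++ [i.tau] := by
  simp [wtau]

theorem wtau_app (w w' : List (It α)) : wtau (w ++ w') = wtau w' ++ wtau w := by
  simp [wtau]

theorem item [DecidableEq α] {T : Set α} {b : α} (hb : b ∈ T) (i : It α) (hi : i.ok T) :
    (∃ x q z k, i = It.mv b x q z k) ∨
    ((∀ e ∈ i.l, b ∉ e) ∧ i.pas b = [] ∧ i.tau.pas b = []) := by
  cases i with
  | mv p x q z k =>
    obtain ⟨hx, hq, hz, hp⟩ := hi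
    by_cases hpb : p = b
    · left
      exact ⟨x, q, z, k, by rw [hpb]⟩
    · right
      have e1 : b ≠ x := fun h => hx (h ▸ hb)
      have e2 : b ≠ q := fun h => hq (h ▸ hb)
      have e3 : b ≠ z := fun h => hz (h ▸ hb)
      have e4 : b ≠ p := fun h => hpb h.symm
      refine ⟨?_, ?_, ?_⟩
      · intro e he
        simp only [It.l, List.mem_cons, List.not_mem_nil, or_false] at he
        rcases he with rfl | rfl
        · simp [Sym2.mem_iff, e1, e4]
        · simp [Sym2.mem_iff, e2, e3]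
      · simp [It.pas, hpb]
      · simp [It.pas, It.tau, hpb]
  | qd e d a x c w =>
    obtain ⟨h1, h2, h3, h4, h5, h6⟩ := hi
    right
    have e1 : b ≠ e := fun h => h1 (h ▸ hb)
    have e2 : b ≠ d := fun h => h2 (h ▸ hb)
    have e3 : b ≠ a := fun h => h3 (h ▸ hb)
    have e4 : b ≠ x := fun h => h4 (h ▸ hb)
    have e5 : b ≠ c := fun h => h5 (h ▸ hb)
    have e6 : b ≠ w := fun h => h6 (h ▸ hb)
    refine ⟨?_, ?_, ?_⟩
    · intro u hu
      simp only [It.l, List.mem_cons, List.not_mem_nil, or_false] at hu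
      rcases hu with rfl | rfl | rfl
      · simp [Sym2.mem_iff, e1, e2]
      · simp [Sym2.mem_iff, e3, e4]
      · simp [Sym2.mem_iff, e5, e6]
    · simp [It.pas]
    · simp [It.pas, It.tau]

theorem key (h1 : T_RUN) (h3 : T_SPLT) [DecidableEq α] {T : Set α} {b : α} (hb : b ∈ T) :
    ∀ (w : List (It α)) (S S' A B A' B' : List (Sym2 α)) (m m' : α), (ball S).Nodup →
      Run T w S S' → S = A ++ (s(b, m) :: B) → S' = A' ++ (s(b, m') :: B') →
      m' :: wpas b (wtau w) = (m :: wpas b w).reverse := by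
  intro w
  induction w with
  | nil =>
    intro S S' A B A' B' m m' hn hr hS hS'
    have he : S = S' := hr
    rw [hS] at hn
    have := uniq h3 hn (hS.symm.trans (he.trans hS'))
    simp [wpas, wtau, this]
  | cons i w ih =>
    intro S S' A B A' B' m m' hn hr hS hS'
    obtain ⟨hi, A1, B1, hS1, hr1⟩ := hr
    have hn1 : (ball (A1 ++ (i.r ++ B1))).Nodup := by
      have h7 := h1.2.2.2.2.2.2.1 α T [i] S (A1 ++ (i.r ++ B1)) ⟨hi, A1, B1, hS1, rfl⟩
      rw [h7]
      exact hn
    rcases item hb i hi with ⟨x, q, z, k, rfl⟩ | ⟨hl, hp1, hp2⟩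
    · have hmx : x = m := by
        have hn2 := hn
        rw [hS1] at hn2
        have he : A1 ++ (s(b, x) :: (s(q, z) :: B1)) = A ++ (s(b, m) :: B) := by
          rw [← hS, hS1]
          simp [It.l]
        have hn3 : (ball (A1 ++ (s(b, x) :: (s(q, z) :: B1)))).Nodup := by
          rw [he, ← hS]
          exact hn
        exact uniq h3 hn3 he
      have hh := ih _ S' (A1 ++ [s(x, q)]) B1 A' B' z m' hn1 hr1 (by simp [It.r]) hS'
      have e1 : wpas b (wtau (It.mv b x q z k :: w)) = wpas b (wtau w) ++ [q, x] := by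
        rw [wtau_cons]
        simp [wpas, It.pas, It.tau]
      have e2 : wpas b (It.mv b x q z k :: w) = q :: z :: wpas b w := by
        simp [wpas, It.pas]
      rw [e1, e2, ← List.cons_append, hh, hmx]
      simp
    · have e1 : wpas b (wtau (i :: w)) = wpas b (wtau w) := by
        rw [wtau_cons]
        simp [wpas, hp2]
      have e2 : wpas b (i :: w) = wpas b w := by
        simp [wpas, hp1]
      rw [e1, e2]
      have hne : s(b, m) ∉ i.l := fun h => hl _ h (by simp)
      rcases h3.1 (Sym2 α) A1 i.l B1 A B (s(b, m)) hne (hS1.symm.trans hS) with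
        ⟨C, hA, hB⟩ | ⟨C, hB, hA⟩
      · refine ih _ S' A (C ++ (i.r ++ B1)) A' B' m m' hn1 hr1 ?_ hS'
        rw [hA]
        simp
      · refine ih _ S' (A1 ++ (i.r ++ C)) B A' B' m m' hn1 hr1 ?_ hS'
        rw [hB]
        simp

end CTAU_

open CTAU_

theorem p_CTAU (h1 : T_RUN) (h2 : T_RTAU) (h3 : T_SPLT) : T_CTAU := by
  intro α _ c hc
  have hnd2 : (ball (s(c.L, c.q) :: s(c.K, c.z) :: c.B1)).Nodup := by
    have h7 := h1.2.2.2.2.2.2.1 α ∅ c.w1 c.B0 _ c.r1
    have e : ball (s(c.L, c.q) :: s(c.K, c.z) :: c.B1) = ball (s(c.K, c.L) :: c.B0) := by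
      rw [ball_cons (s(c.K, c.L)), ← h7, ball_cons, ball_cons, ball_cons]
      have tm : ∀ a b : α, (s(a, b)).toMultiset = {a} + {b} := fun a b => rfl
      rw [tm, tm, tm, tm]
      abel
    rw [e]
    exact c.nd
  have hK : c.x :: wpas c.K (wtau c.w2) = (c.z :: wpas c.K c.w2).reverse := by
    refine key h1 h3 (T := {c.K, c.L}) (by simp) c.w2 _ _ [s(c.L, c.q)] c.B1
      (c.A ++ [s(c.L, c.y)]) [] c.z c.x hnd2 c.r2 (by simp) (by simp)
  have hL : c.y :: wpas c.L (wtau c.w2) = (c.q :: wpas c.L c.w2).reverse := by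
    refine key h1 h3 (T := {c.K, c.L}) (by simp) c.w2 _ _ [] (s(c.K, c.z) :: c.B1)
      c.A [s(c.K, c.x)] c.q c.y hnd2 c.r2 (by simp) (by simp)
  let c' : CW α :=
    { K := c.L
      L := c.K
      B0 := c.B0
      w1 := wtau c.w3
      k1 := Kd.n
      q := c.x
      z := c.y
      B1 := c.A.reverse
      w2 := wtau c.w2
      A := c.B1.reverse
      y := c.z
      x := c.q
      k2 := Kd.n
      w3 := wtau c.w1
      hk1 := Or.inl rfl
      hk2 := Or.inl rfl
      nd := by
        rw [Sym2.eq_swap]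
        exact c.nd
      r1 := by
        have := h2.1 α ∅ _ _ _ c.r3
        simp only [List.reverse_reverse, List.reverse_append, List.reverse_cons, List.reverse_nil,
          List.nil_append, List.singleton_append] at this
        rw [Sym2.eq_swap]
        exact this
      r2 := by
        have := h2.1 α _ _ _ _ c.r2
        have e : ({c.L, c.K} : Set α) = {c.K, c.L} := Set.pair_comm _ _
        rw [e]
        simpa using this
      r3 := by
        have := h2.1 α ∅ _ _ _ c.r1
        rw [Sym2.eq_swap]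
        simpa using this }
  have hw : c'.word = wtau c.word := by
    show wtau c.w3 ++ (It.mv c.L c.K c.x c.y Kd.n ::
      (wtau c.w2 ++ (It.mv c.K c.z c.q c.L Kd.n :: wtau c.w1))) = _
    simp [CW.word, wtau, CW.lv, CW.jn, It.tau]
  obtain ⟨t1, t2, t3, t4, t5, t6⟩ := h2.2.2 α c.word
  refine ⟨c', rfl, ?_, ?_, ?_, ?_, ?_, ?_⟩
  · show wN c'.word = wN c.word
    rw [hw, t1]
  · show wQ c'.word = wQ c.word
    rw [hw, t2]
  · intro i hi
    rw [hw] at hi
    exact t5 i hi
  · show wsw c'.word = wsw c.word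
    rw [hw]
    exact t4 hc
  · show c.L :: c.x :: (wpas c.K (wtau c.w2) ++ [c.q]) =
      c.L :: (c.q :: c.z :: wpas c.K c.w2).reverse
    rw [← List.cons_append, hK]
    simp
  · show c.K :: c.x :: c.y :: wpas c.L (wtau c.w2) =
      c.K :: (c.q :: (wpas c.L c.w2 ++ [c.x])).reverse
    rw [hL]
    simp

end Bn
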