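import Pool.Agent.BIN.P_CP1
set_option autoImplicit false
set_option linter.all false

/-!
# BIN: labels for WDI (target T_CWD)
-/

namespace Bn

namespace CWD_

/-- no label of the list is S -/
lemma nos (l l' : List Lab) (k : ℕ) (h : Lab.S ∉ l) (h' : Lab.S ∉ l') (t : ℕ) :
    (l ++ (List.replicate k l').flatten).getD t Lab.no ≠ Lab.S := by
  intro ht
  by_cases hlt : t < (l ++ (List.replicate k l').flatten).length
  · rw [List.getD_eq_getElem _ _ hlt] at ht
    have hx := List.getElem_mem hlt
    rw [ht, List.mem_append] at hx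
    rcases hx with hx | hx
    · exact h hx
    · exact h' (CP1_.memrep _ _ _ hx)
  · rw [List.getD_eq_default _ _ (not_lt.mp hlt)] at ht
    exact absurd ht (by decide)

end CWD_

/-- labels for WDI -/
theorem p_CWD (h1 : T_BCAT) (h2 : T_CYC) (h3 : T_BLKS) : T_CWD := by
  obtain ⟨-, -, -, -, -, -, -, b19, b18⟩ := h3
  intro m hm hmod
  obtain ⟨k, hk⟩ : ∃ k, m = 9 + 9 * k := ⟨(m - 9) / 9, by omega⟩
  have len19 : L19.length = 19 := by decide
  have len18 : M18.length = 18 := by decide
  have hS := CWD_.nos L19 M18 k (by decide) (by decide)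
  obtain ⟨a1, a2, -⟩ := h2 m 3 [-3, -2, -1, 0, 2] [2, 3, 6, 8, 10, 11, 12, 17]
    (L19 ++ (List.replicate k M18).flatten) (by omega)
    (by
      rw [List.length_append, CP1_.lenrep, len19, len18]
      omega)
    (h1.2 3 _ _ L19 M18 k b19 b18)
    (CP1_.dmono (show 4 ≤ m by omega) _
      (CP1_.dapp 4 _ _ (by decide) (CP1_.drep 4 _ (by decide) k)))
    (fun t ht => absurd ht (hS t))
  refine ⟨fun t => (L19 ++ (List.replicate k M18).flatten).getD t Lab.no, a1, hS, ?_⟩
  intro α Y
  have := a2 α Y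
  rw [Multiset.map_coe] at this
  exact this

end Bn
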