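import Pool.Agent.BIN.TE
set_option autoImplicit false
set_option linter.all false

/-!
# BIN: proof of CYC (from a block of length `2 m + 1` to labels)
-/

namespace Bn

namespace CYC_

lemma aok : ∀ (l : List Lab) (t : ℕ), aOK l = true → l.getD t Lab.no = Lab.A →
    t + 1 < l.length ∧ l.getD (t + 1) Lab.no = Lab.no
  | [], t, _, h => by simp at h
  | [x], t, h1, h2 => by
    cases t with
    | zero =>
      simp only [List.getD_cons_zero] at h2
      subst h2
      exact absurd h1 (by decide)
    | succ t => simp at h2
  | x :: x' :: r, t, h1, h2 => by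
    rw [aOK, Bool.and_eq_true] at h1
    obtain ⟨h3, h4⟩ := h1
    cases t with
    | zero =>
      simp only [List.getD_cons_zero] at h2
      subst h2
      have h5 : x' = Lab.no := by
        rcases Bool.or_eq_true _ _ ▸ h3 with h | h
        · exact absurd h (by decide)
        · exact eq_of_beq h
      refine ⟨by simp, ?_⟩
      rw [List.getD_cons_succ, List.getD_cons_zero, h5]
    | succ t =>
      rw [List.getD_cons_succ] at h2
      obtain ⟨i1, i2⟩ := aok (x' :: r) t h4 h2
      refine ⟨?_, ?_⟩
      · simp only [List.length_cons] at i1 ⊢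
        omega
      · rw [List.getD_cons_succ]
        exact i2

lemma getD_mem (l : List Lab) (t : ℕ) (h : t < l.length) : l.getD t Lab.no ∈ l := by
  rw [List.getD_eq_getElem _ _ h]
  exact List.getElem_mem h

lemma covEq {α : Type} (m : ℕ) (Y : ℕ → α) (t : ℕ) (b : Lab) :
    cov m Y t b = (yN t b).map (fun t => ob m (Y t)) +
      (hZ (t : ℤ) b).map (fun a : ℤ => hb α m (a : ZMod (2 * m + 1))) := by
  cases b with
  | no => simp [cov, yN, hZ]
  | A => simp [cov, yN, hZ]
  | B s d => cases s <;> simp [cov, yN, hZ, bz] <;> exact Multiset.cons_swap _ _ _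
  | S => simp [cov, yN, hZ]

lemma sumEq {α : Type} (m : ℕ) (Y : ℕ → α) : ∀ (l : List Lab) (s : ℕ),
    ∑ t ∈ Finset.range l.length, cov m Y (s + t) (l.getD t Lab.no) =
      (cY s l).map (fun t => ob m (Y t)) +
        (cH (s : ℤ) l).map (fun a : ℤ => hb α m (a : ZMod (2 * m + 1)))
  | [], s => by simp [cY, cH]
  | x :: l, s => by
    rw [List.length_cons, Finset.sum_range_succ']
    have e : ∀ t, cov m Y (s + (t + 1)) ((x :: l).getD (t + 1) Lab.no) =
        cov m Y ((s + 1) + t) (l.getD t Lab.no) := by
      intro t
      rw [List.getD_cons_succ]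
      congr 1
      omega
    rw [Finset.sum_congr rfl (fun t _ => e t), sumEq m Y l (s + 1), List.getD_cons_zero,
      Nat.add_zero, covEq, cY, cH, Multiset.map_add, Multiset.map_add]
    push_cast
    abel

lemma sumN : ∀ (l : List Lab),
    ∑ t ∈ Finset.range l.length, nlab (l.getD t Lab.no) = (l.map nlab).sum
  | [] => by simp
  | x :: l => by
    rw [List.length_cons, Finset.sum_range_succ', List.getD_cons_zero, List.map_cons,
      List.sum_cons, ← sumN l, Nat.add_comm]
    congr 1

lemma univ_eq (N D : ℕ) [NeZero N] :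
    (Multiset.range N).map (fun i : ℕ => (i : ZMod N) - (D : ZMod N)) =
      (Finset.univ : Finset (ZMod N)).val := by
  have himg : (Finset.range N).image (fun i : ℕ => (i : ZMod N) - (D : ZMod N)) =
      Finset.univ := by
    ext x
    simp only [Finset.mem_image, Finset.mem_range, Finset.mem_univ, iff_true]
    refine ⟨(x + D).val, ZMod.val_lt _, ?_⟩
    rw [ZMod.natCast_zmod_val]
    ring
  have hinj : Set.InjOn (fun i : ℕ => (i : ZMod N) - (D : ZMod N)) (Finset.range N) := by
    rw [← Finset.card_image_iff, himg, Finset.card_univ, ZMod.card, Finset.card_range]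
  rw [← himg, Finset.image_val_of_injOn hinj]
  rfl

end CYC_

open CYC_ in
theorem p_CYC : T_CYC := by
  intro m D E X l hm hl hB hd hS
  refine ⟨?_, ?_, ?_⟩
  · intro t ht
    refine ⟨?_, ?_, hS t⟩
    · intro s d h
      have hmem : l.getD t Lab.no ∈ l := getD_mem l t (by omega)
      simp only at h
      rw [h] at hmem
      unfold dOK at hd
      rw [List.all_eq_true] at hd
      have h1 := hd _ hmem
      simp only [Bool.and_eq_true, decide_eq_true_eq] at h1
      exact h1
    · intro h
      have h1 := aok l t hB.a h
      rw [hl] at h1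
      exact h1
  · intro α Y
    have h1 := sumEq m Y l 0
    rw [hl] at h1
    have e0 : ∑ t ∈ Finset.range (2 * m + 1), cov m Y t (l.getD t Lab.no) =
        ∑ t ∈ Finset.range (2 * m + 1), cov m Y (0 + t) (l.getD t Lab.no) := by
      apply Finset.sum_congr rfl
      intro t _
      rw [Nat.zero_add]
    have h2 := hB.y
    have h3 := hB.h
    rw [hl] at h2 h3
    have h4 := congrArg (Multiset.map (fun a : ℤ => hb α m (a : ZMod (2 * m + 1)))) h3
    rw [Multiset.map_add, Multiset.map_add] at h4
    have h5 : ((E.map (fun a => a + ((2 * m + 1 : ℕ) : ℤ)) : List ℤ) : Multiset ℤ).map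
        (fun a : ℤ => hb α m (a : ZMod (2 * m + 1))) =
        (E : Multiset ℤ).map (fun a : ℤ => hb α m (a : ZMod (2 * m + 1))) := by
      rw [← Multiset.map_coe, Multiset.map_map]
      apply Multiset.map_congr rfl
      intro a _
      simp only [Function.comp]
      congr 1
      rw [Int.cast_add, Int.cast_natCast, ZMod.natCast_self, add_zero]
    rw [h5] at h4
    have h6 := add_right_cancel h4
    have h7 : ((((List.range (2 * m + 1)).map (fun (i : ℕ) => (i : ℤ) - (D : ℤ)) : List ℤ) :
        Multiset ℤ)).map (fun a : ℤ => hb α m (a : ZMod (2 * m + 1))) =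
        (Finset.univ : Finset (ZMod (2 * m + 1))).val.map (hb α m) := by
      rw [← univ_eq (2 * m + 1) D, ← Multiset.map_coe, Multiset.map_map, Multiset.map_map]
      apply Multiset.map_congr rfl
      intro i _
      simp
    rw [h7] at h6
    rw [e0, h1, ← h2, Multiset.map_add]
    simp only [Nat.cast_zero]
    rw [h6]
    abel
  · have h1 := sumN l
    rw [hl] at h1
    exact h1

end Bn
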