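import Pool.Agent.BIN.TA
set_option autoImplicit false
set_option linter.all false

/-!
# BIN: proof of `T_FCT` (counting the flags)
-/

namespace Bn

namespace FCT_

variable {α : Type}

/-- an item of a fully flagged word swaps `3 F + 4 Q` balls -/
theorem item (i : It α) (h : i.isfq) : Multiset.card i.sw = 3 * i.F + 4 * i.Q := by
  cases i with
  | mv p x q z k =>
    rcases h with h | h | h <;> subst h <;> simp [It.sw, It.F, It.Q]
  | qd e d a x c w => simp [It.sw, It.F, It.Q]

/-- sum over the word -/
theorem word (w : List (It α)) (h : ∀ i ∈ w, i.isfq) :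
    Multiset.card (wsw w) = 3 * wF w + 4 * wQ w := by
  induction w with
  | nil => simp [wsw, wF, wQ]
  | cons i w ih =>
    have h1 := item i (h i (by simp))
    have h2 := ih (fun j hj => h j (by simp [hj]))
    simp only [wsw, wF, wQ] at h2
    simp only [wsw, wF, wQ, List.map_cons, List.sum_cons, Multiset.card_add, h1, h2]
    ring

/-- the number of balls of a state -/
theorem card_ball (S : List (Sym2 α)) : Multiset.card (ball S) = 2 * S.length := by
  induction S with
  | nil => simp [ball]
  | cons e S ih =>
    simp only [ball] at ih
    simp only [ball, List.map_cons, List.sum_cons, Multiset.card_add, ih, List.length_cons,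
      Sym2.card_toMultiset]
    ring

end FCT_

theorem p_FCT : T_FCT := by
  intro α c hf hc
  have h1 := FCT_.word c.word hf
  have h2 := FCT_.card_ball c.S
  have h3 : c.sw = ball c.S := hc
  have h4 : c.S.length = c.n := by simp [CW.S, CW.n]
  rw [← h3, h4] at h2
  simp only [CW.sw] at h2
  simp only [CW.F, CW.Q]
  omega

end Bn
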