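import Pool.Agent.BIN.TA
import Pool.Agent.BINQ.Iface
set_option autoImplicit false

/-!
# BIN: interface between the construction side and the problem side (IFACE)
-/

namespace Bn

namespace IFACE_

variable {α : Type}

/-- a word of undecorated moves is a sequence of exchanges of the labels -/
theorem reach_of_run (f : α → ℕ) (w : List (It α)) :
    ∀ S S' : List (Sym2 α), (∀ i ∈ w, i.isn) → Run ∅ w S S' →
      Bq.Reach (wN w) (smap f S) (smap f S') := by
  induction w with
  | nil =>
    intro S S' _ h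
    have h' : S = S' := h
    subst h'
    exact Bq.Reach.refl _
  | cons i w ih =>
    rintro S S' hn ⟨_, A, B, hS, hr⟩
    subst hS
    have hi := hn i (by simp)
    have h1 := ih _ _ (fun j hj => hn j (by simp [hj])) hr
    cases i with
    | qd e d a x c w' => exact absurd hi (by simp [It.isn])
    | mv p x q z k =>
      have hN : wN (It.mv p x q z k :: w) = wN w + 1 := by
        unfold wN
        rw [List.map_cons, List.sum_cons]
        simp [It.N, Nat.add_comm]
      rw [hN]
      refine Bq.Reach.step ?_ h1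
      have := Bq.Swp.mk (smap f A) (smap f B) (f p) (f x) (f q) (f z)
      simpa [smap, It.l, It.r] using this

/-- the whole run of a clean word -/
theorem run_word (h1 : T_RUN) (c : CW α) : Run ∅ c.word c.S c.S.reverse := by
  obtain ⟨comp, -, ctx, -, mono, -, -, one⟩ := h1
  have hok : ∀ (p x q z : α) (k : Kd), (It.mv p x q z k).ok ∅ := by
    intro p x q z k
    exact ⟨id, id, id, fun h => h.elim⟩
  have e1 : Run ∅ c.w1 c.S (s(c.K, c.L) :: s(c.q, c.z) :: c.B1) := by
    have := ctx α ∅ c.w1 _ _ [s(c.K, c.L)] [] c.r1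
    simpa [CW.S] using this
  have e2 : Run ∅ [c.lv] (s(c.K, c.L) :: s(c.q, c.z) :: c.B1)
      (s(c.L, c.q) :: s(c.K, c.z) :: c.B1) := by
    have := ctx α ∅ [c.lv] _ _ [] c.B1 (one α ∅ c.lv (hok _ _ _ _ _))
    simpa [CW.lv, It.l, It.r] using this
  have e3 : Run ∅ c.w2 (s(c.L, c.q) :: s(c.K, c.z) :: c.B1)
      (c.A ++ [s(c.L, c.y), s(c.K, c.x)]) :=
    mono α {c.K, c.L} ∅ _ _ _ (Set.empty_subset _) c.r2
  have e4 : Run ∅ [c.jn] (c.A ++ [s(c.L, c.y), s(c.K, c.x)])
      (c.A ++ [s(c.y, c.x), s(c.L, c.K)]) := by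
    have := ctx α ∅ [c.jn] _ _ c.A [] (one α ∅ c.jn (hok _ _ _ _ _))
    rw [Sym2.eq_swap (a := c.K) (b := c.x)]
    simpa [CW.jn, It.l, It.r] using this
  have e5 : Run ∅ c.w3 (c.A ++ [s(c.y, c.x), s(c.L, c.K)]) c.S.reverse := by
    have := ctx α ∅ c.w3 _ _ [] [s(c.L, c.K)] c.r3
    rw [CW.S, List.reverse_cons, Sym2.eq_swap (a := c.K) (b := c.L)]
    simpa using this
  have e6 := comp α ∅ _ _ _ _ _ e4 e5
  have e7 := comp α ∅ _ _ _ _ _ e3 e6
  have e8 := comp α ∅ _ _ _ _ _ e2 e7
  have e9 := comp α ∅ _ _ _ _ _ e1 e8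
  simpa [CW.word] using e9

theorem mem_ball (S : List (Sym2 α)) (e : Sym2 α) (a : α) (he : e ∈ S) (ha : a ∈ e) :
    a ∈ ball S := by
  unfold ball
  induction S with
  | nil => simp at he
  | cons e' S ih =>
    rw [List.map_cons, List.sum_cons, Multiset.mem_add]
    rcases List.mem_cons.mp he with rfl | he
    · exact Or.inl (Sym2.mem_toMultiset.2 ha)
    · exact Or.inr (ih he)

/-- the labels -/
theorem exists_labels (S : List (Sym2 α)) (hS : (ball S).Nodup) :
    ∃ f : α → ℕ, smap f S = Bq.revBins S.length := by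
  classical
  induction S with
  | nil => exact ⟨fun _ => 0, by simp [smap, Bq.revBins]⟩
  | cons e S ih =>
    have hb : ball (e :: S) = e.toMultiset + ball S := by
      unfold ball
      rw [List.map_cons, List.sum_cons]
    rw [hb, Multiset.nodup_add] at hS
    obtain ⟨_, h2, h3⟩ := hS
    obtain ⟨f, hf⟩ := ih h2
    refine ⟨fun a => if a ∈ e then S.length else f a, ?_⟩
    have h4 : smap (fun a => if a ∈ e then S.length else f a) S = smap f S := by
      unfold smap
      apply List.map_congr_left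
      intro e' he'
      induction e' with
      | _ a b =>
        have ha : a ∉ e := fun h =>
          Multiset.disjoint_left.mp h3 (Sym2.mem_toMultiset.2 h)
            (mem_ball S _ a he' (Sym2.mem_mk_left a b))
        have hb' : b ∉ e := fun h =>
          Multiset.disjoint_left.mp h3 (Sym2.mem_toMultiset.2 h)
            (mem_ball S _ b he' (Sym2.mem_mk_right a b))
        simp [ha, hb']
    have h5 : Bq.revBins (S.length + 1) = s(S.length, S.length) :: Bq.revBins S.length := by
      simp [Bq.revBins, List.range_succ]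
    rw [List.length_cons, h5, ← hf, ← h4]
    unfold smap
    rw [List.map_cons]
    congr 1
    induction e with
    | _ a b => simp

theorem revBins_reverse (n : ℕ) : (Bq.revBins n).reverse = Bq.sortedBins n := by
  unfold Bq.revBins Bq.sortedBins
  rw [← List.map_reverse, List.reverse_reverse]

end IFACE_

open IFACE_

/-- a clean word sorts the reversed configuration -/
theorem p_IFACE (h1 : T_RUN) (h2 : T_CFG) :
    ∀ (α : Type) (c : CW α), Bq.Reach c.N (Bq.revBins c.n) (Bq.sortedBins c.n) := by
  intro α c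
  obtain ⟨c', hn, hN, hp⟩ := h2 α c
  rw [← hn, ← hN]
  obtain ⟨f, hf⟩ := exists_labels c'.S c'.nd
  have h3 := reach_of_run f c'.word _ _ hp (run_word h1 c')
  have hlen : c'.S.length = c'.n := by
    simp [CW.S, CW.n]
  have h4 : smap f c'.S.reverse = Bq.sortedBins c'.n := by
    rw [← revBins_reverse, ← hlen, ← hf]
    unfold smap
    rw [List.map_reverse]
  rw [hf, hlen, h4] at h3
  exact h3

/-- the construction side from the two classes of words -/
theorem constr_of (h1 : T_RUN) (h2 : T_CFG) (h : ∀ n, 2 ≤ n → n ≠ 6 → Perf n ∨ NearP n) :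
    Bq.T_CONSTR := by
  intro n hn hn6
  have hc : (2 * n).choose 2 + n = 2 * n * n := by
    have e1 : (2 * n).choose 2 = n * (2 * n - 1) := by
      rw [Nat.choose_two_right]
      have : 2 * n * (2 * n - 1) = 2 * (n * (2 * n - 1)) := by ring
      rw [this, Nat.mul_div_cancel_left _ (by norm_num)]
    obtain ⟨k, rfl⟩ : ∃ k, n = k + 1 := ⟨n - 1, by omega⟩
    have e2 : 2 * (k + 1) - 1 = 2 * k + 1 := by omega
    rw [e1, e2]; ring
  have key : ∀ (α : Type) (c : CW α) (e : ℕ), c.n = n → e ≤ 2 →
      3 * c.N + n = 2 * n * n + e →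
      Bq.Reach (((2 * n).choose 2 + 2) / 3) (Bq.revBins n) (Bq.sortedBins n) := by
    intro α c e hcn he hN
    have h3 := p_IFACE h1 h2 α c
    have h4 : c.N = ((2 * n).choose 2 + 2) / 3 := by
      rw [← hc] at hN
      omega
    rw [hcn, h4] at h3
    exact h3
  rcases h n hn hn6 with ⟨α, _, c, hcn, _, hN⟩ | ⟨α, _, c, hcn, _, hN⟩
  · exact key α c 0 hcn (by norm_num) (by omega)
  · exact key α c 2 hcn le_rfl hN

end Bn
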