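import Pool.Agent.BIN.TD
set_option autoImplicit false
set_option linter.all false

/-!
# BIN: proof of `T_INT` (the seam NT)
-/

namespace Bn

namespace INT_

variable {α β : Type}

theorem wN_app (a b : List (It α)) : wN (a ++ b) = wN a + wN b := by simp [wN]
theorem wQ_app (a b : List (It α)) : wQ (a ++ b) = wQ a + wQ b := by simp [wQ]
theorem wsw_app (a b : List (It α)) : wsw (a ++ b) = wsw a + wsw b := by simp [wsw]
theorem wpas_app [DecidableEq α] (x : α) (a b : List (It α)) :
    wpas x (a ++ b) = wpas x a ++ wpas x b := by simp [wpas]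

theorem wN_map (f : α → β) (w : List (It α)) : wN (wmap f w) = wN w := by
  induction w with
  | nil => rfl
  | cons i w ih =>
    simp only [wN, wmap, List.map_cons, List.sum_cons] at ih ⊢
    rw [ih]
    cases i <;> rfl

theorem wQ_map (f : α → β) (w : List (It α)) : wQ (wmap f w) = wQ w := by
  induction w with
  | nil => rfl
  | cons i w ih =>
    simp only [wQ, wmap, List.map_cons, List.sum_cons] at ih ⊢
    rw [ih]
    cases i <;> rfl

theorem sw_map (f : α → β) (i : It α) : (i.map f).sw = i.sw.map f := by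
  cases i with
  | mv p x q z k => cases k <;> simp [It.map, It.sw]
  | qd e d a x c w => simp [It.map, It.sw]

theorem wsw_map (f : α → β) (w : List (It α)) : wsw (wmap f w) = (wsw w).map f := by
  induction w with
  | nil => rfl
  | cons i w ih =>
    simp only [wsw, wmap, List.map_cons, List.sum_cons] at ih ⊢
    rw [ih, sw_map, Multiset.map_add]

/-- boolean form of `isnq` -/
def nqb : It α → Bool
  | It.mv _ _ _ _ k => decide (k = Kd.n)
  | It.qd _ _ _ _ _ _ => true

theorem nqb_iff (i : It α) : nqb i = true ↔ i.isnq := by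
  cases i <;> simp [nqb, It.isnq]

theorem nq_map (f : α → β) (w : List (It α)) (h : w.all nqb = true) :
    ∀ i ∈ wmap f w, i.isnq := by
  intro i hi
  simp only [wmap, List.mem_map] at hi
  obtain ⟨j, hj, rfl⟩ := hi
  have h1 := (nqb_iff j).1 (List.all_eq_true.1 h j hj)
  cases j with
  | mv p x q z k => exact h1
  | qd e d a x c w => exact trivial

theorem Wc_nq (f : Bool) : (DNT.Wc f).all nqb = true := by cases f <;> decide +kernel
theorem We1_nq (f : Bool) : (DNT.We1 f).all nqb = true := by cases f <;> decide +kernel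
theorem We2_nq (f : Bool) : (DNT.We2 f).all nqb = true := by cases f <;> decide +kernel
theorem Wb1_nq : DNT.Wb1.all nqb = true := by decide +kernel
theorem Wb2_nq : DNT.Wb2.all nqb = true := by decide +kernel

theorem seamC_nq (f : Bool) (y : α) (l : List (α × α)) : ∀ i ∈ seamC DNT f y l, i.isnq := by
  induction l generalizing f y with
  | nil => intro i hi; simp [seamC] at hi
  | cons e l ih =>
    obtain ⟨q, z⟩ := e
    intro i hi
    simp only [seamC, List.mem_append] at hi
    rcases hi with hi | hi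
    · exact nq_map _ _ (Wc_nq f) i hi
    · exact ih false z i hi

theorem seamB_nq (K q z : α) : ∀ i ∈ seamB DNT K q z, i.isnq := by
  apply nq_map
  rw [List.all_append, Wb1_nq, List.all_cons, Wb2_nq]
  rfl

theorem seamE_nq (f : Bool) (K y x : α) : ∀ i ∈ seamE DNT f K y x, i.isnq := by
  apply nq_map
  rw [List.all_append, We1_nq, List.all_cons, We2_nq]
  rfl

theorem all_nq [DecidableEq α] (c : CW α) : ∀ i ∈ seamAll DNT c, i.isnq := by
  intro i hi
  simp only [seamAll, List.mem_append] at hi
  rcases hi with hi | hi | hi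
  · exact seamB_nq _ _ _ i hi
  · exact seamC_nq _ _ _ i hi
  · exact seamE_nq _ _ _ _ i hi

/-! numbers of the blocks -/

theorem B_N (K q z : α) : wN (seamB DNT K q z) = 32 := by
  rw [seamB, wN_map]; decide +kernel
theorem B_Q (K q z : α) : wQ (seamB DNT K q z) = 0 := by
  rw [seamB, wQ_map]; decide +kernel
theorem B_sw (K q z : α) : wsw (seamB DNT K q z) = 0 := by
  rw [seamB, wsw_map]
  rw [show wsw (DNT.Wb1 ++ (It.mv (100 + DNT.kp) 0 DNT.lq DNT.lz DNT.lk :: DNT.Wb2)) = 0 by
    decide +kernel]
  rfl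

theorem E_N (K y x : α) : wN (seamE DNT true K y x) = 32 := by
  rw [seamE, wN_map]; decide +kernel
theorem E_Q (K y x : α) : wQ (seamE DNT true K y x) = 2 := by
  rw [seamE, wQ_map]; decide +kernel
theorem E_sw (K y x : α) : wsw (seamE DNT true K y x) =
    (({104, 103, 202, 203, 204, 200, 205, 301} : Multiset ℕ)).map (cf DNT.kap y x K) := by
  rw [seamE, wsw_map]
  rw [show wsw (DNT.We1 true ++ (It.mv 0 DNT.jy DNT.jx 300 DNT.jk :: DNT.We2 true)) =
    ({104, 103, 202, 203, 204, 200, 205, 301} : Multiset ℕ) by decide +kernel]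

theorem F_N (K y x : α) : wN (seamE DNT false K y x) = 31 := by
  rw [seamE, wN_map]; decide +kernel
theorem F_Q (K y x : α) : wQ (seamE DNT false K y x) = 0 := by
  rw [seamE, wQ_map]; decide +kernel
theorem F_sw (K y x : α) : wsw (seamE DNT false K y x) = 0 := by
  rw [seamE, wsw_map]
  rw [show wsw (DNT.We1 false ++ (It.mv 0 DNT.jy DNT.jx 300 DNT.jk :: DNT.We2 false)) = 0 by
    decide +kernel]
  rfl

theorem C_false (y : α) (l : List (α × α)) :
    wN (seamC DNT false y l) = 30 * l.length ∧ wQ (seamC DNT false y l) = 0 ∧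
      wsw (seamC DNT false y l) = 0 := by
  induction l generalizing y with
  | nil => exact ⟨rfl, rfl, rfl⟩
  | cons e l ih =>
    obtain ⟨q, z⟩ := e
    obtain ⟨h1, h2, h3⟩ := ih z
    simp only [seamC]
    rw [wN_app, wQ_app, wsw_app, wN_map, wQ_map, wsw_map, h1, h2, h3]
    rw [show wN (DNT.Wc false) = 30 by decide +kernel, show wQ (DNT.Wc false) = 0 by decide +kernel,
      show wsw (DNT.Wc false) = 0 by decide +kernel]
    refine ⟨?_, rfl, rfl⟩
    rw [List.length_cons]; ring

theorem C_true (y q z : α) (l : List (α × α)) :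
    wN (seamC DNT true y ((q, z) :: l)) = 31 + 30 * l.length ∧
      wQ (seamC DNT true y ((q, z) :: l)) = 2 ∧
      wsw (seamC DNT true y ((q, z) :: l)) =
        (({104, 103, 202, 203, 204, 200, 205, 301} : Multiset ℕ)).map (cf id y q z) := by
  obtain ⟨h1, h2, h3⟩ := C_false z l
  simp only [seamC]
  rw [wN_app, wQ_app, wsw_app, wN_map, wQ_map, wsw_map, h1, h2, h3]
  rw [show wN (DNT.Wc true) = 31 by decide +kernel, show wQ (DNT.Wc true) = 2 by decide +kernel,
    show wsw (DNT.Wc true) =
      ({104, 103, 202, 203, 204, 200, 205, 301} : Multiset ℕ) by decide +kernel]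
  exact ⟨rfl, rfl, add_zero _⟩

theorem pas_b : wpas 0 DNT.Wb2 = [204, 203, 205, 200] := by decide +kernel
theorem pas_c : wpas 0 (DNT.Wc true) =
    [202, 101, 203, 201, 204, 200, 205, 302, 304, 303, 305, 301] := by decide +kernel
theorem pas_e : wpas 0 (DNT.We1 true) =
    [202, 101, 203, 201, 204, 200, 205, 302, 303, 1, 304, 301] := by decide +kernel

end INT_

open INT_ in
theorem p_INT (h1 : T_SEAM) (h2 : T_OKS) : T_INT := by
  intro n hn hp
  obtain ⟨α, hα, c, hcn, hcp, hcN⟩ := hp
  obtain ⟨c', hn', hN', -, hQ', hs', hw', hl, -, hy, hP', -, hpas⟩ :=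
    h1 α DNT 2 c h2.2.1 hcp
  have hk : DNT.k = 6 := rfl
  have hg : DNT.Gt.length = 3 := rfl
  rw [hk, hg, hcn] at hn'
  rw [hk, hcn] at hN'
  have e1 : c'.n = 6 * n - 2 := by omega
  have hPQ : c'.PlainQ := by
    intro i hi
    rcases hw' i hi with h | h
    · cases i with
      | mv p x q z k => exact h
      | qd e d a x c w => exact trivial
    · exact all_nq c i h
  -- the numbers
  have key : wN (seamAll DNT c) = 30 * n + 4 ∧ wQ (seamAll DNT c) = 2 := by
    rw [hcn] at hl
    rw [seamAll, wN_app, wN_app, wQ_app, wQ_app, B_N, B_Q]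
    rcases h : lmv c.L c.w2 with _ | ⟨⟨q1, z1⟩, l⟩
    · rw [h] at hl
      simp only [List.length_nil] at hl
      rw [show ([] : List (α × α)).isEmpty = true from rfl, E_N, E_Q]
      simp only [seamC]
      rw [show wN ([] : List (It (Option α × ℕ))) = 0 from rfl,
        show wQ ([] : List (It (Option α × ℕ))) = 0 from rfl]
      omega
    · rw [h] at hl
      simp only [List.length_cons] at hl
      rw [show (((q1, z1) :: l : List (α × α))).isEmpty = false from rfl, F_N, F_Q,
        (C_true c.q q1 z1 l).1, (C_true c.q q1 z1 l).2.1]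
      omega
  rw [key.1] at hN'
  rw [key.2] at hQ'
  have e3 : 3 * c'.N + (6 * n - 2) = 2 * (6 * n - 2) * (6 * n - 2) + 2 := by
    obtain ⟨m, rfl⟩ : ∃ m, n = m + 1 := ⟨n - 1, by omega⟩
    have e4 : 6 * (m + 1) - 2 = 6 * m + 4 := by omega
    rw [e4]
    nlinarith [hcN, hN']
  refine ⟨Option α × ℕ, inferInstance, c', e1, hPQ, hQ', e3, ?_⟩
  rw [hpas, pas_b] at hP'
  rw [seamAll, wsw_app, wsw_app, B_sw, zero_add] at hs'
  rcases h : lmv c.L c.w2 with _ | ⟨⟨q1, z1⟩, l⟩
  · rw [h] at hP' hs' hy
    have hyq : c.y = c.q := by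
      have : some c.q = some c.y := hy
      exact (Option.some.inj this).symm
    rw [show ([] : List (α × α)).isEmpty = true from rfl, E_sw, hyq] at hs'
    rw [show ([] : List (α × α)).isEmpty = true from rfl, hpas, pas_e, hyq] at hP'
    simp only [seamC] at hP' hs'
    refine ⟨(some c.K, DNT.kp), fun i => ((cf id c.K c.q c.z DNT.lq ::
      (([204, 203, 205, 200] : List ℕ).map (cf id c.K c.q c.z) ++
        ([202, 101, 203, 201, 204, 200, 205, 302, 303, 1, 304, 301] : List ℕ).map
          (cf DNT.kap c.q c.x c.K)))).getD i (some c.K, 0),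
      [cf DNT.kap c.q c.x c.K DNT.jx], ?_, ?_⟩
    · rw [hP']
      rfl
    · rw [hs']
      rfl
  · rw [h] at hP' hs'
    rw [show (((q1, z1) :: l : List (α × α))).isEmpty = false from rfl, F_sw, add_zero,
      (C_true c.q q1 z1 l).2.2] at hs'
    simp only [seamC] at hP'
    rw [wpas_app, hpas, pas_c] at hP'
    refine ⟨(some c.K, DNT.kp), fun i => ((cf id c.K c.q c.z DNT.lq ::
      (([204, 203, 205, 200] : List ℕ).map (cf id c.K c.q c.z) ++
        ([202, 101, 203, 201, 204, 200, 205, 302, 304, 303, 305, 301] : List ℕ).map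
          (cf id c.q q1 z1)))).getD i (some c.K, 0),
      wpas (none, 0) (seamC DNT false z1 l) ++
        (wpas (none, 0) (wmap (cf DNT.kap c.y c.x c.K)
          (DNT.We1 (((q1, z1) :: l : List (α × α))).isEmpty)) ++
            [cf DNT.kap c.y c.x c.K DNT.jx]), ?_, ?_⟩
    · rw [hP']
      rw [List.append_assoc]
      rfl
    · rw [hs']
      rfl

end Bn
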