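import Pool.Agent.BIN.TD
set_option autoImplicit false
set_option linter.all false

/-!
# BIN: proof of IRT (the seam RT)
-/

namespace Bn

namespace IRT_

variable {α β : Type}

lemma wN_map (f : α → β) (w : List (It α)) : wN (wmap f w) = wN w := by
  unfold wN wmap
  rw [List.map_map]
  congr 1
  apply List.map_congr_left
  intro i _
  cases i <;> rfl

lemma wF_map (f : α → β) (w : List (It α)) : wF (wmap f w) = wF w := by
  unfold wF wmap
  rw [List.map_map]
  congr 1
  apply List.map_congr_left
  intro i _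
  cases i with
  | mv p x q z k => cases k <;> rfl
  | qd e d a x c w => rfl

lemma wQ_map (f : α → β) (w : List (It α)) : wQ (wmap f w) = wQ w := by
  unfold wQ wmap
  rw [List.map_map]
  congr 1
  apply List.map_congr_left
  intro i _
  cases i <;> rfl

lemma sw_map (f : α → β) (i : It α) : (i.map f).sw = i.sw.map f := by
  cases i with
  | mv p x q z k => cases k <;> simp [It.map, It.sw]
  | qd e d a x c w => simp [It.map, It.sw]

lemma wsw_map (f : α → β) (w : List (It α)) : wsw (wmap f w) = (wsw w).map f := by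
  induction w with
  | nil => simp [wsw, wmap]
  | cons i w ih =>
    have e1 : wsw (wmap f (i :: w)) = (i.map f).sw + wsw (wmap f w) := by
      simp [wsw, wmap]
    have e2 : wsw (i :: w) = i.sw + wsw w := by simp [wsw]
    rw [e1, e2, ih, sw_map, Multiset.map_add]

lemma wN_app (w w' : List (It α)) : wN (w ++ w') = wN w + wN w' := by simp [wN]
lemma wF_app (w w' : List (It α)) : wF (w ++ w') = wF w + wF w' := by simp [wF]
lemma wQ_app (w w' : List (It α)) : wQ (w ++ w') = wQ w + wQ w' := by simp [wQ]
lemma wsw_app (w w' : List (It α)) : wsw (w ++ w') = wsw w + wsw w' := by simp [wsw]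

/-- the coded b block -/
def bb : List (It ℕ) :=
  DRT.Wb1 ++ (It.mv (100 + DRT.kp) 0 DRT.lq DRT.lz DRT.lk :: DRT.Wb2)

/-- the coded e block -/
def be (f : Bool) : List (It ℕ) :=
  DRT.We1 f ++ (It.mv 0 DRT.jy DRT.jx 300 DRT.jk :: DRT.We2 f)

/-- the swapped codes of a c or e block -/
def cs (f : Bool) : Multiset ℕ :=
  (if f then Multiset.range 4 else 0) + ((Multiset.range 8).map (fun i => 104 + i) +
    ((Multiset.range 12).map (fun i => 200 + i) + (Multiset.range 4).map (fun i => 300 + i)))

lemma bb_N : wN bb = 134 := by decide +kernel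
lemma bb_F : wF bb = 4 := by decide +kernel
lemma bb_Q : wQ bb = 0 := by decide +kernel
lemma bb_sw : wsw bb = (Multiset.range 8).map (fun i => 100 + i) +
    (Multiset.range 4).map (fun i => 200 + i) := by decide +kernel

lemma be_N (f : Bool) : wN (be f) = if f then 126 else 124 := by
  cases f <;> decide +kernel
lemma be_F (f : Bool) : wF (be f) = if f then 10 else 8 := by
  cases f <;> decide +kernel
lemma be_Q (f : Bool) : wQ (be f) = 0 := by
  cases f <;> decide +kernel
lemma be_sw (f : Bool) : wsw (be f) = cs f := by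
  cases f <;> decide +kernel

lemma bc_N (f : Bool) : wN (DRT.Wc f) = if f then 126 else 124 := by
  cases f <;> decide +kernel
lemma bc_F (f : Bool) : wF (DRT.Wc f) = if f then 10 else 8 := by
  cases f <;> decide +kernel
lemma bc_Q (f : Bool) : wQ (DRT.Wc f) = 0 := by
  cases f <;> decide +kernel
lemma bc_sw (f : Bool) : wsw (DRT.Wc f) = cs f := by
  cases f <;> decide +kernel

/-- the balls `(none, j)`, `j < 4` -/
def N4 (α : Type) : Multiset (Option α × ℕ) :=
  (Multiset.range 4).map (fun j => ((none : Option α), j))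

/-- the strands `a, ..., a + l - 1` of a ball -/
def Sg (a l : ℕ) (b : α) : Multiset (Option α × ℕ) :=
  (Multiset.range l).map (fun i => (some b, a + i))

/-- all strands of a ball -/
def Fu (b : α) : Multiset (Option α × ℕ) :=
  (Multiset.range 12).map (fun i => (some b, i))

lemma Sg_add (b : α) (k l : ℕ) : Sg 0 k b + Sg k l b = Sg 0 (k + l) b := by
  unfold Sg
  induction l with
  | zero => simp
  | succ l ih =>
    rw [Multiset.range_succ, ← Nat.add_assoc, Multiset.range_succ, Multiset.map_cons,
      Multiset.map_cons, Multiset.add_cons, ih]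
    simp

lemma Fu_eq (b : α) (k l : ℕ) (h : k + l = 12) : Sg 0 k b + Sg k l b = Fu b := by
  rw [Sg_add, h]
  unfold Sg Fu
  simp

lemma m0 (κ : ℕ → ℕ) (y z w : α) :
    (Multiset.range 4).map (cf κ y z w) = N4 α := by
  unfold N4
  apply Multiset.map_congr rfl
  intro i hi
  rw [Multiset.mem_range] at hi
  unfold cf
  rw [if_pos (by omega)]

lemma m1 (κ : ℕ → ℕ) (y z w : α) (a l : ℕ) (h : a + l ≤ 100) :
    ((Multiset.range l).map (fun i => 100 + a + i)).map (cf κ y z w) = Sg a l y := by
  rw [Multiset.map_map]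
  unfold Sg
  apply Multiset.map_congr rfl
  intro i hi
  rw [Multiset.mem_range] at hi
  simp only [Function.comp]
  unfold cf
  rw [if_neg (by omega), if_pos (by omega), show 100 + a + i - 100 = a + i by omega]

lemma m2 (κ : ℕ → ℕ) (y z w : α) (l : ℕ) (h : l ≤ 100) :
    ((Multiset.range l).map (fun i => 200 + i)).map (cf κ y z w) = Sg 0 l z := by
  rw [Multiset.map_map]
  unfold Sg
  apply Multiset.map_congr rfl
  intro i hi
  rw [Multiset.mem_range] at hi
  simp only [Function.comp]
  unfold cf
  rw [if_neg (by omega), if_neg (by omega), if_pos (by omega),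
    show 200 + i - 200 = 0 + i by omega]

lemma m3 (κ : ℕ → ℕ) (y z w : α) (s l : ℕ) (hs : ∀ i, i < l → κ i = s + i) :
    ((Multiset.range l).map (fun i => 300 + i)).map (cf κ y z w) = Sg s l w := by
  rw [Multiset.map_map]
  unfold Sg
  apply Multiset.map_congr rfl
  intro i hi
  rw [Multiset.mem_range] at hi
  simp only [Function.comp]
  unfold cf
  rw [if_neg (by omega), if_neg (by omega), if_neg (by omega), ← hs i hi,
    show 300 + i - 300 = i by omega]

lemma Fu_Sg (b : α) : Sg 0 12 b = Fu b := by
  unfold Sg Fu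
  simp

lemma cs_map (f : Bool) (κ : ℕ → ℕ) (y z w : α) (s : ℕ) (hs : ∀ i, i < 4 → κ i = s + i) :
    (cs f).map (cf κ y z w) = (if f then N4 α else 0) + (Sg 4 8 y + (Fu z + Sg s 4 w)) := by
  have e1 := m1 κ y z w 4 8 (by norm_num)
  have e2 := m2 κ y z w 12 (by norm_num)
  have e3 := m3 κ y z w s 4 hs
  unfold cs
  rw [Multiset.map_add, Multiset.map_add, Multiset.map_add, e2, e3, Fu_Sg]
  have e4 : ((Multiset.range 8).map (fun i => 104 + i)).map (cf κ y z w) = Sg 4 8 y := e1
  rw [e4]
  cases f
  · simp
  · simp only [if_true]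
    rw [m0]

lemma b_map (K q z : α) : (wsw bb).map (cf id K q z) = Sg 0 8 K + Sg 0 4 q := by
  have e1 := m1 id K q z 0 8 (by norm_num)
  have e2 := m2 id K q z 4 (by norm_num)
  have e4 : ((Multiset.range 8).map (fun i => 100 + i)).map (cf id K q z) = Sg 0 8 K := e1
  rw [bb_sw, Multiset.map_add, e2, e4]

lemma kap4 : ∀ i, i < 4 → DRT.kap i = 8 + i := by
  intro i hi
  interval_cases i <;> rfl

/-- the c blocks and the e block -/
lemma ce (K x : α) (l : List (α × α)) : ∀ (f : Bool) (y yl : α),
    (y :: l.flatMap (fun e => [e.1, e.2])).getLast? = some yl →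
    wN (seamC DRT f y l ++ seamE DRT (f && l.isEmpty) K yl x) =
      (if f then 126 else 124) + 124 * l.length ∧
    wF (seamC DRT f y l ++ seamE DRT (f && l.isEmpty) K yl x) =
      (if f then 10 else 8) + 8 * l.length ∧
    wQ (seamC DRT f y l ++ seamE DRT (f && l.isEmpty) K yl x) = 0 ∧
    wsw (seamC DRT f y l ++ seamE DRT (f && l.isEmpty) K yl x) =
      (if f then N4 α else 0) + (Sg 4 8 y + (((l.flatMap (fun e => [e.1, e.2]) : List α) :
        Multiset α).bind Fu + (Fu x + Sg 8 4 K))) := by
  have hE : ∀ (f : Bool) (yl : α), seamE DRT f K yl x = wmap (cf DRT.kap yl x K) (be f) :=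
    fun _ _ => rfl
  induction l with
  | nil =>
    intro f y yl h
    simp only [List.flatMap_nil, List.getLast?_singleton, Option.some.injEq] at h
    subst h
    have e0 : seamC DRT f y [] ++ seamE DRT (f && ([] : List (α × α)).isEmpty) K y x =
        wmap (cf DRT.kap y x K) (be f) := by
      simp [seamC, hE]
    rw [e0, wN_map, wF_map, wQ_map, wsw_map, be_N, be_F, be_Q, be_sw, cs_map f _ y x K 8 kap4]
    refine ⟨by simp, by simp, rfl, by simp⟩
  | cons e l ih =>
    obtain ⟨q1, z1⟩ := e
    intro f y yl h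
    have h' : (z1 :: l.flatMap (fun e => [e.1, e.2])).getLast? = some yl := by
      rw [← h]
      simp [List.getLast?_cons_cons]
    obtain ⟨i1, i2, i3, i4⟩ := ih false z1 yl h'
    have e0 : seamC DRT f y ((q1, z1) :: l) ++
        seamE DRT (f && ((q1, z1) :: l).isEmpty) K yl x =
        wmap (cf id y q1 z1) (DRT.Wc f) ++
          (seamC DRT false z1 l ++ seamE DRT (false && l.isEmpty) K yl x) := by
      simp [seamC]
    rw [e0, wN_app, wF_app, wQ_app, wsw_app, i1, i2, i3, i4, wN_map, wF_map, wQ_map, wsw_map,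
      bc_N, bc_F, bc_Q, bc_sw, cs_map f id y q1 z1 0 (by simp)]
    refine ⟨?_, ?_, rfl, ?_⟩
    · simp only [List.length_cons]
      cases f <;> simp <;> ring
    · simp only [List.length_cons]
      cases f <;> simp <;> ring
    · have hz := Fu_eq z1 4 8 rfl
      have hfl : (((((q1, z1) :: l).flatMap (fun e => [e.1, e.2]) : List α)) :
          Multiset α).bind Fu = Fu q1 + (Fu z1 +
            ((l.flatMap (fun e => [e.1, e.2]) : List α) : Multiset α).bind Fu) := by
        have e1 : ((q1, z1) :: l).flatMap (fun e => [e.1, e.2]) =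
            q1 :: z1 :: l.flatMap (fun e => [e.1, e.2]) := by simp
        rw [e1, ← Multiset.cons_coe, ← Multiset.cons_coe, Multiset.cons_bind,
          Multiset.cons_bind]
      rw [hfl, ← hz]
      simp only [Bool.false_eq_true, if_false]
      abel

end IRT_

open IRT_ in
theorem p_IRT (h1 : T_SEAM) (h2 : T_OKS) : T_IRT := by
  intro n hn hp
  obtain ⟨α, dα, c, hcn, hpl, hN⟩ := hp
  obtain ⟨c', g1, g2, g3, g4, g5, g6, g7, g8, g9, g10, g11, g12⟩ := h1 α DRT 4 c h2.2.2 hpl
  obtain ⟨l, hl⟩ : ∃ l : List (α × α), l = lmv c.L c.w2 := ⟨_, rfl⟩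
  rw [← hl] at g7 g8 g9
  obtain ⟨j1, j2, j3, j4⟩ := ce c.K c.x l true c.q c.y g9
  have e0 : seamAll DRT c = wmap (cf id c.K c.q c.z) bb ++
      (seamC DRT true c.q l ++ seamE DRT (true && l.isEmpty) c.K c.y c.x) := by
    rw [hl]
    rfl
  have hm : n = l.length + 2 := by omega
  have hG : DRT.Gt.length = 7 := by decide +kernel
  have hk : DRT.k = 12 := rfl
  refine ⟨Option α × ℕ, inferInstance, c', ?_, ?_, ?_, ?_, ?_⟩
  · rw [g1, hG, hk, hcn]
    omega
  · unfold CW.Cov
    rw [g5, g11, e0, wsw_app, wsw_map, b_map, j4, g8, hk]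
    have hK := Fu_eq c.K 8 4 rfl
    have hq := Fu_eq c.q 4 8 rfl
    have hP : (((c.K :: c.q :: (l.flatMap (fun e => [e.1, e.2]) ++ [c.x]) : List α)) :
        Multiset α).bind (fun a => (Multiset.range 12).map (fun i => (some a, i))) =
        Fu c.K + (Fu c.q + (((l.flatMap (fun e => [e.1, e.2]) : List α) :
          Multiset α).bind Fu + Fu c.x)) := by
      rw [← Multiset.cons_coe, ← Multiset.cons_coe, Multiset.cons_bind, Multiset.cons_bind,
        ← Multiset.coe_add, Multiset.add_bind]
      have : (([c.x] : List α) : Multiset α).bind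
          (fun a => (Multiset.range 12).map (fun i => ((some a : Option α), i))) = Fu c.x := by
        rw [Multiset.coe_singleton, Multiset.singleton_bind]
        rfl
      rw [this]
      rfl
    rw [hP, ← hK, ← hq]
    unfold N4
    simp only [if_true]
    abel
  · rw [g4, e0, wQ_app, wQ_map, bb_Q, j3]
  · rw [g3, e0, wF_app, wF_map, bb_F, j2]
    simp only [if_true]
    omega
  · have hw : wN (seamAll DRT c) = 134 + (126 + 124 * l.length) := by
      rw [e0, wN_app, wN_map, bb_N, j1]
      simp
    rw [hw, hk, hcn] at g2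
    have h12 : 12 * n - 4 = 12 * l.length + 20 := by omega
    rw [h12]
    subst hm
    zify at g2 hN ⊢
    linear_combination 3 * g2 + 144 * hN

end Bn
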