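import Pool.Agent.BIN.Th
set_option autoImplicit false
set_option linter.all false

/-!
# BIN: targets of group C (thick doubling)
-/

namespace Bn

/-- **Target T_LRUN** (the ball `L` in a run in which it is tracked).
Let `Run {K, L} w S S'`, `S = A ++ (s(L, y) :: B)`, `L` not in `ball A`, `ball B`, and `y ≠ K`,
`y ≠ L`.  Then `S' = A' ++ (s(L, y') :: B')` with: `L` not in `ball A'`, `ball B'`; `y' ≠ K`,
`y' ≠ L`; `y'` is the last element of `y :: wpas L w`; `A'.length = A.length + nmv L w`;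
`(wpas L w).length = 2 * nmv L w`; `ball A' + {y'} = ball A + {y} + wpas L w` (multisets); and if
`K` is not in `ball A` then `K` is not in `ball A'`.

Proof.  Induction on `w` for all `S, A, B, y`.  `w = []`: trivial.  `w = i :: w1`,
`S = C ++ (i.l ++ D)`, `i.ok {K, L}`.
If `i = mv L x q z k`: the bin `s(L, x)` of `i.l` contains `L`, so by T_SPLT (2) (with
`C ++ (s(L, x) :: (s(q, z) :: D)) = A ++ (s(L, y) :: B)`): `C = A`, `x = y`, `B = s(q, z) :: D`.
The state after the item is `A ++ (s(y, q) :: (s(L, z) :: D)) = (A ++ [s(y, q)]) ++ (s(L, z) :: D)`.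
Here `q, z` are not in `{K, L}` (safety).  Induction hypothesis with `A1 = A ++ [s(y, q)]`,
`y1 = z`, `B1 = D`; `wpas L w = q :: z :: wpas L w1`, `nmv L w = nmv L w1 + 1`;
`ball A1 + {z} = ball A + {y} + {q, z}`.
If `i` is a move with `p ≠ L` or a quadrangle: no ball of `i.l` is `L` (safety), so `s(L, y)` is
not in
`i.l`, and by T_SPLT (1) the bins `i.l` are inside `A` or inside `B`; after the item
`A1 = C ++ (i.r ++ C')` (same balls as `A` because `ball i.l = ball i.r`, same length) or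
`B1 = C' ++ (i.r ++ D)`; `wpas L w = wpas L w1`. -/
def T_LRUN : Prop :=
  ∀ (α : Type) [DecidableEq α] (K L : α) (w : List (It α)) (S S' A B : List (Sym2 α)) (y : α),
    Run {K, L} w S S' → S = A ++ (s(L, y) :: B) → L ∉ ball A → L ∉ ball B → y ≠ K → y ≠ L →
    ∃ (A' B' : List (Sym2 α)) (y' : α), S' = A' ++ (s(L, y') :: B') ∧ L ∉ ball A' ∧
      L ∉ ball B' ∧ y' ≠ K ∧ y' ≠ L ∧ (y :: wpas L w).getLast? = some y' ∧
      A'.length = A.length + nmv L w ∧ (wpas L w).length = 2 * nmv L w ∧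
      ball A' + {y'} = ball A + {y} + (wpas L w : Multiset α) ∧
      (K ∉ ball A → K ∉ ball A')

/-- **Target T_PALL** (the order `P` of a clean word contains every ball except `L` once).
For a clean word: (1) `ball c.S = {L} + P`; (2) `K, L, q, z` are different and `L, y, x, K` are
different; (3) `nmv L w2 + 2 = c.n`, `c.A.length + 2 = c.n`; (4) the last element of
`q :: wpas L w2` is `y`; (5) `P` has length `2 n - 1`; (6) `K` and `L` are not in `ball B1` and not
in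
`ball A`; (7) `q ≠ K`, `q ≠ L`.

Proof.  `c.nd`: `{K, L} + ball B0` has no repetition; `ball B0 = {q, z} + ball B1` by `c.r1` and
T_RUN (7), so K, L, q, z are different and K, L are not in `ball B1`.  Apply T_LRUN to `c.r2` with
`A = []`, `y = q`, `B = s(K, z) :: B1` (L is not in `ball B`): the final state is
`c.A ++ [s(L, y), s(K, x)] = A' ++ (s(L, y') :: B')` and T_SPLT (2) gives `A' = c.A`, `y' = c.y`.
So `ball c.A + {y} = {q} + wpas L w2` and by `c.r3` and T_RUN (7) `ball c.A + {y, x} = ball B0`.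
Hence `ball c.S = {K, L} + {q} + wpas L w2 + {x} = {L} + P`.  Lengths by T_RUN (6):
`c.A.length + 1 = B0.length` from `c.r3`, and `c.A.length = nmv L w2`. -/
def T_PALL : Prop :=
  ∀ (α : Type) [DecidableEq α] (c : CW α),
    ball c.S = {c.L} + (c.P : Multiset α) ∧
    (ball (It.mv c.K c.L c.q c.z Kd.n).l).Nodup ∧ (ball (It.mv c.L c.y c.x c.K Kd.n).l).Nodup ∧
    nmv c.L c.w2 + 2 = c.n ∧ c.A.length + 2 = c.n ∧
    (c.q :: wpas c.L c.w2).getLast? = some c.y ∧ c.P.length + 1 = 2 * c.n ∧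
    c.K ∉ ball c.B1 ∧ c.L ∉ ball c.B1 ∧ c.K ∉ ball c.A ∧ c.L ∉ ball c.A

/-- **Target T_PODD** (the pass at an odd time): for odd `t ≤ 2 m - 1`, `y ≠ K`, `(κ t t).tr`, the
word `pOdd m κ t y` is a run from `Bot m t y` to `Top m (t + 1) y` in which `K` and the new ball
`hb 0` are tracked.

Proof.  Write `h b = hb α m b`, indices mod `M = 2 m + 1`.  For `0 ≤ i ≤ m` let `st_i` be the state
the list [s(h(t - (2j+1)), h(t + (2j+1))) | j < i] ++ (s(h(t + (2i+1)), y) ::
[s(h(t - (2j+1)), h(t + (2j+3))) | i ≤ j < m])`.  `st_m = Bot m t y` since `t + 2m + 1 = t` mod M.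
`st_0 = Top m (t+1) y` since `(t+1) - (2j+2) = t - (2j+1)`, `(t+1) + (2j+2) = t + (2j+3)`.  The item
`pit m κ t y (2 (i-1) + 1)`, `π = 2i - 1`, exchanges in the two neighbouring bins
`s(h(t - π), h(t + π))`, `s(y, h(t + π + 2))` the balls `h(t - π)` and `y` and leads from `st_i` to
`st_(i-1)`.  The items come in the order `i = m, ..., 1` (the list is reversed).
Safety: the mates are `h(t + π)` and `h(t + π + 2)` and `q = y ≠ K`; `t + π` and `t + π + 2` are
even
numbers between 2 and 4m (as `t, π` are odd and at most `2m - 1`), so they are not 0 mod the odd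
number `2m + 1` (the multiples of M below 4m + 2 are 0 and the odd number M).  `p = h(t - π)` is
`h 0` iff `π = t` (both between 1 and 2m - 1), and then the kind is `κ t t`. -/
def T_PODD : Prop :=
  ∀ (α : Type) (m : ℕ) (κ : ℕ → ℕ → Kd) (t : ℕ) (y K : α), 1 ≤ m → t % 2 = 1 →
    t ≤ 2 * m - 1 → y ≠ K → (κ t t).tr →
    Run {ob m K, hb α m 0} (pOdd m κ t y) (Bot m t (ob m y)) (Top m (t + 1) (ob m y))

/-- **Target T_PEVN** (the pass at an even time `t`, `2 ≤ t ≤ 2 m - 2`): from the state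
`Top m t v ++ [s(y, w)]` to `s(v, y) :: Bot m (t + 1) w`; `K` and `hb 0` are tracked.

Proof.  Indices mod `M = 2m + 1`; `h(t - 2m) = h(t + 1)`, `h(t + 2m) = h(t - 1)`.  For
`1 ≤ i ≤ m` let `st_i` be the state `s(v, h t) :: [s(h(t - 2j), h(t + 2j)) | 1 ≤ j < i] ++
(s(h(t + 2i), y) :: [s(h(t - 2j), h(t + 2j + 2)) | i ≤ j < m]) ++ [s(h(t + 1), w)]`.
`pEv1` leads from `Top m t v ++ [s(y, w)]` (last bin of Top: `s(h(t - 2m), h(t + 2m))`) to `st_m`.
`pit m κ t y π` with `π = 2(i-1)`, `i ≥ 2`, leads from `st_i` to `st_(i-1)`.  The last item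
exchanges
`h t` and `y` in the bins `s(h t, v)`, `s(y, h(t + 2))`; result
`s(v, y) :: [s(h(t - 2j), h(t + 2j + 2)) | 0 ≤ j < m] ++ [s(h(t + 1), w)]`, and this is
`s(v, y) :: Bot m (t + 1) w` since `(t+1) - (2j+1) = t - 2j`, `(t+1) + (2j+1) = t + 2j + 2`.
Safety: mates `h(t - 1)`, `w`, `h(t + π)`, `h(t + π + 2)`, `v`, `h(t + 2)`, and `q = y`.  `t - 1` is
between 1 and 2m - 3; `t + π`, `t + π + 2`, `t + 2` are even numbers between 4 and 4m - 2; so they
are
not 0 mod M.  `y, v, w ≠ K`.  `p`: `h(t + 1) ≠ h 0`, `h t ≠ h 0`, `h(t - π) = h 0` iff `π = t`, then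
the kind is `κ t t`. -/
def T_PEVN : Prop :=
  ∀ (α : Type) (m : ℕ) (κ : ℕ → ℕ → Kd) (t : ℕ) (v y w K : α), 1 ≤ m → t % 2 = 0 → 2 ≤ t →
    t + 2 ≤ 2 * m → v ≠ K → y ≠ K → w ≠ K → (κ t t).tr →
    Run {ob m K, hb α m 0} (pEv1 m κ t y w :: pEv2 m κ t v y)
      (Top m t (ob m v) ++ [s(ob m y, ob m w)]) (s(ob m v, ob m y) :: Bot m (t + 1) (ob m w))

/-- **Target T_PEND** (the last pass, time `2 m`, after the join, and the closing of the block).
(1) `Top m (2 m) v` ends with the bin `s(h 0, h (-2))`;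
(2) `pEv2 m κ (2 m) v y` is a run (nothing tracked) from the state
`(Top m (2 m) v).dropLast ++ [s(h(-2), y)]` to `s(v, y) :: (Bot m (2 m + 1) X).dropLast`;
(3) `Bot m (2 m + 1) X = (Top m 0 X).reverse`, it ends with `s(h 0, X)`, and
`(Bot m (2 m + 1) X).dropLast = (Tp2 α m 0).reverse`;
(4) `pEv1 m κ (2 m) x K = mv (h 0) (h (-2)) x K (κ (2 m) (2 m))`.

Proof.  Mod `M = 2m + 1`: `2m = -1`, `2m + 1 = 0`.  (1) the last bin of `Tp2 α m (2m)` has
`j = m - 1`: `2m - 2m = 0`, `2m + 2m = -2`.  (2) as in T_PEVN from `st_m` on (with the last bin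
`s(h 0, w)` removed), here `h(t + 2m) = h(-2)`; nothing is tracked, so there is no safety to check.
(3) `Bot m (2m+1) X = [s(h(-(2j+1)), h(2j+1)) | j < m] ++ [s(h 0, X)]`, and the reverse of
`s(X, h 0) :: [s(h(-(2j+2)), h(2j+2)) | j < m]` has in place `j` the bin with `j' = m - 1 - j`:
`2j' + 2 = 2m - 2j = -(2j+1)` mod M. -/
def T_PEND : Prop :=
  ∀ (α : Type) (m : ℕ) (κ : ℕ → ℕ → Kd) (v y x K : α) (X : Tb α m), 1 ≤ m →
    Top m (2 * m) (ob m v) =
      (Top m (2 * m) (ob m v)).dropLast ++ [s(hb α m 0, hb α m (-2))] ∧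
    Run ∅ (pEv2 m κ (2 * m) v y)
      ((Top m (2 * m) (ob m v)).dropLast ++ [s(hb α m (-2), ob m y)])
      (s(ob m v, ob m y) :: (Bot m (2 * m + 1) X).dropLast) ∧
    Bot m (2 * m + 1) X = (Top m 0 X).reverse ∧
    Bot m (2 * m + 1) X = (Bot m (2 * m + 1) X).dropLast ++ [s(hb α m 0, X)] ∧
    (Bot m (2 * m + 1) X).dropLast = (Tp2 α m 0).reverse ∧
    pEv1 m κ (2 * m) x K =
      It.mv (hb α m 0) (hb α m (-2)) (ob m x) (ob m K) (κ (2 * m) (2 * m))

/-- **Target T_PDWN** (the pass of `K` down at time 0).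
(1) `pDown m κ0 K = mv K (h 0) (h 2) (h (-2)) (κ0 1) :: (pDown m κ0 K).tail`;
(2) the tail is a run, with `K` and `h 0` tracked, from the state
`s(h 0, h 2) :: s(K, h (-2)) :: (Tp2 α m 0).tail` to `Bot m 1 K`;
(3) `Tp2 α m 0 = s(h 2, h (-2)) :: (Tp2 α m 0).tail`, `Top m 0 X = s(X, h 0) :: Tp2 α m 0`.

Proof.  Indices mod `M = 2m + 1`.  For `1 ≤ i ≤ m` let `st_i` be the state
the list [s(h(-2j), h(2j+2)) | j < i] ++ (s(K, h(-2i)) :: [s(h(-(2j+2)), h(2j+2)) | i ≤ j < m])`.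
The item number `j = i` (`1 ≤ i < m`) exchanges `K` (mate `h(-2i)`) with `h(2i+2)`
(mate `h(-(2i+2))`) and leads from `st_i` to `st_(i+1)`.  `st_1` is the start and
`st_m = Bot m 1 K`: `1 - (2j+1) = -2j`, `1 + (2j+1) = 2j + 2`, `-2m = 1` mod M.
Safety: for `1 ≤ j ≤ m - 1` the numbers `2j, 2j + 2` are between 2 and 2m, so not 0 mod M;
`p = K` has kind `κ0 (j+1)`, which is allowed. -/
def T_PDWN : Prop :=
  ∀ (α : Type) (m : ℕ) (κ0 : ℕ → Kd) (K : α) (X : Tb α m), 1 ≤ m → (∀ j, (κ0 j).tr) →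
    pDown m κ0 K = It.mv (ob m K) (hb α m 0) (hb α m 2) (hb α m (-2)) (κ0 1) ::
      (pDown m κ0 K).tail ∧
    Run {ob m K, hb α m 0} (pDown m κ0 K).tail
      (s(hb α m 0, hb α m 2) :: s(ob m K, hb α m (-2)) :: (Tp2 α m 0).tail)
      (Bot m 1 (ob m K)) ∧
    Tp2 α m 0 = s(hb α m 2, hb α m (-2)) :: (Tp2 α m 0).tail ∧
    Top m 0 X = s(X, hb α m 0) :: Tp2 α m 0

/-- **Target T_THKR** (the middle part of the thick word is a run).

Proof.  Induction on `w` for all `S, A, B, y, t`.  `w = []`: nothing to do.  Let `w = i :: w1` and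
`S = C ++ (i.l ++ D)`.
Case `i = mv L x q z k`.  As in T_LRUN `C = A`, `x = y`, `B = s(q, z) :: D`; `q, z` are not `K`,
`L`.
`nmv L w = nmv L w1 + 1`, so `t + 2 ≤ 2m - 1`.  The word starts with `pOdd m κ t y`, in the context
`smap A`, `smap B` from `Bot m t y` to `Top m (t+1) y` (T_PODD), then the pass at the even time
`t + 1` (`2 ≤ t + 1`, `t + 3 ≤ 2m`), T_PEVN with `v = y`, `y = q`, `w = z`, in the context `smap A`,
`smap D`: from `Top m (t+1) y ++ [s(q, z)]` to `s(y, q) :: Bot m (t+2) z`.  The new data are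
`A1 = A ++ [s(y, q)]`, `y1 = z`, `B1 = D`, `t1 = t + 2`: induction hypothesis.
Case `i` another item: no ball of `i.l` is `L`; by T_SPLT (1) the bins `i.l` are inside `A` or `B`.
The item `i.map (ob m)` is safe for `{ob K, hb 0}` (if `p = K` then the kind is allowed; the others
are not K), so it is a run in the context; the block is not touched.  Induction hypothesis. -/
def T_THKR : Prop :=
  ∀ (α : Type) [DecidableEq α] (m : ℕ) (κ : ℕ → ℕ → Kd) (K L : α) (w : List (It α))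
    (S S' A B : List (Sym2 α)) (y : α) (t : ℕ),
    1 ≤ m → (∀ t, (κ t t).tr) → K ≠ L → Run {K, L} w S S' → S = A ++ (s(L, y) :: B) →
    L ∉ ball A → L ∉ ball B → y ≠ K → y ≠ L → t % 2 = 1 → t + 2 * nmv L w ≤ 2 * m - 1 →
    ∃ (A' B' : List (Sym2 α)) (y' : α), S' = A' ++ (s(L, y') :: B') ∧ L ∉ ball A' ∧
      L ∉ ball B' ∧
      Run {ob m K, hb α m 0} (thk m κ L t y w)
        (smap (ob m) A ++ (Bot m t (ob m y) ++ smap (ob m) B))
        (smap (ob m) A' ++ (Bot m (t + 2 * nmv L w) (ob m y') ++ smap (ob m) B'))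

/-- the new balls in the order in which `K` passes them -/
def hs (α : Type) (m : ℕ) : List (Tb α m) :=
  (List.range m).flatMap (fun (j : ℕ) =>
    [hb α m (2 * (j : ZMod (2 * m + 1)) + 2), hb α m (-(2 * (j : ZMod (2 * m + 1)) + 2))])

/-- **Target T_THCW** (the thick word is a clean word).

Proof.  Let `M = 2m + 1`, `em = smap (ob m)`.  Take
`K' = ob K`, `L' = hb 0`, `B0' = Tp2 α m 0 ++ em B0`, `w1' = wmap (ob m) w1`, `k1' = κ0 1`,
`q' = hb 2`, `z' = hb (-2)`, `B1' = (Tp2 α m 0).tail ++ em (s(q, z) :: B1)`,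
`w2' = thw2 m κ κ0 kA c`, `A' = em A ++ (Top m (2m) y).dropLast`, `y' = hb (-2)`, `x' = ob x`,
`k2' = κ (2m) (2m)`, `w3' = pEv2 m κ (2m) y x ++ wmap (ob m) w3`.
r1': `wmap (ob m) w1` behind the context `Tp2 α m 0` (T_RUN (4), (3)), and
`Tp2 α m 0 = s(hb 2, hb (-2)) :: tail` (T_PDWN).
r2': `(pDown ..).tail` from `s(hb 0, hb 2) :: s(K, hb (-2)) :: tail` to `Bot m 1 K`, in the context
`em (s(q, z) :: B1)` behind (T_PDWN).  Then the move `mv K (hb 1) q z kA`: the last bin of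
`Bot m 1 K` is `s(hb 1, K)`; result: the block with `q` below, that is `Bot m 1 q`, followed by
`s(K, z) :: em B1`; it is safe (`p = K` is tracked, `kA.tr`; `q, z ≠ K`, `hb 1 ≠ hb 0` as M ≥ 3).
Then T_THKR with `A = []`, `y = q`, `t = 1`, `B = s(K, z) :: B1`; `nmv L w2 = m - 1` by T_PALL,
so the time at the end is `2m - 1`, and the end state is `c.A ++ [s(L, y), s(K, x)]`, so by
T_SPLT (2) the data at the end are `A' = c.A`, `y' = c.y`, `B' = [s(K, x)]`: state
`em A ++ (Bot m (2m-1) y ++ [s(K, x)])`.  Then `pOdd m κ (2m-1) y` to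
`em A ++ (Top m (2m) y ++ [s(K, x)])`.  By T_PEND (1) this is `A' ++ [s(hb 0, hb (-2)), s(K, x)]`.
r3': T_PEND (2) in the context `em A`, then `wmap (ob m) w3` in the context
`(Bot m M X).dropLast = (Tp2 α m 0).reverse` behind: from `em (A ++ [s(y, x)])` to
`em B0.reverse`; the end is `em B0.reverse ++ (Tp2 α m 0).reverse = B0'.reverse`.
nd': `ball (Tp2 α m 0)` are the balls `hb (-(2j+2))`, `hb (2j+2)`, `j < m`, which are all
`hb b`, `b ≠ 0`, once; `ob`, `hb` are injective with different values; `L` is left out.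
The word and `n`: by definition, `pDown` as in T_PDWN (1).  PK': the items with `p = ob K` are: the
items of `pDown`, which pass `hb (2j+2), hb (-(2j+2))`; the move `mv K (hb 1) q z kA`; and the
images
of the items of `w2` with `p = K` (all other items of the passes have `p = hb _`). -/
def T_THCW : Prop :=
  ∀ (α : Type) [DecidableEq α] (c : CW α) (m : ℕ) (κ : ℕ → ℕ → Kd) (κ0 : ℕ → Kd) (kA : Kd),
    1 ≤ m → c.n = m + 1 → (∀ t, (κ t t).tr) → (∀ j, (κ0 j).tr) → kA.tr →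
    ∃ c' : CW (Tb α m), c'.n = 2 * m + 1 ∧ c'.word = thword m κ κ0 kA c ∧
      c'.S = Top m 0 (ob m c.K) ++ smap (ob m) c.B0 ∧
      c'.PK = hb α m 0 :: (hs α m ++ c.PK.tail.map (ob m))

/-- the balls swapped by the label at time `t` when it is `B` or `S` -/
def lsw (α : Type) (m t : ℕ) (y : Tb α m) : Lab → Multiset (Tb α m)
  | Lab.B s d => {y, hb α m ((t : ZMod (2 * m + 1)) + bz m s - (d : ZMod (2 * m + 1))),
      hb α m ((t : ZMod (2 * m + 1)) + bz m s + (d : ZMod (2 * m + 1)))}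
  | Lab.S => {y}
  | _ => 0

/-- 1 for the labels `B` and `S` -/
def lF : Lab → ℕ
  | Lab.B _ _ => 1
  | Lab.S => 1
  | _ => 0

/-- **Target T_PSWO** (swapped balls of an odd pass and of the pass down).  For correct labels:
(1) for odd `t ≤ 2 m - 1`: `wsw (pOdd m (kd m lab) t y) = lsw α m t y (lab t)`,
`wF (pOdd ..) = lF (lab t)`;
(2) `wsw (pDown m (kd0 m lab) K) = lsw α m 0 K (lab 0)`, `wF (pDown ..) = lF (lab 0)`;
(3) `(kd m lab t t).tr`, `(kd0 m lab j).tr`, `(kdA lab).tr`;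
(4) `wN (pOdd ..) = m`, `wN (pDown ..) = m`, `wN (pEv2 m κ t v y) = m` and `wQ` of them is 0;
(5) if no label is `S` then all items of `pOdd m (kd m lab) t y`, `pEv2 m (kd m lab) t v y`,
`pEv1 m (kd m lab) t y w`, `pDown m (kd0 m lab) K` satisfy `isfq`; if all labels are `no` they
satisfy `isn`.

Proof.  Indices mod `M = 2m + 1`.  (1) The places are `π = 1, 3, ..., 2m - 1`.  Label `no`:
flag only for `π = 0`; `A`: only for `π = 2m`; so nothing.  `B false d`, `1 ≤ d ≤ m`: exactly one of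
`d`, `M - d` is odd and it is between 1 and 2m - 1, this is the only flagged place `π`; the
swapped balls (kind U) are `h(t - π), h(t + π), y`, and `{t - π, t + π} = {t - d, t + d}` mod M.
`B true d`: kind L at `π = d - 1` (if d is even) or `π = 2m - d` (if d is odd), only one odd place,
between 1 and 2m - 1; swapped balls `h(t - π), y, h(t + π + 2)`: `π = d - 1`:
`t + 1 - d, t + 1 + d`; `π = 2m - d`: `t - 2m + d = t + 1 + d`, `t + 2m - d + 2 = t + 1 - d`.  `S`:
then
`t = 1`, `m ≥ 2`, the place `π = 3 ≤ 2m - 1`, kind c, swapped ball y.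
(2) Let `J = j + 1 = 1, ..., m`; item `mv K (h(-2(J-1))) (h(2J)) (h(-2J)) (kd0 J)`.
`B false d`: kind L iff `2J = d` or `2J + d = M` (one J), swapped `K, h(2J), h(-2J)`.
`B true d`: kind U iff `2J - 1 = d` or `2J - 1 + d = M` (one J), swapped `K, h(-2(J-1)), h(2J)`:
`1 - d, 1 + d` in some order.  `lab 0 = S` is impossible.
(3) `kd m lab t t` is `c` only if `t = t + 2`.  (4), (5) by definition. -/
def T_PSWO : Prop :=
  (∀ (α : Type) (m : ℕ) (lab : ℕ → Lab) (t : ℕ) (y : α), 1 ≤ m → LabOK m lab → t % 2 = 1 →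
    t ≤ 2 * m - 1 → wsw (pOdd m (kd m lab) t y) = lsw α m t (ob m y) (lab t) ∧
      wF (pOdd m (kd m lab) t y) = lF (lab t)) ∧
  (∀ (α : Type) (m : ℕ) (lab : ℕ → Lab) (K : α), 1 ≤ m → LabOK m lab →
    wsw (pDown m (kd0 m lab) K) = lsw α m 0 (ob m K) (lab 0) ∧
      wF (pDown m (kd0 m lab) K) = lF (lab 0)) ∧
  (∀ (m : ℕ) (lab : ℕ → Lab) (t : ℕ), (kd m lab t t).tr ∧ (kd0 m lab t).tr ∧ (kdA lab).tr) ∧
  (∀ (α : Type) (m : ℕ) (κ : ℕ → ℕ → Kd) (κ0 : ℕ → Kd) (t : ℕ) (v y : α), 1 ≤ m →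
    wN (pOdd m κ t y) = m ∧ wN (pDown m κ0 y) = m ∧ wN (pEv2 m κ t v y) = m ∧
    wQ (pOdd m κ t y) = 0 ∧ wQ (pDown m κ0 y) = 0 ∧ wQ (pEv2 m κ t v y) = 0) ∧
  (∀ (α : Type) (m : ℕ) (lab : ℕ → Lab) (t : ℕ) (v y w : α),
    ((∀ t, lab t ≠ Lab.S) → ∀ i ∈ pOdd m (kd m lab) t y ++ (pDown m (kd0 m lab) y ++
      (pEv1 m (kd m lab) t y w :: pEv2 m (kd m lab) t v y)), i.isfq) ∧
    ((∀ t, lab t = Lab.no) → ∀ i ∈ pOdd m (kd m lab) t y ++ (pDown m (kd0 m lab) y ++
      (pEv1 m (kd m lab) t y w :: pEv2 m (kd m lab) t v y)), i.isn))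

/-- **Target T_PSWE** (swapped balls of an even pass).  For correct labels and even `t`,
`2 ≤ t ≤ 2 m`, the pass swaps: the balls of the label `B` at `t`; if the label at `t` is `A` the
balls `y, w, h(t+1)`; if the label at `t` is `no` and the label at `t - 1` is `A` the balls
`h t, v, y`.

Proof.  The places are `π = 2m` (`pEv1`), `π = 2m - 2, ..., 2` and `π = 0` (the last item).
`B false d`: kind U at `π = d` if d is even (`2 ≤ d ≤ m`, so `m ≥ 2` and `d ≤ 2m - 2`) or at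
`π = M - d` if d is odd; for `d = 1` this is `π = 2m`, the item `pEv1` with the balls
`h(t+1), h(t-1), y`; otherwise `π ≤ 2m - 2` and the balls are `h(t - π), h(t + π), y`.
`B true d`: kind L at `π = d - 1` if d is odd; for `d = 1` this is `π = 0`, the last item with the
balls `h t, y, h(t+2)`; for `d ≥ 3` the balls are `h(t - π), y, h(t + π + 2)`; or at `π = 2m - d`
if d
is even (`2 ≤ π ≤ 2m - 2`).  In all cases the indices are `t + σ - d`, `t + σ + d`, with
`σ = 0` (`false`), `1` (`true`).  `A`: kind L at `π = 2m`: `h(t+1), y, w`.  `no`: kind U at `π = 0`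
if
`lab (t-1) = A`: `h t, v, y`; otherwise nothing.  `S` does not occur (only at time 1). -/
def T_PSWE : Prop :=
  ∀ (α : Type) (m : ℕ) (lab : ℕ → Lab) (t : ℕ) (v y w : α), 1 ≤ m → LabOK m lab →
    t % 2 = 0 → 2 ≤ t → t ≤ 2 * m →
    wsw (pEv1 m (kd m lab) t y w :: pEv2 m (kd m lab) t v y) =
      lsw α m t (ob m y) (lab t) +
      (if lab t = Lab.A then {ob m y, ob m w, hb α m ((t : ZMod (2 * m + 1)) + 1)} else 0) +
      (if lab t = Lab.no ∧ lab (t - 1) = Lab.A then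
        {hb α m (t : ZMod (2 * m + 1)), ob m v, ob m y} else 0) ∧
    wF (pEv1 m (kd m lab) t y w :: pEv2 m (kd m lab) t v y) =
      lF (lab t) + (if lab t = Lab.A then 1 else 0) +
      (if lab t = Lab.no ∧ lab (t - 1) = Lab.A then 1 else 0)

/-- the contribution of the pass `u ≥ 1` -/
def pc (m : ℕ) (lab : ℕ → Lab) {α : Type} (Y : ℕ → α) (u : ℕ) : Multiset (Tb α m) :=
  lsw α m u (ob m (Y u)) (lab u) +
    (if u % 2 = 0 ∧ lab u = Lab.A then
      {ob m (Y u), ob m (Y (u + 1)), hb α m ((u : ZMod (2 * m + 1)) + 1)} else 0) +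
    (if u % 2 = 0 ∧ lab u = Lab.no ∧ lab (u - 1) = Lab.A then
      {hb α m (u : ZMod (2 * m + 1)), ob m (Y (u - 1)), ob m (Y u)} else 0)

/-- the number of flags of the pass `u ≥ 1` -/
def pcF (lab : ℕ → Lab) (u : ℕ) : ℕ :=
  lF (lab u) + (if u % 2 = 0 ∧ lab u = Lab.A then 1 else 0) +
    (if u % 2 = 0 ∧ lab u = Lab.no ∧ lab (u - 1) = Lab.A then 1 else 0)

/-- **Target T_THKS** (the numbers of the middle part).  Let `w` have only undecorated moves and
quadrangles, `t` odd, `t + 2 * nmv L w ≤ 2 m - 1`, `y` and the balls passed by `L` be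
`Y t, Y (t+1), ...`.  Then the swapped balls of `thk m (kd m lab) L t y w` are those of `w` and the
contributions of the passes `t, ..., t + 2 nmv - 1`; the numbers of moves, flags and quadrangles.

Proof.  Induction on `w`, for all `t, y`.  For `i = mv L x q z k` (kind `k = n`, it swaps nothing):
`wpas L w = q :: z :: wpas L w1`, so `y = Y t`, `q = Y (t+1)`, `z = Y (t+2)`; T_PSWO (1) for the
pass
`t` (`pc` at odd `u` is `lsw`), T_PSWE for the pass `t + 1` with `v = Y t`, `y = Y (t+1)`,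
`w = Y (t+2)`; the hypothesis for `w1` with `t + 2`, `y1 = z`.  The number of moves grows by
`m + (m + 1) - 1 = 2m`.  `nmv L (i :: w1) = nmv L w1 + 1`.
Other items: the image under `ob m` (`It.sw` commutes with `map`). -/
def T_THKS : Prop :=
  ∀ (α : Type) [DecidableEq α] (m : ℕ) (lab : ℕ → Lab) (L : α) (w : List (It α)) (Y : ℕ → α)
    (y : α) (t : ℕ), 1 ≤ m → LabOK m lab → (∀ i ∈ w, i.isnq) → t % 2 = 1 →
    t + 2 * nmv L w ≤ 2 * m - 1 →
    y :: wpas L w = (List.range (2 * nmv L w + 1)).map (fun i => Y (t + i)) →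
    wsw (thk m (kd m lab) L t y w) = (wsw w).map (ob m) +
      ∑ i ∈ Finset.range (2 * nmv L w), pc m lab Y (t + i) ∧
    wN (thk m (kd m lab) L t y w) = wN w + 2 * m * nmv L w ∧
    wQ (thk m (kd m lab) L t y w) = wQ w ∧
    wF (thk m (kd m lab) L t y w) = ∑ i ∈ Finset.range (2 * nmv L w), pcF lab (t + i)

/-- **Target T_CSUM** (the contributions of the passes and of the labels).

Proof.  `cov m Y t l = lsw α m t (Y t) l + [l = A] tri t` with
`tri t = {Y t, Y (t+1), h (t+1)}` (cases of `l`), where [P] X means `X` if P and 0 otherwise.  For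
`u ≥ 1`: `pc u = lsw u + [u even, lab u = A] tri u + [u even, lab u = no, lab (u-1) = A] tri (u-1)`,
since `{h u, Y (u-1), Y u} = tri (u-1)`.  By LabOK `lab (u-1) = A` implies `lab u = no` for
`u ≤ 2m`.  Sum over `u = 1, ..., 2m`: the last terms give [lab t = A] tri t over the odd
`t = u - 1 ≤ 2m - 1`, the middle terms over the even `t ≥ 2`; together with the term `t = 0` we have
all.  The same with numbers (`nlab l = lF l + [l = A]`).
(Induction on `m'` for the sum over `1 ≤ u ≤ 2 m'`, two passes at a time, is convenient: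
the sum of `pc u` over `1 ≤ u ≤ 2m'` plus the terms at 0 is the sum of `cov` over
`0 ≤ t ≤ 2m'`, for every `m' ≤ m`.) -/
def T_CSUM : Prop :=
  ∀ (α : Type) (m : ℕ) (lab : ℕ → Lab) (Y : ℕ → α), 1 ≤ m → LabOK m lab →
    lsw α m 0 (ob m (Y 0)) (lab 0) +
      (if lab 0 = Lab.A then {ob m (Y 0), ob m (Y 1), hb α m 1} else 0) +
      ∑ i ∈ Finset.range (2 * m), pc m lab Y (1 + i) =
      ∑ t ∈ Finset.range (2 * m + 1), cov m Y t (lab t) ∧
    lF (lab 0) + (if lab 0 = Lab.A then 1 else 0) + ∑ i ∈ Finset.range (2 * m), pcF lab (1 + i) =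
      ∑ t ∈ Finset.range (2 * m + 1), nlab (lab t)

/-- **Target T_THCK** (the thick doubling with labels).

Proof.  T_THCW with `κ = kd m lab`, `κ0 = kd0 m lab`, `kA = kdA lab` gives `c'` (the kinds are
allowed by T_PSWO (3)).  `c'.word = thword ..`:
`wmap w1`, the first item of `pDown`, its tail (together `pDown`, T_PDWN (1)), the move
`mv K (h 1) q z kA`, `thk .. 1 q w2`, `pOdd (2m-1) y`, the joining item, which is
`pEv1 m κ (2m) x K` (T_PEND (4)), `pEv2 m κ (2m) y x`, `wmap w3`.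
With `c.P = (range (2m+1)).map Y`: `Y 0 = K`, `Y 1 = q`, `q :: wpas L w2 = Y 1, ..., Y (2m-1)`
(`nmv L w2 = m - 1`), `Y (2m - 1) = y` (T_PALL (4)), `Y (2m) = x`, `Y (2m+1) = K`.
Swapped balls: `wsw (wmap (ob m) w) = (wsw w).map (ob m)`; `pDown`: `lsw 0` (T_PSWO (2)); the move
with `kA`: kind U iff `lab 0 = A`, balls `K, h 1, q = Y 0, h 1, Y 1`; `thk`: T_THKS with `t = 1`,
the
passes `1, ..., 2m - 2`; `pOdd (2m-1)`: `pc (2m-1)`; last pass: T_PSWE with `t = 2m`, `v = y`,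
`y = x`, `w = K`: this is `pc (2m)`.  T_CSUM gives the sum of `cov`.  (`c.lv`, `c.jn` have kind n by
PlainQ; they swap nothing, and `c.sw = wsw w1 + wsw w2 + wsw w3`.)
Moves: `wN w1 + m + 1 + (wN w2 + 2m(m-1)) + m + (m + 1) + wN w3
 = (wN w1 + 1 + wN w2 + 1 + wN w3) + 2m^2 + m`.  Quadrangles unchanged.
`ball c'.S`: the block has the balls `K`, `h 0` and `h (±(2j+2))`, `j < m`, these are all new balls
once; and `ball c.B0 + {K} = P` as multiset by T_PALL (1).  The kinds: T_PSWO (5), and the items of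
`w1, w2, w3` satisfy `isnq`; if all labels are `no` then `kdA lab = n`. -/
def T_THCK : Prop :=
  ∀ (α : Type) [DecidableEq α] (c : CW α) (m : ℕ) (lab : ℕ → Lab) (Y : ℕ → α),
    1 ≤ m → c.n = m + 1 → c.PlainQ → LabOK m lab →
    c.P = (List.range (2 * m + 1)).map Y → Y (2 * m + 1) = Y 0 →
    ∃ c' : CW (Tb α m), c'.n = 2 * m + 1 ∧ c'.N = c.N + m * (2 * m + 1) ∧ c'.Q = c.Q ∧
      c'.F = ∑ t ∈ Finset.range (2 * m + 1), nlab (lab t) ∧
      c'.sw = c.sw.map (ob m) + ∑ t ∈ Finset.range (2 * m + 1), cov m Y t (lab t) ∧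
      ball c'.S = (Multiset.range (2 * m + 1)).map (fun t => ob m (Y t)) +
        (Finset.univ : Finset (ZMod (2 * m + 1))).val.map (hb α m) ∧
      ((∀ t, lab t ≠ Lab.S) → c'.FullQ) ∧ ((∀ t, lab t = Lab.no) → c'.PlainQ) ∧
      ((∀ t, lab t = Lab.no) → c.Plain → c'.Plain) ∧
      c'.PK = hb α m 0 :: (hs α m ++ c.PK.tail.map (ob m))

end Bn
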