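import Pool.Agent.BIN.TA
import Pool.Agent.BIN.TC
set_option autoImplicit false
set_option linter.all false

/-!
# BIN: target LRUN, the ball `L` in a run in which it is tracked
-/

namespace Bn

namespace LRUN_

variable {α : Type}

theorem ball_app (A B : List (Sym2 α)) : ball (A ++ B) = ball A + ball B := by
  simp [ball]

theorem ball_cons (e : Sym2 α) (B : List (Sym2 α)) : ball (e :: B) = e.toMultiset + ball B := by
  simp [ball]

theorem ball_one (a b : α) : ball [s(a, b)] = {a} + {b} := by
  simp only [ball, List.map_cons, List.map_nil, List.sum_cons, List.sum_nil, add_zero]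
  rfl

theorem mem_one (a b c : α) : c ∈ ball [s(a, b)] ↔ c = a ∨ c = b := by
  rw [ball_one]
  simp

/-- an item either moves `L` or does not touch it -/
theorem item [DecidableEq α] {K L : α} (i : It α) (hi : i.ok {K, L}) :
    (∃ x q z k, i = It.mv L x q z k) ∨ ((∀ e ∈ i.l, L ∉ e) ∧ i.pas L = []) := by
  have hb : L ∈ ({K, L} : Set α) := by simp
  cases i with
  | mv p x q z k =>
    obtain ⟨hx, hq, hz, hp⟩ := hi
    by_cases hpb : p = L
    · left
      exact ⟨x, q, z, k, by rw [hpb]⟩
    · right
      have e1 : L ≠ x := fun h => hx (h ▸ hb)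
      have e2 : L ≠ q := fun h => hq (h ▸ hb)
      have e3 : L ≠ z := fun h => hz (h ▸ hb)
      have e4 : L ≠ p := fun h => hpb h.symm
      refine ⟨?_, ?_⟩
      · intro e he
        simp only [It.l, List.mem_cons, List.not_mem_nil, or_false] at he
        rcases he with rfl | rfl
        · simp [Sym2.mem_iff, e1, e4]
        · simp [Sym2.mem_iff, e2, e3]
      · simp [It.pas, hpb]
  | qd e d a x c w =>
    obtain ⟨h1, h2, h3, h4, h5, h6⟩ := hi
    right
    have e1 : L ≠ e := fun h => h1 (h ▸ hb)
    have e2 : L ≠ d := fun h => h2 (h ▸ hb)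
    have e3 : L ≠ a := fun h => h3 (h ▸ hb)
    have e4 : L ≠ x := fun h => h4 (h ▸ hb)
    have e5 : L ≠ c := fun h => h5 (h ▸ hb)
    have e6 : L ≠ w := fun h => h6 (h ▸ hb)
    refine ⟨?_, ?_⟩
    · intro u hu
      simp only [It.l, List.mem_cons, List.not_mem_nil, or_false] at hu
      rcases hu with rfl | rfl | rfl
      · simp [Sym2.mem_iff, e1, e2]
      · simp [Sym2.mem_iff, e3, e4]
      · simp [Sym2.mem_iff, e5, e6]
    · simp [It.pas]

end LRUN_

open LRUN_

theorem p_LRUN (h1 : T_RUN) (h2 : T_SPLT) : T_LRUN := by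
  intro α _ K L w
  induction w with
  | nil =>
    intro S S' A B y hr hS hA hB hyK hyL
    have he : S = S' := hr
    refine ⟨A, B, y, by rw [← he, hS], hA, hB, hyK, hyL, ?_, ?_, ?_, ?_, fun h => h⟩
    · simp [wpas]
    · simp [nmv, wpas]
    · simp [nmv, wpas]
    · simp [wpas]
  | cons i w ih =>
    intro S S' A B y hr hS hA hB hyK hyL
    obtain ⟨hi, C, D, hS1, hr1⟩ := hr
    have hrun := h1.2.2.2.2.2.2.2 α {K, L} i hi
    have hbal : ball i.r = ball i.l := h1.2.2.2.2.2.2.1 α {K, L} [i] i.l i.r hrun
    have hlen : i.r.length = i.l.length := h1.2.2.2.2.2.1 α {K, L} [i] i.l i.r hrun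
    rcases item i hi with ⟨x, q, z, k, rfl⟩ | ⟨hl, hpas⟩
    · obtain ⟨hx, hq, hz, hp⟩ := hi
      have hqK : q ≠ K := fun h => hq (by simp [h])
      have hqL : q ≠ L := fun h => hq (by simp [h])
      have hzK : z ≠ K := fun h => hz (by simp [h])
      have hzL : z ≠ L := fun h => hz (by simp [h])
      have he : C ++ (s(L, x) :: (s(q, z) :: D)) = A ++ (s(L, y) :: B) := by
        rw [← hS, hS1]
        simp [It.l]
      obtain ⟨e1, e2, e3⟩ := h2.2.1 α C (s(q, z) :: D) A B L x y he hA hB
      have hLD : L ∉ ball D := by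
        intro h
        apply hB
        rw [← e3, (h2.2.2 α A D s(q, z) L).2]
        exact Or.inr h
      have hL1 : L ∉ ball (A ++ [s(y, q)]) := by
        rw [(h2.2.2 α A [s(y, q)] s(y, q) L).1, mem_one]
        rintro (h | h | h)
        · exact hA h
        · exact hyL h.symm
        · exact hqL h.symm
      have hst : C ++ ((It.mv L x q z k).r ++ D) = (A ++ [s(y, q)]) ++ (s(L, z) :: D) := by
        rw [e1, e2]
        simp [It.r]
      obtain ⟨A', B', y', g1, g2, g3, g4, g5, g6, g7, g8, g9, g10⟩ :=
        ih _ S' (A ++ [s(y, q)]) D z hr1 hst hL1 hLD hzK hzL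
      have hw : wpas L (It.mv L x q z k :: w) = q :: z :: wpas L w := by
        simp [wpas, It.pas]
      have hn : nmv L (It.mv L x q z k :: w) = nmv L w + 1 := by
        unfold nmv
        rw [hw]
        simp only [List.length_cons]
        omega
      refine ⟨A', B', y', g1, g2, g3, g4, g5, ?_, ?_, ?_, ?_, ?_⟩
      · rw [hw, List.getLast?_cons_cons, List.getLast?_cons_cons]
        exact g6
      · rw [g7, hn]
        simp only [List.length_append, List.length_cons, List.length_nil]
        omega
      · rw [hw, hn]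
        simp only [List.length_cons]
        omega
      · rw [g9, hw, ball_app, ball_one, ← Multiset.cons_coe, ← Multiset.cons_coe,
          ← Multiset.singleton_add, ← Multiset.singleton_add]
        abel
      · intro hK
        apply g10
        rw [(h2.2.2 α A [s(y, q)] s(y, q) K).1, mem_one]
        rintro (h | h | h)
        · exact hK h
        · exact hyK h.symm
        · exact hqK h.symm
    · have hw : wpas L (i :: w) = wpas L w := by
        simp [wpas, hpas]
      have hn : nmv L (i :: w) = nmv L w := by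
        unfold nmv
        rw [hw]
      have hne : s(L, y) ∉ i.l := fun h => hl _ h (by simp)
      rw [hw, hn]
      rcases h2.1 (Sym2 α) C i.l D A B (s(L, y)) hne (hS1.symm.trans hS) with
        ⟨E, hC, hB1⟩ | ⟨E, hD, hA1⟩
      · refine ih _ S' A (E ++ (i.r ++ D)) y hr1 ?_ hA ?_ hyK hyL
        · rw [hC]
          simp
        · rw [ball_app, ball_app, hbal, ← ball_app, ← ball_app, ← hB1]
          exact hB
      · have hb : ball (C ++ (i.r ++ E)) = ball A := by
          rw [ball_app, ball_app, hbal, ← ball_app, ← ball_app, ← hA1]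
        have hle : (C ++ (i.r ++ E)).length = A.length := by
          rw [hA1]
          simp only [List.length_append, hlen]
        obtain ⟨A', B', y', g1, g2, g3, g4, g5, g6, g7, g8, g9, g10⟩ :=
          ih _ S' (C ++ (i.r ++ E)) B y hr1 (by rw [hD]; simp) (by rw [hb]; exact hA) hB hyK hyL
        refine ⟨A', B', y', g1, g2, g3, g4, g5, g6, ?_, g8, ?_, ?_⟩
        · rw [g7, hle]
        · rw [g9, hb]
        · intro hK
          exact g10 (by rw [hb]; exact hK)

end Bn
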