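import Pool.Agent.BIN.Base
set_option autoImplicit false

/-!
# BIN: target MKB, a checked base word is a clean word
-/

namespace Bn

namespace MKB_

theorem st_app (S S' : List (ℕ × ℕ)) : st (S ++ S') = st S ++ st S' := by
  unfold st
  exact List.map_append

theorem st_rev (S : List (ℕ × ℕ)) : st S.reverse = (st S).reverse := by
  unfold st
  exact List.map_reverse

theorem set0 : {a : ℕ | a ∈ ([] : List ℕ)} = ∅ := by
  ext a
  simp

theorem set2 (K L : ℕ) : {a : ℕ | a ∈ [K, L]} = {K, L} := by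
  ext a
  simp

end MKB_

open MKB_ in
theorem p_MKB (h1 : T_CHK) : T_MKB := by
  intro d hd
  unfold BD.okb at hd
  simp only [Bool.and_eq_true, decide_eq_true_eq] at hd
  obtain ⟨⟨⟨⟨⟨c1, c2⟩, c3⟩, c4⟩, c5⟩, c6⟩ := hd
  obtain ⟨hchk, hnd⟩ := h1
  have r1 := hchk _ _ _ _ c1
  have r2 := hchk _ _ _ _ c2
  have r3 := hchk _ _ _ _ c3
  rw [set0] at r1 r3
  rw [set2, st_app] at r2
  rw [st_app, st_rev] at r3
  have hn := (hnd _).2 c4
  exact ⟨{ K := d.K, L := d.L, B0 := st d.B0, w1 := d.w1, k1 := d.k1, q := d.q, z := d.z,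
           B1 := st d.B1, w2 := d.w2, A := st d.A, y := d.y, x := d.x, k2 := d.k2,
           w3 := d.w3, hk1 := c5, hk2 := c6, nd := hn, r1 := r1, r2 := r2, r3 := r3 },
    by simp [CW.n, st], rfl, rfl⟩

end Bn
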