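import Pool.Agent.BIN.Defs
set_option autoImplicit false
set_option linter.all false

/-!
# BIN: targets of group A (general facts on runs)
-/

namespace Bn

/-- **Target T_RUN** (basic facts).  For all types and all data:
(1) runs compose; (2) a run of `w ++ w'` splits; (3) a run may be put into a context;
(4) renaming: if `f a ∈ T'` implies `a ∈ T` then a run for `T` becomes a run for `T'`;
(5) a run for `T` is a run for every smaller set of tracked balls;
(6) the number of bins does not change; (7) the multiset of the balls does not change;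
(8) a run of one item between `i.l` and `i.r`.

Proof.  All by induction on `w` for all states.  (1), (2): unfold `Run`; for `w = []` trivial.
(3): if `S = A' ++ (i.l ++ B')` then `A ++ (S ++ B) = (A ++ A') ++ (i.l ++ (B' ++ B))`
(`List.append_assoc`).
(4): `smap f (A ++ (i.l ++ B)) = smap f A ++ ((i.map f).l ++ smap f B)` because
`smap f i.l = (i.map f).l` (cases, `Sym2.map_mk`), the same for `r`; safety: `x ∉ T` gives
`f x ∉ T'` by contraposition of the hypothesis; `f p ∈ T'` gives `p ∈ T`, so `k.tr`.
(5): (4) with `f = id`, or directly.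
(6): `i.l` and `i.r` have the same length.
(7): `ball` is additive on `++` (`List.map_append, List.sum_append`) and `ball i.l = ball i.r`:
for a move `{p, x} + {q, z} = {x, q} + {p, z}`, for a quadrangle
`{e, d} + {a, x} + {c, w} = {e, x} + {c, d} + {a, w}` as multisets.
(8): `A = B = []`. -/
def T_RUN : Prop :=
  (∀ (α : Type) (T : Set α) (w w' : List (It α)) (S S' S'' : List (Sym2 α)),
    Run T w S S' → Run T w' S' S'' → Run T (w ++ w') S S'') ∧
  (∀ (α : Type) (T : Set α) (w w' : List (It α)) (S S'' : List (Sym2 α)),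
    Run T (w ++ w') S S'' → ∃ S', Run T w S S' ∧ Run T w' S' S'') ∧
  (∀ (α : Type) (T : Set α) (w : List (It α)) (S S' A B : List (Sym2 α)),
    Run T w S S' → Run T w (A ++ (S ++ B)) (A ++ (S' ++ B))) ∧
  (∀ (α β : Type) (f : α → β) (T : Set α) (T' : Set β) (w : List (It α))
    (S S' : List (Sym2 α)), (∀ a, f a ∈ T' → a ∈ T) → Run T w S S' →
    Run T' (wmap f w) (smap f S) (smap f S')) ∧
  (∀ (α : Type) (T T' : Set α) (w : List (It α)) (S S' : List (Sym2 α)), T' ⊆ T →
    Run T w S S' → Run T' w S S') ∧
  (∀ (α : Type) (T : Set α) (w : List (It α)) (S S' : List (Sym2 α)), Run T w S S' →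
    S'.length = S.length) ∧
  (∀ (α : Type) (T : Set α) (w : List (It α)) (S S' : List (Sym2 α)), Run T w S S' →
    ball S' = ball S) ∧
  (∀ (α : Type) (T : Set α) (i : It α), i.ok T → Run T [i] i.l i.r)

/-- **Target T_RTAU** (reading a run backwards, and forgetting the decoration).
(1) `Run T w S S'` implies `Run T (wtau w) S'.reverse S.reverse`.
(2) `Run T w S S'` implies `Run T (wfg w) S S'`.
(3) the numbers: `wN (wtau w) = wN w`, `wQ (wtau w) = wQ w`, `wN (wfg w) = wN w`; if all items of
`w` satisfy `isnq` then `wsw (wtau w) = wsw w`; all items of `wtau w` satisfy `isnq` and all items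
of
`wfg w` satisfy `isn`.

Proof.  (1) Induction on `w` for all `S`.  `wtau (i :: w) = wtau w ++ [i.tau]`.  From
`S = A ++ (i.l ++ B)` and the run from `A ++ (i.r ++ B)`: the induction hypothesis gives a run from
`S'.reverse` to `(A ++ (i.r ++ B)).reverse = B.reverse ++ (i.r.reverse ++ A.reverse)`.  Now
`i.r.reverse = i.tau.l` and `i.l.reverse = i.tau.r`: for a move
the reverse of the bins s(x, q), s(p, z) is s(p, z), s(x, q), that is s(p, z), s(q, x)
(`Sym2.eq_swap`), and the reverse of s(p, x), s(q, z) is s(q, z), s(p, x), that is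
s(z, q), s(p, x); for a quadrangle the reverse of s(e, x), s(c, d), s(a, w) is
s(w, a), s(d, c), s(x, e), and the reverse of s(e, d), s(a, x), s(c, w) is
s(w, c), s(x, a), s(d, e).
`i.tau` is safe when `i` is safe.  Put the last item behind (append two runs).
(2) Induction on `w`; for a move nothing changes (kind `n` is allowed always).  For a quadrangle
in the context `A, B`: first the move `mv a x c w n` with context `A ++ [s(e, d)]`, `B`: the bins
`s(a, x), s(c, w)` become `s(x, c), s(a, w)`; then `mv d e x c n` with context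
`A`, `s(a, w) :: B`: the bins `s(d, e), s(x, c)` become `s(e, x), s(d, c)`.
(3) Cases of the items. -/
def T_RTAU : Prop :=
  (∀ (α : Type) (T : Set α) (w : List (It α)) (S S' : List (Sym2 α)), Run T w S S' →
    Run T (wtau w) S'.reverse S.reverse) ∧
  (∀ (α : Type) (T : Set α) (w : List (It α)) (S S' : List (Sym2 α)), Run T w S S' →
    Run T (wfg w) S S') ∧
  (∀ (α : Type) (w : List (It α)), wN (wtau w) = wN w ∧ wQ (wtau w) = wQ w ∧
    wN (wfg w) = wN w ∧ ((∀ i ∈ w, i.isnq) → wsw (wtau w) = wsw w) ∧
    (∀ i ∈ wtau w, i.isnq) ∧ (∀ i ∈ wfg w, i.isn))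

/-- **Target T_CFG** (forgetting the decoration of a clean word): for every clean word `c` there is
a clean word `c'` with the same number of bins and moves and without decoration.

Proof.  Take `K, L, B0, q, z, B1, A, y, x` as in `c`, `k1 = k2 = n`, and `wfg` of the three
phases.  The runs by T_RTAU (2).  The word of `c'` is
`wfg c.w1 ++ (mv K L q z n :: (wfg c.w2 ++ (mv L y x K n :: wfg c.w3)))`; the counts are additive
(`wN (a ++ b) = wN a + wN b`, `wN (i :: a) = i.N + wN a`) and T_RTAU (3). -/
def T_CFG : Prop :=
  ∀ (α : Type) (c : CW α), ∃ c' : CW α, c'.n = c.n ∧ c'.N = c.N ∧ c'.Plain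

/-- **Target T_FCT** (counting the flags): if every item of the clean word `c` is a move of kind n,
U, L or a quadrangle, and every ball is swapped exactly once, then `3 F + 4 Q = 2 n`.

Proof.  For an item with `isfq` the multiset `sw` has `3 F + 4 Q` elements (cases).  Sum over the
word: the cardinality of `c.sw` is `3 F + 4 Q`.  The cardinality of `ball c.S` is twice the number
of bins, `c.S.length = c.n` (`Sym2.card_toMultiset`, induction). -/
def T_FCT : Prop :=
  ∀ (α : Type) (c : CW α), c.FullQ → c.Cov → 3 * c.F + 4 * c.Q = 2 * c.n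

/-- **Target T_CTAU** (a clean word read backwards).  For a clean word `c` without decorated moves
there is a clean word `c'` with the same numbers, the same swapped balls, without decorated moves,
and with `c'.P = c.L :: c.PK.tail.reverse`, `c'.PK = c.K :: c.P.tail.reverse`.

Proof.  Put `c'.K = c.L`, `c'.L = c.K`, `c'.B0 = c.B0`, `c'.w1 = wtau c.w3`, `c'.k1 = n`,
`c'.q = c.x`, `c'.z = c.y`, `c'.B1 = c.A.reverse`, `c'.w2 = wtau c.w2`, `c'.A = c.B1.reverse`,
`c'.y = c.z`, `c'.x = c.q`, `c'.k2 = n`, `c'.w3 = wtau c.w1`.  The runs by T_RTAU (1):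
the reverse of `A ++ [s(y, x)]` is `s(y, x) :: A.reverse` and `s(y, x) = s(x, y)`; the reverse of
`A ++ [s(L, y), s(K, x)]` is `s(K, x) :: s(L, y) :: A.reverse`; the reverse of
`s(L, q) :: s(K, z) :: B1` is `B1.reverse ++ [s(K, z), s(L, q)]`; the tracked set `{L, K}` is the
set `{K, L}`.  `c'.word` is the list of the `tau` of the items of `c.word` in reverse order up to
`c'.lv = c.jn.tau` and `c'.jn = c.lv.tau` (with kinds n).  Counts by T_RTAU (3); `c.lv` and `c.jn`
have kind n by hypothesis, so they swap nothing.

The order of passing.  Lemma: let `b ∈ T`, `Run T w S S'`, `S = A ++ s(b, m) :: B`,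
`S' = A' ++ s(b, m') :: B'`, and let `b` not occur in `A, B` (so by T_RUN (7) in S' it occurs only
there).  Then `m' :: wpas b (wtau w) = (m :: wpas b w).reverse`.
Induction on `w`: if the first item does not have `p = b` then (safety) `b` is not in the item at
all, the bin `s(b, m)` is not touched (it is in the context `A` or `B` of the item, since the bins
of
`i.l` do not contain `b`; compare the two decompositions of the list), and neither list changes.
If the first item is `mv b x q z k` then its left bin contains `b`, so it is the bin `s(b, m)`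
(`b` occurs once) and `x = m`; after the item the bin of `b` is `s(b, z)`.  With the induction
hypothesis for the rest `w'`: `m' :: wpas b (wtau w') = (z :: wpas b w').reverse`.  Here
`wtau w = wtau w' ++ [mv b z q m n]`, so `wpas b (wtau w) = wpas b (wtau w') ++ [q, m]`, and
`(m :: wpas b w).reverse = (m :: q :: z :: wpas b w').reverse
 = (z :: wpas b w').reverse ++ [q, m] = m' :: wpas b (wtau w') ++ [q, m]`.
Apply the lemma to `c.r2` with `b = K` (mates `z` at the start and `x` at the end):
`x :: wpas K (wtau w2) = (z :: wpas K w2).reverse`.  Then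
`c'.P = L :: x :: (wpas K (wtau w2) ++ [q]) = L :: ((z :: wpas K w2).reverse ++ [q])
 = L :: (q :: z :: wpas K w2).reverse = L :: c.PK.tail.reverse`.
With `b = L` (mates `q` at the start and `y` at the end):
`y :: wpas L (wtau w2) = (q :: wpas L w2).reverse`, and
`c'.PK = K :: x :: y :: wpas L (wtau w2) = K :: x :: (q :: wpas L w2).reverse
 = K :: (q :: (wpas L w2 ++ [x])).reverse = K :: c.P.tail.reverse`.
(`K ≠ L` and the single occurrences follow from `c.nd`, from T_RUN (7) applied to `c.r1`, and the
fact that the state `s(L, q) :: s(K, z) :: B1` has the same balls as `s(K, L) :: s(q, z) :: B1`.) -/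
def T_CTAU : Prop :=
  ∀ (α : Type) [DecidableEq α] (c : CW α), c.PlainQ →
    ∃ c' : CW α, c'.n = c.n ∧ c'.N = c.N ∧ c'.Q = c.Q ∧ c'.PlainQ ∧ c'.sw = c.sw ∧
      c'.P = c.L :: c.PK.tail.reverse ∧ c'.PK = c.K :: c.P.tail.reverse

/-- **Target T_SPLT** (two decompositions of one list).
(1) If `A ++ (l ++ B) = A' ++ (e :: B')` and `e` is not in `l`, then either `A = A' ++ (e :: C)` and
`B' = C ++ (l ++ B)` for some `C`, or `B = C ++ (e :: B')` and `A' = A ++ (l ++ C)` for some `C`.
(2) For states: if `A ++ (s(L, x) :: B) = A' ++ (s(L, y) :: B')` and the ball `L` is neither in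
`ball A'` nor in `ball B'`, then `A = A'`, `x = y`, `B = B'`.
(3) a ball is in `ball (A ++ B)` iff it is in `ball A` or in `ball B`; it is in `ball (e :: B)` iff
it is in `e` or in `ball B`.

Proof.  (1) Induction on `A` and `A'` (or `List.append_eq_append_iff`): if `A' = []` and `A = []`:
`l ++ B = e :: B'`; `l = []` (otherwise `e` is the head of `l`), so `B = e :: B'`, `C = []`.  If
`A' = []`, `A = a :: A1`: `a = e`, `B' = A1 ++ (l ++ B)`, `C = A1`.  If `A = []`, `A' = a' :: A1'`:
if `l = []` then `B = A' ++ (e :: B')`, `C = A'`; if `l = b :: l'` then `b = a'` and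
`l' ++ B = A1' ++ (e :: B')`, induct on the length of `A'`.  If both are not empty, cancel the
heads.
(2) By induction on `A, A'`: the bin `s(L, x)` contains `L`, so it is not in `A'` and not in `B'`.
Hence it is at the place of `s(L, y)`; `s(L, x) = s(L, y)` gives `x = y` (`Sym2.congr_right`).
(3) `List.map_append`, `List.sum_append`, `Multiset.mem_add`, `Sym2.mem_toMultiset`. -/
def T_SPLT : Prop :=
  (∀ (γ : Type) (A l B A' B' : List γ) (e : γ), e ∉ l → A ++ (l ++ B) = A' ++ (e :: B') →
    (∃ C, A = A' ++ (e :: C) ∧ B' = C ++ (l ++ B)) ∨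
    (∃ C, B = C ++ (e :: B') ∧ A' = A ++ (l ++ C))) ∧
  (∀ (α : Type) (A B A' B' : List (Sym2 α)) (L x y : α),
    A ++ (s(L, x) :: B) = A' ++ (s(L, y) :: B') → L ∉ ball A' → L ∉ ball B' →
    A = A' ∧ x = y ∧ B = B') ∧
  (∀ (α : Type) (A B : List (Sym2 α)) (e : Sym2 α) (a : α),
    (a ∈ ball (A ++ B) ↔ a ∈ ball A ∨ a ∈ ball B) ∧ (a ∈ ball (e :: B) ↔ a ∈ e ∨ a ∈ ball B))

end Bn
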