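import Pool.Agent.BIN.TD
import Pool.Agent.BIN.TA
set_option autoImplicit false

namespace Bn

theorem p_NRUN (h1 : T_RUN) (h2 : T_NW) : T_NRUN := by
  obtain ⟨hcomp, -, hctx, -⟩ := h1
  intro α _ T T' k ρ w
  induction w with
  | nil =>
    intro S S' hr _ _
    refine ⟨[], ?_, ?_, ?_, ?_⟩
    · have : S = S' := hr
      subst this
      exact rfl
    · simp [wN]
    · simp
    · simp [wpas]
  | cons i w ih =>
    intro S S' hr hn hT
    obtain ⟨hok, A, B, rfl, hr'⟩ := hr
    obtain ⟨w2, a1, a2, a3, a4⟩ := ih _ _ hr' (fun j hj => hn j (by simp [hj])) hT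
    have hi := hn i (by simp)
    cases i with
    | qd e d a x c w' => exact absurd hi (by simp [It.isn])
    | mv p x q z kk =>
      obtain ⟨hx, hq, hz, -⟩ := hok
      obtain ⟨w1, b1, b2, b3, b4⟩ := h2 α k ρ p x q z T'
        (fun i => ⟨hT x hx i, hT q hq i, hT z hz i⟩)
      refine ⟨w1 ++ w2, ?_, ?_, ?_, ?_⟩
      · refine hcomp _ _ _ _ _ (Phi k ρ (A ++ ((It.mv p x q z kk).r ++ B))) _ ?_ a1
        have := hctx _ _ _ _ _ (Phi k ρ A) (Phi k ρ B) b1
        simpa [Phi, It.l, It.r, List.flatMap_append, List.append_assoc] using this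
      · simp only [wN, List.map_append, List.sum_append, List.map_cons, List.sum_cons] at *
        rw [b2, a2]
        simp only [It.N]
        ring
      · intro j hj
        rcases List.mem_append.1 hj with h | h
        · exact b3 j h
        · exact a3 j h
      · simp only [wpas, List.flatMap_append] at *
        rw [b4, a4]
        rfl

end Bn
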