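import Pool.Agent.BIN.TD
import Pool.Agent.BIN.TA
set_option autoImplicit false
set_option linter.all false

/-!
# BIN: target NW, the scaled undecorated move
-/

namespace Bn

namespace NW_

variable {β : Type}

/-- the bins with the given balls and mates -/
def Z (B M : List β) : List (Sym2 β) := List.zipWith (fun a m => s(a, m)) B M

theorem Z_cons (a m : β) (B M : List β) : Z (a :: B) (m :: M) = s(a, m) :: Z B M := rfl

theorem Z_app (B M B' M' : List β) (h : B.length = M.length) :
    Z (B ++ B') (M ++ M') = Z B M ++ Z B' M' := by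
  unfold Z
  exact List.zipWith_append h

theorem Z_map (k : ℕ) (f g : ℕ → β) :
    Z ((List.range k).map f) ((List.range k).map g) =
      (List.range k).map (fun i => s(f i, g i)) := by
  unfold Z
  rw [List.zipWith_map, List.zipWith_self]

theorem wN_cons (i : It β) (w : List (It β)) : wN (i :: w) = i.N + wN w := by
  simp [wN]

theorem wN_app (w w' : List (It β)) : wN (w ++ w') = wN w + wN w' := by
  simp [wN]

/-- one ball goes down -/
theorem one [DecidableEq β] (h1 : T_RUN) (T : Set β) (b : β) : ∀ (cs ms : List β) (a m : β),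
    cs.length = ms.length → a ≠ b → (∀ c ∈ cs, c ∉ T) → m ∉ T → (∀ x ∈ ms, x ∉ T) →
    ∃ w : List (It β), Run T w (Z (a :: cs) (m :: ms)) (Z (cs ++ [a]) (m :: ms)) ∧
      wN w = cs.length ∧ (∀ i ∈ w, i.isn) ∧ wpas b w = [] := by
  obtain ⟨-, -, hctx, -⟩ := h1
  intro cs
  induction cs with
  | nil =>
    intro ms a m hl hab _ hm _
    have : ms = [] := List.length_eq_zero_iff.1 hl.symm
    subst this
    exact ⟨[], rfl, rfl, by simp, rfl⟩
  | cons c cs ih =>
    intro ms a m hl hab hc hm hms
    cases ms with
    | nil => simp at hl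
    | cons m' ms =>
      obtain ⟨w, hw, hN, hi, hp⟩ := ih ms a m' (by simpa using hl) hab
        (fun c hc' => hc c (List.mem_cons_of_mem _ hc')) (hms m' List.mem_cons_self)
        (fun x hx => hms x (List.mem_cons_of_mem _ hx))
      refine ⟨It.mv a m c m' Kd.n :: w, ?_, ?_, ?_, ?_⟩
      · refine ⟨⟨hm, hc c List.mem_cons_self, hms m' List.mem_cons_self, fun _ => Or.inl rfl⟩,
          [], Z cs ms, rfl, ?_⟩
        have h2 := hctx β T w _ _ [s(m, c)] [] hw
        simp only [List.append_nil] at h2
        have e1 : [s(m, c)] ++ Z (a :: cs) (m' :: ms) =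
            [] ++ ((It.mv a m c m' Kd.n).r ++ Z cs ms) := by
          simp [Z, It.r]
        have e2 : [s(m, c)] ++ Z (cs ++ [a]) (m' :: ms) =
            Z (c :: cs ++ [a]) (m :: m' :: ms) := by
          rw [show s(m, c) = s(c, m) from Sym2.eq_swap]
          rfl
        rw [e1, e2] at h2
        exact h2
      · rw [wN_cons, hN]
        simp [It.N]
        ring
      · intro i hi'
        rcases List.mem_cons.1 hi' with rfl | hi'
        · rfl
        · exact hi i hi'
      · have : wpas b (It.mv a m c m' Kd.n :: w) = It.pas b (It.mv a m c m' Kd.n) ++ wpas b w :=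
          rfl
        rw [this, hp]
        simp [It.pas, hab]

/-- several balls go down -/
theorem many [DecidableEq β] (h1 : T_RUN) (T : Set β) (b : β) : ∀ (ps cs ms : List β),
    ms.length = ps.length + cs.length → (∀ a ∈ ps, a ≠ b) → (∀ c ∈ cs, c ∉ T) →
    (∀ x ∈ ms, x ∉ T) →
    ∃ w : List (It β), Run T w (Z (ps ++ cs) ms) (Z (cs ++ ps) ms) ∧
      wN w = ps.length * cs.length ∧ (∀ i ∈ w, i.isn) ∧ wpas b w = [] := by
  intro ps
  induction ps with
  | nil =>
    intro cs ms _ _ _ _
    refine ⟨[], ?_, by simp [wN], by simp, rfl⟩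
    show Z ([] ++ cs) ms = Z (cs ++ []) ms
    simp
  | cons a ps ih =>
    intro cs ms hl hps hcs hms
    cases ms with
    | nil =>
      simp at hl
      omega
    | cons m ms =>
      have hl' : ms.length = ps.length + cs.length := by
        simp at hl
        omega
      obtain ⟨w, hw, hN, hi, hp⟩ := ih cs ms hl' (fun a ha => hps a (List.mem_cons_of_mem _ ha))
        hcs (fun x hx => hms x (List.mem_cons_of_mem _ hx))
      -- split the mates
      obtain ⟨m1, m2, rfl, hm1⟩ : ∃ m1 m2 : List β, ms = m1 ++ m2 ∧ cs.length = m1.length := by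
        refine ⟨ms.take cs.length, ms.drop cs.length, (List.take_append_drop _ _).symm, ?_⟩
        rw [List.length_take]
        omega
      obtain ⟨w', hw', hN', hi', hp'⟩ := one h1 T b cs m1 a m hm1 (hps a List.mem_cons_self) hcs
        (hms m List.mem_cons_self)
        (fun x hx => hms x (List.mem_cons_of_mem _ (List.mem_append_left _ hx)))
      obtain ⟨hcomp, -, hctx, -⟩ := h1
      have r1 := hctx β T w _ _ [s(a, m)] [] hw
      have r2 := hctx β T w' _ _ [] (Z ps m2) hw'
      simp only [List.append_nil, List.nil_append] at r1 r2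
      have e1 : [s(a, m)] ++ Z (ps ++ cs) (m1 ++ m2) = Z (a :: ps ++ cs) (m :: (m1 ++ m2)) := rfl
      have e2 : [s(a, m)] ++ Z (cs ++ ps) (m1 ++ m2) = Z (a :: cs) (m :: m1) ++ Z ps m2 := by
        rw [Z_app cs m1 ps m2 hm1]
        rfl
      have e3 : Z (cs ++ [a]) (m :: m1) ++ Z ps m2 = Z (cs ++ a :: ps) (m :: (m1 ++ m2)) := by
        rw [← Z_app _ _ _ _ (by simp [hm1])]
        simp
      rw [e1, e2] at r1
      rw [e3] at r2
      refine ⟨w ++ w', hcomp β T w w' _ _ _ r1 r2, ?_, ?_, ?_⟩
      · rw [wN_app, hN, hN', List.length_cons]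
        ring
      · intro i hi''
        rcases List.mem_append.1 hi'' with h | h
        · exact hi i h
        · exact hi' i h
      · unfold wpas at hp hp' ⊢
        rw [List.flatMap_append, hp, hp']
        rfl

end NW_

open NW_ in
theorem p_NW (h1 : T_RUN) : T_NW := by
  intro α _ k ρ p x q z T hT
  have hsc : ∀ a b : α, sc k ρ s(a, b) = Z ((List.range k).map (fun i => (some a, ρ a i)))
      ((List.range k).map (fun i => (some b, ρ b i))) := by
    intro a b
    rw [Z_map]
    rfl
  obtain ⟨w, hw, hN, hi, hp⟩ := many h1 T (none, 0)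
    ((List.range k).map (fun i => (some p, ρ p i)))
    ((List.range k).map (fun i => (some q, ρ q i)))
    ((List.range k).map (fun i => (some x, ρ x i)) ++
      (List.range k).map (fun i => (some z, ρ z i))) (by simp)
    (by
      intro a ha
      obtain ⟨i, -, rfl⟩ := List.mem_map.1 ha
      simp)
    (by
      intro a ha
      obtain ⟨i, -, rfl⟩ := List.mem_map.1 ha
      exact (hT i).2.1)
    (by
      intro a ha
      rcases List.mem_append.1 ha with ha | ha
      · obtain ⟨i, -, rfl⟩ := List.mem_map.1 ha
        exact (hT i).1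
      · obtain ⟨i, -, rfl⟩ := List.mem_map.1 ha
        exact (hT i).2.2)
  rw [Z_app _ _ _ _ (by simp), Z_app _ _ _ _ (by simp)] at hw
  refine ⟨w, ?_, by simpa using hN, hi, hp⟩
  rw [hsc p x, hsc q z, show s(x, q) = s(q, x) from Sym2.eq_swap, hsc q x, hsc p z]
  exact hw

end Bn
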