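import Pool.Agent.BIN.TD
set_option autoImplicit false
set_option linter.all false

/-!
# BIN: the three seams are correct (OKS)
-/

namespace Bn

namespace OKS_

theorem inj (l : List ℕ) (hnd : l.Nodup) (hlt : ∀ x ∈ l, x < l.length) :
    Function.Injective (fun i => l.getD i i) := by
  intro i j h
  have h' : l.getD i i = l.getD j j := h
  by_cases hi : i < l.length
  · by_cases hj : j < l.length
    · rw [List.getD_eq_getElem _ _ hi, List.getD_eq_getElem _ _ hj] at h'
      exact (hnd.getElem_inj_iff).1 h'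
    · rw [List.getD_eq_getElem _ _ hi, List.getD_eq_default _ _ (not_lt.1 hj)] at h'
      exact absurd (h' ▸ hlt _ (List.getElem_mem hi)) hj
  · by_cases hj : j < l.length
    · rw [List.getD_eq_getElem _ _ hj, List.getD_eq_default _ _ (not_lt.1 hi)] at h'
      exact absurd (h'.symm ▸ hlt _ (List.getElem_mem hj)) hi
    · rw [List.getD_eq_default _ _ (not_lt.1 hi), List.getD_eq_default _ _ (not_lt.1 hj)] at h'
      exact h'

theorem lt (l : List ℕ) (hlt : ∀ x ∈ l, x < l.length) (i : ℕ) (hi : i < l.length) :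
    l.getD i i < l.length := by
  rw [List.getD_eq_getElem _ _ hi]
  exact hlt _ (List.getElem_mem hi)

end OKS_

theorem p_OKS : T_OKS := by
  refine ⟨⟨?_, ?_, ?_, ?_, ?_⟩, ⟨?_, ?_, ?_, ?_, ?_⟩, ⟨?_, ?_, ?_, ?_, ?_⟩⟩
  · decide +kernel
  · exact OKS_.inj _ (by decide) (by decide)
  · exact OKS_.lt [2, 1, 0] (by decide)
  · decide
  · decide +kernel
  · decide +kernel
  · exact OKS_.inj _ (by decide) (by decide)
  · exact OKS_.lt [4, 5, 2, 3, 0, 1] (by decide)
  · decide
  · decide +kernel
  · decide +kernel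
  · exact OKS_.inj _ (by decide) (by decide)
  · exact OKS_.lt [8, 9, 10, 11, 7, 6, 5, 4, 3, 2, 1, 0] (by decide)
  · decide
  · decide +kernel

end Bn
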