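import Pool.Agent.BIN.TA
set_option autoImplicit false

/-!
# BIN: target RUN, basic facts on runs
-/

namespace Bn

namespace RUN_

theorem comp (α : Type) (T : Set α) (w w' : List (It α)) (S S' S'' : List (Sym2 α)) :
    Run T w S S' → Run T w' S' S'' → Run T (w ++ w') S S'' := by
  induction w generalizing S with
  | nil =>
    intro h1 h2
    have h1' : S = S' := h1
    rw [h1']
    exact h2
  | cons i w ih =>
    rintro ⟨h1, A, B, h2, h3⟩ h4
    exact ⟨h1, A, B, h2, ih _ h3 h4⟩

theorem split (α : Type) (T : Set α) (w w' : List (It α)) (S S'' : List (Sym2 α)) :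
    Run T (w ++ w') S S'' → ∃ S', Run T w S S' ∧ Run T w' S' S'' := by
  induction w generalizing S with
  | nil =>
    intro h
    exact ⟨S, rfl, h⟩
  | cons i w ih =>
    rintro ⟨h1, A, B, h2, h3⟩
    obtain ⟨S', h4, h5⟩ := ih _ h3
    exact ⟨S', ⟨h1, A, B, h2, h4⟩, h5⟩

theorem ctx (α : Type) (T : Set α) (w : List (It α)) (S S' A B : List (Sym2 α)) :
    Run T w S S' → Run T w (A ++ (S ++ B)) (A ++ (S' ++ B)) := by
  induction w generalizing S with
  | nil =>
    intro h
    have h' : S = S' := h
    rw [h']
    exact rfl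
  | cons i w ih =>
    rintro ⟨h1, A', B', h2, h3⟩
    refine ⟨h1, A ++ A', B' ++ B, ?_, ?_⟩
    · rw [h2]
      simp only [List.append_assoc]
    · have h4 := ih _ h3
      have h5 : A ++ ((A' ++ (i.r ++ B')) ++ B) = (A ++ A') ++ (i.r ++ (B' ++ B)) := by
        simp only [List.append_assoc]
      rw [h5] at h4
      exact h4

theorem smap_app {α β : Type} (f : α → β) (A B : List (Sym2 α)) :
    smap f (A ++ B) = smap f A ++ smap f B := by
  unfold smap
  exact List.map_append

theorem smap_l {α β : Type} (f : α → β) (i : It α) : smap f i.l = (i.map f).l := by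
  cases i <;> rfl

theorem smap_r {α β : Type} (f : α → β) (i : It α) : smap f i.r = (i.map f).r := by
  cases i <;> rfl

theorem ok_map {α β : Type} (f : α → β) (T : Set α) (T' : Set β)
    (h : ∀ a, f a ∈ T' → a ∈ T) (i : It α) (hi : i.ok T) : (i.map f).ok T' := by
  cases i with
  | mv p x q z k =>
    obtain ⟨h1, h2, h3, h4⟩ := hi
    exact ⟨fun hh => h1 (h _ hh), fun hh => h2 (h _ hh), fun hh => h3 (h _ hh),
      fun hh => h4 (h _ hh)⟩
  | qd e d a x c w =>
    obtain ⟨h1, h2, h3, h4, h5, h6⟩ := hi
    exact ⟨fun hh => h1 (h _ hh), fun hh => h2 (h _ hh), fun hh => h3 (h _ hh),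
      fun hh => h4 (h _ hh), fun hh => h5 (h _ hh), fun hh => h6 (h _ hh)⟩

theorem ren (α β : Type) (f : α → β) (T : Set α) (T' : Set β) (w : List (It α))
    (S S' : List (Sym2 α)) : (∀ a, f a ∈ T' → a ∈ T) → Run T w S S' →
    Run T' (wmap f w) (smap f S) (smap f S') := by
  intro hf
  induction w generalizing S with
  | nil =>
    intro h
    have h' : S = S' := h
    rw [h']
    exact rfl
  | cons i w ih =>
    rintro ⟨h1, A, B, h2, h3⟩
    refine ⟨ok_map f T T' hf i h1, smap f A, smap f B, ?_, ?_⟩
    · rw [h2, smap_app, smap_app, smap_l]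
    · have h4 := ih _ h3
      rw [smap_app, smap_app, smap_r] at h4
      exact h4

theorem smaller (α : Type) (T T' : Set α) (w : List (It α)) (S S' : List (Sym2 α)) :
    T' ⊆ T → Run T w S S' → Run T' w S S' := by
  intro hT
  induction w generalizing S with
  | nil => exact id
  | cons i w ih =>
    rintro ⟨h1, A, B, h2, h3⟩
    refine ⟨?_, A, B, h2, ih _ h3⟩
    have h4 := ok_map id T T' (fun a ha => hT ha) i h1
    cases i <;> exact h4

theorem len (α : Type) (T : Set α) (w : List (It α)) (S S' : List (Sym2 α)) :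
    Run T w S S' → S'.length = S.length := by
  induction w generalizing S with
  | nil =>
    intro h
    have h' : S = S' := h
    rw [h']
  | cons i w ih =>
    rintro ⟨h1, A, B, h2, h3⟩
    rw [ih _ h3, h2]
    have h4 : i.r.length = i.l.length := by cases i <;> rfl
    simp only [List.length_append, h4]

theorem ball_app {α : Type} (A B : List (Sym2 α)) : ball (A ++ B) = ball A + ball B := by
  unfold ball
  rw [List.map_append, List.sum_append]

theorem ball_cons {α : Type} (a b : α) (B : List (Sym2 α)) :
    ball (s(a, b) :: B) = {a, b} + ball B := by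
  unfold ball
  rw [List.map_cons, List.sum_cons]
  rfl

theorem ball_nil {α : Type} : ball ([] : List (Sym2 α)) = 0 := rfl

theorem pair {α : Type} (a b : α) : ({a, b} : Multiset α) = {a} + {b} := by
  rw [Multiset.singleton_add]
  rfl

theorem ball_item {α : Type} (i : It α) : ball i.r = ball i.l := by
  cases i with
  | mv p x q z k =>
    simp only [It.r, It.l, ball_cons, ball_nil, pair]
    abel
  | qd e d a x c w =>
    simp only [It.r, It.l, ball_cons, ball_nil, pair]
    abel

theorem bal (α : Type) (T : Set α) (w : List (It α)) (S S' : List (Sym2 α)) :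
    Run T w S S' → ball S' = ball S := by
  induction w generalizing S with
  | nil =>
    intro h
    have h' : S = S' := h
    rw [h']
  | cons i w ih =>
    rintro ⟨h1, A, B, h2, h3⟩
    rw [ih _ h3, h2]
    simp only [ball_app, ball_item]

theorem one (α : Type) (T : Set α) (i : It α) (hi : i.ok T) : Run T [i] i.l i.r :=
  ⟨hi, [], [], by simp, by simp [Run]⟩

end RUN_

theorem p_RUN : T_RUN :=
  ⟨RUN_.comp, RUN_.split, RUN_.ctx, RUN_.ren, RUN_.smaller, RUN_.len, RUN_.bal, RUN_.one⟩

end Bn
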