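import Pool.Agent.BIN.TC
import Pool.Agent.BIN.P_RUN
set_option autoImplicit false

/-!
# BIN: the order P of a clean word (PALL)
-/

namespace Bn

namespace PALL_

theorem ball_rev {α : Type} (S : List (Sym2 α)) : ball S.reverse = ball S := by
  unfold ball
  rw [List.map_reverse, List.sum_reverse]

theorem four {α : Type} (a b c d : α) (M : Multiset α)
    (h : (({a, b} : Multiset α) + (({c, d} : Multiset α) + M)).Nodup) :
    a ≠ b ∧ a ≠ c ∧ a ≠ d ∧ a ∉ M ∧ b ≠ c ∧ b ≠ d ∧ b ∉ M ∧ c ≠ d := by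
  rw [RUN_.pair, RUN_.pair, add_assoc, add_assoc, Multiset.singleton_add, Multiset.singleton_add,
    Multiset.singleton_add, Multiset.singleton_add] at h
  simp only [Multiset.nodup_cons, Multiset.mem_cons, not_or] at h
  tauto

theorem nd4 {α : Type} (a b c d : α) (h1 : a ≠ b) (h2 : a ≠ c) (h3 : a ≠ d) (h4 : b ≠ c)
    (h5 : b ≠ d) (h6 : c ≠ d) (k : Kd) : (ball (It.mv a b c d k).l).Nodup := by
  simp only [It.l, RUN_.ball_cons, RUN_.ball_nil, RUN_.pair]
  rw [add_assoc, add_assoc, add_zero, Multiset.singleton_add, Multiset.singleton_add,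
    Multiset.singleton_add]
  simp only [Multiset.nodup_cons, Multiset.mem_cons, Multiset.mem_singleton, not_or,
    Multiset.nodup_singleton]
  tauto

end PALL_

open PALL_ in
theorem p_PALL (_h1 : T_RUN) (h2 : T_SPLT) (h3 : T_LRUN) : T_PALL := by
  intro α _ c
  have e1 : ({c.q, c.z} : Multiset α) + ball c.B1 = ball c.B0 := by
    have := RUN_.bal α ∅ c.w1 c.B0 (s(c.q, c.z) :: c.B1) c.r1
    rw [RUN_.ball_cons] at this
    exact this
  have e3 : ball c.B0 = ({c.y, c.x} : Multiset α) + ball c.A := by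
    have := RUN_.bal α ∅ c.w3 (c.A ++ [s(c.y, c.x)]) c.B0.reverse c.r3
    rw [ball_rev, RUN_.ball_app, RUN_.ball_cons, RUN_.ball_nil, add_zero] at this
    rw [this, add_comm]
  have nd0 : (({c.K, c.L} : Multiset α) + ball c.B0).Nodup := by
    have := c.nd
    rw [RUN_.ball_cons] at this
    exact this
  have f1 := four c.K c.L c.q c.z (ball c.B1) (by rw [e1]; exact nd0)
  have f2 := four c.K c.L c.y c.x (ball c.A) (by rw [← e3]; exact nd0)
  obtain ⟨a1, a2, a3, a4, a5, a6, a7, a8⟩ := f1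
  obtain ⟨-, b2, b3, b4, b5, b6, b7, b8⟩ := f2
  have hLB : c.L ∉ ball (s(c.K, c.z) :: c.B1) := by
    rw [RUN_.ball_cons, RUN_.pair]
    simp only [Multiset.mem_add, Multiset.mem_singleton, not_or]
    exact ⟨⟨fun h => a1 h.symm, a6⟩, a7⟩
  have hKB : c.L ∉ ball ([] : List (Sym2 α)) := by
    rw [RUN_.ball_nil]
    exact Multiset.notMem_zero _
  obtain ⟨A', B', y', g1, g2, g3, g4, g5, g6, g7, g8, g9, -⟩ :=
    h3 α c.K c.L c.w2 _ _ [] (s(c.K, c.z) :: c.B1) c.q c.r2 rfl hKB hLB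
      (fun h => a2 h.symm) (fun h => a5 h.symm)
  obtain ⟨k1, k2, -⟩ := h2.2.1 α c.A [s(c.K, c.x)] A' B' c.L c.y y' g1 g2 g3
  subst k1
  subst k2
  have hlen : c.B0.length = c.A.length + 1 := by
    have := RUN_.len α ∅ c.w3 (c.A ++ [s(c.y, c.x)]) c.B0.reverse c.r3
    simpa using this
  have hn : c.n = c.A.length + 2 := by
    unfold CW.n
    omega
  have hA : c.A.length = nmv c.L c.w2 := by simpa using g7
  refine ⟨?_, nd4 _ _ _ _ a1 a2 a3 a5 a6 a8 _,
    nd4 _ _ _ _ b5 b6 a1.symm b8 b2.symm b3.symm _, by omega, by omega, g6, ?_, a4, a7, b4, b7⟩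
  · have hS : ball c.S = ({c.K, c.L} : Multiset α) + ball c.B0 := by
      unfold CW.S
      rw [RUN_.ball_cons]
    have hP : (c.P : Multiset α) = {c.K} + ({c.q} + ((wpas c.L c.w2 : Multiset α) + {c.x})) := by
      unfold CW.P
      rw [← Multiset.cons_coe, ← Multiset.cons_coe, ← Multiset.coe_add, Multiset.coe_singleton,
        Multiset.singleton_add, Multiset.singleton_add]
    have g9' : ball c.A + {c.y} = {c.q} + (wpas c.L c.w2 : Multiset α) := by
      rw [g9, RUN_.ball_nil, zero_add]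
    rw [hS, hP, e3, RUN_.pair, RUN_.pair]
    calc {c.K} + {c.L} + ({c.y} + {c.x} + ball c.A)
        = {c.L} + ({c.K} + ((ball c.A + {c.y}) + {c.x})) := by abel
      _ = {c.L} + ({c.K} + (({c.q} + (wpas c.L c.w2 : Multiset α)) + {c.x})) := by rw [g9']
      _ = _ := by abel
  · have : c.P.length = (wpas c.L c.w2).length + 3 := by
      unfold CW.P
      simp
    rw [this, g8, ← hA, hn]
    ring

end Bn
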