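import Pool.Agent.BIN.TC
set_option autoImplicit false

/-!
# BIN: target PDWN, the pass of `K` down at time 0
-/

namespace Bn

namespace PDWN_

/-- an even number between 2 and `2 m` is not 0 mod `2 m + 1` -/
theorem ne0 (m i : ℕ) (h1 : 1 ≤ i) (h2 : i ≤ m) : (2 * (i : ZMod (2 * m + 1))) ≠ 0 := by
  intro h
  have h3 : ((2 * i : ℕ) : ZMod (2 * m + 1)) = 0 := by
    rw [Nat.cast_mul]
    exact h
  rw [ZMod.natCast_eq_zero_iff] at h3
  have h4 := Nat.le_of_dvd (by omega) h3
  omega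

theorem nin (α : Type) (m : ℕ) (K : α) (b : ZMod (2 * m + 1)) (h : b ≠ 0) :
    hb α m b ∉ ({ob m K, hb α m 0} : Set (Tb α m)) := by
  intro h1
  rcases h1 with h1 | h1
  · exact Sum.inr_ne_inl h1
  · exact h (Sum.inr_injective h1)

/-- the bins above -/
def pre (α : Type) (m : ℕ) (j : ℕ) : Sym2 (Tb α m) :=
  s(hb α m (-(2 * (j : ZMod (2 * m + 1)))), hb α m (2 * (j : ZMod (2 * m + 1)) + 2))

/-- the bins below -/
def suf (α : Type) (m : ℕ) (j : ℕ) : Sym2 (Tb α m) :=
  s(hb α m (2 * (j : ZMod (2 * m + 1)) + 2), hb α m (-(2 * (j : ZMod (2 * m + 1)) + 2)))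

/-- the exchanges -/
def ex {α : Type} (m : ℕ) (κ0 : ℕ → Kd) (K : α) (j : ℕ) : It (Tb α m) :=
  It.mv (ob m K) (hb α m (-(2 * (j : ZMod (2 * m + 1)))))
    (hb α m (2 * (j : ZMod (2 * m + 1)) + 2)) (hb α m (-(2 * (j : ZMod (2 * m + 1)) + 2)))
    (κ0 (j + 1))

theorem run (α : Type) (m : ℕ) (κ0 : ℕ → Kd) (K : α) (hk : ∀ j, (κ0 j).tr) (d : ℕ) :
    ∀ i : ℕ, 1 ≤ i → i + d ≤ m →
    Run {ob m K, hb α m 0} ((List.range' i d).map (ex m κ0 K))
      ((List.range i).map (pre α m) ++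
        (s(ob m K, hb α m (-(2 * (i : ZMod (2 * m + 1))))) :: (List.range' i d).map (suf α m)))
      ((List.range (i + d)).map (pre α m) ++
        [s(ob m K, hb α m (-(2 * ((i + d : ℕ) : ZMod (2 * m + 1)))))]) := by
  induction d with
  | zero =>
    intro i _ _
    exact rfl
  | succ d ih =>
    intro i h1 h2
    have h3 := ih (i + 1) (by omega) (by omega)
    have e1 : 2 * ((i + 1 : ℕ) : ZMod (2 * m + 1)) = 2 * (i : ZMod (2 * m + 1)) + 2 := by
      push_cast
      ring
    have e2 : i + 1 + d = i + (d + 1) := by omega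
    have n1 : 2 * (i : ZMod (2 * m + 1)) ≠ 0 := ne0 m i h1 (by omega)
    have n2 : 2 * (i : ZMod (2 * m + 1)) + 2 ≠ 0 := by
      rw [← e1]
      exact ne0 m (i + 1) (by omega) (by omega)
    rw [e2, e1, List.range_succ, List.map_append, List.append_assoc] at h3
    rw [List.range'_succ, List.map_cons, List.map_cons]
    refine ⟨⟨nin α m K _ (neg_ne_zero.mpr n1), nin α m K _ n2,
      nin α m K _ (neg_ne_zero.mpr n2), fun _ => hk _⟩,
      (List.range i).map (pre α m), (List.range' (i + 1) d).map (suf α m), rfl, h3⟩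

end PDWN_

open PDWN_ in
theorem p_PDWN : T_PDWN := by
  intro α m κ0 K X hm hk
  obtain ⟨n, rfl⟩ : ∃ n, m = n + 1 := ⟨m - 1, by omega⟩
  have hD : pDown (n + 1) κ0 K = ex (n + 1) κ0 K 0 ::
      (List.range' 1 n).map (ex (n + 1) κ0 K) := by
    have h : pDown (n + 1) κ0 K = (List.range (n + 1)).map (ex (n + 1) κ0 K) := rfl
    rw [h, List.range_eq_range', List.range'_succ, List.map_cons]
  have hT : Tp2 α (n + 1) 0 = suf α (n + 1) 0 :: (List.range' 1 n).map (suf α (n + 1)) := by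
    have h : Tp2 α (n + 1) 0 = (List.range (n + 1)).map (suf α (n + 1)) := by
      unfold Tp2
      refine List.map_congr_left ?_
      intro j _
      unfold suf
      rw [Sym2.eq_swap, Nat.cast_zero, zero_add, zero_sub]
    rw [h, List.range_eq_range', List.range'_succ, List.map_cons]
  refine ⟨?_, ?_, ?_, ?_⟩
  · rw [hD]
    simp [ex]
  · have h3 := run α (n + 1) κ0 K hk n 1 le_rfl (by omega)
    rw [hD, hT, List.tail_cons, List.tail_cons]
    have e1 : (List.range 1).map (pre α (n + 1)) ++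
        (s(ob (n + 1) K, hb α (n + 1) (-(2 * ((1 : ℕ) : ZMod (2 * (n + 1) + 1))))) ::
          (List.range' 1 n).map (suf α (n + 1))) =
        s(hb α (n + 1) 0, hb α (n + 1) 2) :: s(ob (n + 1) K, hb α (n + 1) (-2)) ::
          (List.range' 1 n).map (suf α (n + 1)) := by
      simp [pre]
    have e2 : (List.range (1 + n)).map (pre α (n + 1)) ++
        [s(ob (n + 1) K, hb α (n + 1) (-(2 * ((1 + n : ℕ) : ZMod (2 * (n + 1) + 1)))))] =
        Bot (n + 1) 1 (ob (n + 1) K) := by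
      have z : -(2 * ((1 + n : ℕ) : ZMod (2 * (n + 1) + 1))) =
          ((1 : ℕ) : ZMod (2 * (n + 1) + 1)) := by
        have z1 : ((2 * (n + 1) + 1 : ℕ) : ZMod (2 * (n + 1) + 1)) = 0 := ZMod.natCast_self _
        push_cast at z1 ⊢
        linear_combination -z1
      rw [z, Nat.add_comm 1 n, Sym2.eq_swap]
      unfold Bot
      refine congrArg₂ (· ++ ·) (List.map_congr_left ?_) rfl
      intro j _
      unfold pre
      have a1 : -(2 * (j : ZMod (2 * (n + 1) + 1))) =
          ((1 : ℕ) : ZMod (2 * (n + 1) + 1)) - (2 * (j : ZMod (2 * (n + 1) + 1)) + 1) := by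
        push_cast
        ring
      have a2 : 2 * (j : ZMod (2 * (n + 1) + 1)) + 2 =
          ((1 : ℕ) : ZMod (2 * (n + 1) + 1)) + (2 * (j : ZMod (2 * (n + 1) + 1)) + 1) := by
        push_cast
        ring
      rw [a1, a2]
    rw [e1, e2] at h3
    exact h3
  · rw [hT, List.tail_cons]
    simp [suf]
  · unfold Top
    rw [Nat.cast_zero]

end Bn
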