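import Pool.Agent.BIN.TC
set_option autoImplicit false
set_option linter.all false

/-!
# BIN: the last pass and the closing of the block (PEND)
-/

namespace Bn

namespace PEND_

theorem hM (m : ℕ) : (2 * (m : ZMod (2 * m + 1)) + 1) = 0 := by
  have h := ZMod.natCast_self (2 * m + 1)
  push_cast at h
  exact h

theorem step {β : Type} (T : Set β) {p x q z : β} {k : Kd} {A B : List (Sym2 β)}
    {e1 e2 e3 e4 : Sym2 β} (h1 : s(p, x) = e1) (h2 : s(q, z) = e2) (h3 : s(x, q) = e3)
    (h4 : s(p, z) = e4) (hok : (It.mv p x q z k).ok T) {w : List (It β)} {S' : List (Sym2 β)}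
    (h : Run T w (A ++ (e3 :: e4 :: B)) S') :
    Run T (It.mv p x q z k :: w) (A ++ (e1 :: e2 :: B)) S' := by
  subst h1 h2 h3 h4
  exact ⟨hok, A, B, rfl, h⟩

theorem ok0 {β : Type} (p x q z : β) (k : Kd) : (It.mv p x q z k).ok ∅ :=
  ⟨fun h => h, fun h => h, fun h => h, fun h => False.elim h⟩

theorem hbe (α : Type) (m : ℕ) {b b' : ZMod (2 * m + 1)} (h : b = b') :
    hb α m b = hb α m b' := by
  rw [h]

theorem s_e {β : Type} {a b c d : β} (h1 : a = c) (h2 : b = d) : s(a, b) = s(c, d) := by
  rw [h1, h2]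

theorem s_w {β : Type} {a b c d : β} (h1 : a = d) (h2 : b = c) : s(a, b) = s(c, d) := by
  rw [h1, h2]
  exact Sym2.eq_swap

/-- the bins before the pass -/
def f (α : Type) (m t : ℕ) (j : ℕ) : Sym2 (Tb α m) :=
  s(hb α m ((t : ZMod (2 * m + 1)) - (2 * (j : ZMod (2 * m + 1)) + 2)),
    hb α m ((t : ZMod (2 * m + 1)) + (2 * (j : ZMod (2 * m + 1)) + 2)))

/-- the bins after the pass -/
def g (α : Type) (m t : ℕ) (j : ℕ) : Sym2 (Tb α m) :=
  s(hb α m ((t : ZMod (2 * m + 1)) - 2 * (j : ZMod (2 * m + 1))),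
    hb α m ((t : ZMod (2 * m + 1)) + 2 * (j : ZMod (2 * m + 1)) + 2))

/-- the items of the pass -/
theorem pass (α : Type) (m : ℕ) (κ : ℕ → ℕ → Kd) (t : ℕ) (v y : α) (k : ℕ) :
    ∀ R : List (Sym2 (Tb α m)),
    Run ∅ (((List.range k).map (fun (j : ℕ) => pit m κ t y (2 * j + 2))).reverse ++
        [It.mv (hb α m (t : ZMod (2 * m + 1))) (ob m v) (ob m y)
          (hb α m ((t : ZMod (2 * m + 1)) + 2)) (κ t 0)])
      (s(ob m v, hb α m (t : ZMod (2 * m + 1))) :: (List.range k).map (f α m t) ++
        (s(hb α m ((t : ZMod (2 * m + 1)) + (2 * (k : ZMod (2 * m + 1)) + 2)), ob m y) :: R))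
      (s(ob m v, ob m y) :: ((List.range (k + 1)).map (g α m t) ++ R)) := by
  induction k with
  | zero =>
    intro R
    refine step (A := []) ∅ Sym2.eq_swap (s_w rfl (hbe α m ?_)) rfl rfl (ok0 _ _ _ _ _) ?_
    · push_cast
      ring
    · show s(ob m v, ob m y) :: s(hb α m (t : ZMod (2 * m + 1)),
        hb α m ((t : ZMod (2 * m + 1)) + 2)) :: R = _
      have h : g α m t 0 = s(hb α m (t : ZMod (2 * m + 1)),
          hb α m ((t : ZMod (2 * m + 1)) + 2)) := by
        unfold g
        refine s_e (hbe α m ?_) (hbe α m ?_)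
        · push_cast
          ring
        · push_cast
          ring
      simp [h]
  | succ k ih =>
    intro R
    have h := ih (g α m t (k + 1) :: R)
    have e1 : (List.range (k + 1)).map (g α m t) ++ (g α m t (k + 1) :: R) =
        (List.range (k + 1 + 1)).map (g α m t) ++ R := by
      rw [List.range_succ (n := k + 1), List.map_append, List.append_assoc]
      rfl
    rw [e1] at h
    have e2 : ((List.range (k + 1)).map (fun (j : ℕ) => pit m κ t y (2 * j + 2))).reverse =
        pit m κ t y (2 * k + 2) ::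
          ((List.range k).map (fun (j : ℕ) => pit m κ t y (2 * j + 2))).reverse := by
      rw [List.range_succ, List.map_append, List.reverse_append]
      rfl
    have e3 : (s(ob m v, hb α m (t : ZMod (2 * m + 1))) :: (List.range (k + 1)).map (f α m t) ++
        (s(hb α m ((t : ZMod (2 * m + 1)) + (2 * ((k + 1 : ℕ) : ZMod (2 * m + 1)) + 2)),
          ob m y) :: R)) = (s(ob m v, hb α m (t : ZMod (2 * m + 1))) ::
          (List.range k).map (f α m t)) ++ (f α m t k ::
        s(hb α m ((t : ZMod (2 * m + 1)) + (2 * ((k + 1 : ℕ) : ZMod (2 * m + 1)) + 2)),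
          ob m y) :: R) := by
      rw [List.range_succ, List.map_append]
      simp
    rw [e2, e3]
    refine step (A := s(ob m v, hb α m (t : ZMod (2 * m + 1))) ::
      (List.range k).map (f α m t)) ∅ ?_ ?_ ?_ ?_ (ok0 _ _ _ _ _) h
    · unfold f
      refine s_e (hbe α m ?_) (hbe α m ?_)
      · push_cast
        ring
      · push_cast
        ring
    · refine s_w rfl (hbe α m ?_)
      push_cast
      ring
    · refine s_e (hbe α m ?_) rfl
      push_cast
      ring
    · unfold g
      refine s_e (hbe α m ?_) (hbe α m ?_)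
      · push_cast
        ring
      · push_cast
        ring

theorem tp2 (α : Type) (m t : ℕ) : Tp2 α m t = (List.range m).map (f α m t) := rfl

theorem part5 (α : Type) (m : ℕ) (X : Tb α m) :
    Bot m (2 * m + 1) X = (Bot m (2 * m + 1) X).dropLast ++ [s(hb α m 0, X)] := by
  have h : (((2 * m + 1 : ℕ)) : ZMod (2 * m + 1)) = 0 := ZMod.natCast_self _
  unfold Bot
  rw [List.dropLast_concat, h]

theorem botd (α : Type) (m : ℕ) (X : Tb α m) :
    (Bot m (2 * m + 1) X).dropLast = (List.range m).map (g α m (2 * m)) := by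
  unfold Bot
  rw [List.dropLast_concat]
  refine List.map_congr_left fun j _ => ?_
  have h := hM m
  refine s_e (hbe α m ?_) (hbe α m ?_)
  · push_cast
    linear_combination 0 * h
  · push_cast
    linear_combination 0 * h

theorem part4 (α : Type) (m : ℕ) (X : Tb α m) :
    (Bot m (2 * m + 1) X).dropLast = (Tp2 α m 0).reverse := by
  rw [botd, tp2]
  refine List.ext_getElem (by simp) fun j h1 h2 => ?_
  have hj : j < m := by simpa using h1
  rw [List.getElem_map, List.getElem_reverse, List.getElem_map, List.getElem_range,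
    List.getElem_range]
  have h := hM m
  rw [List.length_map, List.length_range]
  have hc : ((m - 1 - j : ℕ) : ZMod (2 * m + 1)) = (m : ZMod (2 * m + 1)) - 1 - j := by
    rw [Nat.cast_sub (by omega), Nat.cast_sub (by omega)]
    push_cast
    ring
  unfold g f
  rw [hc]
  refine s_w (hbe α m ?_) (hbe α m ?_)
  · push_cast
    ring
  · push_cast
    linear_combination 2 * h

theorem part1 (α : Type) (m : ℕ) (v : Tb α m) (hm : 1 ≤ m) :
    Top m (2 * m) v = (s(v, hb α m ((2 * m : ℕ) : ZMod (2 * m + 1))) ::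
      (List.range (m - 1)).map (f α m (2 * m))) ++ [s(hb α m 0, hb α m (-2))] := by
  obtain ⟨k, rfl⟩ : ∃ k, m = k + 1 := ⟨m - 1, by omega⟩
  unfold Top
  rw [tp2, List.range_succ, List.map_append]
  have h := hM (k + 1)
  have h2 : f α (k + 1) (2 * (k + 1)) k = s(hb α (k + 1) 0, hb α (k + 1) (-2)) := by
    unfold f
    refine s_e (hbe α _ ?_) (hbe α _ ?_)
    · push_cast
      ring
    · push_cast at h ⊢
      linear_combination 2 * h
  rw [List.map_singleton, h2]
  rfl

end PEND_

open PEND_

theorem p_PEND : T_PEND := by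
  intro α m κ v y x K X hm
  have h := hM m
  have h1 := part1 α m (ob m v) hm
  have hd : (Top m (2 * m) (ob m v)).dropLast =
      (s(ob m v, hb α m ((2 * m : ℕ) : ZMod (2 * m + 1))) ::
      (List.range (m - 1)).map (f α m (2 * m))) := by
    rw [h1, List.dropLast_concat]
  have h4 := part4 α m X
  have h5 := part5 α m X
  refine ⟨?_, ?_, ?_, h5, h4, ?_⟩
  · rw [hd]
    exact h1
  · rw [hd, botd]
    have h2 := pass α m κ (2 * m) v y (m - 1) []
    have e1 : hb α m (((2 * m : ℕ) : ZMod (2 * m + 1)) +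
        (2 * ((m - 1 : ℕ) : ZMod (2 * m + 1)) + 2)) = hb α m (-2) := by
      refine hbe α m ?_
      rw [Nat.cast_sub hm]
      push_cast
      linear_combination 2 * h
    rw [e1, Nat.sub_add_cancel hm, List.append_nil] at h2
    exact h2
  · rw [h5, h4]
    unfold Top
    rw [List.reverse_cons]
    have e1 : s(X, hb α m ((0 : ℕ) : ZMod (2 * m + 1))) = s(hb α m 0, X) :=
      s_w rfl (hbe α m (by push_cast; ring))
    rw [e1]
  · unfold pEv1
    have e1 : hb α m (((2 * m : ℕ) : ZMod (2 * m + 1)) + 1) = hb α m 0 := by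
      refine hbe α m ?_
      push_cast
      exact h
    have e2 : hb α m (((2 * m : ℕ) : ZMod (2 * m + 1)) - 1) = hb α m (-2) := by
      refine hbe α m ?_
      push_cast
      linear_combination h
    rw [e1, e2]

end Bn
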