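import Pool.Agent.BIN.TC
set_option autoImplicit false

/-!
# BIN: the pass at an even time (PEVN)
-/

namespace Bn

theorem PEVN_.app {α : Type} {T : Set α} {w w' : List (It α)} {S S' S'' : List (Sym2 α)}
    (h : Run T w S S') (h' : Run T w' S' S'') : Run T (w ++ w') S S'' := by
  induction w generalizing S with
  | nil =>
    have h1 : S = S' := h
    rw [h1]
    exact h'
  | cons i w ih =>
    obtain ⟨h1, A, B, h2, h3⟩ := h
    exact ⟨h1, A, B, h2, ih h3⟩

/-- the first part of the state -/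
def PEVN_.U (α : Type) (m t a : ℕ) : List (Sym2 (Tb α m)) :=
  (List.range a).map (fun (j : ℕ) =>
    s(hb α m ((t : ZMod (2 * m + 1)) - (2 * (j : ZMod (2 * m + 1)) + 2)),
      hb α m ((t : ZMod (2 * m + 1)) + (2 * (j : ZMod (2 * m + 1)) + 2))))

/-- a bin of the last part -/
def PEVN_.g (α : Type) (m t j : ℕ) : Sym2 (Tb α m) :=
  s(hb α m ((t : ZMod (2 * m + 1)) - 2 * (j : ZMod (2 * m + 1))),
    hb α m ((t : ZMod (2 * m + 1)) + 2 * (j : ZMod (2 * m + 1)) + 2))

/-- the state with the passing ball in the bin number `a + 1` -/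
def PEVN_.S {α : Type} (m t : ℕ) (v y w : α) (a : ℕ) : List (Sym2 (Tb α m)) :=
  s(ob m v, hb α m (t : ZMod (2 * m + 1))) :: (PEVN_.U α m t a ++
    (s(hb α m ((t : ZMod (2 * m + 1)) + 2 * (a : ZMod (2 * m + 1)) + 2), ob m y) ::
      ((List.range' (a + 1) (m - (a + 1))).map (PEVN_.g α m t) ++
        [s(hb α m ((t : ZMod (2 * m + 1)) + 1), ob m w)])))

theorem PEVN_.U_succ (α : Type) (m t a : ℕ) : PEVN_.U α m t (a + 1) = PEVN_.U α m t a ++
    [s(hb α m ((t : ZMod (2 * m + 1)) - (2 * (a : ZMod (2 * m + 1)) + 2)),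
      hb α m ((t : ZMod (2 * m + 1)) + (2 * (a : ZMod (2 * m + 1)) + 2)))] := by
  unfold PEVN_.U
  rw [List.range_succ, List.map_append]
  rfl

/-- a number which is not divisible by `2 m + 1` -/
theorem PEVN_.nz {m N : ℕ} (h : ¬ (2 * m + 1) ∣ N) : (N : ZMod (2 * m + 1)) ≠ 0 := by
  intro h1
  exact h ((ZMod.natCast_eq_zero_iff N (2 * m + 1)).1 h1)

theorem PEVN_.nd1 {m N : ℕ} (h0 : 0 < N) (h : N < 2 * m + 1) : ¬ (2 * m + 1) ∣ N := fun h1 => by
  have := Nat.le_of_dvd h0 h1
  omega

theorem PEVN_.nd2 {m N : ℕ} (h0 : 0 < N) (h : N < 4 * m + 2) (he : N % 2 = 0) :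
    ¬ (2 * m + 1) ∣ N := by
  rintro ⟨e, he'⟩
  have h1 : e < 2 := by
    by_contra h2
    push Not at h2
    have : (2 * m + 1) * 2 ≤ (2 * m + 1) * e := Nat.mul_le_mul_left _ h2
    omega
  interval_cases e <;> omega

theorem PEVN_.hnot {α : Type} {m : ℕ} {K : α} {b : ZMod (2 * m + 1)} (h : b ≠ 0) :
    hb α m b ∉ ({ob m K, hb α m 0} : Set (Tb α m)) := by
  unfold hb ob
  simp [h]

theorem PEVN_.onot {α : Type} {m : ℕ} {K y : α} (h : y ≠ K) :
    ob m y ∉ ({ob m K, hb α m 0} : Set (Tb α m)) := by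
  unfold hb ob
  simp [h]

theorem PEVN_.mid {α : Type} (m : ℕ) (κ : ℕ → ℕ → Kd) (t : ℕ) (v y w K : α) (ht : t % 2 = 0)
    (ht2 : 2 ≤ t) (htm : t + 2 ≤ 2 * m) (hy : y ≠ K) (hκ : (κ t t).tr) (a : ℕ)
    (ha : a + 1 ≤ m) :
    Run {ob m K, hb α m 0}
      ((List.range a).map (fun (j : ℕ) => pit m κ t y (2 * j + 2))).reverse
      (PEVN_.S m t v y w a) (PEVN_.S m t v y w 0) := by
  induction a with
  | zero => exact rfl
  | succ a ih =>
    have h1 : ((List.range (a + 1)).map (fun (j : ℕ) => pit m κ t y (2 * j + 2))).reverse =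
        pit m κ t y (2 * a + 2) ::
          ((List.range a).map (fun (j : ℕ) => pit m κ t y (2 * j + 2))).reverse := by
      rw [List.range_succ, List.map_append, List.reverse_append]
      rfl
    rw [h1]
    refine ⟨⟨?_, PEVN_.onot hy, ?_, ?_⟩,
      s(ob m v, hb α m (t : ZMod (2 * m + 1))) :: PEVN_.U α m t a,
      (List.range' (a + 2) (m - (a + 2))).map (PEVN_.g α m t) ++
        [s(hb α m ((t : ZMod (2 * m + 1)) + 1), ob m w)], ?_, ?_⟩
    · refine PEVN_.hnot ?_
      have h2 := PEVN_.nz (PEVN_.nd2 (m := m) (N := t + (2 * a + 2)) (by omega) (by omega)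
        (by omega))
      push_cast at h2 ⊢
      exact h2
    · refine PEVN_.hnot ?_
      have h2 := PEVN_.nz (PEVN_.nd2 (m := m) (N := t + (2 * a + 2) + 2) (by omega) (by omega)
        (by omega))
      push_cast at h2 ⊢
      exact h2
    · intro h2
      have h3 : (t : ZMod (2 * m + 1)) - ((2 * a + 2 : ℕ) : ZMod (2 * m + 1)) = 0 := by
        by_contra h4
        exact PEVN_.hnot h4 h2
      have h4 : (t : ZMod (2 * m + 1)) = ((2 * a + 2 : ℕ) : ZMod (2 * m + 1)) :=
        sub_eq_zero.1 h3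
      have h5 : t = 2 * a + 2 := by
        have h6 := (ZMod.natCast_eq_natCast_iff t (2 * a + 2) (2 * m + 1)).1 h4
        exact Nat.ModEq.eq_of_lt_of_lt h6 (by omega) (by omega)
      rw [← h5]
      exact hκ
    · have e1 : ((2 * a + 2 : ℕ) : ZMod (2 * m + 1)) = 2 * (a : ZMod (2 * m + 1)) + 2 := by
        push_cast
        ring
      unfold PEVN_.S pit It.l
      simp only
      rw [PEVN_.U_succ, e1]
      have e2 : (t : ZMod (2 * m + 1)) + 2 * ((a + 1 : ℕ) : ZMod (2 * m + 1)) + 2 =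
          (t : ZMod (2 * m + 1)) + (2 * (a : ZMod (2 * m + 1)) + 2) + 2 := by
        push_cast
        ring
      rw [e2, Sym2.eq_swap (a := ob m y)]
      simp
    · have h2 := ih (by omega)
      have e1 : ((2 * a + 2 : ℕ) : ZMod (2 * m + 1)) = 2 * (a : ZMod (2 * m + 1)) + 2 := by
        push_cast
        ring
      have e3 : m - (a + 1) = (m - (a + 2)) + 1 := by omega
      have e4 : PEVN_.S m t v y w a =
          (s(ob m v, hb α m (t : ZMod (2 * m + 1))) :: PEVN_.U α m t a) ++
            ((pit m κ t y (2 * a + 2)).r ++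
              ((List.range' (a + 2) (m - (a + 2))).map (PEVN_.g α m t) ++
                [s(hb α m ((t : ZMod (2 * m + 1)) + 1), ob m w)])) := by
        unfold PEVN_.S pit It.r
        simp only
        rw [e1, e3, List.range'_succ, List.map_cons]
        have e5 : PEVN_.g α m t (a + 1) =
            s(hb α m ((t : ZMod (2 * m + 1)) - (2 * (a : ZMod (2 * m + 1)) + 2)),
              hb α m ((t : ZMod (2 * m + 1)) + (2 * (a : ZMod (2 * m + 1)) + 2) + 2)) := by
          unfold PEVN_.g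
          push_cast
          ring_nf
        rw [e5]
        have e6 : (t : ZMod (2 * m + 1)) + 2 * (a : ZMod (2 * m + 1)) + 2 =
          (t : ZMod (2 * m + 1)) + (2 * (a : ZMod (2 * m + 1)) + 2) := by ring
        rw [e6]
        simp
      rw [e4] at h2
      exact h2

theorem p_PEVN : T_PEVN := by
  intro α m κ t v y w K hm ht ht2 htm hv hy hw hκ
  obtain ⟨m', rfl⟩ : ∃ m', m = m' + 1 := ⟨m - 1, by omega⟩
  set m := m' + 1 with hmdef
  have hM : 2 * (m' : ZMod (2 * m + 1)) + 2 = -1 := by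
    have h1 : ((2 * m + 1 : ℕ) : ZMod (2 * m + 1)) = 0 := ZMod.natCast_self _
    rw [hmdef] at h1 ⊢
    push_cast at h1 ⊢
    linear_combination h1
  refine ⟨⟨?_, PEVN_.onot hy, PEVN_.onot hw, ?_⟩,
    s(ob m v, hb α m (t : ZMod (2 * m + 1))) :: PEVN_.U α m t m', [], ?_, ?_⟩
  · refine PEVN_.hnot ?_
    have h2 := PEVN_.nz (PEVN_.nd1 (m := m) (N := t - 1) (by omega) (by omega))
    rw [Nat.cast_sub (by omega)] at h2
    simpa using h2
  · intro h2
    exfalso
    refine PEVN_.hnot ?_ h2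
    have h3 := PEVN_.nz (PEVN_.nd1 (m := m) (N := t + 1) (by omega) (by omega))
    push_cast at h3
    exact h3
  · have e1 : Tp2 α m t = PEVN_.U α m t (m' + 1) := rfl
    unfold Top
    rw [e1, PEVN_.U_succ, hM]
    unfold pEv1 It.l
    have e2 : (t : ZMod (2 * m + 1)) - -1 = t + 1 := by ring
    have e3 : (t : ZMod (2 * m + 1)) + -1 = t - 1 := by ring
    rw [e2, e3]
    simp
  · have e4 : (s(ob m v, hb α m (t : ZMod (2 * m + 1))) :: PEVN_.U α m t m') ++
        ((pEv1 m κ t y w).r ++ []) = PEVN_.S m t v y w m' := by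
      unfold PEVN_.S pEv1 It.r
      simp only
      have e5 : (t : ZMod (2 * m + 1)) + 2 * (m' : ZMod (2 * m + 1)) + 2 = t - 1 := by
        linear_combination hM
      rw [e5]
      have e6 : m - (m' + 1) = 0 := by omega
      rw [e6]
      simp
    rw [e4]
    unfold pEv2
    have e7 : m - 1 = m' := by omega
    rw [e7]
    refine PEVN_.app (PEVN_.mid m κ t v y w K ht ht2 htm hy hκ m' (by omega)) ?_
    refine ⟨⟨PEVN_.onot hv, PEVN_.onot hy, ?_, ?_⟩, [],
      (List.range' 1 (m - 1)).map (PEVN_.g α m t) ++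
        [s(hb α m ((t : ZMod (2 * m + 1)) + 1), ob m w)], ?_, ?_⟩
    · refine PEVN_.hnot ?_
      have h3 := PEVN_.nz (PEVN_.nd1 (m := m) (N := t + 2) (by omega) (by omega))
      push_cast at h3
      exact h3
    · intro h2
      exfalso
      refine PEVN_.hnot ?_ h2
      exact PEVN_.nz (PEVN_.nd1 (m := m) (N := t) (by omega) (by omega))
    · unfold PEVN_.S PEVN_.U It.l
      simp only
      rw [Sym2.eq_swap (a := ob m v), Sym2.eq_swap (b := ob m y)]
      simp
    · change _ = _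
      unfold It.r Bot
      simp only
      have e8 : (List.range m).map (fun (j : ℕ) =>
          s(hb α m (((t + 1 : ℕ) : ZMod (2 * m + 1)) - (2 * (j : ZMod (2 * m + 1)) + 1)),
            hb α m (((t + 1 : ℕ) : ZMod (2 * m + 1)) + (2 * (j : ZMod (2 * m + 1)) + 1)))) =
          (List.range m).map (PEVN_.g α m t) := by
        refine List.map_congr_left fun j _ => ?_
        unfold PEVN_.g
        push_cast
        ring_nf
      rw [e8, List.range_eq_range']
      have e9 : List.range' 0 m = 0 :: List.range' 1 (m - 1) := by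
        rw [e7, hmdef, List.range'_succ]
      have e10 : PEVN_.g α m t 0 = s(hb α m (t : ZMod (2 * m + 1)),
          hb α m ((t : ZMod (2 * m + 1)) + 2)) := by
        unfold PEVN_.g
        simp
      rw [e9, List.map_cons, e10]
      push_cast
      simp

end Bn
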