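import Pool.Agent.BIN.TC
set_option autoImplicit false

/-!
# BIN: target PODD, the pass at an odd time
-/

namespace Bn

namespace PODD_

variable {α : Type}

/-- an even number between 1 and 4 m is not zero -/
theorem ne0 {m a : ℕ} (h1 : a % 2 = 0) (h2 : 1 ≤ a) (h3 : a ≤ 4 * m) :
    ((a : ℕ) : ZMod (2 * m + 1)) ≠ 0 := by
  intro h
  rw [ZMod.natCast_eq_zero_iff] at h
  obtain ⟨c, hc⟩ := h
  have hc1 : c = 1 := by
    rcases Nat.lt_or_ge c 2 with h4 | h4
    · interval_cases c
      · omega
      · rfl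
    · have h5 : (2 * m + 1) * 2 ≤ (2 * m + 1) * c := Nat.mul_le_mul_left _ h4
      omega
  rw [hc1] at hc
  omega

theorem eq_of_cast {m a b : ℕ} (ha : a < 2 * m + 1) (hb' : b < 2 * m + 1)
    (h : ((a : ℕ) : ZMod (2 * m + 1)) = ((b : ℕ) : ZMod (2 * m + 1))) : a = b := by
  rw [ZMod.natCast_eq_natCast_iff'] at h
  rwa [Nat.mod_eq_of_lt ha, Nat.mod_eq_of_lt hb'] at h

theorem hb_notMem {m : ℕ} {K : α} {b : ZMod (2 * m + 1)} (h : b ≠ 0) :
    hb α m b ∉ ({ob m K, hb α m 0} : Set (Tb α m)) := by
  intro h1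
  rcases h1 with h1 | h1
  · exact Sum.inr_ne_inl h1
  · exact h (Sum.inr.inj h1)

theorem ob_notMem {m : ℕ} {K y : α} (h : y ≠ K) :
    ob m y ∉ ({ob m K, hb α m 0} : Set (Tb α m)) := by
  intro h1
  rcases h1 with h1 | h1
  · exact h (Sum.inl.inj h1)
  · exact Sum.inl_ne_inr h1

/-- the upper bins -/
def up (α : Type) (m t j : ℕ) : Sym2 (Tb α m) :=
  s(hb α m ((t : ZMod (2 * m + 1)) - (2 * (j : ZMod (2 * m + 1)) + 1)),
    hb α m ((t : ZMod (2 * m + 1)) + (2 * (j : ZMod (2 * m + 1)) + 1)))

/-- the lower bins -/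
def lo (α : Type) (m t j : ℕ) : Sym2 (Tb α m) :=
  s(hb α m ((t : ZMod (2 * m + 1)) - (2 * (j : ZMod (2 * m + 1)) + 1)),
    hb α m ((t : ZMod (2 * m + 1)) + (2 * (j : ZMod (2 * m + 1)) + 3)))

/-- the state when `y` is in bin `i` of the block -/
def st (m t : ℕ) (y : α) (i : ℕ) : List (Sym2 (Tb α m)) :=
  (List.range i).map (up α m t) ++
    (s(hb α m ((t : ZMod (2 * m + 1)) + (2 * (i : ZMod (2 * m + 1)) + 1)), ob m y) ::
      ((List.range m).map (lo α m t)).drop i)

theorem drop_step (m t i : ℕ) (hi : i < m) :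
    ((List.range m).map (lo α m t)).drop i =
      lo α m t i :: ((List.range m).map (lo α m t)).drop (i + 1) := by
  rw [List.drop_eq_getElem_cons (by simpa using hi)]
  congr 1
  simp

theorem ok_pit {m : ℕ} {κ : ℕ → ℕ → Kd} {t : ℕ} {y K : α} (ht : t % 2 = 1)
    (htm : t ≤ 2 * m - 1) (hy : y ≠ K) (hκ : (κ t t).tr) {j : ℕ} (hj : j < m) :
    (pit m κ t y (2 * j + 1)).ok {ob m K, hb α m 0} := by
  refine ⟨?_, ob_notMem hy, ?_, ?_⟩
  · refine hb_notMem ?_
    rw [← Nat.cast_add]
    exact ne0 (by omega) (by omega) (by omega)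
  · refine hb_notMem ?_
    have h1 := ne0 (m := m) (a := t + (2 * j + 1) + 2) (by omega) (by omega) (by omega)
    intro h2
    apply h1
    rw [← h2]
    push_cast
    rfl
  · intro h1
    have h2 : ((t : ℕ) : ZMod (2 * m + 1)) - ((2 * j + 1 : ℕ) : ZMod (2 * m + 1)) = 0 := by
      by_contra h3
      exact hb_notMem h3 h1
    have h3 : t = 2 * j + 1 := eq_of_cast (by omega) (by omega) (sub_eq_zero.mp h2)
    rw [← h3]
    exact hκ

theorem steps {m : ℕ} {κ : ℕ → ℕ → Kd} {t : ℕ} {y K : α} (ht : t % 2 = 1)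
    (htm : t ≤ 2 * m - 1) (hy : y ≠ K) (hκ : (κ t t).tr) (i : ℕ) (hi : i ≤ m) :
    Run {ob m K, hb α m 0}
      (((List.range i).map (fun (j : ℕ) => pit m κ t y (2 * j + 1))).reverse)
      (st m t y i) (st m t y 0) := by
  induction i with
  | zero => exact rfl
  | succ i ih =>
    rw [List.range_succ, List.map_append, List.reverse_append]
    refine ⟨ok_pit ht htm hy hκ (by omega), (List.range i).map (up α m t),
      ((List.range m).map (lo α m t)).drop (i + 1), ?_, ?_⟩
    · unfold st
      rw [List.range_succ, List.map_append, List.append_assoc]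
      congr 1
      change up α m t i :: (s(_, ob m y) :: _) = s(_, _) :: (s(ob m y, _) :: _)
      congr 1
      · unfold up
        push_cast
        rfl
      · congr 1
        rw [Sym2.eq_swap]
        congr 2
        push_cast
        ring_nf
    · have h1 := ih (by omega)
      have h2 : st m t y i = (List.range i).map (up α m t) ++
          ((pit m κ t y (2 * i + 1)).r ++ ((List.range m).map (lo α m t)).drop (i + 1)) := by
        unfold st
        congr 1
        rw [drop_step m t i (by omega)]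
        change s(_, ob m y) :: (lo α m t i :: _) = s(_, ob m y) :: (s(_, _) :: _)
        congr 1
        · push_cast
          rfl
        · congr 1
          unfold lo
          push_cast
          congr 2
          ring_nf
      rw [← h2]
      exact h1

end PODD_

/-- The pass at an odd time. -/
theorem p_PODD : T_PODD := by
  intro α m κ t y K hm ht htm hy hκ
  have h1 := PODD_.steps (α := α) (m := m) (κ := κ) (t := t) (y := y) (K := K) ht htm hy hκ m
    le_rfl
  have h2 : PODD_.st m t y m = Bot m t (ob m y) := by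
    unfold PODD_.st Bot
    congr 1
    rw [List.drop_of_length_le (by simp)]
    have h3 : (2 * (m : ZMod (2 * m + 1)) + 1) = 0 := by
      have h4 := ZMod.natCast_self (2 * m + 1)
      push_cast at h4
      exact h4
    rw [h3, add_zero]
  have h5 : PODD_.st m t y 0 = Top m (t + 1) (ob m y) := by
    unfold PODD_.st Top
    change s(_, ob m y) :: ((List.range m).map (PODD_.lo α m t)) = _
    congr 1
    · rw [Sym2.eq_swap]
      congr 2
      push_cast
      ring_nf
    · unfold Tp2
      congr 1
      funext j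
      unfold PODD_.lo
      congr 2
      · push_cast
        ring_nf
      · push_cast
        ring_nf
  rw [h2, h5] at h1
  exact h1

end Bn
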