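import Pool.Agent.BIN.TC
set_option autoImplicit false
set_option linter.all false

/-!
# BIN: target T_PSWE (swapped balls of an even pass)
-/

namespace Bn
namespace PSWE_

variable {α : Type} {M : Type} [AddCommMonoid M]

theorem form {m : ℕ} {κ : ℕ → ℕ → Kd} {t : ℕ} {v y w : α} (g : It (Tb α m) → M) :
    ((pEv1 m κ t y w :: pEv2 m κ t v y).map g).sum =
      g (pEv1 m κ t y w) + ((∑ j ∈ Finset.range (m - 1), g (pit m κ t y (2 * j + 2))) +
        g (It.mv (hb α m (t : ZMod (2 * m + 1))) (ob m v) (ob m y)
          (hb α m ((t : ZMod (2 * m + 1)) + 2)) (κ t 0))) := by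
  have h1 : (((List.range (m - 1)).map (fun (j : ℕ) => pit m κ t y (2 * j + 2))).reverse.map
      g).sum = ∑ j ∈ Finset.range (m - 1), g (pit m κ t y (2 * j + 2)) := by
    rw [List.map_reverse, List.sum_reverse, List.map_map]
    rfl
  unfold pEv2
  rw [List.map_cons, List.sum_cons, List.map_append, List.sum_append, h1]
  simp

theorem one {m : ℕ} {κ : ℕ → ℕ → Kd} {t : ℕ} {v y w : α} (g : It (Tb α m) → M)
    (hg : ∀ p x q z, g (It.mv p x q z Kd.n) = 0) (j0 : ℕ) (hj : j0 < m - 1)
    (h0 : κ t 0 = Kd.n) (h2 : κ t (2 * m) = Kd.n)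
    (hne : ∀ j, j < m - 1 → j ≠ j0 → κ t (2 * j + 2) = Kd.n) :
    ((pEv1 m κ t y w :: pEv2 m κ t v y).map g).sum = g (pit m κ t y (2 * j0 + 2)) := by
  rw [form, h0, hg, add_zero]
  have h3 : g (pEv1 m κ t y w) = 0 := by unfold pEv1; rw [h2, hg]
  rw [h3, zero_add]
  refine Finset.sum_eq_single j0 ?_ ?_
  · intro j hj1 hj2
    unfold pit
    rw [hne j (Finset.mem_range.1 hj1) hj2, hg]
  · intro h
    exact absurd (Finset.mem_range.2 hj) h

theorem allz {m : ℕ} {κ : ℕ → ℕ → Kd} {t : ℕ} {y : α} (g : It (Tb α m) → M)
    (hg : ∀ p x q z, g (It.mv p x q z Kd.n) = 0)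
    (hne : ∀ j, j < m - 1 → κ t (2 * j + 2) = Kd.n) :
    ∑ j ∈ Finset.range (m - 1), g (pit m κ t y (2 * j + 2)) = 0 := by
  refine Finset.sum_eq_zero ?_
  intro j hj1
  unfold pit
  rw [hne j (Finset.mem_range.1 hj1), hg]

theorem first {m : ℕ} {κ : ℕ → ℕ → Kd} {t : ℕ} {v y w : α} (g : It (Tb α m) → M)
    (hg : ∀ p x q z, g (It.mv p x q z Kd.n) = 0) (h0 : κ t 0 = Kd.n)
    (hne : ∀ j, j < m - 1 → κ t (2 * j + 2) = Kd.n) :
    ((pEv1 m κ t y w :: pEv2 m κ t v y).map g).sum = g (pEv1 m κ t y w) := by
  rw [form, h0, hg, add_zero, allz g hg hne, add_zero]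

theorem last {m : ℕ} {κ : ℕ → ℕ → Kd} {t : ℕ} {v y w : α} (g : It (Tb α m) → M)
    (hg : ∀ p x q z, g (It.mv p x q z Kd.n) = 0) (h2 : κ t (2 * m) = Kd.n)
    (hne : ∀ j, j < m - 1 → κ t (2 * j + 2) = Kd.n) :
    ((pEv1 m κ t y w :: pEv2 m κ t v y).map g).sum =
      g (It.mv (hb α m (t : ZMod (2 * m + 1))) (ob m v) (ob m y)
          (hb α m ((t : ZMod (2 * m + 1)) + 2)) (κ t 0)) := by
  have h3 : g (pEv1 m κ t y w) = 0 := by unfold pEv1; rw [h2, hg]
  rw [form, h3, zero_add, allz g hg hne, zero_add]

theorem hsw {m : ℕ} : ∀ p x q z : Tb α m, It.sw (It.mv p x q z Kd.n) = 0 := fun _ _ _ _ => rfl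

theorem hF {m : ℕ} : ∀ p x q z : Tb α m, It.F (It.mv p x q z Kd.n) = 0 := fun _ _ _ _ => rfl

theorem M0 (m : ℕ) : (2 : ZMod (2 * m + 1)) * (m : ZMod (2 * m + 1)) = -1 := by
  have h := ZMod.natCast_self (2 * m + 1)
  push_cast at h
  exact eq_neg_of_add_eq_zero_left h

theorem swap3 {β : Type} (a b c : β) : ({a, b, c} : Multiset β) = {c, a, b} := by
  have h : ∀ a b c : β, ({a, b, c} : Multiset β) = a ::ₘ b ::ₘ c ::ₘ 0 := fun _ _ _ => rfl
  rw [h, h, Multiset.cons_swap c a, Multiset.cons_swap c b]

theorem swap2 {β : Type} (a b c : β) : ({a, b, c} : Multiset β) = {a, c, b} := by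
  have h : ∀ a b c : β, ({a, b, c} : Multiset β) = a ::ₘ b ::ₘ c ::ₘ 0 := fun _ _ _ => rfl
  rw [h, h, Multiset.cons_swap b c]

theorem swap1 {β : Type} (a b c : β) : ({a, b, c} : Multiset β) = {b, a, c} := by
  have h : ∀ a b c : β, ({a, b, c} : Multiset β) = a ::ₘ b ::ₘ c ::ₘ 0 := fun _ _ _ => rfl
  rw [h, h, Multiset.cons_swap a b]

end PSWE_

open PSWE_ in
theorem p_PSWE : T_PSWE := by
  intro α m lab t v y w hm hlab ht0 ht2 htm
  have hl := hlab t (by omega)
  have hM := M0 m
  cases hlt : lab t with
  | no =>
    have hk : ∀ π, kd m lab t π = if π = 0 ∧ 1 ≤ t ∧ lab (t - 1) = Lab.A then Kd.U else Kd.n := by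
      intro π
      unfold kd
      rw [hlt]
    have h2 : kd m lab t (2 * m) = Kd.n := by
      rw [hk, if_neg]
      omega
    have hne : ∀ j, j < m - 1 → kd m lab t (2 * j + 2) = Kd.n := by
      intro j _
      rw [hk, if_neg]
      omega
    have e1 := last (v := v) (y := y) (w := w) (fun i : It (Tb α m) => i.sw) hsw h2 hne
    have e2 := last (v := v) (y := y) (w := w) (fun i : It (Tb α m) => i.F) hF h2 hne
    unfold wsw wF
    rw [e1, e2]
    by_cases hA : lab (t - 1) = Lab.A
    · have h0 : kd m lab t 0 = Kd.U := by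
        rw [hk, if_pos ⟨rfl, by omega, hA⟩]
      rw [h0]
      simp [It.sw, It.F, lsw, lF, hA]
    · have h0 : kd m lab t 0 = Kd.n := by
        rw [hk, if_neg (fun h => hA h.2.2)]
      rw [h0]
      simp [It.sw, It.F, lsw, lF, hA]
  | A =>
    have hk : ∀ π, kd m lab t π = if π = 2 * m then Kd.L else Kd.n := by
      intro π
      unfold kd
      rw [hlt]
    have h0 : kd m lab t 0 = Kd.n := by
      rw [hk, if_neg]
      omega
    have hne : ∀ j, j < m - 1 → kd m lab t (2 * j + 2) = Kd.n := by
      intro j _
      rw [hk, if_neg]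
      omega
    have h2 : kd m lab t (2 * m) = Kd.L := by
      rw [hk, if_pos rfl]
    have e1 := first (v := v) (y := y) (w := w) (fun i : It (Tb α m) => i.sw) hsw h0 hne
    have e2 := first (v := v) (y := y) (w := w) (fun i : It (Tb α m) => i.F) hF h0 hne
    unfold wsw wF
    rw [e1, e2]
    unfold pEv1
    rw [h2]
    constructor
    · simp only [It.sw, lsw, if_true]
      rw [zero_add, if_neg (by simp), add_zero, swap3, swap3]
    · simp [It.F, lF]
  | B s d =>
    obtain ⟨hd1, hd2⟩ := hl.1 s d hlt
    have hnA : ¬ (Lab.B s d = Lab.A) := by simp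
    have hnn : ¬ (Lab.B s d = Lab.no ∧ lab (t - 1) = Lab.A) := by simp
    rw [if_neg hnA, if_neg hnn, if_neg hnA, if_neg hnn]
    cases s with
    | false =>
      have hk : ∀ π, kd m lab t π = if π = d ∨ π + d = 2 * m + 1 then Kd.U else Kd.n := by
        intro π
        unfold kd
        rw [hlt]
      have h0 : kd m lab t 0 = Kd.n := by
        rw [hk, if_neg]
        omega
      by_cases hd : d = 1
      · have hne : ∀ j, j < m - 1 → kd m lab t (2 * j + 2) = Kd.n := by
          intro j _
          rw [hk, if_neg]
          omega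
        have h2 : kd m lab t (2 * m) = Kd.U := by
          rw [hk, if_pos]
          omega
        have e1 := first (v := v) (y := y) (w := w) (fun i : It (Tb α m) => i.sw) hsw h0 hne
        have e2 := first (v := v) (y := y) (w := w) (fun i : It (Tb α m) => i.F) hF h0 hne
        unfold wsw wF
        rw [e1, e2]
        unfold pEv1
        rw [h2]
        subst hd
        constructor
        · simp only [It.sw, lsw, bz]
          rw [swap3, swap2]
          simp
        · simp [It.F, lF]
      · have h2 : kd m lab t (2 * m) = Kd.n := by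
          rw [hk, if_neg]
          omega
        rcases Nat.even_or_odd' d with ⟨e, he | he⟩
        · -- d = 2 e, place 2 (e - 1) + 2
          have hU : kd m lab t (2 * (e - 1) + 2) = Kd.U := by
            rw [hk, if_pos]
            omega
          have hne : ∀ j, j < m - 1 → j ≠ e - 1 → kd m lab t (2 * j + 2) = Kd.n := by
            intro j _ hj
            rw [hk, if_neg]
            omega
          have hj0 : e - 1 < m - 1 := by omega
          have e1 := one (v := v) (y := y) (w := w) (fun i : It (Tb α m) => i.sw) hsw (e - 1) hj0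
            h0 h2 hne
          have e2 := one (v := v) (y := y) (w := w) (fun i : It (Tb α m) => i.F) hF (e - 1) hj0
            h0 h2 hne
          unfold wsw wF
          rw [e1, e2]
          unfold pit
          rw [hU]
          have hq : 2 * (e - 1) + 2 = d := by omega
          rw [hq]
          constructor
          · simp only [It.sw, lsw, bz]
            rw [swap3]
            simp
          · simp [It.F, lF]
        · -- d = 2 e + 1, place 2 (m - e - 1) + 2 = 2 m - 2 e
          have hU : kd m lab t (2 * (m - e - 1) + 2) = Kd.U := by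
            rw [hk, if_pos]
            omega
          have hne : ∀ j, j < m - 1 → j ≠ m - e - 1 → kd m lab t (2 * j + 2) = Kd.n := by
            intro j _ hj
            rw [hk, if_neg]
            omega
          have hj0 : m - e - 1 < m - 1 := by omega
          have e1 := one (v := v) (y := y) (w := w) (fun i : It (Tb α m) => i.sw) hsw (m - e - 1)
            hj0 h0 h2 hne
          have e2 := one (v := v) (y := y) (w := w) (fun i : It (Tb α m) => i.F) hF (m - e - 1)
            hj0 h0 h2 hne
          unfold wsw wF
          rw [e1, e2]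
          unfold pit
          rw [hU]
          have hq : 2 * (m - e - 1) + 2 + d = 2 * m + 1 := by omega
          have hq2 : ((2 * (m - e - 1) + 2 : ℕ) : ZMod (2 * m + 1)) = - (d : ZMod (2 * m + 1)) := by
            have h3 : ((2 * (m - e - 1) + 2 + d : ℕ) : ZMod (2 * m + 1)) = 0 := by
              rw [hq]
              exact ZMod.natCast_self _
            rw [Nat.cast_add] at h3
            exact eq_neg_of_add_eq_zero_left h3
          rw [hq2]
          constructor
          · simp only [It.sw, lsw, bz]
            rw [swap3, swap2]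
            simp [sub_eq_add_neg]
          · simp [It.F, lF]
    | true =>
      have hk : ∀ π, kd m lab t π = if π + 1 = d ∨ π + 1 + d = 2 * m + 1 then Kd.L else Kd.n := by
        intro π
        unfold kd
        rw [hlt]
      have h2 : kd m lab t (2 * m) = Kd.n := by
        rw [hk, if_neg]
        omega
      by_cases hd : d = 1
      · have hne : ∀ j, j < m - 1 → kd m lab t (2 * j + 2) = Kd.n := by
          intro j _
          rw [hk, if_neg]
          omega
        have h0 : kd m lab t 0 = Kd.L := by
          rw [hk, if_pos]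
          omega
        have e1 := last (v := v) (y := y) (w := w) (fun i : It (Tb α m) => i.sw) hsw h2 hne
        have e2 := last (v := v) (y := y) (w := w) (fun i : It (Tb α m) => i.F) hF h2 hne
        unfold wsw wF
        rw [e1, e2, h0]
        subst hd
        constructor
        · simp only [It.sw, lsw, bz]
          rw [swap1]
          have h5 : (t : ZMod (2 * m + 1)) + 2 = (t : ZMod (2 * m + 1)) + 1 + 1 := by ring
          rw [h5]
          simp
        · simp [It.F, lF]
      · have h0 : kd m lab t 0 = Kd.n := by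
          rw [hk, if_neg]
          omega
        rcases Nat.even_or_odd' d with ⟨e, he | he⟩
        · -- d = 2 e, place 2 m - 2 e = 2 (m - e - 1) + 2
          have hU : kd m lab t (2 * (m - e - 1) + 2) = Kd.L := by
            rw [hk, if_pos]
            omega
          have hne : ∀ j, j < m - 1 → j ≠ m - e - 1 → kd m lab t (2 * j + 2) = Kd.n := by
            intro j _ hj
            rw [hk, if_neg]
            omega
          have hj0 : m - e - 1 < m - 1 := by omega
          have e1 := one (v := v) (y := y) (w := w) (fun i : It (Tb α m) => i.sw) hsw (m - e - 1)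
            hj0 h0 h2 hne
          have e2 := one (v := v) (y := y) (w := w) (fun i : It (Tb α m) => i.F) hF (m - e - 1)
            hj0 h0 h2 hne
          unfold wsw wF
          rw [e1, e2]
          unfold pit
          rw [hU]
          have hq : 2 * (m - e - 1) + 2 + 1 + d = 2 * m + 1 := by omega
          have hq2 : ((2 * (m - e - 1) + 2 : ℕ) : ZMod (2 * m + 1)) =
              - (d : ZMod (2 * m + 1)) - 1 := by
            have h3 : ((2 * (m - e - 1) + 2 + 1 + d : ℕ) : ZMod (2 * m + 1)) = 0 := by
              rw [hq]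
              exact ZMod.natCast_self _
            rw [Nat.cast_add, Nat.cast_add, Nat.cast_one] at h3
            have h4 := eq_neg_of_add_eq_zero_left h3
            exact eq_sub_of_add_eq h4
          rw [hq2]
          have a1 : (t : ZMod (2 * m + 1)) - (-(d : ZMod (2 * m + 1)) - 1) =
            (t : ZMod (2 * m + 1)) + 1 + d := by ring
          have a2 : (t : ZMod (2 * m + 1)) + (-(d : ZMod (2 * m + 1)) - 1) + 2 =
            (t : ZMod (2 * m + 1)) + 1 - d := by ring
          rw [a1, a2]
          constructor
          · simp only [It.sw, lsw, bz]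
            rw [swap1, swap2]
            simp
          · simp [It.F, lF]
        · -- d = 2 e + 1, place 2 e = 2 (e - 1) + 2
          have hU : kd m lab t (2 * (e - 1) + 2) = Kd.L := by
            rw [hk, if_pos]
            omega
          have hne : ∀ j, j < m - 1 → j ≠ e - 1 → kd m lab t (2 * j + 2) = Kd.n := by
            intro j _ hj
            rw [hk, if_neg]
            omega
          have hj0 : e - 1 < m - 1 := by omega
          have e1 := one (v := v) (y := y) (w := w) (fun i : It (Tb α m) => i.sw) hsw (e - 1)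
            hj0 h0 h2 hne
          have e2 := one (v := v) (y := y) (w := w) (fun i : It (Tb α m) => i.F) hF (e - 1)
            hj0 h0 h2 hne
          unfold wsw wF
          rw [e1, e2]
          unfold pit
          rw [hU]
          have hq : 2 * (e - 1) + 2 + 1 = d := by omega
          have hq2 : ((2 * (e - 1) + 2 : ℕ) : ZMod (2 * m + 1)) =
              (d : ZMod (2 * m + 1)) - 1 := by
            have h3 : ((2 * (e - 1) + 2 + 1 : ℕ) : ZMod (2 * m + 1)) = (d : ZMod (2 * m + 1)) := by
              rw [hq]
            rw [Nat.cast_add, Nat.cast_one] at h3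
            exact eq_sub_of_add_eq h3
          rw [hq2]
          have a1 : (t : ZMod (2 * m + 1)) - ((d : ZMod (2 * m + 1)) - 1) =
            (t : ZMod (2 * m + 1)) + 1 - d := by ring
          have a2 : (t : ZMod (2 * m + 1)) + ((d : ZMod (2 * m + 1)) - 1) + 2 =
            (t : ZMod (2 * m + 1)) + 1 + d := by ring
          rw [a1, a2]
          constructor
          · simp only [It.sw, lsw, bz]
            rw [swap1]
            simp
          · simp [It.F, lF]
  | S =>
    exfalso
    have := (hl.2.2 hlt).1
    omega

end Bn
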