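import Pool.Agent.BIN.TC
set_option autoImplicit false
set_option linter.all false

/-!
# BIN: PSWO, swapped balls of an odd pass and of the pass down
-/

namespace Bn

namespace PSWO_

variable {α β : Type}

theorem kd_no {m t π : ℕ} {lab : ℕ → Lab} (h : lab t = Lab.no) :
    kd m lab t π = if π = 0 ∧ 1 ≤ t ∧ lab (t - 1) = Lab.A then Kd.U else Kd.n := by
  unfold kd
  rw [h]

theorem kd_A {m t π : ℕ} {lab : ℕ → Lab} (h : lab t = Lab.A) :
    kd m lab t π = if π = 2 * m then Kd.L else Kd.n := by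
  unfold kd
  rw [h]

theorem kd_Bf {m t π d : ℕ} {lab : ℕ → Lab} (h : lab t = Lab.B false d) :
    kd m lab t π = if π = d ∨ π + d = 2 * m + 1 then Kd.U else Kd.n := by
  unfold kd
  rw [h]

theorem kd_Bt {m t π d : ℕ} {lab : ℕ → Lab} (h : lab t = Lab.B true d) :
    kd m lab t π = if π + 1 = d ∨ π + 1 + d = 2 * m + 1 then Kd.L else Kd.n := by
  unfold kd
  rw [h]

theorem kd_S {m t π : ℕ} {lab : ℕ → Lab} (h : lab t = Lab.S) :
    kd m lab t π = if π = t + 2 then Kd.c else Kd.n := by
  unfold kd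
  rw [h]

theorem kd0_Bf {m j d : ℕ} {lab : ℕ → Lab} (h : lab 0 = Lab.B false d) :
    kd0 m lab j = if 2 * j = d ∨ 2 * j + d = 2 * m + 1 then Kd.L else Kd.n := by
  unfold kd0
  rw [h]

theorem kd0_Bt {m j d : ℕ} {lab : ℕ → Lab} (h : lab 0 = Lab.B true d) :
    kd0 m lab j = if 2 * j = d + 1 ∨ 2 * j + d = 2 * m + 2 then Kd.U else Kd.n := by
  unfold kd0
  rw [h]

theorem kd0_no {m j : ℕ} {lab : ℕ → Lab} (h : lab 0 = Lab.no) : kd0 m lab j = Kd.n := by
  unfold kd0
  rw [h]

theorem kd0_A {m j : ℕ} {lab : ℕ → Lab} (h : lab 0 = Lab.A) : kd0 m lab j = Kd.n := by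
  unfold kd0
  rw [h]

theorem kd0_S {m j : ℕ} {lab : ℕ → Lab} (h : lab 0 = Lab.S) : kd0 m lab j = Kd.n := by
  unfold kd0
  rw [h]

/-- sums over a mapped range -/
theorem sum_map_range {M : Type} [AddCommMonoid M] (f : ℕ → M) (m : ℕ) :
    ((List.range m).map f).sum = ∑ j ∈ Finset.range m, f j := by
  induction m with
  | zero => simp
  | succ m ih => rw [List.range_succ, List.map_append, List.sum_append, ih,
      Finset.sum_range_succ, List.map_singleton, List.sum_singleton]

theorem sum_map_range' {M γ : Type} [AddCommMonoid M] (g : γ → M) (f : ℕ → γ) (m : ℕ) :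
    (((List.range m).map f).map g).sum = ∑ j ∈ Finset.range m, g (f j) := by
  rw [List.map_map, sum_map_range]
  rfl

theorem sum_map_range_rev {M γ : Type} [AddCommMonoid M] (g : γ → M) (f : ℕ → γ) (m : ℕ) :
    ((((List.range m).map f).reverse).map g).sum = ∑ j ∈ Finset.range m, g (f j) := by
  rw [← sum_map_range' g f m]
  exact (((List.range m).map f).reverse_perm.map g).sum_eq

theorem mvn_sw (p x q z : β) : (It.mv p x q z Kd.n).sw = 0 := rfl

theorem mvn_F (p x q z : β) : (It.mv p x q z Kd.n).F = 0 := rfl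

/-- permutations of three balls -/
theorem perm1 (a b c : β) : ({a, b, c} : Multiset β) = {c, a, b} :=
  Multiset.coe_eq_coe.2 (List.perm_append_comm (l₁ := [a, b]) (l₂ := [c]))

theorem perm2 (a b c : β) : ({a, b, c} : Multiset β) = {c, b, a} :=
  Multiset.coe_eq_coe.2 ([a, b, c].reverse_perm.symm)

theorem perm3 (a b c : β) : ({a, b, c} : Multiset β) = {b, c, a} :=
  Multiset.coe_eq_coe.2 (List.perm_append_comm (l₁ := [a]) (l₂ := [b, c]))

theorem perm4 (a b c : β) : ({a, b, c} : Multiset β) = {b, a, c} :=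
  Multiset.cons_swap a b {c}

theorem perm5 (a b c : β) : ({a, b, c} : Multiset β) = {a, c, b} :=
  congrArg (Multiset.cons a) (Multiset.coe_eq_coe.2
    (List.perm_append_comm (l₁ := [b]) (l₂ := [c])))

/-- the odd pass, one flag -/
theorem odd_one (m : ℕ) (κ : ℕ → ℕ → Kd) (t : ℕ) (y : α) (j0 : ℕ) (hj : j0 < m)
    (h : ∀ j, j < m → j ≠ j0 → κ t (2 * j + 1) = Kd.n) :
    wsw (pOdd m κ t y) = (pit m κ t y (2 * j0 + 1)).sw ∧
      wF (pOdd m κ t y) = (pit m κ t y (2 * j0 + 1)).F := by
  unfold wsw wF pOdd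
  rw [sum_map_range_rev, sum_map_range_rev]
  constructor
  · refine Finset.sum_eq_single j0 (fun j hj1 hj2 => ?_) (fun h1 => ?_)
    · unfold pit
      rw [h j (Finset.mem_range.1 hj1) hj2]
      rfl
    · exact absurd (Finset.mem_range.2 hj) h1
  · refine Finset.sum_eq_single j0 (fun j hj1 hj2 => ?_) (fun h1 => ?_)
    · unfold pit
      rw [h j (Finset.mem_range.1 hj1) hj2]
      rfl
    · exact absurd (Finset.mem_range.2 hj) h1

/-- the odd pass, no flag -/
theorem odd_zero (m : ℕ) (κ : ℕ → ℕ → Kd) (t : ℕ) (y : α)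
    (h : ∀ j, j < m → κ t (2 * j + 1) = Kd.n) :
    wsw (pOdd m κ t y) = 0 ∧ wF (pOdd m κ t y) = 0 := by
  unfold wsw wF pOdd
  rw [sum_map_range_rev, sum_map_range_rev]
  constructor
  · refine Finset.sum_eq_zero (fun j hj1 => ?_)
    unfold pit
    rw [h j (Finset.mem_range.1 hj1)]
    rfl
  · refine Finset.sum_eq_zero (fun j hj1 => ?_)
    unfold pit
    rw [h j (Finset.mem_range.1 hj1)]
    rfl

/-- the item of the pass down -/
def dn (m : ℕ) (κ0 : ℕ → Kd) (K : α) (j : ℕ) : It (Tb α m) :=
  It.mv (ob m K) (hb α m (-(2 * (j : ZMod (2 * m + 1)))))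
      (hb α m (2 * (j : ZMod (2 * m + 1)) + 2)) (hb α m (-(2 * (j : ZMod (2 * m + 1)) + 2)))
      (κ0 (j + 1))

theorem pDown_eq (m : ℕ) (κ0 : ℕ → Kd) (K : α) :
    pDown m κ0 K = (List.range m).map (dn m κ0 K) := rfl

theorem down_one (m : ℕ) (κ0 : ℕ → Kd) (K : α) (j0 : ℕ) (hj : j0 < m)
    (h : ∀ j, j < m → j ≠ j0 → κ0 (j + 1) = Kd.n) :
    wsw (pDown m κ0 K) = (dn m κ0 K j0).sw ∧ wF (pDown m κ0 K) = (dn m κ0 K j0).F := by
  rw [pDown_eq]
  unfold wsw wF
  rw [sum_map_range', sum_map_range']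
  constructor
  · refine Finset.sum_eq_single j0 (fun j hj1 hj2 => ?_) (fun h1 => ?_)
    · unfold dn
      rw [h j (Finset.mem_range.1 hj1) hj2]
      rfl
    · exact absurd (Finset.mem_range.2 hj) h1
  · refine Finset.sum_eq_single j0 (fun j hj1 hj2 => ?_) (fun h1 => ?_)
    · unfold dn
      rw [h j (Finset.mem_range.1 hj1) hj2]
      rfl
    · exact absurd (Finset.mem_range.2 hj) h1

theorem down_zero (m : ℕ) (κ0 : ℕ → Kd) (K : α) (h : ∀ j, j < m → κ0 (j + 1) = Kd.n) :
    wsw (pDown m κ0 K) = 0 ∧ wF (pDown m κ0 K) = 0 := by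
  rw [pDown_eq]
  unfold wsw wF
  rw [sum_map_range', sum_map_range']
  constructor
  · refine Finset.sum_eq_zero (fun j hj1 => ?_)
    unfold dn
    rw [h j (Finset.mem_range.1 hj1)]
    rfl
  · refine Finset.sum_eq_zero (fun j hj1 => ?_)
    unfold dn
    rw [h j (Finset.mem_range.1 hj1)]
    rfl

/-- a natural number which is `- d` modulo `2 m + 1` -/
theorem cast_sum {m a d : ℕ} (h : a + d = 2 * m + 1) :
    (a : ZMod (2 * m + 1)) = -(d : ZMod (2 * m + 1)) := by
  have h1 : ((a + d : ℕ) : ZMod (2 * m + 1)) = 0 := by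
    rw [h]
    exact ZMod.natCast_self _
  rw [Nat.cast_add] at h1
  exact eq_neg_of_add_eq_zero_left h1

theorem odd_pass (m : ℕ) (lab : ℕ → Lab) (t : ℕ) (y : α) (hm : 1 ≤ m) (hL : LabOK m lab)
    (ht : t % 2 = 1) (ht2 : t ≤ 2 * m - 1) :
    wsw (pOdd m (kd m lab) t y) = lsw α m t (ob m y) (lab t) ∧
      wF (pOdd m (kd m lab) t y) = lF (lab t) := by
  have hLt := hL t (by omega)
  cases hl : lab t with
  | no =>
    refine odd_zero m (kd m lab) t y (fun j hj => ?_)
    rw [kd_no hl, if_neg]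
    rintro ⟨h1, -⟩
    omega
  | A =>
    refine odd_zero m (kd m lab) t y (fun j hj => ?_)
    rw [kd_A hl, if_neg]
    omega
  | S =>
    obtain ⟨h1, h2⟩ := hLt.2.2 hl
    have h3 := odd_one m (kd m lab) t y 1 (by omega) (fun j hj hj1 => by
      rw [kd_S hl, if_neg]
      omega)
    rw [h3.1, h3.2]
    unfold pit
    rw [kd_S hl, if_pos (by omega)]
    exact ⟨rfl, rfl⟩
  | B s d =>
    obtain ⟨h1, h2⟩ := hLt.1 s d hl
    cases s with
    | false =>
      rcases Nat.even_or_odd' d with ⟨e, he | he⟩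
      · -- d even
        have hj0 : m - e < m := by omega
        have h3 := odd_one m (kd m lab) t y (m - e) hj0 (fun j hj hj1 => by
          rw [kd_Bf hl, if_neg]
          omega)
        rw [h3.1, h3.2]
        have h4 : 2 * (m - e) + 1 + d = 2 * m + 1 := by omega
        unfold pit
        rw [kd_Bf hl, if_pos (Or.inr h4), cast_sum h4]
        refine ⟨?_, rfl⟩
        show ({_, _, _} : Multiset (Tb α m)) = {_, _, _}
        rw [perm2]
        congr 1
        congr 1
        · congr 1
          simp [bz, sub_eq_add_neg]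
        · simp [bz, sub_eq_add_neg]
      · -- d odd
        have h3 := odd_one m (kd m lab) t y e (by omega) (fun j hj hj1 => by
          rw [kd_Bf hl, if_neg]
          omega)
        rw [h3.1, h3.2]
        have h4 : 2 * e + 1 = d := he.symm
        unfold pit
        rw [kd_Bf hl, if_pos (Or.inl h4), h4]
        refine ⟨?_, rfl⟩
        show ({_, _, _} : Multiset (Tb α m)) = {_, _, _}
        rw [perm1]
        congr 1
        congr 1
        · congr 1
          simp [bz]
        · simp [bz]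
    | true =>
      rcases Nat.even_or_odd' d with ⟨e, he | he⟩
      · -- d even
        have h3 := odd_one m (kd m lab) t y (e - 1) (by omega) (fun j hj hj1 => by
          rw [kd_Bt hl, if_neg]
          omega)
        rw [h3.1, h3.2]
        have h4 : 2 * (e - 1) + 1 + 1 = d := by omega
        have h5 : ((2 * (e - 1) + 1 : ℕ) : ZMod (2 * m + 1)) = (d : ZMod (2 * m + 1)) - 1 := by
          rw [← h4]
          push_cast
          ring
        unfold pit
        rw [kd_Bt hl, if_pos (Or.inl h4), h5]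
        refine ⟨?_, rfl⟩
        show ({_, _, _} : Multiset (Tb α m)) = {_, _, _}
        rw [perm4]
        congr 1
        congr 1
        · congr 1
          simp only [bz, if_true]
          ring
        · congr 2
          simp only [bz, if_true]
          ring
      · -- d odd
        have h3 := odd_one m (kd m lab) t y (m - e - 1) (by omega) (fun j hj hj1 => by
          rw [kd_Bt hl, if_neg]
          omega)
        rw [h3.1, h3.2]
        have h4 : 2 * (m - e - 1) + 1 + 1 + d = 2 * m + 1 := by omega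
        have h5 : ((2 * (m - e - 1) + 1 : ℕ) : ZMod (2 * m + 1)) =
            -(d : ZMod (2 * m + 1)) - 1 := by
          have h6 := cast_sum h4
          rw [← h6]
          push_cast
          ring
        unfold pit
        rw [kd_Bt hl, if_pos (Or.inr h4), h5]
        refine ⟨?_, rfl⟩
        show ({_, _, _} : Multiset (Tb α m)) = {_, _, _}
        rw [perm3]
        congr 1
        congr 1
        · congr 1
          simp only [bz, if_true]
          ring
        · congr 2
          simp only [bz, if_true]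
          ring

theorem down_pass (m : ℕ) (lab : ℕ → Lab) (K : α) (hm : 1 ≤ m) (hL : LabOK m lab) :
    wsw (pDown m (kd0 m lab) K) = lsw α m 0 (ob m K) (lab 0) ∧
      wF (pDown m (kd0 m lab) K) = lF (lab 0) := by
  have hLt := hL 0 (by omega)
  cases hl : lab 0 with
  | no => exact down_zero m (kd0 m lab) K (fun j hj => kd0_no hl)
  | A => exact down_zero m (kd0 m lab) K (fun j hj => kd0_A hl)
  | S =>
    obtain ⟨h1, h2⟩ := hLt.2.2 hl
    exact absurd h1 (by decide)
  | B s d =>
    obtain ⟨h1, h2⟩ := hLt.1 s d hl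
    cases s with
    | false =>
      rcases Nat.even_or_odd' d with ⟨e, he | he⟩
      · -- d even
        have h3 := down_one m (kd0 m lab) K (e - 1) (by omega) (fun j hj hj1 => by
          rw [kd0_Bf hl, if_neg]
          omega)
        rw [h3.1, h3.2]
        have h4 : 2 * (e - 1 + 1) = d := by omega
        have h5 : 2 * ((e - 1 : ℕ) : ZMod (2 * m + 1)) + 2 = (d : ZMod (2 * m + 1)) := by
          rw [← h4]
          push_cast
          ring
        unfold dn
        rw [kd0_Bf hl, if_pos (Or.inl h4), h5]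
        refine ⟨?_, rfl⟩
        show ({_, _, _} : Multiset (Tb α m)) = {_, _, _}
        rw [perm5]
        congr 1
        congr 1
        · congr 1
          simp [bz]
      · -- d odd
        have h3 := down_one m (kd0 m lab) K (m - e - 1) (by omega) (fun j hj hj1 => by
          rw [kd0_Bf hl, if_neg]
          omega)
        rw [h3.1, h3.2]
        have h4 : 2 * (m - e - 1 + 1) + d = 2 * m + 1 := by omega
        have h5 : 2 * ((m - e - 1 : ℕ) : ZMod (2 * m + 1)) + 2 =
            -(d : ZMod (2 * m + 1)) := by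
          rw [← cast_sum h4]
          push_cast
          ring
        unfold dn
        rw [kd0_Bf hl, if_pos (Or.inr h4), h5]
        refine ⟨?_, rfl⟩
        show ({_, _, _} : Multiset (Tb α m)) = {_, _, _}
        congr 1
        congr 1
        · congr 1
          simp [bz]
    | true =>
      rcases Nat.even_or_odd' d with ⟨e, he | he⟩
      · -- d even
        have h3 := down_one m (kd0 m lab) K (m - e) (by omega) (fun j hj hj1 => by
          rw [kd0_Bt hl, if_neg]
          omega)
        rw [h3.1, h3.2]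
        have h4 : 2 * (m - e + 1) + d = 2 * m + 2 := by omega
        have h5 : 2 * ((m - e : ℕ) : ZMod (2 * m + 1)) =
            -(d : ZMod (2 * m + 1)) - 1 := by
          have h6 : 2 * (m - e) + 1 + d = 2 * m + 1 := by omega
          rw [← cast_sum h6]
          push_cast
          ring
        unfold dn
        rw [kd0_Bt hl, if_pos (Or.inr h4), h5]
        refine ⟨?_, rfl⟩
        show ({_, _, _} : Multiset (Tb α m)) = {_, _, _}
        rw [perm5]
        congr 1
        congr 1
        · congr 1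
          simp only [bz, if_true, Nat.cast_zero]
          ring
        · congr 2
          simp only [bz, if_true, Nat.cast_zero]
          ring
      · -- d odd
        have h3 := down_one m (kd0 m lab) K e (by omega) (fun j hj hj1 => by
          rw [kd0_Bt hl, if_neg]
          omega)
        rw [h3.1, h3.2]
        have h4 : 2 * (e + 1) = d + 1 := by omega
        have h5 : 2 * (e : ZMod (2 * m + 1)) = (d : ZMod (2 * m + 1)) - 1 := by
          rw [he]
          push_cast
          ring
        unfold dn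
        rw [kd0_Bt hl, if_pos (Or.inl h4), h5]
        refine ⟨?_, rfl⟩
        show ({_, _, _} : Multiset (Tb α m)) = {_, _, _}
        congr 1
        congr 1
        · congr 1
          simp only [bz, if_true, Nat.cast_zero]
          ring
        · congr 2
          simp only [bz, if_true, Nat.cast_zero]
          ring

theorem kd_tr {m : ℕ} {lab : ℕ → Lab} {t π : ℕ} (h : lab t ≠ Lab.S) : (kd m lab t π).tr := by
  cases hl : lab t with
  | no => rw [kd_no hl]; split_ifs <;> simp [Kd.tr]
  | A => rw [kd_A hl]; split_ifs <;> simp [Kd.tr]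
  | S => exact absurd hl h
  | B s d =>
    cases s with
    | false => rw [kd_Bf hl]; split_ifs <;> simp [Kd.tr]
    | true => rw [kd_Bt hl]; split_ifs <;> simp [Kd.tr]

theorem kd0_tr {m : ℕ} {lab : ℕ → Lab} {j : ℕ} : (kd0 m lab j).tr := by
  cases hl : lab 0 with
  | no => rw [kd0_no hl]; simp [Kd.tr]
  | A => rw [kd0_A hl]; simp [Kd.tr]
  | S => rw [kd0_S hl]; simp [Kd.tr]
  | B s d =>
    cases s with
    | false => rw [kd0_Bf hl]; split_ifs <;> simp [Kd.tr]
    | true => rw [kd0_Bt hl]; split_ifs <;> simp [Kd.tr]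

theorem kinds (m : ℕ) (lab : ℕ → Lab) (t : ℕ) :
    (kd m lab t t).tr ∧ (kd0 m lab t).tr ∧ (kdA lab).tr := by
  refine ⟨?_, kd0_tr, ?_⟩
  · by_cases h : lab t = Lab.S
    · rw [kd_S h, if_neg (by omega)]
      simp [Kd.tr]
    · exact kd_tr h
  · unfold kdA
    split_ifs <;> simp [Kd.tr]

theorem counts (m : ℕ) (κ : ℕ → ℕ → Kd) (κ0 : ℕ → Kd) (t : ℕ) (v y : α) (hm : 1 ≤ m) :
    wN (pOdd m κ t y) = m ∧ wN (pDown m κ0 y) = m ∧ wN (pEv2 m κ t v y) = m ∧
    wQ (pOdd m κ t y) = 0 ∧ wQ (pDown m κ0 y) = 0 ∧ wQ (pEv2 m κ t v y) = 0 := by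
  rw [pDown_eq]
  unfold wN wQ pOdd pEv2
  simp only [List.map_append, List.sum_append, sum_map_range_rev, sum_map_range',
    List.map_cons, List.map_nil, List.sum_cons, List.sum_nil]
  refine ⟨?_, ?_, ?_, ?_, ?_, ?_⟩
  · simp [pit, It.N]
  · simp [dn, It.N]
  · simp [pit, It.N]
    omega
  · simp [pit, It.Q]
  · simp [dn, It.Q]
  · simp [pit, It.Q]

theorem mem_items {m : ℕ} {κ : ℕ → ℕ → Kd} {κ0 : ℕ → Kd} {t : ℕ} {v y w : α}
    {i : It (Tb α m)} (hi : i ∈ pOdd m κ t y ++ (pDown m κ0 y ++
      (pEv1 m κ t y w :: pEv2 m κ t v y))) :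
    ∃ (p x q z : Tb α m) (k : Kd), i = It.mv p x q z k ∧
      ((∃ π, k = κ t π) ∨ ∃ j, k = κ0 j) := by
  simp only [List.mem_append, List.mem_cons, pOdd, pEv2, List.mem_reverse, List.mem_map,
    pDown, List.not_mem_nil, or_false] at hi
  rcases hi with ⟨j, -, rfl⟩ | ⟨j, -, rfl⟩ | rfl | ⟨j, -, rfl⟩ | rfl
  · exact ⟨_, _, _, _, _, rfl, Or.inl ⟨_, rfl⟩⟩
  · exact ⟨_, _, _, _, _, rfl, Or.inr ⟨_, rfl⟩⟩
  · exact ⟨_, _, _, _, _, rfl, Or.inl ⟨_, rfl⟩⟩
  · exact ⟨_, _, _, _, _, rfl, Or.inl ⟨_, rfl⟩⟩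
  · exact ⟨_, _, _, _, _, rfl, Or.inl ⟨_, rfl⟩⟩

end PSWO_

open PSWO_ in
theorem p_PSWO : T_PSWO := by
  refine ⟨?_, ?_, ?_, ?_, ?_⟩
  · intro α m lab t y hm hL ht ht2
    exact odd_pass m lab t y hm hL ht ht2
  · intro α m lab K hm hL
    exact down_pass m lab K hm hL
  · intro m lab t
    exact kinds m lab t
  · intro α m κ κ0 t v y hm
    exact counts m κ κ0 t v y hm
  · intro α m lab t v y w
    constructor
    · intro hS i hi
      obtain ⟨p, x, q, z, k, rfl, ⟨π, rfl⟩ | ⟨j, rfl⟩⟩ := mem_items hi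
      · exact kd_tr (hS t)
      · exact kd0_tr
    · intro hn i hi
      obtain ⟨p, x, q, z, k, rfl, ⟨π, rfl⟩ | ⟨j, rfl⟩⟩ := mem_items hi
      · show kd m lab t π = Kd.n
        rw [kd_no (hn t), if_neg]
        rintro ⟨-, -, h3⟩
        rw [hn] at h3
        exact absurd h3 (by decide)
      · exact kd0_no (hn 0)

end Bn
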