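import Pool.Agent.BIN.TF
set_option autoImplicit false
set_option linter.all false

/-!
# BIN: target REC, the recursion
-/

namespace Bn

namespace REC_

/-- the claims for one number -/
structure Cl (n : ℕ) : Prop where
  P : 2 ≤ n → n ≠ 6 → n % 3 ≠ 1 → Perf n
  Z : 9 ≤ n → n % 3 = 0 → PZ n
  E : 11 ≤ n → n % 9 = 2 → PE n
  Q : 10 ≤ n → n % 9 = 1 → NPW n
  N : 4 ≤ n → n % 3 = 1 → NearP n

end REC_

open REC_ in
theorem p_REC (h1 : T_STA) (h2 : T_STB) (h3 : T_STC) (h4 : T_STD) (h5 : T_STW) (h6 : T_STF)
    (h7 : T_BAS) (h8 : T_IT) (h9 : T_INT) (h10 : T_IRT) : T_REC := by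
  obtain ⟨a1, a2⟩ := h1
  obtain ⟨b1, b2⟩ := h2
  obtain ⟨w1, w2, w3⟩ := h5
  obtain ⟨f1, f2, f3⟩ := h6
  obtain ⟨g1, g2, g3, g4⟩ := h7
  have key : ∀ n, Cl n := by
    intro n
    induction n using Nat.strong_induction_on with
    | _ n ih =>
      have hZ : 9 ≤ n → n % 3 = 0 → PZ n := by
        intro hn hm
        by_cases ho : n % 2 = 1
        · have := b1 ((n + 1) / 2) (by omega) (by omega)
            ((ih ((n + 1) / 2) (by omega)).P (by omega) (by omega) (by omega))
          rwa [show 2 * ((n + 1) / 2) - 1 = n by omega] at this
        · by_cases h12 : n = 12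
          · rw [h12]
            exact g4
          · have := w1 (n / 2) ((ih (n / 2) (by omega)).Z (by omega) (by omega))
            rwa [show 2 * (n / 2) = n by omega] at this
      have hE : 11 ≤ n → n % 9 = 2 → PE n := by
        intro hn hm
        by_cases h11 : n = 11
        · rw [h11]
          exact g3
        by_cases ho : n % 2 = 1
        · have := b2 ((n + 1) / 2) (Or.inr ⟨by omega, by omega⟩)
            ((ih ((n + 1) / 2) (by omega)).P (by omega) (by omega) (by omega))
          rwa [show 2 * ((n + 1) / 2) - 1 = n by omega] at this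
        · by_cases h36 : n % 36 = 2
          · have e1 := h4 ((n + 2) / 4) (by omega) (by omega)
              ((ih ((n + 2) / 4) (by omega)).Q (by omega) (by omega))
            have := w3 _ e1
            rwa [show 2 * (2 * ((n + 2) / 4) - 1) = n by omega] at this
          · have := h10 ((n + 4) / 12) (by omega)
              ((ih ((n + 4) / 12) (by omega)).P (by omega) (by omega) (by omega))
            rwa [show 12 * ((n + 4) / 12) - 4 = n by omega] at this
      have hQ : 10 ≤ n → n % 9 = 1 → NPW n := by
        intro hn hm
        by_cases ho : n % 2 = 1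
        · have := h3 ((n + 1) / 2) ((ih ((n + 1) / 2) (by omega)).Q (by omega) (by omega))
          rwa [show 2 * ((n + 1) / 2) - 1 = n by omega] at this
        · have := h9 ((n + 2) / 6) (by omega)
            ((ih ((n + 2) / 6) (by omega)).P (by omega) (by omega) (by omega))
          rwa [show 6 * ((n + 2) / 6) - 2 = n by omega] at this
      refine ⟨?_, hZ, hE, hQ, ?_⟩
      · intro hn h6' hm
        by_cases h2' : n = 2
        · rw [h2']
          exact g1
        by_cases h11 : n = 11
        · exact f2 n (hE (by omega) (by omega))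
        by_cases ho : n % 2 = 1
        · have := a1 ((n + 1) / 2)
            ((ih ((n + 1) / 2) (by omega)).P (by omega) (by omega) (by omega))
          rwa [show 2 * ((n + 1) / 2) - 1 = n by omega] at this
        by_cases h0 : n % 6 = 0
        · exact f1 n (hZ (by omega) (by omega))
        by_cases h18 : n % 18 = 2
        · exact f2 n (hE (by omega) (by omega))
        · have := h8 ((n + 1) / 3) (by omega)
            ((ih ((n + 1) / 3) (by omega)).P (by omega) (by omega) (by omega))
          rwa [show 3 * ((n + 1) / 3) - 1 = n by omega] at this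
      · intro hn hm
        by_cases h4' : n = 4
        · rw [h4']
          exact g2
        by_cases ho : n % 2 = 1
        · have := a2 ((n + 1) / 2) ((ih ((n + 1) / 2) (by omega)).N (by omega) (by omega))
          rwa [show 2 * ((n + 1) / 2) - 1 = n by omega] at this
        obtain ⟨t, ht⟩ : ∃ t, n = 6 * t + 4 := ⟨(n - 4) / 6, by omega⟩
        by_cases h34 : t = 5
        · have e1 := b2 9 (Or.inl rfl) ((ih 9 (by omega)).P (by omega) (by omega) (by omega))
          have := w2 _ e1
          rwa [show 2 * (2 * 9 - 1) = n by omega] at this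
        by_cases h3' : t % 3 = 0
        · have := w2 (3 * t + 2) ((ih (3 * t + 2) (by omega)).E (by omega) (by omega))
          rwa [show 2 * (3 * t + 2) = n by omega] at this
        · have := f3 _ (h9 (t + 1) (by omega)
            ((ih (t + 1) (by omega)).P (by omega) (by omega) (by omega)))
          rwa [show 6 * (t + 1) - 2 = n by omega] at this
  intro n hn h6
  by_cases hm : n % 3 = 1
  · exact Or.inr ((key n).N (by omega) hm)
  · exact Or.inl ((key n).P hn h6 hm)

end Bn
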