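import Pool.Agent.BIN.TA
set_option autoImplicit false
set_option linter.all false

/-!
# BIN: a run read backwards, and a run without decoration
-/

namespace Bn

namespace RTAU_

variable {α : Type}

lemma run_app {T : Set α} (w' : List (It α)) (S' S'' : List (Sym2 α)) :
    ∀ (w : List (It α)) (S : List (Sym2 α)), Run T w S S' → Run T w' S' S'' →
      Run T (w ++ w') S S'' := by
  intro w
  induction w with
  | nil =>
    intro S h1 h2
    have h3 : S = S' := h1
    rw [h3]
    exact h2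
  | cons i w ih =>
    intro S h1 h2
    obtain ⟨h3, A, B, h4, h5⟩ := h1
    exact ⟨h3, A, B, h4, ih _ h5 h2⟩

lemma tau_l (i : It α) : i.tau.l = i.r.reverse := by
  cases i with
  | mv p x q z k =>
    show [s(p, z), s(q, x)] = [s(p, z), s(x, q)]
    rw [Sym2.eq_swap (a := q) (b := x)]
  | qd e d a x c w =>
    show [s(w, a), s(d, c), s(x, e)] = [s(a, w), s(c, d), s(e, x)]
    rw [Sym2.eq_swap (a := w) (b := a), Sym2.eq_swap (a := d) (b := c),
      Sym2.eq_swap (a := x) (b := e)]

lemma tau_r (i : It α) : i.tau.r = i.l.reverse := by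
  cases i with
  | mv p x q z k =>
    show [s(z, q), s(p, x)] = [s(q, z), s(p, x)]
    rw [Sym2.eq_swap (a := z) (b := q)]
  | qd e d a x c w =>
    show [s(w, c), s(x, a), s(d, e)] = [s(c, w), s(a, x), s(e, d)]
    rw [Sym2.eq_swap (a := w) (b := c), Sym2.eq_swap (a := x) (b := a),
      Sym2.eq_swap (a := d) (b := e)]

lemma tau_ok {T : Set α} (i : It α) (h : i.ok T) : i.tau.ok T := by
  cases i with
  | mv p x q z k =>
    obtain ⟨h1, h2, h3, h4⟩ := h
    exact ⟨h3, h2, h1, fun _ => Or.inl rfl⟩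
  | qd e d a x c w =>
    obtain ⟨h1, h2, h3, h4, h5, h6⟩ := h
    exact ⟨h6, h3, h2, h5, h4, h1⟩

lemma tau_N (i : It α) : i.tau.N = i.N := by cases i <;> rfl

lemma tau_Q (i : It α) : i.tau.Q = i.Q := by cases i <;> rfl

lemma tau_sw (i : It α) (h : i.isnq) : i.tau.sw = i.sw := by
  cases i with
  | mv p x q z k =>
    have h1 : k = Kd.n := h
    subst h1
    rfl
  | qd e d a x c w =>
    show ({a, d, c, x} : Multiset α) = {d, a, x, c}
    show a ::ₘ d ::ₘ c ::ₘ ({x} : Multiset α) = d ::ₘ a ::ₘ x ::ₘ ({c} : Multiset α)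
    rw [Multiset.cons_swap a d]
    have h1 : c ::ₘ ({x} : Multiset α) = x ::ₘ ({c} : Multiset α) := by
      rw [← Multiset.cons_zero x, ← Multiset.cons_zero c, Multiset.cons_swap]
    rw [h1]

lemma tau_isnq (i : It α) : i.tau.isnq := by
  cases i with
  | mv p x q z k => rfl
  | qd e d a x c w => trivial

lemma wtau_cons (i : It α) (w : List (It α)) : wtau (i :: w) = wtau w ++ [i.tau] := by
  simp [wtau]

lemma wfg_cons (i : It α) (w : List (It α)) : wfg (i :: w) = i.fg ++ wfg w := by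
  simp [wfg]

lemma wN_app (w w' : List (It α)) : wN (w ++ w') = wN w + wN w' := by
  simp [wN]

lemma wQ_app (w w' : List (It α)) : wQ (w ++ w') = wQ w + wQ w' := by
  simp [wQ]

lemma wsw_app (w w' : List (It α)) : wsw (w ++ w') = wsw w + wsw w' := by
  simp [wsw]

lemma wN_one (i : It α) : wN [i] = i.N := by simp [wN]

lemma wQ_one (i : It α) : wQ [i] = i.Q := by simp [wQ]

lemma wsw_one (i : It α) : wsw [i] = i.sw := by simp [wsw]

lemma wN_cons (i : It α) (w : List (It α)) : wN (i :: w) = i.N + wN w := by simp [wN]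

lemma wQ_cons (i : It α) (w : List (It α)) : wQ (i :: w) = i.Q + wQ w := by simp [wQ]

lemma wsw_cons (i : It α) (w : List (It α)) : wsw (i :: w) = i.sw + wsw w := by simp [wsw]

lemma fg_N (i : It α) : wN i.fg = i.N := by cases i <;> rfl

lemma fg_isn (i j : It α) (h : j ∈ i.fg) : j.isn := by
  cases i with
  | mv p x q z k =>
    have h1 : j ∈ [It.mv p x q z Kd.n] := h
    rw [List.mem_singleton] at h1
    rw [h1]
    rfl
  | qd e d a x c w =>
    have h1 : j ∈ [It.mv a x c w Kd.n, It.mv d e x c Kd.n] := h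
    rw [List.mem_cons, List.mem_singleton] at h1
    rcases h1 with h1 | h1
    · rw [h1]
      rfl
    · rw [h1]
      rfl

lemma run_tau {T : Set α} (S' : List (Sym2 α)) :
    ∀ (w : List (It α)) (S : List (Sym2 α)), Run T w S S' →
      Run T (wtau w) S'.reverse S.reverse := by
  intro w
  induction w with
  | nil =>
    intro S h
    have h1 : S = S' := h
    rw [h1]
    rfl
  | cons i w ih =>
    intro S h
    obtain ⟨h1, A, B, h2, h3⟩ := h
    rw [wtau_cons]
    refine run_app _ _ _ _ _ (ih _ h3) ?_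
    refine ⟨tau_ok i h1, B.reverse, A.reverse, ?_, ?_⟩
    · rw [tau_l]
      simp
    · show B.reverse ++ (i.tau.r ++ A.reverse) = S.reverse
      rw [tau_r, h2]
      simp

lemma run_fg {T : Set α} (i : It α) (h : i.ok T) (A B : List (Sym2 α)) :
    Run T i.fg (A ++ (i.l ++ B)) (A ++ (i.r ++ B)) := by
  cases i with
  | mv p x q z k =>
    obtain ⟨h1, h2, h3, h4⟩ := h
    exact ⟨⟨h1, h2, h3, fun _ => Or.inl rfl⟩, A, B, rfl, rfl⟩
  | qd e d a x c w =>
    obtain ⟨h1, h2, h3, h4, h5, h6⟩ := h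
    refine ⟨⟨h4, h5, h6, fun _ => Or.inl rfl⟩, A ++ [s(e, d)], B, ?_,
      ⟨h1, h4, h5, fun _ => Or.inl rfl⟩, A, s(a, w) :: B, ?_, ?_⟩
    · show A ++ ([s(e, d), s(a, x), s(c, w)] ++ B) =
        (A ++ [s(e, d)]) ++ ([s(a, x), s(c, w)] ++ B)
      simp
    · show (A ++ [s(e, d)]) ++ ([s(x, c), s(a, w)] ++ B) =
        A ++ ([s(d, e), s(x, c)] ++ s(a, w) :: B)
      rw [Sym2.eq_swap (a := d) (b := e)]
      simp
    · show A ++ ([s(e, x), s(d, c)] ++ s(a, w) :: B) =
        A ++ ([s(e, x), s(c, d), s(a, w)] ++ B)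
      rw [Sym2.eq_swap (a := d) (b := c)]
      simp

lemma run_wfg {T : Set α} (S' : List (Sym2 α)) :
    ∀ (w : List (It α)) (S : List (Sym2 α)), Run T w S S' → Run T (wfg w) S S' := by
  intro w
  induction w with
  | nil =>
    intro S h
    exact h
  | cons i w ih =>
    intro S h
    obtain ⟨h1, A, B, h2, h3⟩ := h
    rw [wfg_cons, h2]
    exact run_app _ _ _ _ _ (run_fg i h1 A B) (ih _ h3)

lemma wN_tau (w : List (It α)) : wN (wtau w) = wN w := by
  induction w with
  | nil => rfl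
  | cons i w ih =>
    rw [wtau_cons, wN_app, wN_one, tau_N, ih, wN_cons, add_comm]

lemma wQ_tau (w : List (It α)) : wQ (wtau w) = wQ w := by
  induction w with
  | nil => rfl
  | cons i w ih =>
    rw [wtau_cons, wQ_app, wQ_one, tau_Q, ih, wQ_cons, add_comm]

lemma wsw_tau (w : List (It α)) (h : ∀ i ∈ w, i.isnq) : wsw (wtau w) = wsw w := by
  induction w with
  | nil => rfl
  | cons i w ih =>
    rw [wtau_cons, wsw_app, wsw_one, tau_sw i (h i List.mem_cons_self),
      ih (fun j hj => h j (List.mem_cons_of_mem _ hj)), wsw_cons, add_comm]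

lemma wN_fg (w : List (It α)) : wN (wfg w) = wN w := by
  induction w with
  | nil => rfl
  | cons i w ih =>
    rw [wfg_cons, wN_app, fg_N, ih, wN_cons]

lemma mem_tau (w : List (It α)) (i : It α) (h : i ∈ wtau w) : i.isnq := by
  have h1 : i ∈ (w.map It.tau).reverse := h
  rw [List.mem_reverse, List.mem_map] at h1
  obtain ⟨j, _, hj⟩ := h1
  rw [← hj]
  exact tau_isnq j

lemma mem_fg (w : List (It α)) (i : It α) (h : i ∈ wfg w) : i.isn := by
  have h1 : i ∈ w.flatMap It.fg := h
  rw [List.mem_flatMap] at h1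
  obtain ⟨j, _, hj⟩ := h1
  exact fg_isn j i hj

end RTAU_

open RTAU_ in
theorem p_RTAU : T_RTAU :=
  ⟨fun _ _ w S S' h => run_tau S' w S h, fun _ _ w S S' h => run_wfg S' w S h,
    fun _ w => ⟨wN_tau w, wQ_tau w, wN_fg w, fun h => wsw_tau w h,
      fun i hi => mem_tau w i hi, fun i hi => mem_fg w i hi⟩⟩

end Bn
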