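import Pool.Agent.BIN.TA
set_option autoImplicit false

/-!
# BIN: two decompositions of one list (SPLT)
-/

namespace Bn

theorem SPLT_.mem_append {α : Type} (A B : List (Sym2 α)) (a : α) :
    a ∈ ball (A ++ B) ↔ a ∈ ball A ∨ a ∈ ball B := by
  unfold ball
  rw [List.map_append, List.sum_append, Multiset.mem_add]

theorem SPLT_.mem_cons {α : Type} (B : List (Sym2 α)) (e : Sym2 α) (a : α) :
    a ∈ ball (e :: B) ↔ a ∈ e ∨ a ∈ ball B := by
  unfold ball
  rw [List.map_cons, List.sum_cons, Multiset.mem_add, Sym2.mem_toMultiset]

theorem p_SPLT : T_SPLT := by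
  refine ⟨?_, ?_, ?_⟩
  · intro γ A l B A' B' e he h
    rcases List.append_eq_append_iff.1 h with ⟨a', h1, h2⟩ | ⟨c', h1, h2⟩
    · rcases List.append_eq_append_iff.1 h2 with ⟨x, h3, h4⟩ | ⟨y, h3, h4⟩
      · exact Or.inr ⟨x, h4, by rw [h1, h3]⟩
      · cases y with
        | nil =>
          rw [List.append_nil] at h3
          exact Or.inr ⟨[], h4.symm, by rw [h1, h3, List.append_nil]⟩
        | cons c y =>
          rw [List.cons_append] at h4
          exact absurd (by rw [h3, (List.cons.inj h4).1]; simp) he
    · cases c' with
      | nil =>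
        rw [List.append_nil] at h1
        rw [List.nil_append] at h2
        cases l with
        | nil =>
          rw [List.nil_append] at h2
          exact Or.inr ⟨[], h2.symm, by rw [h1]; simp⟩
        | cons c l =>
          rw [List.cons_append] at h2
          exact absurd (by rw [(List.cons.inj h2).1]; simp) he
      | cons c C =>
        rw [List.cons_append] at h2
        obtain ⟨h3, h4⟩ := List.cons.inj h2
        exact Or.inl ⟨C, by rw [h1, h3], h4⟩
  · intro α A B A' B' L x y h hA hB
    rcases List.append_eq_append_iff.1 h with ⟨a', h1, h2⟩ | ⟨c', h1, h2⟩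
    · cases a' with
      | nil =>
        rw [List.append_nil] at h1
        rw [List.nil_append] at h2
        obtain ⟨h3, h4⟩ := List.cons.inj h2
        exact ⟨h1.symm, Sym2.congr_right.1 h3, h4⟩
      | cons c a' =>
        rw [List.cons_append] at h2
        exfalso
        apply hA
        rw [h1, SPLT_.mem_append, SPLT_.mem_cons, ← (List.cons.inj h2).1]
        exact Or.inr (Or.inl (Sym2.mem_mk_left L x))
    · cases c' with
      | nil =>
        rw [List.append_nil] at h1
        rw [List.nil_append] at h2
        obtain ⟨h3, h4⟩ := List.cons.inj h2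
        exact ⟨h1, (Sym2.congr_right.1 h3).symm, h4.symm⟩
      | cons c c' =>
        rw [List.cons_append] at h2
        exfalso
        apply hB
        rw [(List.cons.inj h2).2, SPLT_.mem_append, SPLT_.mem_cons]
        exact Or.inr (Or.inl (Sym2.mem_mk_left L x))
  · intro α A B e a
    exact ⟨SPLT_.mem_append A B a, SPLT_.mem_cons B e a⟩

end Bn
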