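import Pool.Agent.BIN.TD
import Pool.Agent.BIN.TC
import Pool.Agent.BIN.P_RUN
import Pool.Agent.BIN.P_SPLT
set_option autoImplicit false

/-!
# BIN: the scaled clean word (SEAM)
-/

namespace Bn

namespace SEAM_

section lists

variable {α : Type}

theorem Phi_app (k : ℕ) (ρ : α → ℕ → ℕ) (A B : List (Sym2 α)) :
    Phi k ρ (A ++ B) = Phi k ρ A ++ Phi k ρ B := by
  unfold Phi
  exact List.flatMap_append

theorem Phi_cons (k : ℕ) (ρ : α → ℕ → ℕ) (e : Sym2 α) (B : List (Sym2 α)) :
    Phi k ρ (e :: B) = sc k ρ e ++ Phi k ρ B := by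
  unfold Phi
  exact List.flatMap_cons

theorem Phi_nil (k : ℕ) (ρ : α → ℕ → ℕ) : Phi k ρ ([] : List (Sym2 α)) = [] := rfl

theorem Phi_one (k : ℕ) (ρ : α → ℕ → ℕ) (e : Sym2 α) : Phi k ρ [e] = sc k ρ e := by
  rw [Phi_cons, Phi_nil, List.append_nil]

theorem Phi_len (k : ℕ) (ρ : α → ℕ → ℕ) (S : List (Sym2 α)) :
    (Phi k ρ S).length = k * S.length := by
  induction S with
  | nil => rfl
  | cons e S ih =>
    rw [Phi_cons, List.length_append, ih, List.length_cons]
    simp only [sc, List.length_map, List.length_range]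
    ring

theorem sc_rev (k : ℕ) (e : Sym2 α) : (sc k rid e).reverse = sc k (rre k) e := by
  unfold sc
  apply List.ext_getElem
  · simp
  · intro i h1 h2
    simp only [List.length_reverse, List.length_map, List.length_range] at h1
    simp [rid, rre]

theorem Phi_rev (k : ℕ) (S : List (Sym2 α)) :
    (Phi k rid S).reverse = Phi k (rre k) S.reverse := by
  induction S with
  | nil => rfl
  | cons e S ih =>
    rw [Phi_cons, List.reverse_append, ih, sc_rev, List.reverse_cons, Phi_app, Phi_one]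

theorem sc_rK [DecidableEq α] (k : ℕ) (kap : ℕ → ℕ) (K : α) (e : Sym2 α) (h : K ∉ e) :
    sc k rid e = sc k (rK kap K) e := by
  induction e using Sym2.ind with
  | h a b =>
    rw [Sym2.mem_iff, not_or] at h
    unfold sc
    apply List.map_congr_left
    intro i _
    rw [Sym2.map_mk, Sym2.map_mk]
    unfold rK rid
    rw [if_neg (fun hh => h.1 hh.symm), if_neg (fun hh => h.2 hh.symm)]

theorem Phi_rK [DecidableEq α] (k : ℕ) (kap : ℕ → ℕ) (K : α) (S : List (Sym2 α))
    (h : K ∉ ball S) : Phi k rid S = Phi k (rK kap K) S := by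
  induction S with
  | nil => rfl
  | cons e S ih =>
    rw [SPLT_.mem_cons, not_or] at h
    rw [Phi_cons, Phi_cons, ih h.2, sc_rK k kap K e h.1]

theorem ball_smap {β : Type} (f : α → β) (S : List (Sym2 α)) :
    ball (smap f S) = (ball S).map f := by
  induction S with
  | nil => rfl
  | cons e S ih =>
    induction e using Sym2.ind with
    | h a b =>
      have h1 : smap f (s(a, b) :: S) = s(f a, f b) :: smap f S := rfl
      rw [h1, RUN_.ball_cons, RUN_.ball_cons, ih, Multiset.map_add]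
      rfl

theorem ball_rev (S : List (Sym2 α)) : ball S.reverse = ball S := by
  unfold ball
  rw [List.map_reverse, List.sum_reverse]

theorem ball_sc (k : ℕ) (a b : α) : ball (sc k rid s(a, b)) =
    (Multiset.range k).map (fun i => (some a, i)) +
      (Multiset.range k).map (fun i => (some b, i)) := by
  induction k with
  | zero => rfl
  | succ k ih =>
    have h1 : sc (k + 1) rid s(a, b) = sc k rid s(a, b) ++ [s((some a, k), (some b, k))] := by
      unfold sc
      rw [List.range_succ, List.map_append]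
      rfl
    rw [h1, RUN_.ball_app, ih, RUN_.ball_cons, RUN_.ball_nil, add_zero, RUN_.pair,
      Multiset.range_succ, Multiset.map_cons, Multiset.map_cons, ← Multiset.singleton_add,
      ← Multiset.singleton_add]
    abel

theorem ball_Phi (k : ℕ) (S : List (Sym2 α)) : ball (Phi k rid S) =
    (ball S).bind (fun a => (Multiset.range k).map (fun i => (some a, i))) := by
  induction S with
  | nil => rfl
  | cons e S ih =>
    induction e using Sym2.ind with
    | h a b =>
      rw [Phi_cons, RUN_.ball_app, ih, ball_sc, RUN_.ball_cons, Multiset.add_bind, RUN_.pair,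
        Multiset.add_bind, Multiset.singleton_bind, Multiset.singleton_bind]

theorem bind_prod (k : ℕ) (P : Multiset α) :
    P.bind (fun a => (Multiset.range k).map (fun i => (some a, i))) =
      (P ×ˢ Multiset.range k).map (fun p => (some p.1, p.2)) := by
  have h1 : (P ×ˢ Multiset.range k) =
    P.bind (fun a => (Multiset.range k).map (fun i => (a, i))) := rfl
  rw [h1, Multiset.map_bind]
  simp only [Multiset.map_map, Function.comp_def]

theorem nd_all (k e : ℕ) (P : Multiset α) (hP : P.Nodup) :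
    ((Multiset.range e).map (fun j => ((none : Option α), j)) +
      P.bind (fun a => (Multiset.range k).map (fun i => (some a, i)))).Nodup := by
  rw [bind_prod, Multiset.nodup_add]
  refine ⟨?_, ?_, ?_⟩
  · exact (Multiset.nodup_range e).map (fun a b h => (Prod.mk.inj h).2)
  · refine (hP.product (Multiset.nodup_range k)).map ?_
    rintro ⟨a, i⟩ ⟨b, j⟩ h
    obtain ⟨h1, h2⟩ := Prod.mk.inj h
    exact Prod.ext (Option.some.inj h1) h2
  · rw [Multiset.disjoint_left]
    intro x h1 h2
    rw [Multiset.mem_map] at h1 h2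
    obtain ⟨a, -, rfl⟩ := h1
    obtain ⟨b, -, hb⟩ := h2
    exact absurd (Prod.mk.inj hb).1 (by simp)

/-! additivity -/

theorem wN_app (w w' : List (It α)) : wN (w ++ w') = wN w + wN w' := by
  unfold wN
  rw [List.map_append, List.sum_append]

theorem wN_cons (i : It α) (w : List (It α)) : wN (i :: w) = i.N + wN w := by
  unfold wN
  rw [List.map_cons, List.sum_cons]

theorem wF_app (w w' : List (It α)) : wF (w ++ w') = wF w + wF w' := by
  unfold wF
  rw [List.map_append, List.sum_append]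

theorem wF_cons (i : It α) (w : List (It α)) : wF (i :: w) = i.F + wF w := by
  unfold wF
  rw [List.map_cons, List.sum_cons]

theorem wQ_app (w w' : List (It α)) : wQ (w ++ w') = wQ w + wQ w' := by
  unfold wQ
  rw [List.map_append, List.sum_append]

theorem wQ_cons (i : It α) (w : List (It α)) : wQ (i :: w) = i.Q + wQ w := by
  unfold wQ
  rw [List.map_cons, List.sum_cons]

theorem wsw_app (w w' : List (It α)) : wsw (w ++ w') = wsw w + wsw w' := by
  unfold wsw
  rw [List.map_append, List.sum_append]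

theorem wsw_cons (i : It α) (w : List (It α)) : wsw (i :: w) = i.sw + wsw w := by
  unfold wsw
  rw [List.map_cons, List.sum_cons]

theorem wpas_app [DecidableEq α] (b : α) (w w' : List (It α)) :
    wpas b (w ++ w') = wpas b w ++ wpas b w' := by
  unfold wpas
  exact List.flatMap_append

theorem zero_isn (w : List (It α)) (h : ∀ i ∈ w, i.isn) :
    wF w = 0 ∧ wQ w = 0 ∧ wsw w = 0 := by
  induction w with
  | nil => exact ⟨rfl, rfl, rfl⟩
  | cons i w ih =>
    obtain ⟨h1, h2, h3⟩ := ih (fun j hj => h j (List.mem_cons_of_mem _ hj))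
    have h4 := h i List.mem_cons_self
    rw [wF_cons, wQ_cons, wsw_cons, h1, h2, h3]
    cases i with
    | mv p x q z k =>
      have h5 : k = Kd.n := h4
      subst h5
      exact ⟨rfl, rfl, rfl⟩
    | qd e d a x c w => exact absurd h4 (by simp [It.isn])

end lists

section codes

variable {α : Type}

theorem cf_zero (κ : ℕ → ℕ) (y z w : α) : cf κ y z w 0 = (none, 0) := by
  simp [cf]

theorem cf_lt (κ : ℕ → ℕ) (y z w : α) (j : ℕ) (h : j < 100) : cf κ y z w j = (none, j) := by
  simp [cf, h]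

theorem cf_y (κ : ℕ → ℕ) (y z w : α) (j : ℕ) (h : j < 100) :
    cf κ y z w (100 + j) = (some y, j) := by
  unfold cf
  rw [if_neg (by omega), if_pos (by omega)]
  congr 1
  omega

theorem cf_300 (κ : ℕ → ℕ) (y z w : α) : cf κ y z w 300 = (some w, κ 0) := by
  unfold cf
  rw [if_neg (by omega), if_neg (by omega), if_neg (by omega)]

theorem cf_eq_zero (κ : ℕ → ℕ) (y z w : α) (x : ℕ) : cf κ y z w x = (none, 0) ↔ x = 0 := by
  constructor
  · intro h
    unfold cf at h
    split_ifs at h with h1 h2 h3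
    · exact (Prod.mk.inj h).2
    · exact absurd (Prod.mk.inj h).1 (by simp)
    · exact absurd (Prod.mk.inj h).1 (by simp)
    · exact absurd (Prod.mk.inj h).1 (by simp)
  · rintro rfl
    exact cf_zero κ y z w

theorem pas_map [DecidableEq α] (κ : ℕ → ℕ) (y z w : α) (v : List (It ℕ)) :
    wpas ((none : Option α), 0) (wmap (cf κ y z w) v) = (wpas 0 v).map (cf κ y z w) := by
  induction v with
  | nil => rfl
  | cons i v ih =>
    have h1 : wpas ((none : Option α), 0) (wmap (cf κ y z w) (i :: v)) =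
        It.pas ((none : Option α), 0) (i.map (cf κ y z w)) ++
          wpas ((none : Option α), 0) (wmap (cf κ y z w) v) := rfl
    have h2 : wpas 0 (i :: v) = It.pas 0 i ++ wpas 0 v := rfl
    rw [h1, h2, ih, List.map_append]
    congr 1
    cases i with
    | mv p x q z' k =>
      simp only [It.map, It.pas]
      by_cases hp : p = 0
      · rw [if_pos ((cf_eq_zero κ y z w p).mpr hp), if_pos hp]
        rfl
      · rw [if_neg (fun h => hp ((cf_eq_zero κ y z w p).mp h)), if_neg hp]
        rfl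
    | qd e d a x c w' => rfl

end codes

theorem okb_facts (D : Seam) (h : D.okb = true) :
    D.kp < 100 ∧ D.kap 0 = D.kp ∧ D.lk.tr ∧ D.jk.tr ∧ 0 < D.k ∧ D.k ≤ 100 := by
  unfold Seam.okb at h
  simp only [Bool.and_eq_true, decide_eq_true_eq] at h
  tauto

theorem nd4 {α : Type} {a b c d : α} {k : Kd} (h : (ball (It.mv a b c d k).l).Nodup) :
    a ≠ b ∧ a ≠ c ∧ a ≠ d ∧ b ≠ c ∧ b ≠ d ∧ c ≠ d := by
  simp only [It.l, RUN_.ball_cons, RUN_.ball_nil, RUN_.pair] at h
  rw [add_assoc, add_assoc, add_zero, Multiset.singleton_add, Multiset.singleton_add,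
    Multiset.singleton_add] at h
  simp only [Multiset.nodup_cons, Multiset.mem_cons, Multiset.mem_singleton, not_or,
    Multiset.nodup_singleton] at h
  tauto

end SEAM_

open SEAM_ in
theorem p_SEAM (_h1 : T_RUN) (h2 : T_SPLT) (h3 : T_PALL) (h4 : T_SBL) (h5 : T_NRUN)
    (h6 : T_SMID) : T_SEAM := by
  intro α _ D e c hD hp
  obtain ⟨hkp, hk0, hlk, hjk, hk, hk100⟩ := okb_facts D hD.okb
  obtain ⟨a1, a2, a3, a4, a5, a6, a7, a8, a9, a10, a11⟩ := h3 α c
  obtain ⟨hKL, hKq, hKz, hLq, hLz, -⟩ := nd4 a2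
  obtain ⟨-, -, -, -, hyK, hxK⟩ := nd4 a3
  have hw1 : ∀ i ∈ c.w1, i.isn := fun i hi => hp i (by
    unfold CW.word
    exact List.mem_append_left _ hi)
  have hw2 : ∀ i ∈ c.w2, i.isn := fun i hi => hp i (by
    unfold CW.word
    exact List.mem_append_right _ (List.mem_cons_of_mem _ (List.mem_append_left _ hi)))
  have hw3 : ∀ i ∈ c.w3, i.isn := fun i hi => hp i (by
    unfold CW.word
    exact List.mem_append_right _ (List.mem_cons_of_mem _ (List.mem_append_right _
      (List.mem_cons_of_mem _ hi))))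
  obtain ⟨u1, r1, n1, i1, p1⟩ := h5 α ∅ ∅ D.k rid c.w1 c.B0 (s(c.q, c.z) :: c.B1) c.r1 hw1
    (fun a _ i => Set.notMem_empty _)
  obtain ⟨u3, r3, n3, i3, p3⟩ := h5 α ∅ ∅ D.k (rre D.k) c.w3 (c.A ++ [s(c.y, c.x)])
    c.B0.reverse c.r3 hw3 (fun a _ i => Set.notMem_empty _)
  have hLB : c.L ∉ ball (s(c.K, c.z) :: c.B1) := by
    rw [SPLT_.mem_cons, not_or, Sym2.mem_iff, not_or]
    exact ⟨⟨fun h => hKL h.symm, hLz⟩, a9⟩
  have hL0 : c.L ∉ ball ([] : List (Sym2 α)) := by
    rw [RUN_.ball_nil]
    exact Multiset.notMem_zero _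
  obtain ⟨A', B', y', u2, g1, g2, g3, r2, n2, F2, Q2, s2, P2, I2, W2⟩ :=
    h6 α D e c.K c.L c.w2 _ _ [] (s(c.K, c.z) :: c.B1) c.q true hD hKL c.r2 hw2 rfl hL0 hLB
      (fun h => hKq h.symm) (fun h => hLq h.symm)
  obtain ⟨k1, k2, k3⟩ := h2.2.1 α c.A [s(c.K, c.x)] A' B' c.L c.y y' g1 g2 g3
  subst k1
  subst k2
  subst k3
  rw [Bool.true_and] at r2
  obtain ⟨b1, b2, -, b4, b5⟩ := h4 α D e c.K c.y c.q c.z c.x hD hyK (fun h => hKq h.symm)
    (fun h => hKz h.symm) hxK
  generalize hf : (lmv c.L c.w2).isEmpty = f at r2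
  have R1 : Run ∅ (u1 ++ wmap (cf id c.K c.q c.z) D.Wb1)
      (smap (cf id c.K c.K c.K) (st D.Gt) ++ Phi D.k rid c.B0)
      (s(cf id c.K c.q c.z D.lq, cf id c.K c.q c.z D.lz) ::
        (smap (cf id c.K c.q c.z) (st D.Cb) ++ Phi D.k rid c.B1)) := by
    have t1 := RUN_.ctx _ ∅ u1 _ _ (smap (cf id c.K c.K c.K) (st D.Gt)) [] r1
    rw [List.append_nil, List.append_nil, Phi_cons, ← List.append_assoc] at t1
    have t2 := RUN_.ctx _ ∅ _ _ _ [] (Phi D.k rid c.B1) b1
    rw [List.nil_append, List.nil_append] at t2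
    exact RUN_.comp _ ∅ _ _ _ _ _ t1 t2
  have R2 : Run {(some c.K, D.kp), (none, 0)}
      (wmap (cf id c.K c.q c.z) D.Wb2 ++ (u2 ++ wmap (cf D.kap c.y c.x c.K) (D.We1 f)))
      (s((none, 0), cf id c.K c.q c.z D.lq) :: s((some c.K, D.kp), cf id c.K c.q c.z D.lz) ::
        (smap (cf id c.K c.q c.z) (st D.Cb) ++ Phi D.k rid c.B1))
      ((Phi D.k (rre D.k) c.A ++ smap (cf D.kap c.y c.x c.K) (st (D.Ce f))) ++
        [s((none, 0), cf D.kap c.y c.x c.K D.jy),
          s((some c.K, D.kp), cf D.kap c.y c.x c.K D.jx)]) := by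
    have t1 := RUN_.ctx _ _ _ _ _ [] (Phi D.k rid c.B1) b2
    rw [List.nil_append, List.nil_append] at t1
    have e1 : (smap (cf id c.q c.q c.q) (st (D.GM true)) ++
        sc D.k (rK D.kap c.K) s(c.K, c.z)) ++ Phi D.k rid c.B1 =
        Phi D.k (rre D.k) [] ++ (smap (cf id c.q c.q c.q) (st (D.GM true)) ++
          Phi D.k (rK D.kap c.K) (s(c.K, c.z) :: c.B1)) := by
      rw [Phi_nil, List.nil_append, Phi_cons, Phi_rK D.k D.kap c.K c.B1 a8, List.append_assoc]
    rw [e1] at t1
    have t3 := RUN_.ctx _ _ _ _ _ (Phi D.k (rre D.k) c.A) [] (b4 f)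
    rw [List.append_nil, List.append_nil] at t3
    rw [Phi_one] at r2
    rw [List.append_assoc]
    exact RUN_.comp _ _ _ _ _ _ _ t1 (RUN_.comp _ _ _ _ _ _ _ r2 t3)
  have R3 : Run ∅ (wmap (cf D.kap c.y c.x c.K) (D.We2 f) ++ u3)
      ((Phi D.k (rre D.k) c.A ++ smap (cf D.kap c.y c.x c.K) (st (D.Ce f))) ++
        [s(cf D.kap c.y c.x c.K D.jy, cf D.kap c.y c.x c.K D.jx)])
      (smap (cf id c.K c.K c.K) (st D.Gt) ++ Phi D.k rid c.B0).reverse := by
    have t1 := RUN_.ctx _ ∅ _ _ _ (Phi D.k (rre D.k) c.A) [] (b5 f)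
    rw [List.append_nil, List.append_nil] at t1
    have t2 := RUN_.ctx _ ∅ _ _ _ [] (smap (cf id c.K c.K c.K) (st D.Gt)).reverse r3
    rw [List.nil_append, List.nil_append, Phi_app, Phi_one, List.append_assoc] at t2
    rw [List.append_assoc, List.reverse_append, Phi_rev]
    exact RUN_.comp _ ∅ _ _ _ _ _ t1 t2
  -- the balls of the start state
  have hS : ball c.S = ({c.K, c.L} : Multiset α) + ball c.B0 := by
    unfold CW.S
    rw [RUN_.ball_cons]
  have hP : (c.P : Multiset α) = {c.K} + ball c.B0 := by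
    rw [hS, RUN_.pair] at a1
    have e1 : ({c.L} : Multiset α) + ({c.K} + ball c.B0) = {c.L} + (c.P : Multiset α) := by
      rw [← a1]
      abel
    exact (add_left_cancel e1).symm
  have hPnd : (c.P : Multiset α).Nodup := by
    have e1 := c.nd
    have e2 : ball (s(c.K, c.L) :: c.B0) = {c.L} + (c.P : Multiset α) := a1
    rw [e2] at e1
    exact (Multiset.nodup_add.mp e1).2.1
  have hball : ball (s((some c.K, D.kp), (none, 0)) ::
      (smap (cf id c.K c.K c.K) (st D.Gt) ++ Phi D.k rid c.B0)) =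
      (Multiset.range e).map (fun j => ((none : Option α), j)) +
        ((c.P : Multiset α)).bind
          (fun a => (Multiset.range D.k).map (fun i => (some a, i))) := by
    have e1 := congrArg (Multiset.map (cf id c.K c.K c.K)) hD.bal
    have e2 : smap (cf id c.K c.K c.K) (st ((100 + D.kp, 0) :: D.Gt)) =
        s((some c.K, D.kp), (none, 0)) :: smap (cf id c.K c.K c.K) (st D.Gt) := by
      have e3 : smap (cf id c.K c.K c.K) (st ((100 + D.kp, 0) :: D.Gt)) =
        s(cf id c.K c.K c.K (100 + D.kp), cf id c.K c.K c.K 0) ::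
          smap (cf id c.K c.K c.K) (st D.Gt) := rfl
      rw [e3, cf_zero, cf_y _ _ _ _ _ hkp]
    rw [← ball_smap, e2, Multiset.map_add, Multiset.map_map] at e1
    have e4 : (Multiset.range e).map (cf id c.K c.K c.K) =
        (Multiset.range e).map (fun j => ((none : Option α), j)) := by
      apply Multiset.map_congr rfl
      intro j hj
      rw [Multiset.mem_range] at hj
      exact cf_lt _ _ _ _ _ (by have := hD.he; omega)
    have e5 : (Multiset.range D.k).map (cf id c.K c.K c.K ∘ fun i => 100 + i) =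
        (Multiset.range D.k).map (fun i => (some c.K, i)) := by
      apply Multiset.map_congr rfl
      intro j hj
      rw [Multiset.mem_range] at hj
      exact cf_y _ _ _ _ _ (by omega)
    rw [e4, e5] at e1
    rw [← List.cons_append, RUN_.ball_app, e1, ball_Phi, hP, Multiset.add_bind,
      Multiset.singleton_bind, add_assoc]
  -- the clean word
  let c' : CW (Option α × ℕ) :=
    { K := (some c.K, D.kp)
      L := (none, 0)
      B0 := smap (cf id c.K c.K c.K) (st D.Gt) ++ Phi D.k rid c.B0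
      w1 := u1 ++ wmap (cf id c.K c.q c.z) D.Wb1
      k1 := D.lk
      q := cf id c.K c.q c.z D.lq
      z := cf id c.K c.q c.z D.lz
      B1 := smap (cf id c.K c.q c.z) (st D.Cb) ++ Phi D.k rid c.B1
      w2 := wmap (cf id c.K c.q c.z) D.Wb2 ++ (u2 ++ wmap (cf D.kap c.y c.x c.K) (D.We1 f))
      A := Phi D.k (rre D.k) c.A ++ smap (cf D.kap c.y c.x c.K) (st (D.Ce f))
      y := cf D.kap c.y c.x c.K D.jy
      x := cf D.kap c.y c.x c.K D.jx
      k2 := D.jk
      w3 := wmap (cf D.kap c.y c.x c.K) (D.We2 f) ++ u3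
      hk1 := hlk
      hk2 := hjk
      nd := by
        rw [hball]
        exact nd_all D.k e _ hPnd
      r1 := R1
      r2 := R2
      r3 := R3 }
  have hword : c'.word = u1 ++ (seamB D c.K c.q c.z ++ (u2 ++ (seamE D f c.K c.y c.x ++ u3))) := by
    have e1 : seamB D c.K c.q c.z = wmap (cf id c.K c.q c.z) D.Wb1 ++
        (It.mv (some c.K, D.kp) (none, 0) (cf id c.K c.q c.z D.lq) (cf id c.K c.q c.z D.lz) D.lk ::
          wmap (cf id c.K c.q c.z) D.Wb2) := by
      unfold seamB wmap
      rw [List.map_append, List.map_cons]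
      simp only [It.map, cf_zero, cf_y _ _ _ _ _ hkp]
    have e2 : seamE D f c.K c.y c.x = wmap (cf D.kap c.y c.x c.K) (D.We1 f) ++
        (It.mv (none, 0) (cf D.kap c.y c.x c.K D.jy) (cf D.kap c.y c.x c.K D.jx)
          (some c.K, D.kp) D.jk :: wmap (cf D.kap c.y c.x c.K) (D.We2 f)) := by
      unfold seamE wmap
      rw [List.map_append, List.map_cons]
      simp only [It.map, cf_zero, cf_300, hk0]
    rw [e1, e2]
    show (u1 ++ wmap (cf id c.K c.q c.z) D.Wb1) ++ (c'.lv :: ((wmap (cf id c.K c.q c.z) D.Wb2 ++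
      (u2 ++ wmap (cf D.kap c.y c.x c.K) (D.We1 f))) ++ (c'.jn ::
        (wmap (cf D.kap c.y c.x c.K) (D.We2 f) ++ u3)))) = _
    simp only [List.append_assoc, List.cons_append]
    rfl
  obtain ⟨zF1, zQ1, zs1⟩ := zero_isn u1 i1
  obtain ⟨zF3, zQ3, zs3⟩ := zero_isn u3 i3
  have hlen : (lmv c.L c.w2).length + 2 = c.n := by
    have e1 : (wpas c.L c.w2).length = 2 * (lmv c.L c.w2).length := by
      rw [W2]
      induction lmv c.L c.w2 with
      | nil => rfl
      | cons a l ih =>
        rw [List.flatMap_cons, List.length_append, ih, List.length_cons]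
        simp only [List.length_cons, List.length_nil]
        ring
    have e2 : nmv c.L c.w2 = (lmv c.L c.w2).length := by
      unfold nmv
      omega
    omega
  have hall : seamAll D c = seamB D c.K c.q c.z ++ (seamC D true c.q (lmv c.L c.w2) ++
      seamE D f c.K c.y c.x) := by
    unfold seamAll
    rw [hf]
  refine ⟨c', ?_, ?_, ?_, ?_, ?_, ?_, hlen, ?_, ?_, ?_, hball, pas_map⟩
  · show (smap (cf id c.K c.K c.K) (st D.Gt) ++ Phi D.k rid c.B0).length + 1 = _
    rw [List.length_append, Phi_len]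
    simp only [smap, st, List.length_map, CW.n, Nat.add_sub_cancel]
    ring
  · have hcN : c.N = wN c.w1 + 1 + wN c.w2 + 1 + wN c.w3 := by
      unfold CW.N CW.word
      rw [wN_app, wN_cons, wN_app, wN_cons]
      simp only [CW.lv, CW.jn, It.N]
      ring
    have hc'N : c'.N = wN u1 + (wN (seamB D c.K c.q c.z) + (wN u2 +
        (wN (seamE D f c.K c.y c.x) + wN u3))) := by
      unfold CW.N
      rw [hword, wN_app, wN_app, wN_app, wN_app]
    rw [hc'N, hcN, hall, wN_app, wN_app, n1, n3, ← hlen]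
    have e3 := n2
    have e5 : D.k * D.k * ((lmv c.L c.w2).length + 2) =
        D.k * D.k * (lmv c.L c.w2).length + 2 * (D.k * D.k) := by ring
    have e6 : D.k * D.k * (wN c.w1 + 1 + wN c.w2 + 1 + wN c.w3) =
        D.k * D.k * wN c.w1 + D.k * D.k * wN c.w2 + D.k * D.k * wN c.w3 + 2 * (D.k * D.k) := by
      ring
    rw [e5, e6]
    omega
  · unfold CW.F
    rw [hword, hall, wF_app, wF_app, wF_app, wF_app, wF_app, wF_app, zF1, zF3, F2]
    ring
  · unfold CW.Q
    rw [hword, hall, wQ_app, wQ_app, wQ_app, wQ_app, wQ_app, wQ_app, zQ1, zQ3, Q2]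
    ring
  · unfold CW.sw
    rw [hword, hall, wsw_app, wsw_app, wsw_app, wsw_app, wsw_app, wsw_app, zs1, zs3, s2]
    rw [zero_add, add_zero]
  · intro i hi
    rw [hword] at hi
    rw [hall]
    simp only [List.mem_append] at hi ⊢
    rcases hi with h | h | h | h | h
    · exact Or.inl (i1 i h)
    · exact Or.inr (Or.inl h)
    · rcases I2 i h with h' | h'
      · exact Or.inl h'
      · exact Or.inr (Or.inr (Or.inl h'))
    · exact Or.inr (Or.inr (Or.inr h))
    · exact Or.inl (i3 i h)
  · unfold CW.P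
    rw [W2]
  · rw [← W2]
    exact a6
  · show (some c.K, D.kp) :: cf id c.K c.q c.z D.lq ::
      (wpas (none, 0) (wmap (cf id c.K c.q c.z) D.Wb2 ++
        (u2 ++ wmap (cf D.kap c.y c.x c.K) (D.We1 f))) ++ [cf D.kap c.y c.x c.K D.jx]) = _
    rw [wpas_app, wpas_app, P2]
    simp only [List.append_assoc]

end Bn
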