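import Pool.Agent.BIN.Data
set_option autoImplicit false
set_option linter.all false

/-!
# BIN: targets of group D (seams)
-/

namespace Bn

/-- **Target T_SBL** (the block words in terms of balls).  Let `D` be a correct seam and write
`K' = (some K, D.kp)`, `L' = (none, 0)`.
Proof.  `D.okb = true` is a conjunction of checks; T_CHK turns the `chk` facts into runs on coded
states (`st` of an appended list is the append), and T_RUN (4) with the renaming `cf κ y z w` turns
them into runs of balls.  Identities for the states (all by unfolding `scc, sc, st, smap, cf`):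
(a) `smap (cf κ y z w) (st (scc k (fun i => 200 + i) (fun i => 300 + i)))` is
the list of the bins `s((some z, i), (some w, κ i))`, `i < k`; for `κ = id`, `y = y, z = q, w = z`
with `q, z ≠ K` this is `sc k (rK kap K) s(q, z)` and also `sc k rid s(q, z)`; for the e block
(`κ = kap`, z = x, w = K, `x ≠ K`) it is `sc k (rK kap K) s(K, x)` (pairs are unordered).
(b) `scc k (fun i => 100 + (k-1-i)) (fun i => 200 + (k-1-i))` becomes `sc k (rre k) s(y, z)`
(here the codes are below 200 + 100 because `k ≤ 100`).
(c) `smap (cf id K q z) (st (shs 100 (GM true))) = smap (cf id q q q) (st (GM true))` and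
`smap (cf id y q z) (st (shs 200 (GM false))) = smap (cf id z z z) (st (GM false))`: all codes of
`GM f`
are below 200; a code `x < 100` stays `(none, x)`, a code `100 + i` becomes `(some q, i)`,
resp. `(some z, i)`.  Also `smap (cf κ y z w) (st (GM f)) = smap (cf id y y y) (st (GM f))`, the
same
for `Gt`.
(d) `scc k (fun i => 100 + kap i) (fun i => 300 + i)` becomes `sc k (rK kap K) s(K, z)` in the b
block (`z ≠ K`, `kap i < k ≤ 100`).
(e) `smap (cf kap y x K) (st GE) = (smap (cf id K K K) (st Gt)).reverse`: the codes of GE are below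
100 or at least 300, `cf kap y x K c = cf id K K K (kk kap c)` for them (for `c ≥ 300`:
`(some K, kap (c - 300))`; if `kap (c-300) < 100`, which holds for `c - 300 < k`; more simply: after
`kk` the codes agree with the codes of `Gt.reverse`, which are below 200, so `kap (c - 300) < 100`),
and `eqS` gives the equality with `st Gt.reverse`.
Tracked balls: in block b the coded set {100 + kp, 0}: `cf id K q z c = K'` iff `c = 100 + kp`
(`q, z ≠ K`), `= L'` iff `c = 0`.  Block c: coded set {0}; `y, q, z ≠ K` so nothing is `K'`.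
Block e: coded set {300, 0}: `cf kap y x K c = (some K, kp)` iff `c ≥ 300` and
`kap (c - 300) = kp = kap 0`, iff `c = 300` by injectivity. -/
def T_SBL : Prop :=
  ∀ (α : Type) [DecidableEq α] (D : Seam) (e : ℕ) (K y q z x : α), SeamOK D e →
    y ≠ K → q ≠ K → z ≠ K → x ≠ K →
    Run ∅ (wmap (cf id K q z) D.Wb1) (smap (cf id K K K) (st D.Gt) ++ sc D.k rid s(q, z))
      (s(cf id K q z D.lq, cf id K q z D.lz) :: smap (cf id K q z) (st D.Cb)) ∧
    Run {(some K, D.kp), (none, 0)} (wmap (cf id K q z) D.Wb2)
      (s((none, 0), cf id K q z D.lq) :: s((some K, D.kp), cf id K q z D.lz) ::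
        smap (cf id K q z) (st D.Cb))
      (smap (cf id q q q) (st (D.GM true)) ++ sc D.k (rK D.kap K) s(K, z)) ∧
    (∀ f : Bool, Run {(some K, D.kp), (none, 0)} (wmap (cf id y q z) (D.Wc f))
      (smap (cf id y y y) (st (D.GM f)) ++ sc D.k (rK D.kap K) s(q, z))
      (sc D.k (rre D.k) s(y, q) ++ smap (cf id z z z) (st (D.GM false)))) ∧
    (∀ f : Bool, Run {(some K, D.kp), (none, 0)} (wmap (cf D.kap y x K) (D.We1 f))
      (smap (cf id y y y) (st (D.GM f)) ++ sc D.k (rK D.kap K) s(K, x))
      (smap (cf D.kap y x K) (st (D.Ce f)) ++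
        [s((none, 0), cf D.kap y x K D.jy), s((some K, D.kp), cf D.kap y x K D.jx)])) ∧
    (∀ f : Bool, Run ∅ (wmap (cf D.kap y x K) (D.We2 f))
      (smap (cf D.kap y x K) (st (D.Ce f)) ++ [s(cf D.kap y x K D.jy, cf D.kap y x K D.jx)])
      (sc D.k (rre D.k) s(y, x) ++ (smap (cf id K K K) (st D.Gt)).reverse))

/-- **Target T_NW** (the scaled undecorated move).  The `k` strands of `p` go down through the `k`
strands of `q`.

Proof.  Write `P i = (some p, ρ p i)`, `X i`, `C i` (for q), `Z i` in the same way, and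
`μ r = X r` for `r < k`, `μ r = Z (r - k)` for `k ≤ r < 2k`.  The start is the list of the bins
`s(P r, μ r)` (`r < k`), `s(C (r-k), μ r)` (`k ≤ r < 2k`).  Move the strands `P (k-1), ..., P 0`
down, one after the other; the strand `P i` is exchanged with `C 0, C 1, ..., C (k-1)`: the item
number `(i, j)` is `mv (P i) (μ (i+j)) (C j) (μ (i+j+1)) n`, in the bins `i + j`, `i + j + 1`.
State before the item `(i, j)`: bin `r` contains `μ r` and
`P r` for `r < i`; `C (r - i)` for `i ≤ r < i + j`; `P i` for `r = i + j`; `C (r - i - 1)` for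
`i + j < r ≤ i + k`; `P (r - k)` for `r > i + k`.  (For j = k this is the state before
the item `(i - 1, 0)`.)  At the end bin `r` contains `μ r` and `C r` (`r < k`), `P (r - k)` (`r ≥
k`).
An induction proof with lists: first show that one ball `a` goes down through the list of bins
`s(C j, μ_j)`: `Run T w (s(a, m) :: l.map (fun e => s(e.1, e.2))) ..`; then induct on the number of
strands.  Number of items `k * k`.  Safety: only `P i` may be tracked.  No item has `p = (none, 0)`,
so nothing is passed by it. -/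
def T_NW : Prop :=
  ∀ (α : Type) [DecidableEq α] (k : ℕ) (ρ : α → ℕ → ℕ) (p x q z : α)
    (T : Set (Option α × ℕ)),
    (∀ i, (some x, ρ x i) ∉ T ∧ (some q, ρ q i) ∉ T ∧ (some z, ρ z i) ∉ T) →
    ∃ w : List (It (Option α × ℕ)),
      Run T w (sc k ρ s(p, x) ++ sc k ρ s(q, z)) (sc k ρ s(x, q) ++ sc k ρ s(p, z)) ∧
      wN w = k * k ∧ (∀ i ∈ w, i.isn) ∧ wpas (none, 0) w = []

/-- **Target T_NRUN** (a scaled run of undecorated moves).

Proof.  Induction on `w`; each move by T_NW in a context: `Phi` is additive for `++`, and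
`Phi k ρ (s(p, x) :: s(q, z) :: B) = (sc k ρ s(p, x) ++ sc k ρ s(q, z)) ++ Phi k ρ B`.  The
condition
of T_NW: `x, q, z` are not in `T` (safety), so their strands are not in `T'`. -/
def T_NRUN : Prop :=
  ∀ (α : Type) [DecidableEq α] (T : Set α) (T' : Set (Option α × ℕ)) (k : ℕ)
    (ρ : α → ℕ → ℕ) (w : List (It α)) (S S' : List (Sym2 α)),
    Run T w S S' → (∀ i ∈ w, i.isn) → (∀ a, a ∉ T → ∀ i, (some a, ρ a i) ∉ T') →
    ∃ w' : List (It (Option α × ℕ)), Run T' w' (Phi k ρ S) (Phi k ρ S') ∧
      wN w' = k * k * wN w ∧ (∀ i ∈ w', i.isn) ∧ wpas (none, 0) w' = []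

/-- **Target T_SMID** (the middle phase of the scaled word).

Proof.  Induction on `w` for all `S, A, B, y, f`, as in T_LRUN.
`w = []`: `w' = []`.  `w = i :: w1`, `S = C ++ (i.l ++ D')`.
Case `i = mv L x q z n`: by T_SPLT (2) `C = A`, `x = y`, `B = s(q, z) :: D'`; `q, z` are not in
`{K, L}` (safety).  The word `wmap (cf id y q z) (D.Wc f)` is a run (T_SBL, third part) from
`smap (cf id y y y) (st (GM f)) ++ sc k (rK kap K) s(q, z)` to
`sc k (rre k) s(y, q) ++ smap (cf id z z z) (st (GM false))`, in the context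
`Phi k (rre k) A`, `Phi k (rK kap K) D'`.  The new data are `A ++ [s(y, q)]`, `z`, `D'`, `false`.
`lmv L w = (q, z) :: lmv L w1`, `seamC D f y (lmv L w) = wmap .. (D.Wc f) ++ seamC D false z (..)`.
Case `i` another move (`p ≠ L`, all four balls ≠ L): T_SPLT (1): its bins are inside `A` or inside
`B`.  If inside `A`, T_NW with `ρ = rre k`; here none of the balls `x, q, z` is `K` (safety), and
the
balls of the form `(none, 0)` do not occur; if inside `B`, T_NW with `ρ = rK kap K`; if `p = K` its
strands are tracked, which is allowed.  The rest of the state does not change.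
`K` is not in `ball A'`: moves inside A keep the balls, and a move of `L` adds `y, q ≠ K`.
The numbers: `wN` of the scaled move is `k * k`, its `F, Q, sw, wpas` are zero. -/
def T_SMID : Prop :=
  ∀ (α : Type) [DecidableEq α] (D : Seam) (e : ℕ) (K L : α) (w : List (It α))
    (S S' A B : List (Sym2 α)) (y : α) (f : Bool),
    SeamOK D e → K ≠ L → Run {K, L} w S S' → (∀ i ∈ w, i.isn) →
    S = A ++ (s(L, y) :: B) → L ∉ ball A → L ∉ ball B → y ≠ K → y ≠ L →
    ∃ (A' B' : List (Sym2 α)) (y' : α) (w' : List (It (Option α × ℕ))),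
      S' = A' ++ (s(L, y') :: B') ∧ L ∉ ball A' ∧ L ∉ ball B' ∧
      Run {(some K, D.kp), (none, 0)} w'
        (Phi D.k (rre D.k) A ++
          (smap (cf id y y y) (st (D.GM f)) ++ Phi D.k (rK D.kap K) B))
        (Phi D.k (rre D.k) A' ++
          (smap (cf id y' y' y') (st (D.GM (f && (lmv L w).isEmpty))) ++
            Phi D.k (rK D.kap K) B')) ∧
      wN w' + D.k * D.k * (lmv L w).length =
        D.k * D.k * wN w + wN (seamC D f y (lmv L w)) ∧
      wF w' = wF (seamC D f y (lmv L w)) ∧ wQ w' = wQ (seamC D f y (lmv L w)) ∧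
      wsw w' = wsw (seamC D f y (lmv L w)) ∧
      wpas (none, 0) w' = wpas (none, 0) (seamC D f y (lmv L w)) ∧
      (∀ i ∈ w', i.isn ∨ i ∈ seamC D f y (lmv L w)) ∧
      wpas L w = (lmv L w).flatMap (fun e => [e.1, e.2])

/-- **Target T_SEAM** (the scaled clean word).

Proof.  Write `K' = (some K, kp)`, `L' = (none, 0)`, `f = (lmv c.L c.w2).isEmpty`,
`Φ = Phi k`.  T_NRUN for `c.w1` (`ρ = rid`, `T = T' = ∅`) gives `u1` from `Φ rid B0` to
`Φ rid (s(q, z) :: B1)`; for `c.w3` (`ρ = rre k`) gives `u3` from `Φ (rre k) (A ++ [s(y, x)])` to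
`Φ (rre k) B0.reverse = (Φ rid B0).reverse` (the reverse of `sc k rid e` is `sc k (rre k) e`).
T_SMID for `c.w2` with `A = []`, `y = q`, `B = s(K, z) :: B1`, `f = true` gives `u2`; the end state
is
`c.A ++ [s(L, y), s(K, x)]`, so by T_SPLT (2) `A' = c.A`, `y' = c.y`, `B' = [s(K, x)]`; the boolean
at
the end is `f`.  Put
`B0' = smap (cf id K K K) (st Gt) ++ Φ rid B0`, `w1' = u1 ++ wmap (cf id K q z) Wb1`,
`q' = cf id K q z lq`, `z' = cf id K q z lz`, `k1' = lk`,
`B1' = smap (cf id K q z) (st Cb) ++ Φ rid B1`,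
`w2' = wmap (cf id K q z) Wb2 ++ (u2 ++ wmap (cf kap y x K) (We1 f))`,
`A' = Φ (rre k) c.A ++ smap (cf kap y x K) (st (Ce f))`, `y' = cf kap y x K jy`,
`x' = cf kap y x K jx`, `k2' = jk`, `w3' = wmap (cf kap y x K) (We2 f) ++ u3`.
r1': `u1` behind the context `smap .. (st Gt)`, then the first part of T_SBL in the context
`Φ rid B1` behind.  r2': second part of T_SBL in the context `Φ rid B1` behind; here
`Φ rid B1 = Φ (rK kap K) B1` because K is not in `ball B1` (T_PALL); then `u2` (with
`Φ (rK kap K) (s(K, z) :: B1) = sc k (rK kap K) s(K, z) ++ Φ (rK kap K) B1`), then the fourth part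
in
the context `Φ (rre k) c.A`.  r3': fifth part of T_SBL in the context `Φ (rre k) c.A`: to
`Φ (rre k) (c.A ++ [s(y, x)]) ++ (smap (cf id K K K) (st Gt)).reverse`, then `u3` in the context
behind; the end is `(Φ rid B0).reverse ++ (smap .. (st Gt)).reverse = B0'.reverse`.
`q, z, y, x ≠ K, L` and `K ≠ L` by T_PALL.
nd': `ball (s(K', L') :: B0')`: SeamOK.bal mapped by `cf id K K K` gives `(none, j)`, `j < e`, and
`(some K, i)`, `i < k`; `ball (Φ rid B0)` consists of all `(some a, i)`, `a ∈ ball B0`, `i < k`.
Counts: `wN c.word = N`; `w1, w3` contribute `k^2 wN`, `c.lv` and `c.jn` one move each and the moves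
of L `n - 2 = (lmv L w2).length` moves (`(lmv L w2).length = nmv L w2`, T_PALL). -/
def T_SEAM : Prop :=
  ∀ (α : Type) [DecidableEq α] (D : Seam) (e : ℕ) (c : CW α), SeamOK D e → c.Plain →
    ∃ c' : CW (Option α × ℕ),
      c'.n = D.Gt.length + 1 + D.k * (c.n - 1) ∧
      c'.N + D.k * D.k * c.n = D.k * D.k * c.N + wN (seamAll D c) ∧
      c'.F = wF (seamAll D c) ∧ c'.Q = wQ (seamAll D c) ∧ c'.sw = wsw (seamAll D c) ∧
      (∀ i ∈ c'.word, i.isn ∨ i ∈ seamAll D c) ∧
      (lmv c.L c.w2).length + 2 = c.n ∧
      c.P = c.K :: c.q :: ((lmv c.L c.w2).flatMap (fun e => [e.1, e.2]) ++ [c.x]) ∧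
      (c.q :: (lmv c.L c.w2).flatMap (fun e => [e.1, e.2])).getLast? = some c.y ∧
      c'.P = (some c.K, D.kp) :: cf id c.K c.q c.z D.lq ::
        (wpas (none, 0) (wmap (cf id c.K c.q c.z) D.Wb2) ++
          (wpas (none, 0) (seamC D true c.q (lmv c.L c.w2)) ++
            (wpas (none, 0) (wmap (cf D.kap c.y c.x c.K)
              (D.We1 (lmv c.L c.w2).isEmpty)) ++ [cf D.kap c.y c.x c.K D.jx]))) ∧
      ball c'.S = (Multiset.range e).map (fun j => ((none : Option α), j)) +
        ((c.P : Multiset α)).bind (fun a => (Multiset.range D.k).map (fun i => (some a, i))) ∧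
      (∀ (κ : ℕ → ℕ) (y z w : α) (v : List (It ℕ)),
        wpas (none, 0) (wmap (cf κ y z w) v) = (wpas 0 v).map (cf κ y z w))

/-- **Target T_OKS**: the three seams are correct.

Proof.  `okb` by `decide +kernel` (tested: a few seconds).  `inj`, `lt`: `kap i` is the list entry
for `i < k` and `i` otherwise; the lists are permutations of `0, ..., k - 1`.  (Injective: if both
arguments are below k by cases, if one is at least k the values separate.)
`bal`: `decide +kernel`, or `T_CHK (2)` and `decide`. -/
def T_OKS : Prop := SeamOK DT 1 ∧ SeamOK DNT 2 ∧ SeamOK DRT 4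

/-- **Target T_IT** (the seam T): `Perf n`, `n ≥ 2` gives `Perf (3 n - 1)`.

Proof.  T_SEAM with `DT`, `e = 1`, `k = 3`: `n' = 2 + 3 (n - 1)`.  `seamAll`: the b block has 8
moves, each c block 7, the e block 7: together `8 + 7 (n - 2) + 7`.  All items have kind n, so `c'`
is
plain.  `N' + 9 n = 9 N + 7 n + 1` and `3 N + n = 2 n n` give
`3 N' + n' = 2 n' n'` (`3 N' = 18 n^2 - 15 n + 3`). -/
def T_IT : Prop := ∀ n : ℕ, 2 ≤ n → Perf n → Perf (3 * n - 1)

/-- **Target T_INT** (the seam NT): `Perf n`, `n ≥ 2` gives `NPW (6 n - 2)`.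

Proof.  T_SEAM with `DNT`, `e = 2`, `k = 6`: `n' = 4 + 6 (n - 1)`.  Moves (a quadrangle counts 2):
b block 32; c block 31 (`true`) and 30 (`false`); e block 32 (`true`) and 31 (`false`).
For `n = 2` (`lmv = []`): `32 + 32`; for `n ≥ 3`: `32 + 31 + 30 (n - 3) + 31`; in both cases
`30 n + 4`.  `N' + 36 n = 36 N + 30 n + 4`, so `3 N' + n' = 2 n' n' + 2`.
The quadrangles (two of them) are in the block which is done first with `true` (the first c
block if `n ≥ 3`, the e block if `n = 2`); in `D.We1 true ++ .. ++ D.We2 true` resp. `D.Wc true` the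
only items which are not of kind n are two quadrangles, the others plain: `PlainQ`, `Q = 2`.
The order: `c'.P = K' :: (b 0, ..., b 16, r)`.  As codes, `b 0, ..., b 16` are:
`lq = 202`, then `wpas 0 Wb2 = 204, 203, 205, 200` (here y = K, z = q, w = z), then the 12 entries
`202, 101, 203, 201, 204, 200, 205, 302, 304, 303, 305, 301` of `wpas 0 (Wc true)` (y = q, z = q1,
w = z1, where (q1, z1) is the first pair of `lmv`), resp. for `n = 2` the 12 entries
`202, 101, 203, 201, 204, 200, 205, 302, 303, 1, 304, 301` of `wpas 0 (We1 true)` (y = c.y = q,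
z = x, w = K).  The two quadrangles are `qd 201 200 301 202 203 302` and
`qd 105 104 103 205 204 203` with the swapped balls 200, 301, 202, 203, 104, 103, 205, 204; in the
b block the ball `(some q, i)` has the code `200 + i`, in the next block the code `100 + i`.  So the
swapped balls are `b 10, b 16, b 5, b 7, b 1, b 2, b 11, b 9`.
(The function b of NPW may be taken as `fun i => (c'.P.tail).getD i _`.) -/
def T_INT : Prop := ∀ n : ℕ, 2 ≤ n → Perf n → NPW (6 * n - 2)

/-- **Target T_IRT** (the seam RT): `Perf n`, `n ≥ 2` gives `PE (12 n - 4)`.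

Proof.  T_SEAM with `DRT`, `e = 4`, `k = 12`: `n' = 8 + 12 (n - 1)`.  Moves: b block 134; c block
126 (`true`), 124 (`false`); e block 126 (`true`), 124 (`false`): together `124 n + 12`.
`N' + 144 n = 144 N + 124 n + 12`, so `3 N' + n' = 2 n' n'`.  Flags: b block 4, `true` block 10,
`false` block 8: `F' = 4 + 10 + 8 (n - 2) = 8 n - 2` and `3 F' = 2 n' + 2`.  No quadrangles: `Q' =
0`.
Swapped balls as codes (checked by `decide` on the coded words):
b block: `{100, ..., 107} + {200, ..., 203}`;
`true` block (c and e): `{0, 1, 2, 3} + {104, ..., 111} + {200, ..., 211} + {300, ..., 303}`;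
`false` block: `{104, ..., 111} + {200, ..., 211} + {300, ..., 303}`.
As balls: K: strands 0, ..., 7 in the b block and in the e block the codes 300, ..., 303, these are
`kap 0, ..., kap 3 = 8, ..., 11`.  `c.q`: strands 0, ..., 3 in the b block and 4, ..., 11 in the
next
block (y = q).  In every c block with the pair (q1, z1): all strands of q1, the strands 0, ..., 3
of z1, and in the next block (y = z1) the strands 4, ..., 11 of z1.  In the e block all strands of
x.
The balls `(none, j)`, `j < 4`, once in the `true` block.  So the sum is all strands of the balls of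
`c.P` and the four balls `(none, j)`: `c'.Cov` by the formula for `ball c'.S`.
(Induction over the list of pairs: for `l : List (α × α)`,
`wsw (seamC D false y l) + {(y, i) | i < 4} =` all strands of `y` and of the balls of `l` except the
last one, plus `{(last, i) | i < 4}`.) -/
def T_IRT : Prop := ∀ n : ℕ, 2 ≤ n → Perf n → PE (12 * n - 4)

end Bn
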