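import Pool.Agent.BIN.TA
import Pool.Agent.BIN.TD
set_option autoImplicit false
set_option linter.all false

/-!
# BIN: the middle phase of the scaled word (SMID, helper78)
-/

namespace Bn

namespace SMID_

variable {α : Type}

theorem ball_app (A B : List (Sym2 α)) : ball (A ++ B) = ball A + ball B := by
  simp [ball]

theorem mem_one (a b c : α) : c ∈ ball [s(a, b)] ↔ c = a ∨ c = b := by
  have h : ball [s(a, b)] = {a} + {b} := by
    simp only [ball, List.map_cons, List.map_nil, List.sum_cons, List.sum_nil, add_zero]
    rfl
  rw [h]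
  simp

theorem Phi_app (k : ℕ) (ρ : α → ℕ → ℕ) (A B : List (Sym2 α)) :
    Phi k ρ (A ++ B) = Phi k ρ A ++ Phi k ρ B := by
  simp [Phi]

theorem Phi_cons (k : ℕ) (ρ : α → ℕ → ℕ) (e : Sym2 α) (B : List (Sym2 α)) :
    Phi k ρ (e :: B) = sc k ρ e ++ Phi k ρ B := by
  simp [Phi]

theorem Phi_nil (k : ℕ) (ρ : α → ℕ → ℕ) : Phi k ρ ([] : List (Sym2 α)) = [] := rfl

theorem isn_zero (w : List (It α)) (h : ∀ i ∈ w, i.isn) : wF w = 0 ∧ wQ w = 0 ∧ wsw w = 0 := by
  induction w with
  | nil => simp [wF, wQ, wsw]
  | cons i w ih =>
    obtain ⟨h1, h2, h3⟩ := ih fun j hj => h j (List.mem_cons_of_mem _ hj)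
    have hi := h i (by simp)
    have e1 : wF (i :: w) = i.F + wF w := by simp [wF]
    have e2 : wQ (i :: w) = i.Q + wQ w := by simp [wQ]
    have e3 : wsw (i :: w) = i.sw + wsw w := by simp [wsw]
    rw [e1, e2, e3, h1, h2, h3]
    cases i with
    | mv p x q z k =>
      have hk : k = Kd.n := hi
      subst hk
      simp [It.F, It.Q, It.sw]
    | qd e d a x c w => exact absurd hi (by simp [It.isn])

theorem wN_app (w w' : List (It α)) : wN (w ++ w') = wN w + wN w' := by simp [wN]
theorem wF_app (w w' : List (It α)) : wF (w ++ w') = wF w + wF w' := by simp [wF]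
theorem wQ_app (w w' : List (It α)) : wQ (w ++ w') = wQ w + wQ w' := by simp [wQ]
theorem wsw_app (w w' : List (It α)) : wsw (w ++ w') = wsw w + wsw w' := by simp [wsw]
theorem wpas_app [DecidableEq α] (b : α) (w w' : List (It α)) :
    wpas b (w ++ w') = wpas b w ++ wpas b w' := by simp [wpas]
theorem wN_mv (p x q z : α) (k : Kd) (w : List (It α)) :
    wN (It.mv p x q z k :: w) = 1 + wN w := by simp [wN, It.N]

theorem wpas_ne [DecidableEq α] (L p x q z : α) (k : Kd) (w : List (It α)) (h : p ≠ L) :
    wpas L (It.mv p x q z k :: w) = wpas L w := by simp [wpas, It.pas, h]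
theorem wpas_self [DecidableEq α] (L x q z : α) (k : Kd) (w : List (It α)) :
    wpas L (It.mv L x q z k :: w) = q :: z :: wpas L w := by simp [wpas, It.pas]
theorem lmv_ne [DecidableEq α] (L p x q z : α) (k : Kd) (w : List (It α)) (h : p ≠ L) :
    lmv L (It.mv p x q z k :: w) = lmv L w := by simp [lmv, h]
theorem lmv_self [DecidableEq α] (L x q z : α) (k : Kd) (w : List (It α)) :
    lmv L (It.mv L x q z k :: w) = (q, z) :: lmv L w := by simp [lmv]

end SMID_

open SMID_

theorem p_SMID (h1 : T_RUN) (h2 : T_SPLT) (h3 : T_SBL) (h4 : T_NW) : T_SMID := by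
  intro α _ D e K L w
  induction w with
  | nil =>
    intro S S' A B y f hD hKL hrun hn hS hA hB hyK hyL
    have hrun' : S = S' := hrun
    refine ⟨A, B, y, [], by rw [← hrun', hS], hA, hB, ?_, ?_, ?_, ?_, ?_, ?_, ?_, ?_⟩
    · have : (f && (lmv L ([] : List (It α))).isEmpty) = f := by simp [lmv]
      rw [this]
      exact rfl
    · simp [lmv, seamC, wN]
    · simp [lmv, seamC, wF]
    · simp [lmv, seamC, wQ]
    · simp [lmv, seamC, wsw]
    · simp [lmv, seamC, wpas]
    · intro i hi
      simp at hi
    · simp [lmv, wpas]
  | cons i w ih =>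
    intro S S' A B y f hD hKL hrun hn hS hA hB hyK hyL
    obtain ⟨hok, C, E, hS1, hr1⟩ := hrun
    have hw : ∀ j ∈ w, j.isn := fun j hj => hn j (List.mem_cons_of_mem _ hj)
    have hi := hn i (by simp)
    cases i with
    | qd e d a x c w => exact absurd hi (by simp [It.isn])
    | mv p x q z k =>
      have hk : k = Kd.n := hi
      subst hk
      have hrn := h1.2.2.2.2.2.2.2 α {K, L} _ hok
      have hbal : ball (It.mv p x q z Kd.n).r = ball (It.mv p x q z Kd.n).l :=
        h1.2.2.2.2.2.2.1 α {K, L} _ _ _ hrn
      obtain ⟨hx, hq, hz, hp⟩ := hok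
      have hxK : x ≠ K := fun h => hx (by simp [h])
      have hxL : x ≠ L := fun h => hx (by simp [h])
      have hqK : q ≠ K := fun h => hq (by simp [h])
      have hqL : q ≠ L := fun h => hq (by simp [h])
      have hzK : z ≠ K := fun h => hz (by simp [h])
      have hzL : z ≠ L := fun h => hz (by simp [h])
      by_cases hpL : p = L
      · subst hpL
        have he : C ++ (s(p, x) :: (s(q, z) :: E)) = A ++ (s(p, y) :: B) := by
          rw [← hS, hS1]
          simp [It.l]
        obtain ⟨e1, e2, e3⟩ := h2.2.1 α C (s(q, z) :: E) A B p x y he hA hB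
        subst e1 e2 e3
        have hLE : p ∉ ball E := by
          intro h
          apply hB
          rw [(h2.2.2 α C E s(q, z) p).2]
          exact Or.inr h
        have hL1 : p ∉ ball (C ++ [s(x, q)]) := by
          rw [(h2.2.2 α C [s(x, q)] s(x, q) p).1, mem_one]
          rintro (h | h | h)
          · exact hA h
          · exact hyL h.symm
          · exact hqL h.symm
        have hst : C ++ ((It.mv p x q z Kd.n).r ++ E) = (C ++ [s(x, q)]) ++ (s(p, z) :: E) := by
          simp [It.r]
        obtain ⟨A', B', y', w', g1, g2, g3, g4, g5, g6, g7, g8, g9, g10, g11⟩ :=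
          ih _ S' (C ++ [s(x, q)]) E z false hD hKL hr1 hw hst hL1 hLE hzK hzL
        have hsbl := (h3 α D e K x q z x hD hxK hqK hzK hxK).2.2.1 f
        have hctx := h1.2.2.1 _ _ _ _ _ (Phi D.k (rre D.k) C) (Phi D.k (rK D.kap K) E) hsbl
        have q1 : Phi D.k (rre D.k) C ++
            ((smap (cf id x x x) (st (D.GM f)) ++ sc D.k (rK D.kap K) s(q, z)) ++
              Phi D.k (rK D.kap K) E) =
            Phi D.k (rre D.k) C ++ (smap (cf id x x x) (st (D.GM f)) ++
              Phi D.k (rK D.kap K) (s(q, z) :: E)) := by
          rw [Phi_cons, List.append_assoc]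
        have q2 : Phi D.k (rre D.k) C ++
            ((sc D.k (rre D.k) s(x, q) ++ smap (cf id z z z) (st (D.GM false))) ++
              Phi D.k (rK D.kap K) E) =
            Phi D.k (rre D.k) (C ++ [s(x, q)]) ++ (smap (cf id z z z) (st (D.GM false)) ++
              Phi D.k (rK D.kap K) E) := by
          rw [Phi_app, Phi_cons, Phi_nil, List.append_nil]
          simp only [List.append_assoc]
        rw [q1, q2] at hctx
        have hlm := lmv_self p x q z Kd.n w
        refine ⟨A', B', y', wmap (cf id x q z) (D.Wc f) ++ w', g1, g2, g3, ?_, ?_, ?_, ?_, ?_,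
          ?_, ?_, ?_⟩
        · have hb : (f && (lmv p (It.mv p x q z Kd.n :: w)).isEmpty) =
              (false && (lmv p w).isEmpty) := by
            rw [hlm]
            simp
          rw [hb]
          exact h1.1 _ _ _ _ _ _ _ hctx g4
        · rw [hlm, wN_app, wN_mv]
          simp only [seamC, wN_app, List.length_cons]
          linarith
        · rw [hlm, wF_app]
          simp only [seamC, wF_app]
          rw [g6]
        · rw [hlm, wQ_app]
          simp only [seamC, wQ_app]
          rw [g7]
        · rw [hlm, wsw_app]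
          simp only [seamC, wsw_app]
          rw [g8]
        · rw [hlm, wpas_app]
          simp only [seamC, wpas_app]
          rw [g9]
        · intro j hj
          rw [hlm]
          simp only [seamC, List.mem_append] at hj ⊢
          rcases hj with hj | hj
          · exact Or.inr (Or.inl hj)
          · rcases g10 j hj with h | h
            · exact Or.inl h
            · exact Or.inr (Or.inr h)
        · rw [hlm, wpas_self, g11]
          simp
      · have hne : s(L, y) ∉ (It.mv p x q z Kd.n).l := by
          intro h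
          simp only [It.l, List.mem_cons, List.not_mem_nil, or_false] at h
          rcases h with h | h
          · have h5 : L ∈ s(p, x) := by
              rw [← h]
              simp
            rcases Sym2.mem_iff.1 h5 with h6 | h6
            · exact hpL h6.symm
            · exact hxL h6.symm
          · have h5 : L ∈ s(q, z) := by
              rw [← h]
              simp
            rcases Sym2.mem_iff.1 h5 with h6 | h6
            · exact hqL h6.symm
            · exact hzL h6.symm
        have hlm := lmv_ne L p x q z Kd.n w hpL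
        have hps := wpas_ne L p x q z Kd.n w hpL
        have hnw : ∀ ρ : α → ℕ → ℕ, ∃ w0 : List (It (Option α × ℕ)),
            Run {(some K, D.kp), (none, 0)} w0 (sc D.k ρ s(p, x) ++ sc D.k ρ s(q, z))
              (sc D.k ρ s(x, q) ++ sc D.k ρ s(p, z)) ∧
            wN w0 = D.k * D.k ∧ (∀ i ∈ w0, i.isn) ∧ wpas (none, 0) w0 = [] := by
          intro ρ
          apply h4
          intro j
          refine ⟨?_, ?_, ?_⟩
          · simp [hxK]
          · simp [hqK]
          · simp [hzK]
        -- the common end of the two cases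
        have key : ∀ (A1 B1 : List (Sym2 α)) (w0 : List (It (Option α × ℕ))),
            C ++ ((It.mv p x q z Kd.n).r ++ E) = A1 ++ (s(L, y) :: B1) →
            L ∉ ball A1 → L ∉ ball B1 →
            Run {(some K, D.kp), (none, 0)} w0
              (Phi D.k (rre D.k) A ++
                (smap (cf id y y y) (st (D.GM f)) ++ Phi D.k (rK D.kap K) B))
              (Phi D.k (rre D.k) A1 ++
                (smap (cf id y y y) (st (D.GM f)) ++ Phi D.k (rK D.kap K) B1)) →
            wN w0 = D.k * D.k → (∀ i ∈ w0, i.isn) → wpas (none, 0) w0 = [] →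
            ∃ (A' B' : List (Sym2 α)) (y' : α) (w' : List (It (Option α × ℕ))),
              S' = A' ++ (s(L, y') :: B') ∧ L ∉ ball A' ∧ L ∉ ball B' ∧
              Run {(some K, D.kp), (none, 0)} w'
                (Phi D.k (rre D.k) A ++
                  (smap (cf id y y y) (st (D.GM f)) ++ Phi D.k (rK D.kap K) B))
                (Phi D.k (rre D.k) A' ++
                  (smap (cf id y' y' y')
                    (st (D.GM (f && (lmv L (It.mv p x q z Kd.n :: w)).isEmpty))) ++
                    Phi D.k (rK D.kap K) B')) ∧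
              wN w' + D.k * D.k * (lmv L (It.mv p x q z Kd.n :: w)).length =
                D.k * D.k * wN (It.mv p x q z Kd.n :: w) +
                  wN (seamC D f y (lmv L (It.mv p x q z Kd.n :: w))) ∧
              wF w' = wF (seamC D f y (lmv L (It.mv p x q z Kd.n :: w))) ∧
              wQ w' = wQ (seamC D f y (lmv L (It.mv p x q z Kd.n :: w))) ∧
              wsw w' = wsw (seamC D f y (lmv L (It.mv p x q z Kd.n :: w))) ∧
              wpas (none, 0) w' =
                wpas (none, 0) (seamC D f y (lmv L (It.mv p x q z Kd.n :: w))) ∧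
              (∀ i ∈ w', i.isn ∨ i ∈ seamC D f y (lmv L (It.mv p x q z Kd.n :: w))) ∧
              wpas L (It.mv p x q z Kd.n :: w) =
                (lmv L (It.mv p x q z Kd.n :: w)).flatMap (fun e => [e.1, e.2]) := by
          intro A1 B1 w0 k1 k2 k3 k4 k5 k6 k7
          obtain ⟨A', B', y', w', g1, g2, g3, g4, g5, g6, g7, g8, g9, g10, g11⟩ :=
            ih _ S' A1 B1 y f hD hKL hr1 hw k1 k2 k3 hyK hyL
          obtain ⟨z1, z2, z3⟩ := isn_zero w0 k6
          rw [hlm, hps]
          refine ⟨A', B', y', w0 ++ w', g1, g2, g3, h1.1 _ _ _ _ _ _ _ k4 g4, ?_, ?_, ?_, ?_,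
            ?_, ?_, g11⟩
          · rw [wN_app, wN_mv, k5]
            linarith
          · rw [wF_app, z1, zero_add, g6]
          · rw [wQ_app, z2, zero_add, g7]
          · rw [wsw_app, z3, zero_add, g8]
          · rw [wpas_app, k7, List.nil_append, g9]
          · intro j hj
            rcases List.mem_append.1 hj with hj | hj
            · exact Or.inl (k6 j hj)
            · exact g10 j hj
        rcases h2.1 (Sym2 α) C (It.mv p x q z Kd.n).l E A B (s(L, y)) hne
            (hS1.symm.trans hS) with ⟨G, hC, hB1⟩ | ⟨G, hE, hA1⟩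
        · obtain ⟨w0, n1, n2, n3, n4⟩ := hnw (rK D.kap K)
          refine key A (G ++ ((It.mv p x q z Kd.n).r ++ E)) w0 ?_ hA ?_ ?_ n2 n3 n4
          · rw [hC]
            simp
          · rw [ball_app, ball_app, hbal, ← ball_app, ← ball_app, ← hB1]
            exact hB
          · have hctx := h1.2.2.1 _ _ _ _ _ (Phi D.k (rre D.k) A ++
              (smap (cf id y y y) (st (D.GM f)) ++ Phi D.k (rK D.kap K) G))
              (Phi D.k (rK D.kap K) E) n1
            rw [hB1]
            simp only [It.l, It.r, List.cons_append, List.nil_append, Phi_app, Phi_cons,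
              List.append_assoc] at hctx ⊢
            exact hctx
        · obtain ⟨w0, n1, n2, n3, n4⟩ := hnw (rre D.k)
          refine key (C ++ ((It.mv p x q z Kd.n).r ++ G)) B w0 ?_ ?_ hB ?_ n2 n3 n4
          · rw [hE]
            simp
          · rw [ball_app, ball_app, hbal, ← ball_app, ← ball_app, ← hA1]
            exact hA
          · have hctx := h1.2.2.1 _ _ _ _ _ (Phi D.k (rre D.k) C)
              (Phi D.k (rre D.k) G ++
                (smap (cf id y y y) (st (D.GM f)) ++ Phi D.k (rK D.kap K) B)) n1
            rw [hA1]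
            simp only [It.l, It.r, List.cons_append, List.nil_append, Phi_app, Phi_cons,
              List.append_assoc] at hctx ⊢
            exact hctx

end Bn
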