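import Pool.Agent.BIN.TF
set_option autoImplicit false

/-!
# BIN: target STA, thick doubling without labels
-/

namespace Bn

namespace STA_

theorem getD_map (α : Type) (l : List α) (a : α) (k : ℕ) (h : l.length = k) :
    l = (List.range k).map (fun t => l.getD (t % k) a) := by
  refine List.ext_getElem ?_ ?_
  · rw [List.length_map, List.length_range, h]
  · intro i h1 _
    rw [List.getElem_map, List.getElem_range, Nat.mod_eq_of_lt (by omega),
      List.getD_eq_getElem _ _ h1]

theorem plainQ {α : Type} (c : CW α) (h : c.Plain) : c.PlainQ := by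
  intro i hi
  have h1 := h i hi
  cases i with
  | mv p x q z k => exact h1
  | qd e d a x c w => exact True.intro

theorem step (h1 : T_THCK) (h2 : T_PALL) (α : Type) [DecidableEq α] (c : CW α) (hc : c.Plain) :
    ∃ m, 1 ≤ m ∧ c.n = m + 1 ∧ ∃ c' : CW (Tb α m), c'.n = 2 * m + 1 ∧ c'.Plain ∧
      c'.N = c.N + m * (2 * m + 1) := by
  obtain ⟨-, -, -, hn, -, -, hP, -, -, -, -⟩ := h2 α c
  obtain ⟨m, hm⟩ : ∃ m, c.n = m + 1 := ⟨c.n - 1, by omega⟩
  have hP' : c.P.length = 2 * m + 1 := by omega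
  refine ⟨m, by omega, hm, ?_⟩
  have hl : LabOK m (fun _ => Lab.no) := by
    intro t _
    refine ⟨?_, ?_, ?_⟩
    · intro s d h
      exact absurd h (by simp)
    · intro h
      exact absurd h (by simp)
    · intro h
      exact absurd h (by simp)
  obtain ⟨c', e1, e2, -, -, -, -, -, -, e3, -⟩ := h1 α c m (fun _ => Lab.no)
    (fun t => c.P.getD (t % (2 * m + 1)) c.K) (by omega) hm (plainQ c hc) hl
    (getD_map α c.P c.K _ hP') (by simp)
  exact ⟨c', e1, e3 (fun _ => rfl) hc, e2⟩

end STA_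

theorem p_STA (h1 : T_THCK) (h2 : T_PALL) : T_STA := by
  constructor
  · rintro n ⟨α, _, c, hn, hp, hN⟩
    obtain ⟨m, hm1, hm, c', e1, e2, e3⟩ := STA_.step h1 h2 α c hp
    have hnm : n = m + 1 := by rw [← hn, hm]
    subst hnm
    have e4 : 2 * (m + 1) - 1 = 2 * m + 1 := by omega
    rw [e4]
    refine ⟨Tb α m, inferInstance, c', e1, e2, ?_⟩
    rw [e3]
    linarith
  · rintro n ⟨α, _, c, hn, hp, hN⟩
    obtain ⟨m, hm1, hm, c', e1, e2, e3⟩ := STA_.step h1 h2 α c hp
    have hnm : n = m + 1 := by rw [← hn, hm]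
    subst hnm
    have e4 : 2 * (m + 1) - 1 = 2 * m + 1 := by omega
    rw [e4]
    refine ⟨Tb α m, inferInstance, c', e1, e2, ?_⟩
    rw [e3]
    linarith

end Bn
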