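import Pool.Agent.BIN.TF
set_option autoImplicit false
set_option linter.all false

/-!
# BIN: thick doubling with labels (STB)
-/

namespace Bn

namespace STB_

variable {α : Type}

lemma isnq_of_isn {i : It α} (h : i.isn) : i.isnq := by
  cases i with
  | mv p x q z k => exact h
  | qd e d a x c w => trivial

lemma sw_of_isn {i : It α} (h : i.isn) : i.sw = 0 := by
  cases i with
  | mv p x q z k =>
    have hk : k = Kd.n := h
    subst hk
    rfl
  | qd e d a x c w => exact absurd h (by simp [It.isn])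

lemma Q_of_isn {i : It α} (h : i.isn) : i.Q = 0 := by
  cases i with
  | mv p x q z k => rfl
  | qd e d a x c w => exact absurd h (by simp [It.isn])

lemma sw0 {c : CW α} (h : c.Plain) : c.sw = 0 := by
  unfold CW.sw wsw
  apply List.sum_eq_zero
  intro x hx
  obtain ⟨i, hi, rfl⟩ := List.mem_map.1 hx
  exact sw_of_isn (h i hi)

lemma Q0 {c : CW α} (h : c.Plain) : c.Q = 0 := by
  unfold CW.Q wQ
  rw [List.sum_eq_zero_iff]
  intro x hx
  obtain ⟨i, hi, rfl⟩ := List.mem_map.1 hx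
  exact Q_of_isn (h i hi)

/-- the order of the passing balls as a function -/
def Yf [DecidableEq α] (c : CW α) (m : ℕ) (t : ℕ) : α := c.P.getD (t % (2 * m + 1)) c.K

lemma P_eq [DecidableEq α] {c : CW α} {m : ℕ} (h : c.P.length = 2 * m + 1) :
    c.P = (List.range (2 * m + 1)).map (Yf c m) := by
  apply List.ext_getElem
  · rw [List.length_map, List.length_range, h]
  · intro i h1 h2
    rw [List.getElem_map, List.getElem_range]
    unfold Yf
    rw [h] at h1
    rw [Nat.mod_eq_of_lt h1, List.getD_eq_getElem _ _ (by omega)]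

lemma Y_end [DecidableEq α] (c : CW α) (m : ℕ) : Yf c m (2 * m + 1) = Yf c m 0 := by
  unfold Yf
  rw [Nat.mod_self, Nat.zero_mod]

lemma moves {N m : ℕ} (h : 3 * N + (m + 1) = 2 * (m + 1) * (m + 1)) :
    3 * (N + m * (2 * m + 1)) + (2 * m + 1) = 2 * (2 * m + 1) * (2 * m + 1) := by
  nlinarith

end STB_

open STB_

theorem p_STB (h1 : T_THCK) (h2 : T_PALL) (h3 : T_CP0) (h4 : T_CP1) : T_STB := by
  constructor
  · intro n hn hmod hP
    obtain ⟨α, dec, c, hcn, hpl, hN⟩ := hP
    obtain ⟨m, rfl⟩ : ∃ m, n = m + 1 := ⟨n - 1, by omega⟩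
    have e1 : 2 * (m + 1) - 1 = 2 * m + 1 := by omega
    rw [e1] at hmod ⊢
    obtain ⟨lab, hlab, hS, hcov⟩ := h3 m (by omega) hmod
    have hlen : c.P.length = 2 * m + 1 := by
      have := (h2 α c).2.2.2.2.2.2.1
      omega
    obtain ⟨c', g1, g2, g3, g4, g5, g6, g7, g8, g9, g10⟩ := h1 α c m lab (Yf c m) (by omega) hcn
      (fun i hi => isnq_of_isn (hpl i hi)) hlab (P_eq hlen) (Y_end c m)
    refine ⟨Tb α m, inferInstance, c', g1, ?_, g7 hS, ?_, ?_⟩
    · unfold CW.Cov
      rw [g5, g6, sw0 hpl, Multiset.map_zero, zero_add, hcov]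
    · rw [g3, Q0 hpl]
    · rw [g2]
      exact moves hN
  · intro n hn hP
    obtain ⟨α, dec, c, hcn, hpl, hN⟩ := hP
    obtain ⟨m, rfl⟩ : ∃ m, n = m + 1 := ⟨n - 1, by omega⟩
    have e1 : 2 * (m + 1) - 1 = 2 * m + 1 := by omega
    rw [e1] at hn ⊢
    obtain ⟨lab, hlab, hF, hcov⟩ := h4 m (by omega)
    have hlen : c.P.length = 2 * m + 1 := by
      have := (h2 α c).2.2.2.2.2.2.1
      omega
    obtain ⟨c', g1, g2, g3, g4, g5, g6, g7, g8, g9, g10⟩ := h1 α c m lab (Yf c m) (by omega) hcn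
      (fun i hi => isnq_of_isn (hpl i hi)) hlab (P_eq hlen) (Y_end c m)
    refine ⟨Tb α m, inferInstance, c', g1, ?_, ?_, ?_, ?_⟩
    · unfold CW.Cov
      rw [g5, g6, sw0 hpl, Multiset.map_zero, zero_add, hcov]
    · rw [g3, Q0 hpl]
    · rw [g4]
      exact hF
    · rw [g2]
      exact moves hN

end Bn
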