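import Pool.Agent.BIN.TF
set_option autoImplicit false
set_option linter.all false

/-!
# BIN: thick doubling along the other ball of the top bin (STC)
-/

namespace Bn

namespace STC_

theorem list_eq {α : Type} (l : List α) (M : ℕ) (d : α) (h : l.length = M) :
    l = (List.range M).map (fun t => l.getD (t % M) d) := by
  apply List.ext_getElem
  · simp [h]
  · intro i h1 h2
    have hi : i < M := h ▸ h1
    rw [List.getElem_map, List.getElem_range, Nat.mod_eq_of_lt hi, List.getD_eq_getElem _ _ h1]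

end STC_

theorem p_STC (h1 : T_THCK) (h2 : T_PALL) (h3 : T_CTAU) : T_STC := by
  intro n hn
  obtain ⟨α, hα, c, hcn, hpl, hQ, hcN, a, b, r, hP, hsw⟩ := hn
  have hlen0 := (h2 α c).2.2.2.2.2.2.1
  have hl : 18 ≤ c.P.length := by
    rw [hP]
    simp
  obtain ⟨m, rfl⟩ : ∃ m, n = m + 1 := ⟨n - 1, by omega⟩
  obtain ⟨c1, k1, k2, k3, k4, k5, k6, k7⟩ := h3 α c hpl
  have hlen : c1.P.length = 2 * m + 1 := by
    have h4 := (h2 α c1).2.2.2.2.2.2.1
    rw [k1, hcn] at h4
    omega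
  have hlab : LabOK m (fun _ => Lab.no) := by
    intro t ht
    refine ⟨fun s d h => ?_, fun h => ?_, fun h => ?_⟩ <;> simp at h
  obtain ⟨c2, e1, e2, e3, -, e5, -, -, e8, -, e10⟩ := h1 α c1 m (fun _ => Lab.no)
    (fun t => c1.P.getD (t % (2 * m + 1)) c1.K) (by omega) (by rw [k1, hcn]) k4 hlab
    (STC_.list_eq c1.P _ c1.K hlen) (by simp)
  obtain ⟨c3, g1, g2, g3, g4, g5, g6, g7⟩ := h3 (Tb α m) c2 (e8 fun _ => rfl)
  refine ⟨Tb α m, inferInstance, c3, by omega, g4, by rw [g3, e3, k3, hQ], ?_, c2.L,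
    fun i => ob m (b i), r.map (ob m) ++ (hs α m).reverse, ?_, ?_⟩
  · have e9 : 2 * (m + 1) - 1 = 2 * m + 1 := by omega
    rw [g2, e2, k2, e9]
    nlinarith [hcN]
  · rw [g6, e10, k7, hP]
    simp [List.map_reverse, Function.comp_def]
  · have h6 : ∑ t ∈ Finset.range (2 * m + 1),
        cov m (fun t => c1.P.getD (t % (2 * m + 1)) c1.K) t ((fun _ => Lab.no) t) = 0 :=
      Finset.sum_eq_zero fun t _ => rfl
    rw [g5, e5, h6, add_zero, k5, hsw]
    simp

end Bn
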