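import Pool.Agent.BIN.TF
set_option autoImplicit false
set_option linter.all false

/-!
# BIN: thick doubling with labels of a word with two quadrangles (STD)
-/

namespace Bn

namespace STD_

theorem list_eq {α : Type} (l : List α) (M : ℕ) (d : α) (h : l.length = M) :
    l = (List.range M).map (fun t => l.getD (t % M) d) := by
  apply List.ext_getElem
  · simp [h]
  · intro i h1 h2
    have hi : i < M := h ▸ h1
    rw [List.getElem_map, List.getElem_range, Nat.mod_eq_of_lt hi, List.getD_eq_getElem _ _ h1]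

end STD_

theorem p_STD (h1 : T_THCK) (h2 : T_PALL) (h3 : T_CWD) : T_STD := by
  intro n hn hmod hN
  obtain ⟨α, hα, c, hcn, hpl, hQ, hcN, a, b, r, hP, hsw⟩ := hN
  obtain ⟨m, rfl⟩ : ∃ m, n = m + 1 := ⟨n - 1, by omega⟩
  have hlen : c.P.length = 2 * m + 1 := by
    have h4 := (h2 α c).2.2.2.2.2.2.1
    rw [hcn] at h4
    omega
  obtain ⟨lab, hlab, hS, hcov⟩ := h3 m (by omega) (by omega)
  have hY : ∀ i, i < 17 → c.P.getD ((i + 1) % (2 * m + 1)) c.K = b i := by
    intro i hi
    rw [Nat.mod_eq_of_lt (by omega), hP, List.getD_cons_succ,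
      List.getD_append _ _ _ _ (by simp [hi]), List.getD_eq_getElem _ _ (by simp [hi])]
    simp
  have hYe : c.P = (List.range (2 * m + 1)).map
      (fun t => c.P.getD (t % (2 * m + 1)) c.K) := STD_.list_eq c.P _ c.K hlen
  obtain ⟨c', e1, e2, e3, -, e5, e6, e7, -⟩ := h1 α c m lab
    (fun t => c.P.getD (t % (2 * m + 1)) c.K) (by omega) hcn hpl hlab hYe (by simp)
  refine ⟨Tb α m, inferInstance, c', by omega, ?_, e7 hS, by rw [e3, hQ], ?_⟩
  · have h5 := hcov α (fun t => c.P.getD (t % (2 * m + 1)) c.K)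
    have h6 : c.sw.map (ob m) =
        {ob m (c.P.getD (2 % (2 * m + 1)) c.K), ob m (c.P.getD (3 % (2 * m + 1)) c.K),
          ob m (c.P.getD (6 % (2 * m + 1)) c.K), ob m (c.P.getD (8 % (2 * m + 1)) c.K),
          ob m (c.P.getD (10 % (2 * m + 1)) c.K), ob m (c.P.getD (11 % (2 * m + 1)) c.K),
          ob m (c.P.getD (12 % (2 * m + 1)) c.K), ob m (c.P.getD (17 % (2 * m + 1)) c.K)} := by
      rw [hY 1 (by norm_num), hY 2 (by norm_num), hY 5 (by norm_num), hY 7 (by norm_num),
        hY 9 (by norm_num), hY 10 (by norm_num), hY 11 (by norm_num), hY 16 (by norm_num), hsw]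
      simp
    show c'.sw = ball c'.S
    rw [e5, e6, ← h5, h6, add_comm]
  · have e8 : 2 * (m + 1) - 1 = 2 * m + 1 := by omega
    rw [e2, e8]
    nlinarith [hcN]

end Bn
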