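import Pool.Agent.BIN.TF
set_option autoImplicit false
set_option linter.all false

/-!
# BIN: forgetting the decoration, the classes PZ, PE, NPW (STF)
-/

namespace Bn

theorem p_STF (h1 : T_CFG) : T_STF := by
  refine ⟨?_, ?_, ?_⟩
  · rintro n ⟨α, hd, c, hn, -, -, -, hN⟩
    obtain ⟨c', hn', hN', hp⟩ := h1 α c
    exact ⟨α, hd, c', hn'.trans hn, hp, by rw [hN']; exact hN⟩
  · rintro n ⟨α, hd, c, hn, -, -, -, hN⟩
    obtain ⟨c', hn', hN', hp⟩ := h1 α c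
    exact ⟨α, hd, c', hn'.trans hn, hp, by rw [hN']; exact hN⟩
  · rintro n ⟨α, hd, c, hn, -, -, hN, -⟩
    obtain ⟨c', hn', hN', hp⟩ := h1 α c
    exact ⟨α, hd, c', hn'.trans hn, hp, by rw [hN']; exact hN⟩

end Bn
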