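import Pool.Agent.BIN.TF
set_option autoImplicit false
set_option linter.all false

/-!
# BIN: proof of `T_STW` (the doubling W)
-/

namespace Bn

theorem p_STW (h1 : T_W) (h2 : T_FCT) (h3 : T_CFG) : T_STW := by
  refine ⟨?_, ?_, ?_⟩
  · rintro n ⟨α, inst, c, hn, hcov, hfull, hQ, hN⟩
    obtain ⟨c', e1, e2, e3, e4⟩ := h1 α c hcov
    obtain ⟨e5, e6, e7⟩ := e4 hfull
    have hF := h2 α c hfull hcov
    rw [hQ, hn] at hF
    refine ⟨α × Bool, inferInstance, c', by rw [e1, hn], e5, e7 hQ, e3, ?_⟩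
    rw [e2]
    nlinarith
  · rintro n ⟨α, inst, c, hn, hcov, hQ, hF, hN⟩
    obtain ⟨c', e1, e2, e3, -⟩ := h1 α c hcov
    obtain ⟨c'', f1, f2, f3⟩ := h3 _ c'
    refine ⟨α × Bool, inferInstance, c'', by rw [f1, e1, hn], f3, ?_⟩
    rw [f2, e2]
    nlinarith
  · rintro n ⟨α, inst, c, hn, hcov, hfull, hQ, hN⟩
    obtain ⟨c', e1, e2, e3, e4⟩ := h1 α c hcov
    obtain ⟨e5, e6, e7⟩ := e4 hfull
    have hF := h2 α c hfull hcov
    rw [hQ, hn] at hF
    refine ⟨α × Bool, inferInstance, c', by rw [e1, hn], e5, e3, ?_, ?_⟩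
    · rw [e6, hQ]
      omega
    · rw [e2]
      nlinarith

end Bn
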