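import Pool.Agent.BIN.TC
set_option autoImplicit false
set_option linter.all false

/-!
# BIN: the thick doubling with labels (T_THCK)
-/

namespace Bn

namespace THCK_

variable {α β : Type}

/-! ### additive functions -/

theorem wN_app (u v : List (It α)) : wN (u ++ v) = wN u + wN v := by
  simp [wN, List.sum_append]

theorem wF_app (u v : List (It α)) : wF (u ++ v) = wF u + wF v := by
  simp [wF, List.sum_append]

theorem wQ_app (u v : List (It α)) : wQ (u ++ v) = wQ u + wQ v := by
  simp [wQ, List.sum_append]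

theorem wsw_app (u v : List (It α)) : wsw (u ++ v) = wsw u + wsw v := by
  simp [wsw, List.sum_append]

theorem wN_cons (i : It α) (w : List (It α)) : wN (i :: w) = i.N + wN w := by simp [wN]

theorem wF_cons (i : It α) (w : List (It α)) : wF (i :: w) = i.F + wF w := by simp [wF]

theorem wQ_cons (i : It α) (w : List (It α)) : wQ (i :: w) = i.Q + wQ w := by simp [wQ]

theorem wsw_cons (i : It α) (w : List (It α)) : wsw (i :: w) = i.sw + wsw w := by simp [wsw]

/-! ### renaming -/

theorem map_N (f : α → β) (i : It α) : (i.map f).N = i.N := by cases i <;> rfl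

theorem map_Q (f : α → β) (i : It α) : (i.map f).Q = i.Q := by cases i <;> rfl

theorem map_F (f : α → β) (i : It α) (h : i.isnq) : (i.map f).F = 0 := by
  cases i with
  | mv p x q z k =>
    have hk : k = Kd.n := h
    subst hk
    rfl
  | qd e d a x c w => rfl

theorem map_sw (f : α → β) (i : It α) : (i.map f).sw = i.sw.map f := by
  cases i with
  | mv p x q z k => cases k <;> simp [It.map, It.sw]
  | qd e d a x c w => simp [It.map, It.sw]

theorem wmap_N (f : α → β) (w : List (It α)) : wN (wmap f w) = wN w := by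
  induction w with
  | nil => rfl
  | cons i w ih =>
    have e : wmap f (i :: w) = i.map f :: wmap f w := rfl
    rw [e, wN_cons, wN_cons, ih, map_N]

theorem wmap_Q (f : α → β) (w : List (It α)) : wQ (wmap f w) = wQ w := by
  induction w with
  | nil => rfl
  | cons i w ih =>
    have e : wmap f (i :: w) = i.map f :: wmap f w := rfl
    rw [e, wQ_cons, wQ_cons, ih, map_Q]

theorem wmap_F (f : α → β) (w : List (It α)) (h : ∀ i ∈ w, i.isnq) : wF (wmap f w) = 0 := by
  induction w with
  | nil => rfl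
  | cons i w ih =>
    have e : wmap f (i :: w) = i.map f :: wmap f w := rfl
    rw [e, wF_cons, ih (fun j hj => h j (List.mem_cons_of_mem _ hj)),
      map_F f i (h i List.mem_cons_self)]

theorem wmap_sw (f : α → β) (w : List (It α)) : wsw (wmap f w) = (wsw w).map f := by
  induction w with
  | nil => rfl
  | cons i w ih =>
    have e : wmap f (i :: w) = i.map f :: wmap f w := rfl
    rw [e, wsw_cons, wsw_cons, ih, map_sw, Multiset.map_add]

/-! ### balls -/

theorem ball_app (A B : List (Sym2 α)) : ball (A ++ B) = ball A + ball B := by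
  simp [ball, List.sum_append]

theorem ball_cons (a b : α) (B : List (Sym2 α)) : ball (s(a, b) :: B) = {a} + {b} + ball B := by
  have e : ball (s(a, b) :: B) = (s(a, b)).toMultiset + ball B := rfl
  rw [e]
  rfl

theorem ball_smap (f : α → β) (S : List (Sym2 α)) : ball (smap f S) = (ball S).map f := by
  induction S with
  | nil => rfl
  | cons e S ih =>
    induction e with
    | h a b =>
      have e1 : smap f (s(a, b) :: S) = s(f a, f b) :: smap f S := rfl
      rw [e1, ball_cons, ball_cons, ih]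
      simp

/-- the residues of the block -/
theorem resid (m : ℕ) :
    ({0} : Multiset (ZMod (2 * m + 1))) + ((List.range m).map (fun (j : ℕ) =>
      ({(0 : ZMod (2 * m + 1)) - (2 * (j : ZMod (2 * m + 1)) + 2)} : Multiset (ZMod (2 * m + 1))) +
        {(0 : ZMod (2 * m + 1)) + (2 * (j : ZMod (2 * m + 1)) + 2)})).sum =
      (Finset.univ : Finset (ZMod (2 * m + 1))).val := by
  symm
  apply Multiset.eq_of_le_of_card_le
  · rw [Multiset.le_iff_subset Finset.univ.nodup]
    intro b _
    have hb : ((b.val : ℕ) : ZMod (2 * m + 1)) = b := ZMod.natCast_zmod_val b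
    have hlt : b.val < 2 * m + 1 := ZMod.val_lt b
    have key : ∀ (j : ℕ), j < m → (b = (0 : ZMod (2 * m + 1)) - (2 * (j : ZMod (2 * m + 1)) + 2) ∨
        b = (0 : ZMod (2 * m + 1)) + (2 * (j : ZMod (2 * m + 1)) + 2)) →
        b ∈ ({0} : Multiset (ZMod (2 * m + 1))) + ((List.range m).map (fun (j : ℕ) =>
          ({(0 : ZMod (2 * m + 1)) - (2 * (j : ZMod (2 * m + 1)) + 2)} :
            Multiset (ZMod (2 * m + 1))) +
            {(0 : ZMod (2 * m + 1)) + (2 * (j : ZMod (2 * m + 1)) + 2)})).sum := by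
      intro j hj h
      rw [Multiset.mem_add]
      right
      have hmem : ∀ (l : List ℕ), j ∈ l → b ∈ (l.map (fun (j : ℕ) =>
          ({(0 : ZMod (2 * m + 1)) - (2 * (j : ZMod (2 * m + 1)) + 2)} :
            Multiset (ZMod (2 * m + 1))) +
            {(0 : ZMod (2 * m + 1)) + (2 * (j : ZMod (2 * m + 1)) + 2)})).sum := by
        intro l hl
        induction l with
        | nil => simp at hl
        | cons a l ih =>
          rw [List.map_cons, List.sum_cons, Multiset.mem_add]
          rcases List.mem_cons.1 hl with rfl | hl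
          · left
            rw [Multiset.mem_add, Multiset.mem_singleton, Multiset.mem_singleton]
            exact h
          · right
            exact ih hl
      exact hmem _ (List.mem_range.2 hj)
    rcases Nat.eq_zero_or_pos b.val with h0 | h0
    · rw [Multiset.mem_add]
      left
      rw [Multiset.mem_singleton, ← hb, h0, Nat.cast_zero]
    · rcases Nat.even_or_odd b.val with he | ho
      · obtain ⟨r, hr⟩ := he
        refine key (r - 1) (by omega) (Or.inr ?_)
        have e : b.val = 2 * (r - 1) + 2 := by omega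
        rw [zero_add, ← hb, e]
        push_cast
        ring
      · obtain ⟨r, hr⟩ := ho
        refine key (m - 1 - r) (by omega) (Or.inl ?_)
        have e : b.val + (2 * (m - 1 - r) + 2) = 2 * m + 1 := by omega
        have e2 : ((b.val + (2 * (m - 1 - r) + 2) : ℕ) : ZMod (2 * m + 1)) = 0 := by
          rw [e]
          exact ZMod.natCast_self _
        rw [Nat.cast_add, hb] at e2
        rw [zero_sub]
        have e3 := eq_neg_of_add_eq_zero_left e2
        rw [e3]
        push_cast
        ring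
  · have hc : ∀ (l : List ℕ), Multiset.card (l.map (fun (j : ℕ) =>
          ({(0 : ZMod (2 * m + 1)) - (2 * (j : ZMod (2 * m + 1)) + 2)} :
            Multiset (ZMod (2 * m + 1))) +
            {(0 : ZMod (2 * m + 1)) + (2 * (j : ZMod (2 * m + 1)) + 2)})).sum = 2 * l.length := by
      intro l
      induction l with
      | nil => rfl
      | cons a l ih =>
        rw [List.map_cons, List.sum_cons, Multiset.card_add, ih, Multiset.card_add,
          Multiset.card_singleton, Multiset.card_singleton, List.length_cons]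
        ring
    rw [Multiset.card_add, hc, Multiset.card_singleton, List.length_range]
    have : (Finset.univ : Finset (ZMod (2 * m + 1))).val.card = 2 * m + 1 := by
      rw [Finset.card_val, Finset.card_univ, ZMod.card]
    rw [this]
    omega

theorem ball_Top (m : ℕ) (X : Tb α m) :
    ball (Top m 0 X) = {X} + (Finset.univ : Finset (ZMod (2 * m + 1))).val.map (hb α m) := by
  have h1 : ball (Tp2 α m 0) = (((List.range m).map (fun (j : ℕ) =>
      ({(0 : ZMod (2 * m + 1)) - (2 * (j : ZMod (2 * m + 1)) + 2)} : Multiset (ZMod (2 * m + 1))) +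
        {(0 : ZMod (2 * m + 1)) + (2 * (j : ZMod (2 * m + 1)) + 2)})).sum).map (hb α m) := by
    have hl : ∀ (l : List ℕ), ball (l.map (fun (j : ℕ) =>
        s(hb α m (((0 : ℕ) : ZMod (2 * m + 1)) - (2 * (j : ZMod (2 * m + 1)) + 2)),
          hb α m (((0 : ℕ) : ZMod (2 * m + 1)) + (2 * (j : ZMod (2 * m + 1)) + 2))))) =
        ((l.map (fun (j : ℕ) =>
        ({(0 : ZMod (2 * m + 1)) - (2 * (j : ZMod (2 * m + 1)) + 2)} :
          Multiset (ZMod (2 * m + 1))) +
        {(0 : ZMod (2 * m + 1)) + (2 * (j : ZMod (2 * m + 1)) + 2)})).sum).map (hb α m) := by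
      intro l
      induction l with
      | nil => rfl
      | cons a l ih =>
        rw [List.map_cons, List.map_cons, List.sum_cons, Multiset.map_add, ball_cons, ih,
          Multiset.map_add, Multiset.map_singleton, Multiset.map_singleton, Nat.cast_zero]
    exact hl _
  have h2 : Top m 0 X = s(X, hb α m ((0 : ℕ) : ZMod (2 * m + 1))) :: Tp2 α m 0 := rfl
  rw [h2, ball_cons, h1, ← resid m, Multiset.map_add, Multiset.map_singleton, Nat.cast_zero]
  rw [add_assoc]

/-! ### kinds of the items -/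

theorem thk_all [DecidableEq α] (m : ℕ) (κ : ℕ → ℕ → Kd) (L : α) (Pr : It (Tb α m) → Prop)
    (hP : ∀ (t : ℕ) (y : α), ∀ i ∈ pOdd m κ t y, Pr i)
    (hE : ∀ (t : ℕ) (v y w : α), ∀ i ∈ (pEv1 m κ t y w :: pEv2 m κ t v y), Pr i) :
    ∀ (w : List (It α)) (t : ℕ) (y : α), (∀ i ∈ w, Pr (i.map (ob m))) →
      ∀ i ∈ thk m κ L t y w, Pr i := by
  intro w
  induction w with
  | nil =>
    intro t y _ i hi
    simp [thk] at hi
  | cons j w ih =>
    intro t y h i hi
    have hw : ∀ i ∈ w, Pr (i.map (ob m)) := fun i hi => h i (List.mem_cons_of_mem _ hi)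
    have hj : Pr (j.map (ob m)) := h j List.mem_cons_self
    cases j with
    | mv p x q z k =>
      by_cases hp : p = L
      · rw [thk, if_pos hp] at hi
        rcases List.mem_append.1 hi with hi | hi
        · rcases List.mem_append.1 hi with hi | hi
          · exact hP _ _ i hi
          · exact hE _ _ _ _ i hi
        · exact ih _ _ hw i hi
      · rw [thk, if_neg hp] at hi
        rcases List.mem_cons.1 hi with rfl | hi
        · exact hj
        · exact ih _ _ hw i hi
    | qd e d a x c v =>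
      rw [thk] at hi
      rcases List.mem_cons.1 hi with rfl | hi
      · exact hj
      · exact ih _ _ hw i hi

/-- the pieces of the thick word -/
def pieces [DecidableEq α] (m : ℕ) (κ : ℕ → ℕ → Kd) (κ0 : ℕ → Kd) (kA : Kd) (c : CW α) :
    List (It (Tb α m)) :=
  wmap (ob m) c.w1 ++ (pDown m κ0 c.K ++ (It.mv (ob m c.K) (hb α m 1) (ob m c.q) (ob m c.z) kA ::
    (thk m κ c.L 1 c.q c.w2 ++ (pOdd m κ (2 * m - 1) c.y ++
      ((pEv1 m κ (2 * m) c.x c.K :: pEv2 m κ (2 * m) c.y c.x) ++ wmap (ob m) c.w3)))))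

theorem word_eq [DecidableEq α] (h7 : T_PEND) (h8 : T_PDWN) (m : ℕ) (hm : 1 ≤ m)
    (κ : ℕ → ℕ → Kd) (κ0 : ℕ → Kd) (h0 : ∀ j, (κ0 j).tr) (kA : Kd) (c : CW α) :
    thword m κ κ0 kA c = pieces m κ κ0 kA c := by
  have e1 := (h8 α m κ0 c.K (ob m c.K) hm h0).1
  have e2 := (h7 α m κ c.y c.y c.x c.K (ob m c.K) hm).2.2.2.2.2
  unfold pieces
  rw [e1, e2]
  simp only [thword, thw2, List.append_assoc, List.cons_append, List.tail_cons]

theorem pieces_all [DecidableEq α] (m : ℕ) (κ : ℕ → ℕ → Kd) (κ0 : ℕ → Kd) (kA : Kd) (c : CW α)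
    (Pr : It (Tb α m) → Prop)
    (hP : ∀ (t : ℕ) (y : α), ∀ i ∈ pOdd m κ t y, Pr i)
    (hD : ∀ (y : α), ∀ i ∈ pDown m κ0 y, Pr i)
    (hE : ∀ (t : ℕ) (v y w : α), ∀ i ∈ (pEv1 m κ t y w :: pEv2 m κ t v y), Pr i)
    (hA : Pr (It.mv (ob m c.K) (hb α m 1) (ob m c.q) (ob m c.z) kA))
    (ho : ∀ i ∈ c.word, Pr (i.map (ob m))) :
    ∀ i ∈ pieces m κ κ0 kA c, Pr i := by
  have o1 : ∀ i ∈ c.w1, Pr (i.map (ob m)) := fun i hi => ho i (by simp [CW.word, hi])
  have o2 : ∀ i ∈ c.w2, Pr (i.map (ob m)) := fun i hi => ho i (by simp [CW.word, hi])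
  have o3 : ∀ i ∈ c.w3, Pr (i.map (ob m)) := fun i hi => ho i (by simp [CW.word, hi])
  have om : ∀ w : List (It α), (∀ i ∈ w, Pr (i.map (ob m))) → ∀ i ∈ wmap (ob m) w, Pr i := by
    intro w hw i hi
    obtain ⟨j, hj, rfl⟩ := List.mem_map.1 hi
    exact hw j hj
  intro i hi
  unfold pieces at hi
  rcases List.mem_append.1 hi with hi | hi
  · exact om _ o1 i hi
  rcases List.mem_append.1 hi with hi | hi
  · exact hD _ i hi
  rcases List.mem_cons.1 hi with rfl | hi
  · exact hA
  rcases List.mem_append.1 hi with hi | hi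
  · exact thk_all m κ c.L Pr hP hE c.w2 1 c.q o2 i hi
  rcases List.mem_append.1 hi with hi | hi
  · exact hP _ _ i hi
  rcases List.mem_append.1 hi with hi | hi
  · exact hE _ _ _ _ i hi
  · exact om _ o3 i hi

theorem isnq_isfq (i : It α) (h : i.isnq) : i.isfq := by
  cases i with
  | mv p x q z k => exact Or.inl h
  | qd e d a x c w => trivial

theorem isn_isnq (i : It α) (h : i.isn) : i.isnq := by
  cases i with
  | mv p x q z k => exact h
  | qd e d a x c w => trivial

theorem map_isnq (f : α → β) (i : It α) (h : i.isnq) : (i.map f).isnq := by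
  cases i with
  | mv p x q z k => exact h
  | qd e d a x c w => trivial

theorem map_isn (f : α → β) (i : It α) (h : i.isn) : (i.map f).isn := by
  cases i with
  | mv p x q z k => exact h
  | qd e d a x c w => exact h

/-! ### sums -/

theorem sum2 {M : Type} [AddCommMonoid M] (f : ℕ → M) (m : ℕ) (hm : 1 ≤ m) :
    ∑ i ∈ Finset.range (2 * m), f (1 + i) =
      ∑ i ∈ Finset.range (2 * (m - 1)), f (1 + i) + f (2 * m - 1) + f (2 * m) := by
  have e : 2 * m = 2 * (m - 1) + 1 + 1 := by omega
  have e1 : 1 + 2 * (m - 1) = 2 * m - 1 := by omega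
  have e2 : 1 + (2 * (m - 1) + 1) = 2 * m := by omega
  have e3 : ∑ i ∈ Finset.range (2 * m), f (1 + i) =
      ∑ i ∈ Finset.range (2 * (m - 1) + 1 + 1), f (1 + i) := by rw [← e]
  rw [e3, Finset.sum_range_succ, Finset.sum_range_succ, e1, e2]

/-- the order of the passing balls -/
theorem order [DecidableEq α] (h2 : T_PALL) (c : CW α) (m : ℕ) (Y : ℕ → α) (hm : 1 ≤ m)
    (hn : c.n = m + 1) (hP : c.P = (List.range (2 * m + 1)).map Y) :
    c.K = Y 0 ∧ c.q = Y 1 ∧ c.x = Y (2 * m) ∧ c.y = Y (2 * m - 1) ∧ nmv c.L c.w2 = m - 1 ∧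
      c.q :: wpas c.L c.w2 =
        (List.range (2 * nmv c.L c.w2 + 1)).map (fun i => Y (1 + i)) := by
  obtain ⟨-, -, -, hN, -, hlast, -⟩ := h2 α c
  have hnm : nmv c.L c.w2 = m - 1 := by omega
  have e1 : (List.range (2 * m + 1)).map Y =
      Y 0 :: ((List.range (2 * m)).map (fun i => Y (1 + i))) := by
    rw [List.range_succ_eq_map, List.map_cons, List.map_map]
    congr 1
    apply List.map_congr_left
    intro i _
    show Y (Nat.succ i) = Y (1 + i)
    congr 1
    omega
  have e2 : (List.range (2 * m)).map (fun i => Y (1 + i)) =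
      (List.range (2 * (m - 1) + 1)).map (fun i => Y (1 + i)) ++ [Y (2 * m)] := by
    have e : 2 * m = 2 * (m - 1) + 1 + 1 := by omega
    have e' : 1 + (2 * (m - 1) + 1) = 2 * m := by omega
    have e'' : (List.range (2 * m)).map (fun i => Y (1 + i)) =
      (List.range (2 * (m - 1) + 1 + 1)).map (fun i => Y (1 + i)) := by rw [← e]
    rw [e'', List.range_succ, List.map_append, List.map_cons, List.map_nil, e']
  have e3 : c.P = c.K :: ((c.q :: wpas c.L c.w2) ++ [c.x]) := rfl
  rw [e3, e1, e2] at hP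
  obtain ⟨hK, hP⟩ := List.cons.inj hP
  obtain ⟨hq, hx⟩ := List.append_inj' hP rfl
  have hx' : c.x = Y (2 * m) := (List.cons.inj hx).1
  have hq1 : c.q = Y 1 := by
    rw [List.range_succ_eq_map, List.map_cons] at hq
    exact (List.cons.inj hq).1
  have hy : c.y = Y (2 * m - 1) := by
    rw [hq, List.range_succ, List.map_append, List.map_cons, List.map_nil,
      List.getLast?_append, List.getLast?_singleton, Option.some_or] at hlast
    have h1 := (Option.some.inj hlast).symm
    rw [h1]
    congr 1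
    omega
  refine ⟨hK, hq1, hx', hy, hnm, ?_⟩
  rw [hnm]
  exact hq

theorem pc_odd (m : ℕ) (lab : ℕ → Lab) (Y : ℕ → α) (u : ℕ) (hu : u % 2 = 1) :
    pc m lab Y u = lsw α m u (ob m (Y u)) (lab u) := by
  have h : ¬ (u % 2 = 0) := by omega
  simp [pc, h]

theorem pcF_odd (lab : ℕ → Lab) (u : ℕ) (hu : u % 2 = 1) : pcF lab u = lF (lab u) := by
  have h : ¬ (u % 2 = 0) := by omega
  simp [pcF, h]

theorem pc_even (m : ℕ) (lab : ℕ → Lab) (Y : ℕ → α) (u : ℕ) (hu : u % 2 = 0) :
    pc m lab Y u = lsw α m u (ob m (Y u)) (lab u) +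
      (if lab u = Lab.A then
        {ob m (Y u), ob m (Y (u + 1)), hb α m ((u : ZMod (2 * m + 1)) + 1)} else 0) +
      (if lab u = Lab.no ∧ lab (u - 1) = Lab.A then
        {hb α m (u : ZMod (2 * m + 1)), ob m (Y (u - 1)), ob m (Y u)} else 0) := by
  simp [pc, hu]

theorem pcF_even (lab : ℕ → Lab) (u : ℕ) (hu : u % 2 = 0) :
    pcF lab u = lF (lab u) + (if lab u = Lab.A then 1 else 0) +
      (if lab u = Lab.no ∧ lab (u - 1) = Lab.A then 1 else 0) := by
  simp [pcF, hu]

end THCK_

open THCK_ in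
/-- the thick doubling with labels -/
theorem p_THCK (h1 : T_THCW) (h2 : T_PALL) (h3 : T_PSWO) (h4 : T_PSWE) (h5 : T_THKS)
    (h6 : T_CSUM) (h7 : T_PEND) (h8 : T_PDWN) : T_THCK := by
  intro α _ c m lab Y hm hn hPQ hL hP hY
  obtain ⟨s1, s2, s3, s4, s5⟩ := h3
  have htr1 : ∀ t, (kd m lab t t).tr := fun t => (s3 m lab t).1
  have htr0 : ∀ t, (kd0 m lab t).tr := fun t => (s3 m lab t).2.1
  have htrA : (kdA lab).tr := (s3 m lab 0).2.2
  obtain ⟨c', hn', hw', hS', hPK'⟩ :=
    h1 α c m (kd m lab) (kd0 m lab) (kdA lab) hm hn htr1 htr0 htrA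
  obtain ⟨hK, hq, hx, hy, hnm, hord⟩ := order h2 c m Y hm hn hP
  have hw : c'.word = pieces m (kd m lab) (kd0 m lab) (kdA lab) c := by
    rw [hw', word_eq h7 h8 m hm (kd m lab) (kd0 m lab) htr0 (kdA lab) c]
  -- the old word
  have o1 : ∀ i ∈ c.w1, i.isnq := fun i hi => hPQ i (by simp [CW.word, hi])
  have o2 : ∀ i ∈ c.w2, i.isnq := fun i hi => hPQ i (by simp [CW.word, hi])
  have o3 : ∀ i ∈ c.w3, i.isnq := fun i hi => hPQ i (by simp [CW.word, hi])
  have k1 : c.k1 = Kd.n := hPQ c.lv (by simp [CW.word])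
  have k2 : c.k2 = Kd.n := hPQ c.jn (by simp [CW.word])
  have hlv : c.lv.sw = 0 := by
    unfold CW.lv
    rw [k1]
    rfl
  have hjn : c.jn.sw = 0 := by
    unfold CW.jn
    rw [k2]
    rfl
  have hodd : (2 * m - 1) % 2 = 1 := by omega
  have heven : (2 * m) % 2 = 0 := by omega
  have hle : 1 + 2 * nmv c.L c.w2 ≤ 2 * m - 1 := by omega
  obtain ⟨t1, t2, t3, t4⟩ := h5 α m lab c.L c.w2 Y c.q 1 hm hL o2 rfl hle hord
  obtain ⟨d1, d2⟩ := s2 α m lab c.K hm hL
  obtain ⟨a1, a2⟩ := s1 α m lab (2 * m - 1) c.y hm hL hodd le_rfl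
  obtain ⟨b1, b2⟩ := h4 α m lab (2 * m) c.y c.x c.K hm hL heven (by omega) le_rfl
  obtain ⟨u1, u2⟩ := h6 α m lab Y hm hL
  have pe : lsw α m (2 * m) (ob m c.x) (lab (2 * m)) +
      (if lab (2 * m) = Lab.A then
        {ob m c.x, ob m c.K, hb α m (((2 * m : ℕ) : ZMod (2 * m + 1)) + 1)} else 0) +
      (if lab (2 * m) = Lab.no ∧ lab (2 * m - 1) = Lab.A then
        {hb α m ((2 * m : ℕ) : ZMod (2 * m + 1)), ob m c.y, ob m c.x} else 0) =
      pc m lab Y (2 * m) := by
    rw [pc_even m lab Y (2 * m) heven, hY, hx, hy, hK]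
  have po : lsw α m (2 * m - 1) (ob m c.y) (lab (2 * m - 1)) = pc m lab Y (2 * m - 1) := by
    rw [pc_odd m lab Y (2 * m - 1) hodd, hy]
  have pA : (It.mv (ob m c.K) (hb α m 1) (ob m c.q) (ob m c.z) (kdA lab)).sw =
      (if lab 0 = Lab.A then {ob m (Y 0), ob m (Y 1), hb α m 1} else 0) := by
    by_cases hA : lab 0 = Lab.A
    · rw [if_pos hA]
      unfold kdA
      rw [if_pos hA, hK, hq]
      show ({ob m (Y 0), hb α m 1, ob m (Y 1)} : Multiset (Tb α m)) = _
      have e : ({hb α m 1, ob m (Y 1)} : Multiset (Tb α m)) = {ob m (Y 1), hb α m 1} :=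
        Multiset.pair_comm _ _
      show (ob m (Y 0)) ::ₘ ({hb α m 1, ob m (Y 1)} : Multiset (Tb α m)) = _
      rw [e]
      rfl
    · rw [if_neg hA]
      unfold kdA
      rw [if_neg hA]
      rfl
  have pAF : (It.mv (ob m c.K) (hb α m 1) (ob m c.q) (ob m c.z) (kdA lab)).F =
      (if lab 0 = Lab.A then 1 else 0) := by
    by_cases hA : lab 0 = Lab.A
    · rw [if_pos hA]
      unfold kdA
      rw [if_pos hA]
      rfl
    · rw [if_neg hA]
      unfold kdA
      rw [if_neg hA]
      rfl
  refine ⟨c', hn', ?_, ?_, ?_, ?_, ?_, ?_, ?_, ?_, hPK'⟩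
  · -- moves
    unfold CW.N
    rw [hw]
    unfold pieces CW.word
    simp only [wN_app, wN_cons, wmap_N, t2, hnm]
    have v1 := (s4 α m (kd m lab) (kd0 m lab) (2 * m) c.y c.x hm).2.2.1
    have v2 := (s4 α m (kd m lab) (kd0 m lab) (2 * m) c.y c.K hm).2.1
    have v3 := (s4 α m (kd m lab) (kd0 m lab) (2 * m - 1) c.y c.y hm).1
    rw [v1, v2, v3]
    obtain ⟨m', rfl⟩ : ∃ m', m = m' + 1 := ⟨m - 1, by omega⟩
    simp only [It.N, pEv1, CW.lv, CW.jn, Nat.add_sub_cancel]
    ring
  · -- quadrangles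
    unfold CW.Q
    rw [hw]
    unfold pieces CW.word
    simp only [wQ_app, wQ_cons, wmap_Q, t3]
    have v1 := (s4 α m (kd m lab) (kd0 m lab) (2 * m) c.y c.x hm).2.2.2.2.2
    have v2 := (s4 α m (kd m lab) (kd0 m lab) (2 * m) c.y c.K hm).2.2.2.2.1
    have v3 := (s4 α m (kd m lab) (kd0 m lab) (2 * m - 1) c.y c.y hm).2.2.2.1
    rw [v1, v2, v3]
    simp only [It.Q, pEv1, CW.lv, CW.jn]
    ring
  · -- flags
    unfold CW.F
    rw [hw]
    unfold pieces
    rw [wF_app, wF_app, wF_cons, wF_app, wF_app, wF_app, wmap_F _ _ o1, wmap_F _ _ o3, d2, t4, a2,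
      b2, pAF, ← u2, sum2 (pcF lab) m hm, hnm, pcF_odd lab (2 * m - 1) hodd,
      pcF_even lab (2 * m) heven]
    ring
  · -- swapped balls
    have hsw : c.sw = wsw c.w1 + wsw c.w2 + wsw c.w3 := by
      unfold CW.sw CW.word
      rw [wsw_app, wsw_cons, wsw_app, wsw_cons, hlv, hjn, zero_add, zero_add, add_assoc]
    rw [hsw]
    unfold CW.sw
    rw [hw]
    unfold pieces
    rw [wsw_app, wsw_app, wsw_cons, wsw_app, wsw_app, wsw_app, wmap_sw, wmap_sw, d1, t1, a1,
      b1, pA, pe, po, ← u1, sum2 (pc m lab Y) m hm, hnm, hK, Multiset.map_add, Multiset.map_add]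
    abel
  · -- balls
    rw [hS', ball_app, ball_smap, ball_Top]
    have hb0 : c.K ::ₘ ball c.B0 = (c.P : Multiset α) := by
      have e := (h2 α c).1
      have e1 : ball c.S = {c.K} + {c.L} + ball c.B0 := ball_cons _ _ _
      rw [e1, add_comm ({c.K} : Multiset α) {c.L}, add_assoc] at e
      have e2 := add_left_cancel e
      rw [← e2, Multiset.singleton_add]
    have e3 : (Multiset.range (2 * m + 1)).map (fun t => ob m (Y t)) =
        (c.P : Multiset α).map (ob m) := by
      rw [hP, ← Multiset.coe_range, Multiset.map_coe, Multiset.map_coe, List.map_map]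
      rfl
    rw [e3, ← hb0, Multiset.map_cons, ← Multiset.singleton_add]
    abel
  · -- FullQ
    intro hS i hi
    rw [hw] at hi
    refine pieces_all m (kd m lab) (kd0 m lab) (kdA lab) c (fun i => i.isfq) ?_ ?_ ?_ ?_ ?_ i hi
    · intro t y j hj
      exact (s5 α m lab t y y y).1 hS j (List.mem_append_left _ hj)
    · intro y j hj
      exact (s5 α m lab 0 y y y).1 hS j (List.mem_append_right _ (List.mem_append_left _ hj))
    · intro t v y w j hj
      have hj' : j ∈ pOdd m (kd m lab) t y ++ (pDown m (kd0 m lab) y ++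
        (pEv1 m (kd m lab) t y w :: pEv2 m (kd m lab) t v y)) :=
        List.mem_append_right _ (List.mem_append_right _ hj)
      exact (s5 α m lab t v y w).1 hS j hj'
    · exact htrA
    · intro j hj
      exact isnq_isfq _ (map_isnq _ _ (hPQ j hj))
  · -- PlainQ
    intro hS i hi
    rw [hw] at hi
    refine pieces_all m (kd m lab) (kd0 m lab) (kdA lab) c (fun i => i.isnq) ?_ ?_ ?_ ?_ ?_ i hi
    · intro t y j hj
      exact isn_isnq _ ((s5 α m lab t y y y).2 hS j (List.mem_append_left _ hj))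
    · intro y j hj
      exact isn_isnq _ ((s5 α m lab 0 y y y).2 hS j
        (List.mem_append_right _ (List.mem_append_left _ hj)))
    · intro t v y w j hj
      have hj' : j ∈ pOdd m (kd m lab) t y ++ (pDown m (kd0 m lab) y ++
        (pEv1 m (kd m lab) t y w :: pEv2 m (kd m lab) t v y)) :=
        List.mem_append_right _ (List.mem_append_right _ hj)
      exact isn_isnq _ ((s5 α m lab t v y w).2 hS j hj')
    · show kdA lab = Kd.n
      unfold kdA
      rw [if_neg]
      rw [hS 0]
      simp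
    · intro j hj
      exact map_isnq _ _ (hPQ j hj)
  · -- Plain
    intro hS hPl i hi
    rw [hw] at hi
    refine pieces_all m (kd m lab) (kd0 m lab) (kdA lab) c (fun i => i.isn) ?_ ?_ ?_ ?_ ?_ i hi
    · intro t y j hj
      exact (s5 α m lab t y y y).2 hS j (List.mem_append_left _ hj)
    · intro y j hj
      exact (s5 α m lab 0 y y y).2 hS j (List.mem_append_right _ (List.mem_append_left _ hj))
    · intro t v y w j hj
      have hj' : j ∈ pOdd m (kd m lab) t y ++ (pDown m (kd0 m lab) y ++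
        (pEv1 m (kd m lab) t y w :: pEv2 m (kd m lab) t v y)) :=
        List.mem_append_right _ (List.mem_append_right _ hj)
      exact (s5 α m lab t v y w).2 hS j hj'
    · show kdA lab = Kd.n
      unfold kdA
      rw [if_neg]
      rw [hS 0]
      simp
    · intro j hj
      exact map_isn _ _ (hPl j hj)

end Bn
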