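import Pool.Agent.BIN.TC
import Pool.Agent.BIN.P_RUN
import Pool.Agent.BIN.P_THCK
set_option autoImplicit false

/-!
# BIN: the thick word is a clean word (THCW)
-/

namespace Bn

namespace THCW_

variable {α β : Type}

theorem ob_nin {m : ℕ} {K y : α} (h : y ≠ K) :
    ob m y ∉ ({ob m K, hb α m 0} : Set (Tb α m)) := by
  intro h1
  rcases h1 with h1 | h1
  · exact h (Sum.inl_injective h1)
  · exact Sum.inl_ne_inr h1

theorem hb_nin {m : ℕ} {K : α} {b : ZMod (2 * m + 1)} (h : b ≠ 0) :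
    hb α m b ∉ ({ob m K, hb α m 0} : Set (Tb α m)) := by
  intro h1
  rcases h1 with h1 | h1
  · exact Sum.inr_ne_inl h1
  · exact h (Sum.inr_injective h1)

theorem nd4 {a b c d : α} (h : (ball [s(a, b), s(c, d)]).Nodup) :
    a ≠ b ∧ a ≠ c ∧ a ≠ d ∧ b ≠ c ∧ b ≠ d ∧ c ≠ d := by
  have h1 : ball [s(a, b), s(c, d)] = a ::ₘ b ::ₘ c ::ₘ d ::ₘ 0 := by
    rw [RUN_.ball_cons, RUN_.ball_cons, RUN_.ball_nil, add_zero]
    rfl
  rw [h1] at h
  simp only [Multiset.nodup_cons, Multiset.mem_cons, not_or, Multiset.notMem_zero] at h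
  obtain ⟨⟨x1, x2, x3, -⟩, ⟨x4, x5, -⟩, ⟨x6, -⟩, -⟩ := h
  exact ⟨x1, x2, x3, x4, x5, x6⟩

theorem nd (m : ℕ) (c : CW α) :
    (ball (s(ob m c.K, hb α m 0) :: (Tp2 α m 0 ++ smap (ob m) c.B0))).Nodup := by
  have h1 : s(ob m c.K, hb α m 0) :: (Tp2 α m 0 ++ smap (ob m) c.B0) =
      Top m 0 (ob m c.K) ++ smap (ob m) c.B0 := by
    unfold Top
    rw [Nat.cast_zero]
    rfl
  rw [h1, THCK_.ball_app, THCK_.ball_Top, THCK_.ball_smap]
  have h2 : ({ob m c.K} + (Finset.univ : Finset (ZMod (2 * m + 1))).val.map (hb α m) +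
      (ball c.B0).map (ob m) : Multiset (Tb α m)) =
      ({c.K} + ball c.B0).map (ob m) +
        (Finset.univ : Finset (ZMod (2 * m + 1))).val.map (hb α m) := by
    rw [Multiset.map_add, Multiset.map_singleton]
    abel
  rw [h2, Multiset.nodup_add]
  refine ⟨?_, Finset.univ.nodup.map Sum.inr_injective, ?_⟩
  · refine Multiset.Nodup.map Sum.inl_injective ?_
    have h3 := c.nd
    rw [THCK_.ball_cons] at h3
    refine Multiset.nodup_of_le ?_ h3
    have h4 : ({c.K} + {c.L} + ball c.B0 : Multiset α) = {c.L} + ({c.K} + ball c.B0) := by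
      abel
    rw [h4]
    exact Multiset.le_add_left _ _
  · rw [Multiset.disjoint_left]
    intro a h4 h5
    obtain ⟨b, -, rfl⟩ := Multiset.mem_map.1 h4
    obtain ⟨e, -, h6⟩ := Multiset.mem_map.1 h5
    exact Sum.inr_ne_inl h6

theorem smap_rev (f : α → β) (S : List (Sym2 α)) : smap f S.reverse = (smap f S).reverse := by
  unfold smap
  exact List.map_reverse

/-! ### the balls passed by `K` -/

theorem wpas_app [DecidableEq α] (b : α) (u v : List (It α)) :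
    wpas b (u ++ v) = wpas b u ++ wpas b v := by
  unfold wpas
  exact List.flatMap_append

theorem wpas_cons [DecidableEq α] (b : α) (i : It α) (w : List (It α)) :
    wpas b (i :: w) = i.pas b ++ wpas b w := by
  unfold wpas
  exact List.flatMap_cons

theorem wpas_nil [DecidableEq α] (b : α) (w : List (It α)) (h : ∀ i ∈ w, It.pas b i = []) :
    wpas b w = [] := by
  unfold wpas
  exact List.flatMap_eq_nil_iff.2 h

theorem pas_hb [DecidableEq α] (m : ℕ) (K : α) (b : ZMod (2 * m + 1)) (x q z : Tb α m)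
    (k : Kd) : It.pas (ob m K) (It.mv (hb α m b) x q z k) = [] := by
  unfold It.pas
  exact if_neg Sum.inr_ne_inl

theorem pas_pOdd [DecidableEq α] (m : ℕ) (κ : ℕ → ℕ → Kd) (K : α) (t : ℕ) (y : α) :
    wpas (ob m K) (pOdd m κ t y) = [] := by
  refine wpas_nil _ _ fun i hi => ?_
  unfold pOdd at hi
  rw [List.mem_reverse] at hi
  obtain ⟨j, -, rfl⟩ := List.mem_map.1 hi
  exact pas_hb _ _ _ _ _ _ _

theorem pas_pEv [DecidableEq α] (m : ℕ) (κ : ℕ → ℕ → Kd) (K : α) (t : ℕ) (v y w : α) :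
    wpas (ob m K) (pEv1 m κ t y w :: pEv2 m κ t v y) = [] := by
  refine wpas_nil _ _ fun i hi => ?_
  rcases List.mem_cons.1 hi with rfl | hi
  · exact pas_hb _ _ _ _ _ _ _
  · unfold pEv2 at hi
    rcases List.mem_append.1 hi with hi | hi
    · rw [List.mem_reverse] at hi
      obtain ⟨j, -, rfl⟩ := List.mem_map.1 hi
      exact pas_hb _ _ _ _ _ _ _
    · rw [List.mem_singleton] at hi
      rw [hi]
      exact pas_hb _ _ _ _ _ _ _

theorem pas_thk [DecidableEq α] (m : ℕ) (κ : ℕ → ℕ → Kd) (K L : α) (hKL : K ≠ L) :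
    ∀ (w : List (It α)) (t : ℕ) (y : α),
      wpas (ob m K) (thk m κ L t y w) = (wpas K w).map (ob m) := by
  intro w
  induction w with
  | nil =>
    intro t y
    rw [thk]
    rfl
  | cons i w ih =>
    intro t y
    cases i with
    | mv p x q z k =>
      by_cases hp : p = L
      · rw [thk, if_pos hp, wpas_app, wpas_app, pas_pOdd, pas_pEv, ih, wpas_cons]
        have h1 : It.pas K (It.mv p x q z k) = [] := by
          unfold It.pas
          exact if_neg (fun h => hKL (h.symm.trans hp))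
        rw [h1]
        rfl
      · rw [thk, if_neg hp, wpas_cons, wpas_cons, ih, List.map_append]
        congr 1
        change (if ob m p = ob m K then [ob m q, ob m z] else []) =
          List.map (ob m) (if p = K then [q, z] else [])
        by_cases hK : p = K
        · rw [if_pos hK, if_pos (by rw [hK])]
          rfl
        · have hK2 : ¬ ob m p = ob m K := fun h => hK (Sum.inl_injective h)
          rw [if_neg hK, if_neg hK2]
          rfl
    | qd e d a x c w' =>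
      rw [thk, wpas_cons, wpas_cons, ih, List.map_append]
      rfl

theorem pas_pDown [DecidableEq α] (m : ℕ) (κ0 : ℕ → Kd) (K : α) :
    wpas (ob m K) (pDown m κ0 K) = hs α m := by
  unfold wpas pDown hs
  rw [List.flatMap_map]
  refine List.flatMap_congr fun j _ => ?_
  unfold It.pas
  exact if_pos rfl

/-! ### the runs -/

theorem r2 [DecidableEq α] (h1 : T_RUN) (h2 : T_SPLT) (h3 : T_PALL) (h4 : T_PODD)
    (h5 : T_PEND) (h6 : T_PDWN) (h7 : T_THKR) (c : CW α) (m : ℕ) (κ : ℕ → ℕ → Kd)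
    (κ0 : ℕ → Kd) (kA : Kd) (hm : 1 ≤ m) (hn : c.n = m + 1) (hκ : ∀ t, (κ t t).tr)
    (hκ0 : ∀ j, (κ0 j).tr) (hkA : kA.tr) :
    Run {ob m c.K, hb α m 0} (thw2 m κ κ0 kA c)
      (s(hb α m 0, hb α m 2) :: s(ob m c.K, hb α m (-2)) ::
        ((Tp2 α m 0).tail ++ smap (ob m) (s(c.q, c.z) :: c.B1)))
      ((smap (ob m) c.A ++ (Top m (2 * m) (ob m c.y)).dropLast) ++
        [s(hb α m 0, hb α m (-2)), s(ob m c.K, ob m c.x)]) := by
  obtain ⟨hcomp, -, hctx, -⟩ := h1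
  obtain ⟨-, hs2, -⟩ := h2
  obtain ⟨-, hd1, hd2, hnm, -, -, -, -, hLB, -, -⟩ := h3 α c
  obtain ⟨a1, a2, a3, a4, a5, a6⟩ := nd4 hd1
  obtain ⟨b1, b2, b3, b4, b5, b6⟩ := nd4 hd2
  have hnm2 : 1 + 2 * nmv c.L c.w2 = 2 * m - 1 := by omega
  have hLB' : c.L ∉ ball (s(c.K, c.z) :: c.B1) := by
    rw [RUN_.ball_cons]
    intro h
    rcases Multiset.mem_add.1 h with h | h
    · rcases Multiset.mem_cons.1 h with h | h
      · exact a1 h.symm
      · exact a5 (Multiset.mem_singleton.1 h)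
    · exact hLB h
  obtain ⟨A', B', y', e1, e2, e3, e4⟩ := h7 α m κ c.K c.L c.w2
    (s(c.L, c.q) :: s(c.K, c.z) :: c.B1) (c.A ++ [s(c.L, c.y), s(c.K, c.x)]) []
    (s(c.K, c.z) :: c.B1) c.q 1 hm hκ a1 c.r2 rfl (by simp [ball]) hLB' (fun h => a2 h.symm)
    (fun h => a4 h.symm) rfl (by omega)
  obtain ⟨f1, f2, f3⟩ := hs2 α c.A [s(c.K, c.x)] A' B' c.L c.y y' e1 e2 e3
  rw [← f1, ← f2, ← f3, hnm2] at e4
  have hpo := h4 α m κ (2 * m - 1) c.y c.K hm (by omega) le_rfl b5 (hκ _)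
  have hm2 : 2 * m - 1 + 1 = 2 * m := by omega
  rw [hm2] at hpo
  have hpo' := hctx (Tb α m) _ _ _ _ (smap (ob m) c.A) (smap (ob m) [s(c.K, c.x)]) hpo
  obtain ⟨g1, g2, g3, g4⟩ := h6 α m κ0 c.K (ob m c.K) hm hκ0
  obtain ⟨k1, -, -, -, -, -⟩ := h5 α m κ c.y c.y c.x c.K (ob m c.K) hm
  have hg2 := hctx (Tb α m) _ _ _ _ [] (smap (ob m) (s(c.q, c.z) :: c.B1)) g2
  unfold thw2
  refine hcomp _ _ _ _ _ _ _ hg2 ⟨⟨hb_nin ?_, ob_nin (fun h => a2 h.symm),
    ob_nin (fun h => a3 h.symm), fun _ => hkA⟩, ?_⟩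
  · intro h
    have h8 : ((1 : ℕ) : ZMod (2 * m + 1)) = 0 := by
      rw [Nat.cast_one]
      exact h
    rw [ZMod.natCast_eq_zero_iff] at h8
    have h9 := Nat.le_of_dvd one_pos h8
    omega
  · refine ⟨(List.range m).map (fun (j : ℕ) =>
        s(hb α m (((1 : ℕ) : ZMod (2 * m + 1)) - (2 * (j : ZMod (2 * m + 1)) + 1)),
          hb α m (((1 : ℕ) : ZMod (2 * m + 1)) + (2 * (j : ZMod (2 * m + 1)) + 1)))),
      smap (ob m) c.B1, ?_, ?_⟩
    · unfold Bot It.l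
      rw [Nat.cast_one, Sym2.eq_swap (a := hb α m 1)]
      simp [smap]
    · have hend : smap (ob m) c.A ++ (Top m (2 * m) (ob m c.y) ++
          smap (ob m) [s(c.K, c.x)]) =
          (smap (ob m) c.A ++ (Top m (2 * m) (ob m c.y)).dropLast) ++
            [s(hb α m 0, hb α m (-2)), s(ob m c.K, ob m c.x)] := by
        rw [k1, List.dropLast_concat]
        simp only [List.append_assoc]
        rfl
      rw [hend] at hpo'
      refine hcomp _ _ _ _ _ _ _ ?_ hpo'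
      have hst : (List.range m).map (fun (j : ℕ) =>
          s(hb α m (((1 : ℕ) : ZMod (2 * m + 1)) - (2 * (j : ZMod (2 * m + 1)) + 1)),
            hb α m (((1 : ℕ) : ZMod (2 * m + 1)) + (2 * (j : ZMod (2 * m + 1)) + 1)))) ++
          ((It.mv (ob m c.K) (hb α m 1) (ob m c.q) (ob m c.z) kA).r ++ smap (ob m) c.B1) =
          smap (ob m) ([] : List (Sym2 α)) ++ (Bot m 1 (ob m c.q) ++
            smap (ob m) (s(c.K, c.z) :: c.B1)) := by
        unfold Bot It.r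
        rw [Nat.cast_one]
        simp [smap]
      rw [hst]
      exact e4

theorem r1 [DecidableEq α] (h1 : T_RUN) (h6 : T_PDWN) (c : CW α) (m : ℕ)
    (κ0 : ℕ → Kd) (hm : 1 ≤ m) (hκ0 : ∀ j, (κ0 j).tr) :
    Run ∅ (wmap (ob m) c.w1) (Tp2 α m 0 ++ smap (ob m) c.B0)
      (s(hb α m 2, hb α m (-2)) ::
        ((Tp2 α m 0).tail ++ smap (ob m) (s(c.q, c.z) :: c.B1))) := by
  obtain ⟨-, -, hctx, hren, -⟩ := h1
  obtain ⟨-, -, g3, -⟩ := h6 α m κ0 c.K (ob m c.K) hm hκ0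
  have h2 := hren α (Tb α m) (ob m) ∅ ∅ c.w1 _ _ (fun a ha => ha.elim) c.r1
  have h3 := hctx (Tb α m) _ _ _ _ (Tp2 α m 0) [] h2
  rw [List.append_nil, List.append_nil] at h3
  have h4 : s(hb α m 2, hb α m (-2)) ::
        ((Tp2 α m 0).tail ++ smap (ob m) (s(c.q, c.z) :: c.B1)) =
      Tp2 α m 0 ++ smap (ob m) (s(c.q, c.z) :: c.B1) := by
    conv_rhs => rw [g3]
    rfl
  rw [h4]
  exact h3

theorem r3 [DecidableEq α] (h1 : T_RUN) (h5 : T_PEND) (c : CW α) (m : ℕ)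
    (κ : ℕ → ℕ → Kd) (hm : 1 ≤ m) :
    Run ∅ (pEv2 m κ (2 * m) c.y c.x ++ wmap (ob m) c.w3)
      ((smap (ob m) c.A ++ (Top m (2 * m) (ob m c.y)).dropLast) ++
        [s(hb α m (-2), ob m c.x)])
      (Tp2 α m 0 ++ smap (ob m) c.B0).reverse := by
  obtain ⟨hcomp, -, hctx, hren, -⟩ := h1
  obtain ⟨-, k2, -, -, k5, -⟩ := h5 α m κ c.y c.x c.x c.K (ob m c.K) hm
  have h2 := hctx (Tb α m) _ _ _ _ (smap (ob m) c.A) [] k2
  have h3 := hctx (Tb α m) _ _ _ _ [] (Tp2 α m 0).reverse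
    (hren α (Tb α m) (ob m) ∅ ∅ c.w3 _ _ (fun a ha => ha.elim) c.r3)
  rw [k5] at h2
  have e1 : (smap (ob m) c.A ++ (Top m (2 * m) (ob m c.y)).dropLast) ++
        [s(hb α m (-2), ob m c.x)] = smap (ob m) c.A ++
          ((Top m (2 * m) (ob m c.y)).dropLast ++ [s(hb α m (-2), ob m c.x)] ++ []) := by
    simp
  have e2 : smap (ob m) c.A ++ (s(ob m c.y, ob m c.x) :: (Tp2 α m 0).reverse ++ []) =
      [] ++ (smap (ob m) (c.A ++ [s(c.y, c.x)]) ++ (Tp2 α m 0).reverse) := by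
    rw [RUN_.smap_app]
    simp [smap]
  have e3 : (Tp2 α m 0 ++ smap (ob m) c.B0).reverse =
      [] ++ (smap (ob m) c.B0.reverse ++ (Tp2 α m 0).reverse) := by
    rw [List.reverse_append, smap_rev]
    rfl
  rw [e2] at h2
  rw [e1, e3]
  exact hcomp _ _ _ _ _ _ _ h2 h3

end THCW_

theorem p_THCW (h1 : T_RUN) (h2 : T_SPLT) (h3 : T_PALL) (h4 : T_PODD) (h5 : T_PEND)
    (h6 : T_PDWN) (h7 : T_THKR) : T_THCW := by
  intro α _ c m κ κ0 kA hm hn hκ hκ0 hkA
  have hd1 := THCW_.nd4 (h3 α c).2.1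
  refine ⟨{
    K := ob m c.K
    L := hb α m 0
    B0 := Tp2 α m 0 ++ smap (ob m) c.B0
    w1 := wmap (ob m) c.w1
    k1 := κ0 1
    q := hb α m 2
    z := hb α m (-2)
    B1 := (Tp2 α m 0).tail ++ smap (ob m) (s(c.q, c.z) :: c.B1)
    w2 := thw2 m κ κ0 kA c
    A := smap (ob m) c.A ++ (Top m (2 * m) (ob m c.y)).dropLast
    y := hb α m (-2)
    x := ob m c.x
    k2 := κ (2 * m) (2 * m)
    w3 := pEv2 m κ (2 * m) c.y c.x ++ wmap (ob m) c.w3
    hk1 := hκ0 1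
    hk2 := hκ _
    nd := THCW_.nd m c
    r1 := THCW_.r1 h1 h6 c m κ0 hm hκ0
    r2 := THCW_.r2 h1 h2 h3 h4 h5 h6 h7 c m κ κ0 kA hm hn hκ hκ0 hkA
    r3 := THCW_.r3 h1 h5 c m κ hm }, ?_, rfl, ?_, ?_⟩
  · have h8 : (Tp2 α m 0 ++ smap (ob m) c.B0).length = m + c.B0.length := by
      rw [List.length_append]
      unfold Tp2 smap
      rw [List.length_map, List.length_map, List.length_range]
    change (Tp2 α m 0 ++ smap (ob m) c.B0).length + 1 = 2 * m + 1
    rw [h8]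
    have h9 : c.B0.length + 1 = m + 1 := hn
    omega
  · change s(ob m c.K, hb α m 0) :: (Tp2 α m 0 ++ smap (ob m) c.B0) = _
    unfold Top
    rw [Nat.cast_zero]
    rfl
  · change hb α m 0 :: hb α m 2 :: hb α m (-2) :: wpas (ob m c.K) (thw2 m κ κ0 kA c) =
      hb α m 0 :: (hs α m ++ (c.q :: c.z :: wpas c.K c.w2).map (ob m))
    have e1 : hs α m = hb α m 2 :: hb α m (-2) :: wpas (ob m c.K) (pDown m κ0 c.K).tail := by
      rw [← THCW_.pas_pDown m κ0 c.K, (h6 α m κ0 c.K (ob m c.K) hm hκ0).1, THCW_.wpas_cons,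
        List.tail_cons]
      have e2 : It.pas (ob m c.K) (It.mv (ob m c.K) (hb α m 0) (hb α m 2) (hb α m (-2))
          (κ0 1)) = [hb α m 2, hb α m (-2)] := by
        unfold It.pas
        exact if_pos rfl
      rw [e2]
      rfl
    unfold thw2
    rw [THCW_.wpas_app, THCW_.wpas_cons, THCW_.wpas_app,
      THCW_.pas_thk m κ c.K c.L hd1.1, THCW_.pas_pOdd, e1]
    have e3 : It.pas (ob m c.K) (It.mv (ob m c.K) (hb α m 1) (ob m c.q) (ob m c.z) kA) =
        [ob m c.q, ob m c.z] := by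
      unfold It.pas
      exact if_pos rfl
    rw [e3, List.append_nil]
    rfl

end Bn
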