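import Pool.Agent.BIN.TC
import Pool.Agent.BIN.P_RUN
set_option autoImplicit false
set_option linter.all false

/-!
# BIN: the middle part of the thick word is a run (THKR)
-/

namespace Bn

namespace THKR_

variable {α : Type} [DecidableEq α]

theorem smap_cons {β : Type} (f : α → β) (a b : α) (B : List (Sym2 α)) :
    smap f (s(a, b) :: B) = s(f a, f b) :: smap f B := rfl

theorem tr_mem (m : ℕ) (K L a : α) (h : ob m a ∈ ({ob m K, hb α m 0} : Set (Tb α m))) :
    a ∈ ({K, L} : Set α) := by
  rcases h with h | h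
  · exact Or.inl (Sum.inl.inj h)
  · exact absurd h (by
      intro h'
      have h2 : (Sum.inl a : Tb α m) = Sum.inr 0 := h'
      cases h2)

/-- an item which does not touch the bin of `L` -/
theorem other (m : ℕ) (κ : ℕ → ℕ → Kd) (K L : α) (i : It α) (w : List (It α))
    (ih : ∀ (S S' A B : List (Sym2 α)) (y : α) (t : ℕ),
      1 ≤ m → (∀ t, (κ t t).tr) → K ≠ L → Run {K, L} w S S' → S = A ++ (s(L, y) :: B) →
      L ∉ ball A → L ∉ ball B → y ≠ K → y ≠ L → t % 2 = 1 → t + 2 * nmv L w ≤ 2 * m - 1 →
      ∃ (A' B' : List (Sym2 α)) (y' : α), S' = A' ++ (s(L, y') :: B') ∧ L ∉ ball A' ∧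
        L ∉ ball B' ∧
        Run {ob m K, hb α m 0} (thk m κ L t y w)
          (smap (ob m) A ++ (Bot m t (ob m y) ++ smap (ob m) B))
          (smap (ob m) A' ++ (Bot m (t + 2 * nmv L w) (ob m y') ++ smap (ob m) B')))
    (hs1 : ∀ (A l B A' B' : List (Sym2 α)) (e : Sym2 α), e ∉ l →
      A ++ (l ++ B) = A' ++ (e :: B') →
      (∃ C, A = A' ++ (e :: C) ∧ B' = C ++ (l ++ B)) ∨
      (∃ C, B = C ++ (e :: B') ∧ A' = A ++ (l ++ C)))
    (y : α) (t : ℕ) (hthk : thk m κ L t y (i :: w) = i.map (ob m) :: thk m κ L t y w)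
    (hnmv : nmv L (i :: w) = nmv L w) (hni : s(L, y) ∉ i.l) (hok : i.ok {K, L})
    (S S' A B C D : List (Sym2 α)) (hSC : S = C ++ (i.l ++ D))
    (hrest : Run {K, L} w (C ++ (i.r ++ D)) S')
    (hm : 1 ≤ m) (hκ : ∀ t, (κ t t).tr) (hKL : K ≠ L) (hS : S = A ++ (s(L, y) :: B))
    (hA : L ∉ ball A) (hB : L ∉ ball B) (hyK : y ≠ K) (hyL : y ≠ L) (ht : t % 2 = 1)
    (htm : t + 2 * nmv L w ≤ 2 * m - 1) :
    ∃ (A' B' : List (Sym2 α)) (y' : α), S' = A' ++ (s(L, y') :: B') ∧ L ∉ ball A' ∧
      L ∉ ball B' ∧
      Run {ob m K, hb α m 0} (thk m κ L t y (i :: w))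
        (smap (ob m) A ++ (Bot m t (ob m y) ++ smap (ob m) B))
        (smap (ob m) A' ++ (Bot m (t + 2 * nmv L (i :: w)) (ob m y') ++ smap (ob m) B')) := by
  have hok' : (i.map (ob m)).ok {ob m K, hb α m 0} :=
    RUN_.ok_map (ob m) {K, L} {ob m K, hb α m 0} (fun a ha => tr_mem m K L a ha) i hok
  have hball : ball i.r = ball i.l := RUN_.ball_item i
  rw [hthk, hnmv]
  rcases hs1 C i.l D A B _ hni (hSC.symm.trans hS) with ⟨E, h1, h2⟩ | ⟨E, h1, h2⟩
  · have hB' : L ∉ ball (E ++ (i.r ++ D)) := by
      intro h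
      apply hB
      rw [h2]
      rw [RUN_.ball_app, RUN_.ball_app] at h ⊢
      rw [← hball]
      exact h
    obtain ⟨A', B', y', e1, e2, e3, e4⟩ := ih (C ++ (i.r ++ D)) S' A (E ++ (i.r ++ D)) y t hm hκ
      hKL hrest (by rw [h1]; simp) hA hB' hyK hyL ht htm
    refine ⟨A', B', y', e1, e2, e3, hok', smap (ob m) A ++ (Bot m t (ob m y) ++ smap (ob m) E),
      smap (ob m) D, ?_, ?_⟩
    · rw [h2, RUN_.smap_app, RUN_.smap_app, RUN_.smap_l]
      simp only [List.append_assoc]
    · rw [RUN_.smap_app, RUN_.smap_app, RUN_.smap_r] at e4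
      simp only [List.append_assoc] at e4 ⊢
      exact e4
  · have hA' : L ∉ ball (C ++ (i.r ++ E)) := by
      intro h
      apply hA
      rw [h2]
      rw [RUN_.ball_app, RUN_.ball_app] at h ⊢
      rw [← hball]
      exact h
    obtain ⟨A', B', y', e1, e2, e3, e4⟩ := ih (C ++ (i.r ++ D)) S' (C ++ (i.r ++ E)) B y t hm hκ
      hKL hrest (by rw [h1]; simp) hA' hB hyK hyL ht htm
    refine ⟨A', B', y', e1, e2, e3, hok', smap (ob m) C,
      smap (ob m) E ++ (Bot m t (ob m y) ++ smap (ob m) B), ?_, ?_⟩
    · rw [h2, RUN_.smap_app, RUN_.smap_app, RUN_.smap_l]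
      simp only [List.append_assoc]
    · rw [RUN_.smap_app, RUN_.smap_app, RUN_.smap_r] at e4
      simp only [List.append_assoc] at e4 ⊢
      exact e4

theorem nmv_self (L x q z : α) (k : Kd) (w : List (It α)) :
    nmv L (It.mv L x q z k :: w) = nmv L w + 1 := by
  unfold nmv wpas
  rw [List.flatMap_cons]
  simp only [It.pas, if_true, List.length_append, List.length_cons, List.length_nil]
  omega

theorem nmv_ne (L p x q z : α) (k : Kd) (w : List (It α)) (h : p ≠ L) :
    nmv L (It.mv p x q z k :: w) = nmv L w := by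
  unfold nmv wpas
  rw [List.flatMap_cons]
  simp only [It.pas, if_neg h, List.nil_append]

theorem nmv_qd (L e d a x c w' : α) (w : List (It α)) :
    nmv L (It.qd e d a x c w' :: w) = nmv L w := by
  unfold nmv wpas
  rw [List.flatMap_cons]
  simp only [It.pas, List.nil_append]

end THKR_

theorem p_THKR (h1 : T_RUN) (h2 : T_SPLT) (h3 : T_PODD) (h4 : T_PEVN) : T_THKR := by
  obtain ⟨hcomp, -, hctx, -⟩ := h1
  obtain ⟨hs1, hs2, hs3⟩ := h2
  intro α _ m κ K L w
  induction w with
  | nil =>
    intro S S' A B y t hm hκ hKL hrun hS hA hB hyK hyL ht htm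
    have hrun' : S = S' := hrun
    refine ⟨A, B, y, hrun'.symm.trans hS, hA, hB, ?_⟩
    have e1 : nmv L ([] : List (It α)) = 0 := by simp [nmv, wpas]
    have e2 : thk m κ L t y [] = [] := by rw [thk]
    rw [e1, e2]
    exact rfl
  | cons i w ih =>
    intro S S' A B y t hm hκ hKL hrun hS hA hB hyK hyL ht htm
    obtain ⟨hok, C, D, hSC, hrest⟩ := hrun
    cases i with
    | mv p x q z k =>
      by_cases hpL : p = L
      · rw [hpL] at hok hSC hrest htm ⊢
        clear hpL
        obtain ⟨hx, hq, hz, hp⟩ := hok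
        have hqK : q ≠ K := fun h => hq (Or.inl h)
        have hqL : q ≠ L := fun h => hq (Or.inr h)
        have hzK : z ≠ K := fun h => hz (Or.inl h)
        have hzL : z ≠ L := fun h => hz (Or.inr h)
        have e0 : C ++ (s(L, x) :: (s(q, z) :: D)) = A ++ (s(L, y) :: B) := hSC.symm.trans hS
        obtain ⟨eC, exy, eB⟩ := hs2 α C (s(q, z) :: D) A B L x y e0 hA hB
        rw [THKR_.nmv_self] at htm ⊢
        rw [eC, exy] at hrest
        have hLD : L ∉ ball D := by
          intro h
          apply hB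
          rw [← eB]
          exact ((hs3 α [] D s(q, z) L).2).2 (Or.inr h)
        have hLA : L ∉ ball (A ++ [s(y, q)]) := by
          intro h
          rcases ((hs3 α A [s(y, q)] s(q, z) L).1).1 h with h | h
          · exact hA h
          · rcases ((hs3 α [] [] s(y, q) L).2).1 h with h | h
            · rcases Sym2.mem_iff.1 h with h | h
              · exact hyL h.symm
              · exact hqL h.symm
            · exact absurd h (by simp [ball])
        obtain ⟨A', B', y', e1, e2, e3, e4⟩ := ih (A ++ ((It.mv L y q z k).r ++ D)) S'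
          (A ++ [s(y, q)]) D z (t + 2) hm hκ hKL hrest (by simp [It.r]) hLA hLD hzK hzL
          (by omega) (by omega)
        have r1 := h3 α m κ t y K hm ht (by omega) hyK (hκ t)
        have r2 := h4 α m κ (t + 1) y q z K hm (by omega) (by omega) (by omega) hyK hqK hzK
          (hκ (t + 1))
        have r1' := hctx _ _ _ _ _ (smap (ob m) A) (smap (ob m) B) r1
        have r2' := hctx _ _ _ _ _ (smap (ob m) A) (smap (ob m) D) r2
        rw [← eB, THKR_.smap_cons] at r1'
        have et : t + 2 + 2 * nmv L w = t + 2 * (nmv L w + 1) := by ring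
        rw [et] at e4
        have r3 : Run {ob m K, hb α m 0}
            (pEv1 m κ (t + 1) q z :: pEv2 m κ (t + 1) y q)
            (smap (ob m) A ++ (Top m (t + 1) (ob m y) ++ s(ob m q, ob m z) :: smap (ob m) D))
            (smap (ob m) (A ++ [s(y, q)]) ++ (Bot m (t + 2) (ob m z) ++ smap (ob m) D)) := by
          have ea : smap (ob m) A ++ (Top m (t + 1) (ob m y) ++
              s(ob m q, ob m z) :: smap (ob m) D) =
              smap (ob m) A ++ ((Top m (t + 1) (ob m y) ++ [s(ob m q, ob m z)]) ++
                smap (ob m) D) := by simp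
          have eb : smap (ob m) (A ++ [s(y, q)]) ++ (Bot m (t + 2) (ob m z) ++
              smap (ob m) D) = smap (ob m) A ++
              ((s(ob m y, ob m q) :: Bot m (t + 1 + 1) (ob m z)) ++ smap (ob m) D) := by
            rw [RUN_.smap_app, THKR_.smap_cons]
            simp [smap]
          rw [ea, eb]
          exact r2'
        refine ⟨A', B', y', e1, e2, e3, ?_⟩
        have ethk : thk m κ L t y (It.mv L x q z k :: w) =
            pOdd m κ t y ++ (pEv1 m κ (t + 1) q z :: pEv2 m κ (t + 1) y q) ++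
              thk m κ L (t + 2) z w := by
          rw [thk, if_pos rfl]
        rw [ethk, List.append_assoc, ← eB, THKR_.smap_cons]
        exact hcomp _ _ _ _ _ _ _ r1' (hcomp _ _ _ _ _ _ _ r3 e4)
      · have hok2 := hok
        obtain ⟨hx, hq, hz, hp⟩ := hok
        have hni : s(L, y) ∉ (It.mv p x q z k).l := by
          intro h
          have hL : ∀ u v : α, s(L, y) = s(u, v) → u ≠ L → v ≠ L → False := by
            intro u v huv hu hv
            have h5 : L ∈ s(u, v) := huv ▸ Sym2.mem_mk_left L y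
            rcases Sym2.mem_iff.1 h5 with h6 | h6
            · exact hu h6.symm
            · exact hv h6.symm
          rcases List.mem_cons.1 h with h | h
          · exact hL _ _ h hpL (fun hh => hx (Or.inr hh))
          · rcases List.mem_cons.1 h with h | h
            · exact hL _ _ h (fun hh => hq (Or.inr hh)) (fun hh => hz (Or.inr hh))
            · exact absurd h (by simp)
        have hn := THKR_.nmv_ne L p x q z k w hpL
        rw [hn] at htm
        exact THKR_.other m κ K L _ w ih (hs1 (Sym2 α)) y t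
          (by rw [thk, if_neg hpL]; rfl) hn hni hok2 S S' A B C D hSC hrest hm hκ hKL hS hA hB hyK
          hyL ht htm
    | qd e d a x c w' =>
      have hok2 := hok
      obtain ⟨he, hd, ha, hx, hc, hw⟩ := hok
      have hni : s(L, y) ∉ (It.qd e d a x c w').l := by
        intro h
        have hL : ∀ u v : α, s(L, y) = s(u, v) → u ∉ ({K, L} : Set α) →
            v ∉ ({K, L} : Set α) → False := by
          intro u v huv hu hv
          have h5 : L ∈ s(u, v) := huv ▸ Sym2.mem_mk_left L y
          rcases Sym2.mem_iff.1 h5 with h6 | h6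
          · exact hu (Or.inr h6.symm)
          · exact hv (Or.inr h6.symm)
        rcases List.mem_cons.1 h with h | h
        · exact hL _ _ h he hd
        · rcases List.mem_cons.1 h with h | h
          · exact hL _ _ h ha hx
          · rcases List.mem_cons.1 h with h | h
            · exact hL _ _ h hc hw
            · exact absurd h (by simp)
      have hn := THKR_.nmv_qd L e d a x c w' w
      rw [hn] at htm
      exact THKR_.other m κ K L _ w ih (hs1 (Sym2 α)) y t
        (by rw [thk]; rfl) hn hni hok2 S S' A B C D hSC hrest hm hκ hKL hS hA hB hyK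
        hyL ht htm

end Bn
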