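import Pool.Agent.BIN.TC
set_option autoImplicit false
set_option linter.all false

/-!
# BIN: target THKS (the numbers of the middle part)
-/

namespace Bn

namespace THKS_

variable {α : Type}

theorem wsw_cons (i : It α) (w : List (It α)) : wsw (i :: w) = i.sw + wsw w := by
  simp [wsw]

theorem wsw_append (w w' : List (It α)) : wsw (w ++ w') = wsw w + wsw w' := by
  simp [wsw, List.map_append, List.sum_append]

theorem wN_cons (i : It α) (w : List (It α)) : wN (i :: w) = i.N + wN w := by
  simp [wN]

theorem wN_append (w w' : List (It α)) : wN (w ++ w') = wN w + wN w' := by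
  simp [wN, List.map_append, List.sum_append]

theorem wQ_cons (i : It α) (w : List (It α)) : wQ (i :: w) = i.Q + wQ w := by
  simp [wQ]

theorem wQ_append (w w' : List (It α)) : wQ (w ++ w') = wQ w + wQ w' := by
  simp [wQ, List.map_append, List.sum_append]

theorem wF_cons (i : It α) (w : List (It α)) : wF (i :: w) = i.F + wF w := by
  simp [wF]

theorem wF_append (w w' : List (It α)) : wF (w ++ w') = wF w + wF w' := by
  simp [wF, List.map_append, List.sum_append]

theorem sum2 {M : Type} [AddCommMonoid M] (f : ℕ → M) (n : ℕ) :
    ∑ i ∈ Finset.range (2 * (n + 1)), f i = f 0 + f 1 + ∑ i ∈ Finset.range (2 * n), f (i + 2) := by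
  rw [show 2 * (n + 1) = 2 * n + 1 + 1 by ring, Finset.sum_range_succ', Finset.sum_range_succ']
  rw [add_comm, add_comm (∑ k ∈ _, _), ← add_assoc]

/-- the contribution of an odd pass -/
theorem pc_odd (m : ℕ) (lab : ℕ → Lab) (Y : ℕ → α) (t : ℕ) (ht : t % 2 = 1) :
    pc m lab Y t = lsw α m t (ob m (Y t)) (lab t) := by
  unfold pc
  rw [if_neg (by omega), if_neg (by omega), add_zero, add_zero]

theorem pcF_odd (lab : ℕ → Lab) (t : ℕ) (ht : t % 2 = 1) : pcF lab t = lF (lab t) := by
  unfold pcF
  rw [if_neg (by omega), if_neg (by omega), add_zero, add_zero]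

end THKS_

open THKS_ in
/-- THKS. -/
theorem p_THKS (h1 : T_PSWO) (h2 : T_PSWE) : T_THKS := by
  intro α _ m lab L w Y
  obtain ⟨O1, _, _, O4, _⟩ := h1
  induction w with
  | nil =>
    intro y t _ _ _ _ _ _
    have h0 : nmv L ([] : List (It α)) = 0 := by simp [nmv, wpas]
    rw [h0]
    refine ⟨?_, ?_, ?_, ?_⟩ <;> simp [thk, wsw, wN, wQ, wF]
  | cons i w ih =>
    intro y t hm hlab hw ht hle hy
    have hw1 : ∀ i ∈ w, i.isnq := fun j hj => hw j (List.mem_cons_of_mem _ hj)
    have hi : i.isnq := hw i List.mem_cons_self
    cases i with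
    | mv p x q z k =>
      have hk : k = Kd.n := hi
      subst hk
      by_cases hp : p = L
      · subst hp
        have hpas : wpas p (It.mv p x q z Kd.n :: w) = q :: z :: wpas p w := by
          simp [wpas, It.pas]
        have hn : nmv p (It.mv p x q z Kd.n :: w) = nmv p w + 1 := by
          unfold nmv
          rw [hpas, List.length_cons, List.length_cons]
          omega
        rw [hn] at hle hy ⊢
        rw [hpas] at hy
        have hr : List.range (2 * (nmv p w + 1) + 1) =
            0 :: 1 :: (List.range (2 * nmv p w + 1)).map (fun i => i + 2) := by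
          rw [show 2 * (nmv p w + 1) + 1 = (2 * nmv p w + 1) + 1 + 1 by ring,
            List.range_succ_eq_map, List.range_succ_eq_map]
          simp only [List.map_cons, List.map_map]
          rfl
        rw [hr] at hy
        simp only [List.map_cons, List.map_map] at hy
        have hy0 : y = Y t := by
          have := (List.cons_eq_cons.1 hy).1
          simpa using this
        have hy1 : q = Y (t + 1) := (List.cons_eq_cons.1 (List.cons_eq_cons.1 hy).2).1
        have hy2 : z :: wpas p w = (List.range (2 * nmv p w + 1)).map
            (fun i => Y (t + 2 + i)) := by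
          rw [(List.cons_eq_cons.1 (List.cons_eq_cons.1 hy).2).2]
          apply List.map_congr_left
          intro i _
          change Y (t + (i + 2)) = Y (t + 2 + i)
          congr 1
          ring
        have hz : z = Y (t + 2) := by
          rw [List.range_succ_eq_map] at hy2
          simp only [List.map_cons] at hy2
          have := (List.cons_eq_cons.1 hy2).1
          simpa using this
        obtain ⟨i1, i2, i3, i4⟩ := ih z (t + 2) hm hlab hw1 (by omega) (by omega) hy2
        obtain ⟨o1, o2⟩ := O1 α m lab t y hm hlab ht (by omega)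
        obtain ⟨e1, e2⟩ := h2 α m lab (t + 1) y q z hm hlab (by omega) (by omega) (by omega)
        obtain ⟨c1, _, _, c4, _, _⟩ := O4 α m (kd m lab) (kd0 m lab) t y y hm
        obtain ⟨_, _, c3, _, _, c6⟩ := O4 α m (kd m lab) (kd0 m lab) (t + 1) y q hm
        have hthk : thk m (kd m lab) p t y (It.mv p x q z Kd.n :: w) =
            pOdd m (kd m lab) t y ++ (pEv1 m (kd m lab) (t + 1) q z ::
              pEv2 m (kd m lab) (t + 1) y q) ++ thk m (kd m lab) p (t + 2) z w := by
          simp [thk]
        have s1 : (t + 1) % 2 = 0 := by omega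
        have hpc : pc m lab Y (t + 1) =
            lsw α m (t + 1) (ob m q) (lab (t + 1)) +
            (if lab (t + 1) = Lab.A then
              {ob m q, ob m z, hb α m (((t + 1 : ℕ) : ZMod (2 * m + 1)) + 1)} else 0) +
            (if lab (t + 1) = Lab.no ∧ lab (t + 1 - 1) = Lab.A then
              {hb α m ((t + 1 : ℕ) : ZMod (2 * m + 1)), ob m y, ob m q} else 0) := by
          unfold pc
          rw [hy0, hy1, hz]
          simp only [s1, true_and, Nat.add_sub_cancel]
        have hpcF : pcF lab (t + 1) = lF (lab (t + 1)) + (if lab (t + 1) = Lab.A then 1 else 0) +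
            (if lab (t + 1) = Lab.no ∧ lab (t + 1 - 1) = Lab.A then 1 else 0) := by
          unfold pcF
          simp only [s1, true_and]
        rw [hthk]
        refine ⟨?_, ?_, ?_, ?_⟩
        · rw [wsw_append, wsw_append, i1, o1, e1, ← hpc, wsw_cons, hy0, ← pc_odd m lab Y t ht, sum2]
          change _ = ((0 : Multiset α) + wsw w).map (ob m) +
            (pc m lab Y (t + 0) + pc m lab Y (t + 1) +
              ∑ i ∈ Finset.range (2 * nmv p w), pc m lab Y (t + (i + 2)))
          rw [zero_add, add_zero]
          have : ∀ i, t + 2 + i = t + (i + 2) := fun i => by ring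
          simp only [this]
          abel
        · rw [wN_append, wN_append, wN_cons, i2, c1, c3, wN_cons]
          change m + (1 + m) + (wN w + 2 * m * nmv p w) = 1 + wN w + 2 * m * (nmv p w + 1)
          ring
        · rw [wQ_append, wQ_append, wQ_cons, i3, c4, c6, wQ_cons]
          change 0 + (0 + 0) + wQ w = 0 + wQ w
          ring
        · rw [wF_append, wF_append, i4, o2, e2, ← hpcF, ← pcF_odd lab t ht, sum2]
          have : ∀ i, t + 2 + i = t + (i + 2) := fun i => by ring
          simp only [this, add_zero]
      · have hpas : wpas L (It.mv p x q z Kd.n :: w) = wpas L w := by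
          simp [wpas, It.pas, hp]
        have hn : nmv L (It.mv p x q z Kd.n :: w) = nmv L w := by
          unfold nmv
          rw [hpas]
        rw [hn] at hle hy ⊢
        rw [hpas] at hy
        obtain ⟨i1, i2, i3, i4⟩ := ih y t hm hlab hw1 ht hle hy
        have hthk : thk m (kd m lab) L t y (It.mv p x q z Kd.n :: w) =
            It.mv (ob m p) (ob m x) (ob m q) (ob m z) Kd.n :: thk m (kd m lab) L t y w := by
          simp [thk, hp]
        rw [hthk]
        refine ⟨?_, ?_, ?_, ?_⟩
        · rw [wsw_cons, wsw_cons, i1]
          change (0 : Multiset _) + _ = ((0 : Multiset α) + wsw w).map (ob m) + _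
          rw [zero_add, zero_add]
        · rw [wN_cons, wN_cons, i2]
          change 1 + _ = 1 + _ + _
          ring
        · rw [wQ_cons, wQ_cons, i3]
          rfl
        · rw [wF_cons, i4]
          change 0 + _ = _
          rw [zero_add]
    | qd e d a x c w' =>
      have hpas : wpas L (It.qd e d a x c w' :: w) = wpas L w := by
        simp [wpas, It.pas]
      have hn : nmv L (It.qd e d a x c w' :: w) = nmv L w := by
        unfold nmv
        rw [hpas]
      rw [hn] at hle hy ⊢
      rw [hpas] at hy
      obtain ⟨i1, i2, i3, i4⟩ := ih y t hm hlab hw1 ht hle hy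
      have hthk : thk m (kd m lab) L t y (It.qd e d a x c w' :: w) =
          It.qd (ob m e) (ob m d) (ob m a) (ob m x) (ob m c) (ob m w') ::
            thk m (kd m lab) L t y w := by
        simp [thk]
      rw [hthk]
      refine ⟨?_, ?_, ?_, ?_⟩
      · rw [wsw_cons, wsw_cons, i1, Multiset.map_add]
        have : (It.qd (ob m e) (ob m d) (ob m a) (ob m x) (ob m c) (ob m w')).sw =
            (It.qd e d a x c w').sw.map (ob m) := by
          simp [It.sw]
        rw [this, add_assoc]
      · rw [wN_cons, wN_cons, i2]
        change 2 + _ = 2 + _ + _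
        ring
      · rw [wQ_cons, wQ_cons, i3]
        rfl
      · rw [wF_cons, i4]
        change 0 + _ = _
        rw [zero_add]

end Bn
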