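import Pool.Agent.BIN.W
import Pool.Agent.BIN.TA
set_option autoImplicit false
set_option linter.all false

/-!
# BIN: target W (the doubling of a clean word)
-/

namespace Bn

namespace W_

variable {α : Type}

theorem ball_nil : ball ([] : List (Sym2 α)) = 0 := rfl

theorem ball_cons (e : Sym2 α) (S : List (Sym2 α)) : ball (e :: S) = e.toMultiset + ball S := by
  simp [ball]

theorem ball_append (S S' : List (Sym2 α)) : ball (S ++ S') = ball S + ball S' := by
  simp [ball, List.map_append, List.sum_append]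

theorem tm (a b : α) : (s(a, b)).toMultiset = {a, b} := rfl

theorem ball_reverse (S : List (Sym2 α)) : ball S.reverse = ball S := by
  induction S with
  | nil => rfl
  | cons e S ih =>
    rw [List.reverse_cons, ball_append, ball_cons, ball_cons, ih, ball_nil, add_zero, add_comm]

theorem dbl_cons (o : α → Bool) (a b : α) (S : List (Sym2 α)) :
    dbl o (s(a, b) :: S) = s((a, o a), (b, o b)) :: s((a, !(o a)), (b, !(o b))) :: dbl o S := rfl

theorem dbl_nil (o : α → Bool) : dbl o [] = [] := rfl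

theorem length_dbl (o : α → Bool) (S : List (Sym2 α)) : (dbl o S).length = 2 * S.length := by
  induction S with
  | nil => rfl
  | cons e S ih =>
    induction e with
    | _ a b =>
      rw [dbl_cons, List.length_cons, List.length_cons, ih, List.length_cons]
      ring

theorem two (o : α → Bool) (a : α) : ({(a, o a), (a, !(o a))} : Multiset (α × Bool)) =
    {(a, false), (a, true)} := by
  cases o a
  · rfl
  · exact Multiset.pair_comm _ _

theorem ball_dbl (o : α → Bool) (S : List (Sym2 α)) :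
    ball (dbl o S) = (ball S).bind (fun a => {(a, false), (a, true)}) := by
  induction S with
  | nil => rfl
  | cons e S ih =>
    induction e with
    | _ a b =>
      have h : (({(a, o a), (b, o b)} : Multiset (α × Bool)) + {(a, !(o a)), (b, !(o b))}) =
          {(a, o a), (a, !(o a))} + {(b, o b), (b, !(o b))} := by
        have h1 : ∀ x y : α × Bool, ({x, y} : Multiset (α × Bool)) = {x} + {y} :=
          fun x y => rfl
        rw [h1, h1, h1, h1]
        exact add_add_add_comm _ _ _ _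
      rw [dbl_cons, ball_cons, ball_cons, ball_cons, ih, tm, tm, tm, ← add_assoc, h, two, two,
        Multiset.add_bind]
      have h2 : ({a, b} : Multiset α) = a ::ₘ {b} := rfl
      rw [h2, Multiset.cons_bind, Multiset.singleton_bind]

theorem nodup_dbl (o : α → Bool) (S : List (Sym2 α)) (h : (ball S).Nodup) :
    (ball (dbl o S)).Nodup := by
  rw [ball_dbl, Multiset.nodup_bind]
  refine ⟨fun a _ => by simp, ?_⟩
  refine Multiset.Nodup.pairwise (fun a _ b _ hab => ?_) h
  rw [Function.onFun, Multiset.disjoint_left]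
  intro x hx hx'
  rw [Multiset.insert_eq_cons, Multiset.mem_cons, Multiset.mem_singleton] at hx hx'
  rcases hx with rfl | rfl <;> rcases hx' with h | h <;>
    exact hab (congrArg Prod.fst h)

theorem dbl_rev (S : List (Sym2 α)) :
    dbl (fun _ => true) S.reverse = (dbl (fun _ => false) S).reverse := by
  induction S with
  | nil => rfl
  | cons e S ih =>
    induction e with
    | _ a b =>
      rw [dbl_cons, List.reverse_cons, List.reverse_cons, List.reverse_cons, ← ih]
      unfold dbl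
      rw [List.flatMap_append, List.append_assoc]
      rfl

theorem T2_empty : T2 (∅ : Set α) = ∅ := by
  ext b
  simp [T2]

theorem T2_pair (K L : α) : T2 ({K, L} : Set α) = {(K, false), (L, false)} := by
  ext ⟨a, b⟩
  simp only [T2, Set.mem_setOf_eq, Set.mem_insert_iff, Set.mem_singleton_iff, Prod.mk.injEq]
  tauto

theorem wsw_append (w w' : List (It α)) : wsw (w ++ w') = wsw w + wsw w' := by
  simp [wsw, List.map_append, List.sum_append]

theorem wsw_cons (i : It α) (w : List (It α)) : wsw (i :: w) = i.sw + wsw w := by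
  simp [wsw]

theorem hrl (i : It α) : ball i.r = ball i.l := by
  cases i with
  | mv p x q z k =>
    change ball [s(x, q), s(p, z)] = ball [s(p, x), s(q, z)]
    simp only [ball_cons, ball_nil, tm, add_zero]
    change ({x} + {q} + ({p} + {z}) : Multiset α) = {p} + {x} + ({q} + {z})
    abel
  | qd e d a x c w =>
    change ball [s(e, x), s(c, d), s(a, w)] = ball [s(e, d), s(a, x), s(c, w)]
    simp only [ball_cons, ball_nil, tm, add_zero]
    change ({e} + {x} + ({c} + {d} + ({a} + {w})) : Multiset α) =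
      {e} + {d} + ({a} + {x} + ({c} + {w}))
    abel

theorem hswl (i : It α) (a : α) (h : a ∈ i.sw) : a ∈ ball i.l := by
  cases i with
  | mv p x q z k =>
    change a ∈ ball [s(p, x), s(q, z)]
    simp only [ball_cons, ball_nil, tm, add_zero, Multiset.mem_add,
      Multiset.insert_eq_cons, Multiset.mem_cons, Multiset.mem_singleton]
    cases k <;> simp [It.sw] at h <;> tauto
  | qd e d a' x c w =>
    change a ∈ ball [s(e, d), s(a', x), s(c, w)]
    simp only [ball_cons, ball_nil, tm, add_zero, Multiset.mem_add,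
      Multiset.insert_eq_cons, Multiset.mem_cons, Multiset.mem_singleton]
    simp [It.sw] at h
    tauto

end W_

open W_ in
/-- W. -/
theorem p_W (h1 : T_RUN) (h2 : T_WRUN) (h3 : T_WLV) (h4 : T_WJN) (h5 : T_WCT) : T_W := by
  intro α _ c hCov
  obtain ⟨R1, R2, R3, R4, R5, R6, R7, R8⟩ := h1
  obtain ⟨D1, D2, D3, D4, D5⟩ := h2
  -- the swapped balls
  have hw : wsw c.word = wsw c.w1 + (c.lv.sw + (wsw c.w2 + (c.jn.sw + wsw c.w3))) := by
    unfold CW.word
    rw [wsw_append, wsw_cons, wsw_append, wsw_cons]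
  have hCov' : wsw c.word = ball c.S := hCov
  have hN : (wsw c.word).Nodup := by
    rw [hCov']
    exact c.nd
  rw [hw] at hN
  obtain ⟨n1, hN2, d1⟩ := Multiset.nodup_add.1 hN
  obtain ⟨n2, hN3, d2⟩ := Multiset.nodup_add.1 hN2
  obtain ⟨n3, hN4, d3⟩ := Multiset.nodup_add.1 hN3
  obtain ⟨n4, n5, d4⟩ := Multiset.nodup_add.1 hN4
  rw [Multiset.disjoint_left] at d1 d2 d3 d4
  simp only [Multiset.mem_add, not_or] at d1 d2 d3 d4
  set o0 : α → Bool := fun _ => false with ho0
  set o1 := updw o0 c.w1 with ho1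
  set o2 := upd o1 c.lv with ho2
  set o3 := updw o2 c.w2 with ho3
  set o4 := upd o3 c.jn with ho4
  set o5 := updw o4 c.w3 with ho5
  -- values of the orientations
  have v1 : ∀ a, o1 a = decide (a ∈ wsw c.w1) := by
    intro a
    obtain ⟨e1, e2⟩ := D2 α o0 c.w1 n1 a
    by_cases h : a ∈ wsw c.w1
    · rw [ho1, e2 h, decide_eq_true h, ho0]
      rfl
    · rw [ho1, e1 h, decide_eq_false h]
  have u2 : ∀ a, o2 a = if a ∈ c.lv.sw then !(o1 a) else o1 a := fun a => rfl
  have u4 : ∀ a, o4 a = if a ∈ c.jn.sw then !(o3 a) else o3 a := fun a => rfl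
  have u3 : ∀ a, (a ∉ wsw c.w2 → o3 a = o2 a) ∧ (a ∈ wsw c.w2 → o3 a = !(o2 a)) :=
    fun a => D2 α o2 c.w2 n3 a
  have u5 : ∀ a, (a ∉ wsw c.w3 → o5 a = o4 a) ∧ (a ∈ wsw c.w3 → o5 a = !(o4 a)) :=
    fun a => D2 α o4 c.w3 n5 a
  -- before the swap the orientation is false, after it is true
  have f1 : ∀ a, a ∉ wsw c.w1 → o1 a = false := fun a h => by rw [v1, decide_eq_false h]
  have t1 : ∀ a, a ∈ wsw c.w1 → o1 a = true := fun a h => by rw [v1, decide_eq_true h]
  have f2 : ∀ a, a ∉ wsw c.w1 → a ∉ c.lv.sw → o2 a = false := fun a h h' => by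
    rw [u2, if_neg h', f1 a h]
  have t2 : ∀ a, a ∈ wsw c.w1 ∨ a ∈ c.lv.sw → o2 a = true := by
    intro a h
    rw [u2]
    rcases h with h | h
    · rw [if_neg (d1 h).1, t1 a h]
    · rw [if_pos h, f1 a (fun h' => (d1 h').1 h)]
      rfl
  have f3 : ∀ a, a ∉ wsw c.w1 → a ∉ c.lv.sw → a ∉ wsw c.w2 → o3 a = false := fun a h h' h'' => by
    rw [(u3 a).1 h'', f2 a h h']
  have t3 : ∀ a, a ∈ wsw c.w1 ∨ a ∈ c.lv.sw ∨ a ∈ wsw c.w2 → o3 a = true := by
    intro a h
    rcases h with h | h | h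
    · rw [(u3 a).1 (d1 h).2.1, t2 a (Or.inl h)]
    · rw [(u3 a).1 (d2 h).1, t2 a (Or.inr h)]
    · rw [(u3 a).2 h, f2 a (fun h' => (d1 h').2.1 h) (fun h' => (d2 h').1 h)]
      rfl
  have f4 : ∀ a, a ∈ wsw c.w3 → o4 a = false := by
    intro a h
    rw [u4, if_neg (fun h' => (d4 h') h)]
    exact f3 a (fun h' => (d1 h').2.2.2 h) (fun h' => (d2 h').2.2 h) (fun h' => (d3 h').2 h)
  have t4 : ∀ a, a ∈ wsw c.w1 ∨ a ∈ c.lv.sw ∨ a ∈ wsw c.w2 ∨ a ∈ c.jn.sw → o4 a = true := by
    intro a h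
    rw [u4]
    rcases h with h | h | h | h
    · rw [if_neg (d1 h).2.2.1, t3 a (Or.inl h)]
    · rw [if_neg (d2 h).2.1, t3 a (Or.inr (Or.inl h))]
    · rw [if_neg (d3 h).1, t3 a (Or.inr (Or.inr h))]
    · rw [if_pos h, f3 a (fun h' => (d1 h').2.2.1 h) (fun h' => (d2 h').2.1 h)
        (fun h' => (d3 h').1 h)]
      rfl
  have t5 : ∀ a, a ∈ ball c.S → o5 a = true := by
    intro a h
    rw [← hCov', hw] at h
    simp only [Multiset.mem_add] at h
    by_cases h' : a ∈ wsw c.w3
    · rw [(u5 a).2 h', f4 a h']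
      rfl
    · rw [(u5 a).1 h']
      apply t4
      tauto
  -- the balls of the states
  have hS : ball c.S = {c.K, c.L} + ball c.B0 := ball_cons _ _
  have hnd : ({c.K, c.L} + ball c.B0).Nodup := by
    rw [← hS]
    exact c.nd
  obtain ⟨nKL, nB0, dKL⟩ := Multiset.nodup_add.1 hnd
  rw [Multiset.disjoint_left] at dKL
  have hKB : c.K ∉ ball c.B0 := dKL (by simp)
  have hLB : c.L ∉ ball c.B0 := dKL (by simp)
  have hK1 : c.K ∉ wsw c.w1 := fun h => hKB (D3 α ∅ c.w1 _ _ c.r1 _ h)
  have hL1 : c.L ∉ wsw c.w1 := fun h => hLB (D3 α ∅ c.w1 _ _ c.r1 _ h)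
  have b1 : ball (s(c.q, c.z) :: c.B1) = ball c.B0 := R7 α ∅ c.w1 _ _ c.r1
  have b3 : ball (c.A ++ [s(c.y, c.x)]) = ball c.B0 := by
    rw [← R7 α ∅ c.w3 _ _ c.r3, ball_reverse]
  have hK3 : c.K ∉ wsw c.w3 := fun h => hKB (b3 ▸ D3 α ∅ c.w3 _ _ c.r3 _ h)
  have hL3 : c.L ∉ wsw c.w3 := fun h => hLB (b3 ▸ D3 α ∅ c.w3 _ _ c.r3 _ h)
  have hbl : ball (c.lv.l ++ c.B1) = ball c.S := by
    have : c.lv.l ++ c.B1 = s(c.K, c.L) :: (s(c.q, c.z) :: c.B1) := rfl
    rw [this, ball_cons, b1, hS, tm]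
  have hlv : c.lv.l ++ c.B1 = c.lv.l ++ c.B1 := rfl
  have n_lv : (ball c.lv.l + ball c.B1).Nodup := by
    rw [← ball_append, hbl]
    exact c.nd
  obtain ⟨n_lvl, n_B1, d_lv⟩ := Multiset.nodup_add.1 n_lv
  rw [Multiset.disjoint_left] at d_lv
  have b2 : ball (s(c.L, c.q) :: s(c.K, c.z) :: c.B1) = ball c.S := by
    have : s(c.L, c.q) :: s(c.K, c.z) :: c.B1 = c.lv.r ++ c.B1 := rfl
    rw [this, ball_append, hrl, ← ball_append, hbl]
  have hjl : c.jn.l = [s(c.L, c.y), s(c.K, c.x)] := by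
    change [s(c.L, c.y), s(c.x, c.K)] = _
    rw [Sym2.eq_swap (a := c.x)]
  have b4 : ball (c.A ++ c.jn.l) = ball c.S := by
    rw [hjl, R7 α _ c.w2 _ _ c.r2, b2]
  have n_jn : (ball c.A + ball c.jn.l).Nodup := by
    rw [← ball_append, b4]
    exact c.nd
  obtain ⟨n_A, n_jnl, d_jn⟩ := Multiset.nodup_add.1 n_jn
  rw [Multiset.disjoint_left] at d_jn
  -- balls in all states
  have hKS : c.K ∈ ball c.S := by
    rw [hS]
    simp
  have hLS : c.L ∈ ball c.S := by
    rw [hS]
    simp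
  have memc : ∀ a, a ∈ ball c.S → a ∉ wsw c.w1 → a ∉ wsw c.w3 → a ∉ c.jn.sw →
      a ∈ c.lv.sw ∨ a ∈ wsw c.w2 := by
    intro a h g1 g2 g3
    rw [← hCov', hw] at h
    simp only [Multiset.mem_add] at h
    tauto
  have t4' : ∀ a, a ∈ ball c.S → a ∉ wsw c.w3 → o4 a = true := by
    intro a h g
    apply t4
    rw [← hCov', hw] at h
    simp only [Multiset.mem_add] at h
    tauto
  have o4K : o4 c.K = true := t4' _ hKS hK3
  have o4L : o4 c.L = true := t4' _ hLS hL3
  have o1K : o1 c.K = false := f1 _ hK1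
  have o1L : o1 c.L = false := f1 _ hL1
  -- the leaving move
  obtain ⟨g1, g3, q', z', k', C, hg, hk', G1, G3⟩ := h3 α o1 c.K c.L c.q c.z c.k1 c.hk1
    n_lvl o1K o1L (fun a ha => f1 a (fun h => (d1 h).1 ha))
  change Wit o1 c.lv = _ at hg
  change Run ∅ g1 (dbl o1 c.lv.l).tail _ at G1
  change Run _ g3 _ (dbl o2 c.lv.r) at G3
  -- the joining move
  have hjn_n : c.k2 = Kd.n → o3 c.L = true ∧ o3 c.K = true := by
    intro hk
    have h0 : c.jn.sw = 0 := by
      unfold CW.jn
      rw [hk]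
      rfl
    constructor
    · apply t3
      right
      exact memc _ hLS hL1 hL3 (by rw [h0]; exact Multiset.notMem_zero _)
    · apply t3
      right
      exact memc _ hKS hK1 hK3 (by rw [h0]; exact Multiset.notMem_zero _)
  have hjn_U : c.k2 = Kd.U → o3 c.K = true := by
    intro hk
    apply t3
    right
    refine memc _ hKS hK1 hK3 ?_
    have h0 : c.jn.sw = {c.L, c.y, c.x} := by
      unfold CW.jn
      rw [hk]
      rfl
    have hb : ball c.jn.l = {c.L, c.y} + {c.x, c.K} := by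
      change ball [s(c.L, c.y), s(c.x, c.K)] = _
      simp only [ball_cons, ball_nil, tm, add_zero]
    rw [h0]
    rw [hb] at n_jnl
    intro hm
    simp only [Multiset.insert_eq_cons, Multiset.mem_cons, Multiset.mem_singleton] at hm
    obtain ⟨m1, m2, m3⟩ := Multiset.nodup_add.1 n_jnl
    rw [Multiset.disjoint_left] at m3
    rcases hm with hm | hm | hm
    · exact m3 (a := c.L) (by simp) (by simp [hm])
    · exact m3 (a := c.y) (by simp) (by simp [hm])
    · rw [hm] at m2
      simp at m2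
  obtain ⟨j1, j3, y', x', k'', C', hj, hk'', J1, J3, J4⟩ := h4 α o3 c.K c.L c.y c.x c.k2 c.hk2
    n_jnl hjn_n hjn_U (fun a ha => f3 a (fun h => (d1 h).2.2.1 ha) (fun h => (d2 h).2.1 ha)
      (fun h => (d3 h).1 ha))
  change Wit o3 c.jn = _ at hj
  change Run _ j1 (dbl o3 c.jn.l) _ at J1
  change Run ∅ j3 _ (dbl o4 c.jn.r).dropLast at J3
  -- the three phases
  have r1' : Run ∅ (Wd o0 c.w1 ++ g1) (s((c.K, true), (c.L, true)) :: dbl o0 c.B0)
      (s(q', z') :: (C ++ dbl o1 c.B1)) := by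
    have e1 := D1 α ∅ o0 c.w1 _ _ c.r1 nB0 n1 (fun _ _ => rfl)
    rw [T2_empty] at e1
    have e2 := R3 _ _ _ _ _ [s((c.K, true), (c.L, true))] [] e1
    have e3 := R3 _ _ _ _ _ [] (dbl o1 c.B1) G1
    have e4 : (dbl o1 c.lv.l).tail ++ dbl o1 c.B1 =
        s((c.K, true), (c.L, true)) :: dbl o1 (s(c.q, c.z) :: c.B1) := by
      change (s((c.K, !(o1 c.K)), (c.L, !(o1 c.L))) :: _) = _
      rw [o1K, o1L]
      rfl
    rw [List.append_nil, List.append_nil, List.singleton_append, List.singleton_append] at e2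
    rw [List.nil_append, List.nil_append, e4] at e3
    exact R1 _ _ _ _ _ _ _ e2 e3
  have r2' : Run {(c.K, false), (c.L, false)} (g3 ++ (Wd o2 c.w2 ++ j1))
      (s((c.L, false), q') :: s((c.K, false), z') :: (C ++ dbl o1 c.B1))
      ((dbl o3 c.A ++ C') ++ [s((c.L, false), y'), s((c.K, false), x')]) := by
    have e1 := R3 _ _ _ _ _ [] (dbl o1 c.B1) G3
    have e2 : dbl o1 c.B1 = dbl o2 c.B1 := by
      refine (D4 α o1 o2 c.B1 []).2 (fun a ha => ?_)
      rw [u2, if_neg]
      intro h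
      exact d_lv (hswl _ _ h) ha
    have e3 : dbl o2 c.lv.r ++ dbl o1 c.B1 =
        dbl o2 (s(c.L, c.q) :: s(c.K, c.z) :: c.B1) := by
      rw [e2]
      rfl
    rw [List.nil_append, List.nil_append, e3] at e1
    have e4 := D1 α {c.K, c.L} o2 c.w2 _ _ c.r2 (by rw [b2]; exact c.nd) n3
      (fun a ha => f2 a (fun h => (d1 h).2.1 ha) (fun h => (d2 h).1 ha))
    rw [T2_pair, ← hjl, (D4 α o3 o3 c.A c.jn.l).1] at e4
    have e5 := R3 _ _ _ _ _ (dbl o3 c.A) [] J1
    rw [List.append_nil, List.append_nil, ← List.append_assoc] at e5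
    exact R1 _ _ _ _ _ _ _ e1 (R1 _ _ _ _ _ _ _ e4 e5)
  have r3' : Run ∅ (j3 ++ Wd o4 c.w3) ((dbl o3 c.A ++ C') ++ [s(y', x')])
      (s((c.K, true), (c.L, true)) :: dbl o0 c.B0).reverse := by
    have e1 := R3 _ _ _ _ _ (dbl o3 c.A) [] J3
    rw [List.append_nil, List.append_nil, ← List.append_assoc] at e1
    have e2 : dbl o3 c.A = dbl o4 c.A := by
      refine (D4 α o3 o4 c.A []).2 (fun a ha => ?_)
      rw [u4, if_neg]
      intro h
      exact d_jn ha (hswl _ _ h)
    have e3 : dbl o3 c.A ++ (dbl o4 c.jn.r).dropLast =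
        dbl o4 (c.A ++ [s(c.y, c.x)]) ++ [s((c.L, true), (c.K, true))] := by
      have e4 : (dbl o4 c.jn.r).dropLast = dbl o4 [s(c.y, c.x)] ++
          [s((c.L, true), (c.K, true))] := by
        change _ :: _ :: s((c.L, o4 c.L), (c.K, o4 c.K)) :: [] = _
        rw [o4K, o4L]
        rfl
      rw [e4, (D4 α o4 o4 c.A [s(c.y, c.x)]).1, e2, List.append_assoc]
    rw [e3] at e1
    have e5 := D1 α ∅ o4 c.w3 _ _ c.r3 (by rw [b3]; exact nB0) n5 f4
    rw [T2_empty] at e5
    have e6 := R3 _ _ _ _ _ [] [s((c.L, true), (c.K, true))] e5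
    rw [List.nil_append, List.nil_append] at e6
    have e7 : dbl o5 c.B0.reverse = (dbl o0 c.B0).reverse := by
      rw [← dbl_rev]
      refine (D4 α o5 (fun _ => true) c.B0.reverse []).2 (fun a ha => ?_)
      rw [ball_reverse] at ha
      exact t5 a (by rw [hS]; exact Multiset.mem_add.2 (Or.inr ha))
    rw [List.reverse_cons]
    have e8 : s((c.K, true), (c.L, true)) = s((c.L, true), (c.K, true)) := Sym2.eq_swap
    rw [e8]
    rw [← ho5, e7] at e6
    exact R1 _ _ _ _ _ _ _ e1 e6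
  -- the doubled word
  let c' : CW (α × Bool) :=
    { K := (c.K, false)
      L := (c.L, false)
      B0 := s((c.K, true), (c.L, true)) :: dbl o0 c.B0
      w1 := Wd o0 c.w1 ++ g1
      k1 := k'
      q := q'
      z := z'
      B1 := C ++ dbl o1 c.B1
      w2 := g3 ++ (Wd o2 c.w2 ++ j1)
      A := dbl o3 c.A ++ C'
      y := y'
      x := x'
      k2 := k''
      w3 := j3 ++ Wd o4 c.w3
      hk1 := hk'
      hk2 := hk''
      nd := nodup_dbl o0 c.S c.nd
      r1 := r1'
      r2 := r2'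
      r3 := r3' }
  have hword : c'.word = Wd o0 c.word := by
    have e1 : Wd o0 c.word = Wd o0 c.w1 ++ (Wit o1 c.lv ++ (Wd o2 c.w2 ++
        (Wit o3 c.jn ++ Wd o4 c.w3))) := by
      unfold CW.word
      rw [(D5 α o0 c.w1 _).1]
      change _ ++ (Wit o1 c.lv ++ Wd o2 (c.w2 ++ (c.jn :: c.w3))) = _
      rw [(D5 α o2 c.w2 _).1]
      rfl
    rw [e1, hg, hj]
    change (Wd o0 c.w1 ++ g1) ++ (_ :: ((g3 ++ (Wd o2 c.w2 ++ j1)) ++
      (_ :: (j3 ++ Wd o4 c.w3)))) = _
    simp only [List.append_assoc, List.cons_append]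
    rfl
  have hb : ball c'.S = (ball c.S).bind (fun a => {(a, false), (a, true)}) :=
    ball_dbl o0 c.S
  obtain ⟨m1, m2, m3⟩ := h5 α o0 c.word
  refine ⟨c', ?_, ?_, ?_, ?_⟩
  · change (s((c.K, true), (c.L, true)) :: dbl o0 c.B0).length + 1 = 2 * (c.B0.length + 1)
    rw [List.length_cons, length_dbl]
    ring
  · change wN c'.word = 4 * wN c.word + wF c.word
    rw [hword, m1]
  · change wQ c'.word = 0
    rw [hword, m2]
  · intro hF
    obtain ⟨m4, m5, m6⟩ := m3 hF
    refine ⟨?_, ?_, ?_⟩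
    · change wsw c'.word = ball c'.S
      rw [hword, m5, hb, hCov']
    · change wF c'.word = 2 * wF c.word + 3 * wQ c.word
      rw [hword, m4]
    · intro hQ i hi
      rw [hword] at hi
      exact m6 hQ i hi

end Bn
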