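import Pool.Agent.BIN.W
set_option autoImplicit false
set_option linter.all false

/-!
# BIN: the numbers of the doubled word (target T_WCT)
-/

namespace Bn

namespace WCT_

variable {α : Type}

theorem wN_app (u v : List (It α)) : wN (u ++ v) = wN u + wN v := by
  simp [wN]

theorem wF_app (u v : List (It α)) : wF (u ++ v) = wF u + wF v := by
  simp [wF]

theorem wQ_app (u v : List (It α)) : wQ (u ++ v) = wQ u + wQ v := by
  simp [wQ]

theorem wsw_app (u v : List (It α)) : wsw (u ++ v) = wsw u + wsw v := by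
  simp [wsw]

theorem itN (o : α → Bool) (i : It α) : wN (Wit o i) = 4 * i.N + i.F := by
  cases i with
  | mv p x q z k => cases k <;> rfl
  | qd e d a x c w => rfl

theorem itQ (o : α → Bool) (i : It α) : wQ (Wit o i) = 0 := by
  cases i with
  | mv p x q z k => cases k <;> rfl
  | qd e d a x c w => rfl

theorem itF (o : α → Bool) (i : It α) (h : i.isfq) : wF (Wit o i) = 2 * i.F + 3 * i.Q := by
  cases i with
  | mv p x q z k =>
    cases k with
    | n => rfl
    | U => rfl
    | L => rfl
    | ax => exact absurd h (by simp [It.isfq, Kd.tr])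
    | c => exact absurd h (by simp [It.isfq, Kd.tr])
  | qd e d a x c w => rfl

/-- the two strands of a ball -/
theorem two (o : α → Bool) (a : α) :
    ({(a, o a)} : Multiset (α × Bool)) + {(a, !(o a))} = {(a, false)} + {(a, true)} := by
  cases o a
  · rfl
  · exact add_comm _ _

theorem bindc (s : Multiset α) (a : α) :
    (a ::ₘ s).bind (fun a => ({(a, false), (a, true)} : Multiset (α × Bool))) =
      {(a, false)} + {(a, true)} +
        s.bind (fun a => ({(a, false), (a, true)} : Multiset (α × Bool))) := by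
  rw [Multiset.cons_bind]
  rfl

theorem itW (o : α → Bool) (i : It α) (h : i.isfq) :
    wsw (Wit o i) = i.sw.bind (fun a => {(a, false), (a, true)}) := by
  cases i with
  | mv p x q z k =>
    cases k with
    | n => rfl
    | U =>
      have e1 : wsw (Wit o (It.mv p x q z Kd.U)) =
          (({(p, o p)} : Multiset (α × Bool)) + {(p, !(o p))}) + ({(x, o x)} + {(x, !(o x))}) +
            ({(q, o q)} + {(q, !(o q))}) := by
        have e2 : wsw (Wit o (It.mv p x q z Kd.U)) =
            ((p, o p) ::ₘ (x, o x) ::ₘ {(x, !(o x))}) +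
              (0 + (0 + (((p, !(o p)) ::ₘ (q, o q) ::ₘ {(q, !(o q))}) + (0 + 0)))) := rfl
        rw [e2]
        simp only [← Multiset.singleton_add]
        abel
      have e3 : (It.mv p x q z Kd.U).sw = p ::ₘ x ::ₘ q ::ₘ 0 := rfl
      rw [e1, e3, bindc, bindc, bindc, two, two, two, Multiset.zero_bind]
      abel
    | L =>
      have e1 : wsw (Wit o (It.mv p x q z Kd.L)) =
          (({(p, o p)} : Multiset (α × Bool)) + {(p, !(o p))}) + ({(q, o q)} + {(q, !(o q))}) +
            ({(z, o z)} + {(z, !(o z))}) := by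
        have e2 : wsw (Wit o (It.mv p x q z Kd.L)) =
            0 + (((p, !(o p)) ::ₘ (q, !(o q)) ::ₘ {(q, o q)}) +
              (0 + (0 + (((p, o p) ::ₘ (z, !(o z)) ::ₘ {(z, o z)}) + 0)))) := rfl
        rw [e2]
        simp only [← Multiset.singleton_add]
        abel
      have e3 : (It.mv p x q z Kd.L).sw = p ::ₘ q ::ₘ z ::ₘ 0 := rfl
      rw [e1, e3, bindc, bindc, bindc, two, two, two, Multiset.zero_bind]
      abel
    | ax => exact absurd h (by simp [It.isfq, Kd.tr])
    | c => exact absurd h (by simp [It.isfq, Kd.tr])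
  | qd e d a x c w =>
    have e1 : wsw (Wit o (It.qd e d a x c w)) =
        (({(d, o d)} : Multiset (α × Bool)) + {(d, !(o d))}) + ({(a, o a)} + {(a, !(o a))}) +
          ({(x, o x)} + {(x, !(o x))}) + ({(c, o c)} + {(c, !(o c))}) := by
      have e2 : wsw (Wit o (It.qd e d a x c w)) =
          ((a, o a) ::ₘ (x, o x) ::ₘ {(x, !(o x))}) + (0 + (0 +
            (((a, !(o a)) ::ₘ (c, o c) ::ₘ {(c, !(o c))}) +
              (0 + (0 + (0 + (((d, o d) ::ₘ {(d, !(o d))}) + 0))))))) := rfl
      rw [e2]
      simp only [← Multiset.singleton_add]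
      abel
    have e3 : (It.qd e d a x c w).sw = d ::ₘ a ::ₘ x ::ₘ c ::ₘ 0 := rfl
    rw [e1, e3, bindc, bindc, bindc, bindc, two, two, two, two, Multiset.zero_bind]
    abel

theorem itI (o : α → Bool) (i : It α) (h : i.isfq) (hQ : i.Q = 0) :
    ∀ j ∈ Wit o i, j.isfq := by
  cases i with
  | mv p x q z k =>
    cases k with
    | n => intro j hj; simp [Wit, wmap, gad] at hj; rcases hj with rfl | rfl | rfl | rfl <;>
        simp [It.map, It.isfq, Kd.tr]
    | U => intro j hj; simp [Wit, wmap, gad] at hj; rcases hj with rfl | rfl | rfl | rfl | rfl <;>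
        simp [It.map, It.isfq, Kd.tr]
    | L => intro j hj; simp [Wit, wmap, gad] at hj; rcases hj with rfl | rfl | rfl | rfl | rfl <;>
        simp [It.map, It.isfq, Kd.tr]
    | ax => exact absurd h (by simp [It.isfq, Kd.tr])
    | c => exact absurd h (by simp [It.isfq, Kd.tr])
  | qd e d a x c w => exact absurd hQ (by simp [It.Q])

theorem wQ_cons (i : It α) (w : List (It α)) : wQ (i :: w) = i.Q + wQ w := by simp [wQ]

theorem main [DecidableEq α] (w : List (It α)) : ∀ o : α → Bool,
    wN (Wd o w) = 4 * wN w + wF w ∧ wQ (Wd o w) = 0 ∧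
    ((∀ i ∈ w, i.isfq) → wF (Wd o w) = 2 * wF w + 3 * wQ w ∧
      wsw (Wd o w) = (wsw w).bind (fun a => {(a, false), (a, true)}) ∧
      (wQ w = 0 → ∀ i ∈ Wd o w, i.isfq)) := by
  induction w with
  | nil =>
    intro o
    refine ⟨rfl, rfl, fun _ => ⟨rfl, rfl, fun _ i hi => ?_⟩⟩
    simp [Wd] at hi
  | cons i w ih =>
    intro o
    obtain ⟨h1, h2, h3⟩ := ih (upd o i)
    refine ⟨?_, ?_, fun hf => ?_⟩
    · rw [Wd, wN_app, itN, h1]
      simp only [wN, wF, List.map_cons, List.sum_cons]
      ring
    · rw [Wd, wQ_app, itQ, h2]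
    · obtain ⟨h4, h5, h6⟩ := h3 fun j hj => hf j (List.mem_cons_of_mem _ hj)
      have hi := hf i List.mem_cons_self
      refine ⟨?_, ?_, fun hQ => ?_⟩
      · rw [Wd, wF_app, itF o i hi, h4]
        simp only [wF, wQ, List.map_cons, List.sum_cons]
        ring
      · rw [Wd, wsw_app, itW o i hi, h5]
        simp only [wsw, List.map_cons, List.sum_cons, Multiset.add_bind]
      · rw [wQ_cons] at hQ
        intro j hj
        rw [Wd, List.mem_append] at hj
        rcases hj with hj | hj
        · exact itI o i hi (by omega) j hj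
        · exact h6 (by omega) j hj

end WCT_

theorem p_WCT : T_WCT := fun _ _ o w => WCT_.main w o

end Bn
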