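import Pool.Agent.BIN.W
set_option autoImplicit false
set_option linter.all false

/-!
# BIN: the joining move is doubled (T_WJN)
-/

namespace Bn

namespace WJN_

variable {β : Type}

lemma step {T : Set β} {i : It β} {w : List (It β)} {S S' : List (Sym2 β)}
    (A B : List (Sym2 β)) (h0 : i.ok T) (h1 : S = A ++ (i.l ++ B))
    (h2 : Run T w (A ++ (i.r ++ B)) S') : Run T (i :: w) S S' := ⟨h0, A, B, h1, h2⟩

end WJN_

open WJN_ in
/-- the joining move is doubled -/
theorem p_WJN : T_WJN := by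
  intro α _ o K L y x k hk hnd hn hU hsw
  have hne : L ≠ y ∧ L ≠ x ∧ L ≠ K ∧ y ≠ x ∧ y ≠ K ∧ x ≠ K := by
    simp only [ball, It.l, List.map_cons, List.map_nil, List.sum_cons, List.sum_nil,
      Sym2.toMultiset] at hnd
    simp at hnd
    tauto
  obtain ⟨h1, h2, h3, h4, h5, h6⟩ := hne
  have g1 := h1.symm
  have g2 := h2.symm
  have g3 := h3.symm
  have g4 := h4.symm
  have g5 := h5.symm
  have g6 := h6.symm
  rcases hk with rfl | rfl | rfl
  · obtain ⟨hL, hK⟩ := hn rfl
    refine ⟨[It.mv (L, false) (y, !(o y)) (x, o x) (K, true) Kd.n],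
      [It.mv (L, true) (y, o y) (x, o x) (y, !(o y)) Kd.n,
        It.mv (L, true) (y, !(o y)) (x, !(o x)) (K, true) Kd.n],
      (K, true), (x, !(o x)), Kd.n, [s((L, true), (y, o y)), s((y, !(o y)), (x, o x))],
      ?_, Or.inl rfl, ?_, ?_, ?_⟩
    · simp [Wit, gad, wmap, It.map, str4, hL, hK]
    · refine step [s((L, true), (y, o y))] [s((x, !(o x)), (K, false))] ?_ ?_ ?_
      · simp [It.ok, Kd.tr, h1, h2, h3, h4, h5, h6, g1, g2, g3, g4, g5, g6]
      · simp [dbl, It.l, hL, hK]
      · simp [Run, It.r, Sym2.eq_iff]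
    · refine step [] [s((K, true), (x, !(o x)))] ?_ ?_ (step [s((y, o y), (x, o x))] [] ?_ ?_ ?_)
      · simp [It.ok, Kd.tr]
      · simp [It.l, Sym2.eq_iff]
      · simp [It.ok, Kd.tr]
      · simp [It.r, It.l, Sym2.eq_iff]
      · simp [Run, It.r, dbl, upd, It.sw, hL, hK, Sym2.eq_iff]
    · simp [dbl, It.r, upd, It.sw, hL, hK]
  · have hK := hU rfl
    have hL : o L = false := hsw L (by simp [It.sw])
    have hy : o y = false := hsw y (by simp [It.sw])
    have hx : o x = false := hsw x (by simp [It.sw])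
    refine ⟨[It.mv (L, false) (y, false) (y, true) (L, true) Kd.U,
        It.mv (L, false) (L, true) (x, false) (K, true) Kd.n],
      [It.mv (L, true) (x, false) (x, true) (K, true) Kd.U,
        It.mv (y, false) (y, true) (x, true) (x, false) Kd.n],
      (K, true), (x, true), Kd.n, [s((y, false), (y, true)), s((L, true), (x, false))],
      ?_, Or.inl rfl, ?_, ?_, ?_⟩
    · simp [Wit, gad, wmap, It.map, str4, hL, hK, hy, hx]
    · refine step [] [s((x, false), (K, true)), s((x, true), (K, false))] ?_ ?_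
        (step [s((y, false), (y, true))] [s((x, true), (K, false))] ?_ ?_ ?_)
      · simp [It.ok, Kd.tr, h1, h2, h3, h4, h5, h6, g1, g2, g3, g4, g5, g6]
      · simp [dbl, It.l, hL, hK, hy, hx, Sym2.eq_iff]
      · simp [It.ok, Kd.tr, h1, h2, h3, h4, h5, h6, g1, g2, g3, g4, g5, g6]
      · simp [It.r, It.l, Sym2.eq_iff]
      · simp [Run, It.r, Sym2.eq_iff]
    · refine step [s((y, false), (y, true))] [] ?_ ?_ (step [] [s((L, true), (K, true))] ?_ ?_ ?_)
      · simp [It.ok, Kd.tr]
      · simp [It.l, Sym2.eq_iff]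
      · simp [It.ok, Kd.tr]
      · simp [It.r, It.l, Sym2.eq_iff]
      · simp [Run, It.r, dbl, upd, It.sw, hL, hK, hy, hx, Sym2.eq_iff, h1, h2, h3, h4, h5, h6,
          g1, g2, g3, g4, g5, g6]
    · simp [dbl, It.r, upd, It.sw, hL, hK, hy, hx, h1, h2, h3, h4, h5, h6, g1, g2, g3, g4, g5, g6]
  · have hL : o L = false := hsw L (by simp [It.sw])
    have hx : o x = false := hsw x (by simp [It.sw])
    have hK : o K = false := hsw K (by simp [It.sw])
    refine ⟨[It.mv (K, false) (x, false) (x, true) (K, true) Kd.n,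
        It.mv (L, true) (y, !(o y)) (x, true) (x, false) Kd.L,
        It.mv (L, false) (y, o y) (x, true) (y, !(o y)) Kd.n,
        It.mv (L, false) (y, !(o y)) (x, false) (L, true) Kd.n],
      [], (L, true), (K, true), Kd.L, [s((y, o y), (x, true)), s((y, !(o y)), (x, false))],
      ?_, Or.inr (Or.inr rfl), ?_, ?_, ?_⟩
    · simp [Wit, gad, wmap, It.map, str4, hL, hK, hx]
    · refine step [s((L, false), (y, o y)), s((L, true), (y, !(o y)))] [] ?_ ?_
        (step [s((L, false), (y, o y))] [s((K, false), (K, true))] ?_ ?_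
        (step [] [s((L, true), (x, false)), s((K, false), (K, true))] ?_ ?_
        (step [s((y, o y), (x, true))] [s((K, false), (K, true))] ?_ ?_ ?_)))
      · simp [It.ok, Kd.tr, h1, h2, h3, h4, h5, h6, g1, g2, g3, g4, g5, g6]
      · simp [dbl, It.l, hL, hK, hx, Sym2.eq_iff]
      · simp [It.ok, Kd.tr, h1, h2, h3, h4, h5, h6, g1, g2, g3, g4, g5, g6]
      · simp [It.r, It.l, Sym2.eq_iff]
      · simp [It.ok, Kd.tr, h1, h2, h3, h4, h5, h6, g1, g2, g3, g4, g5, g6]
      · simp [It.r, It.l, Sym2.eq_iff]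
      · simp [It.ok, Kd.tr, h1, h2, h3, h4, h5, h6, g1, g2, g3, g4, g5, g6]
      · simp [It.r, It.l, Sym2.eq_iff]
      · simp [Run, It.r, Sym2.eq_iff]
    · simp [Run, It.r, dbl, upd, It.sw, hL, hK, hx, Sym2.eq_iff, h1, h2, h3, h4, h5, h6,
          g1, g2, g3, g4, g5, g6]
    · simp [dbl, It.r, upd, It.sw, hL, hK, hx, h1, h2, h3, h4, h5, h6, g1, g2, g3, g4, g5, g6]

end Bn
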