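import Pool.Agent.BIN.Defs
set_option autoImplicit false
set_option linter.all false

/-!
# BIN: the doubling W
Every ball `a` becomes two strands `(a, false)`, `(a, true)`.  The orientation `o : α → Bool`
tells which strand of `a` is above: `(a, o a)` is in the upper of the two bins.
In the coded gadgets the codes are 0, 1 = upper and lower strand of p; 2, 3 = of x;
4, 5 = of q; 6, 7 = of z.
-/

namespace Bn

variable {α : Type}

/-- the gadget of a move -/
def gad : Kd → List (It ℕ)
  | Kd.n => [.mv 1 3 4 6 .n, .mv 1 6 5 7 .n, .mv 0 2 4 3 .n, .mv 0 3 5 6 .n]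
  | Kd.U => [.mv 0 2 3 1 .U, .mv 0 1 4 6 .n, .mv 0 6 5 7 .n, .mv 1 4 5 6 .U, .mv 2 3 5 4 .n]
  | Kd.L => [.mv 6 4 5 7 .n, .mv 1 3 5 4 .L, .mv 0 2 5 3 .n, .mv 0 3 4 1 .n, .mv 0 1 7 6 .L]
  | Kd.ax => [.mv 0 2 3 1 .n, .mv 0 1 4 6 .n, .mv 0 6 5 7 .n, .mv 1 4 5 6 .n, .mv 2 3 4 5 .n]
  | Kd.c => [.mv 0 2 3 1 .n, .mv 1 0 4 6 .n, .mv 1 6 5 7 .n, .mv 0 4 5 6 .n, .mv 3 2 5 4 .n]

/-- the gadget of a quadrangle; codes 0, 1 for e; 2, 3 for d; 4, 5 for a; 6, 7 for x;
8, 9 for c; 10, 11 for w -/
def gadQ : List (It ℕ) :=
  [.mv 4 6 7 5 .U, .mv 4 5 8 10 .n, .mv 4 10 9 11 .n, .mv 5 8 9 10 .U,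
   .mv 3 1 7 6 .n, .mv 2 0 7 1 .n, .mv 2 1 6 3 .n, .mv 2 3 9 8 .ax]

/-- the strands of four balls -/
def str4 (o : α → Bool) (p x q z : α) : ℕ → α × Bool
  | 0 => (p, o p)
  | 1 => (p, !(o p))
  | 2 => (x, o x)
  | 3 => (x, !(o x))
  | 4 => (q, o q)
  | 5 => (q, !(o q))
  | 6 => (z, o z)
  | _ => (z, !(o z))

/-- the strands of six balls -/
def str6 (o : α → Bool) (e d a x c w : α) : ℕ → α × Bool
  | 0 => (e, o e)
  | 1 => (e, !(o e))
  | 2 => (d, o d)
  | 3 => (d, !(o d))
  | 4 => (a, o a)
  | 5 => (a, !(o a))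
  | 6 => (x, o x)
  | 7 => (x, !(o x))
  | 8 => (c, o c)
  | 9 => (c, !(o c))
  | 10 => (w, o w)
  | _ => (w, !(o w))

/-- the doubled item -/
def Wit (o : α → Bool) : It α → List (It (α × Bool))
  | It.mv p x q z k => wmap (str4 o p x q z) (gad k)
  | It.qd e d a x c w => wmap (str6 o e d a x c w) gadQ

/-- the orientation after the item -/
def upd [DecidableEq α] (o : α → Bool) (i : It α) : α → Bool :=
  fun a => if a ∈ i.sw then !(o a) else o a

/-- the doubled word -/
def Wd [DecidableEq α] : (α → Bool) → List (It α) → List (It (α × Bool))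
  | _, [] => []
  | o, i :: w => Wit o i ++ Wd (upd o i) w

/-- the orientation after a word -/
def updw [DecidableEq α] : (α → Bool) → List (It α) → (α → Bool)
  | o, [] => o
  | o, i :: w => updw (upd o i) w

/-- the doubled state -/
def dbl (o : α → Bool) (S : List (Sym2 α)) : List (Sym2 (α × Bool)) :=
  S.flatMap (fun e => [e.map (fun a => (a, o a)), e.map (fun a => (a, !(o a)))])

/-- the tracked strands -/
def T2 (T : Set α) : Set (α × Bool) := {b | b.1 ∈ T ∧ b.2 = false}

/-- **Target T_WIT** (doubling of one item).  If the item is safe for `T`, its balls are different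
and all balls which it swaps have orientation false, then `Wit o i` is a run from the doubled bins
before the item to the doubled bins after the item, with the new orientation; the strands
`(a, false)` with `a ∈ T` are tracked.

Proof.  For a move `mv p x q z k` the four balls are different.  By the map law of runs (T_RUN
(4)) with `f = str4 o p x q z` it is enough to have the coded run of `gad k`, for the coded
tracked set `C`: `C = {0, 1}` if `k = n`, `C = {0}` if `k = U` or `k = L`, `C = ∅` if
`k = ax, c`.  The coded runs (each by unfolding `Run` and giving the contexts, or by a decision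
procedure; 4 bins {0, 2}, {1, 3}, {4, 6}, {5, 7}):
n: bins become {2,4}, {3,5}, {0,6}, {1,7};
U: {3,5}, {2,4}, {1,6}, {0,7};  L: {2,5}, {3,4}, {1,7}, {0,6};
ax: {3,4}, {2,5}, {1,6}, {0,7};  c: {2,5}, {3,4}, {0,6}, {1,7}.
This is `dbl (upd o i) i.r` because the swapped balls (U: p, x, q; L: p, q, z; ax: p, x; c: q) have
changed their orientation and the others not (here the four balls are different, so
`a ∈ i.sw` is decided).  The condition of the map law: if `f code ∈ T2 T` then the ball of the
code is in `T`, so it is `p` (x, q, z are not in T), so the code is 0 or 1 and `k` is n, U or L;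
for `U`, `L` we have `o p = false` (p is swapped), so `f 1 = (p, true)` is not in `T2 T` and the
code
is 0.
The places in the coded runs: n: bins (1,2), (2,3), (0,1), (1,2); U: (0,1), (1,2), (2,3), (1,2),
(0,1); L: (2,3), (1,2), (0,1), (1,2), (2,3); ax: (0,1), (1,2), (2,3), (1,2), (0,1); c: (0,1), (1,2),
(2,3), (1,2), (0,1).
For a quadrangle no ball is tracked; six bins {0,2}, {1,3}, {4,6}, {5,7}, {8,10}, {9,11}, places
(2,3), (3,4), (4,5), (3,4), (1,2), (0,1), (1,2), (2,3); result {0,7}, {1,6}, {3,9}, {2,8}, {5,10},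
{4,11}: this is `dbl (upd o i) i.r` for `i.r = [s(e, x), s(c, d), s(a, w)]` with x, d, a, c
swapped and e, w not. -/
def T_WIT : Prop :=
  ∀ (α : Type) [DecidableEq α] (T : Set α) (o : α → Bool) (i : It α), i.ok T →
    (ball i.l).Nodup → (∀ a ∈ i.sw, o a = false) →
    Run (T2 T) (Wit o i) (dbl o i.l) (dbl (upd o i) i.r)

/-- **Target T_WRUN** (doubling of a run).  Let `Run T w S S'`, all balls of `S` different, the
swapped balls of `w` different and of orientation false.  Then `Wd o w` is a run from `dbl o S` to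
`dbl (updw o w) S'`.  Moreover: (2) `updw o w a = o a` for `a` not in `wsw w`, and
`updw o w a = !(o a)` for `a ∈ wsw w`, when `wsw w` has no repetition; (3) a swapped ball of `w` is
in
`ball S`; (4) `dbl` is additive for `++` and `dbl o S = dbl o' S` if `o` and `o'` agree on the
balls of `S`; (5) `Wd` and `updw` on `w ++ w'`.

Proof.  (1) Induction on `w` for all `S, o`.  `S = A ++ (i.l ++ B)`.  `i.sw` is contained in
`ball i.l` (cases), and `ball S = ball A + ball i.l + ball B` has no repetition, so no ball of `A`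
or
`B` is swapped by `i` and `dbl o A = dbl (upd o i) A`, the same for `B`.  T_WIT in the context
`dbl o A`, `dbl o B` (T_RUN (3)) gives the run `Wit o i` from `dbl o S` to
`dbl (upd o i) (A ++ (i.r ++ B))`.  The new state has the same balls.  The balls of `wsw w'`
(`w = i :: w'`, `wsw w = i.sw + wsw w'` without repetition) are not in `i.sw`, so their orientation
is
still false.  Apply the induction hypothesis and compose the runs (T_RUN (1)).
(2) Induction: a ball is in at most one of `i.sw` and `wsw w'`.
(3) `i.sw ≤ ball i.l ≤ ball S` and `ball` is invariant (T_RUN (7)). -/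
def T_WRUN : Prop :=
  (∀ (α : Type) [DecidableEq α] (T : Set α) (o : α → Bool) (w : List (It α))
    (S S' : List (Sym2 α)), Run T w S S' → (ball S).Nodup → (wsw w).Nodup →
    (∀ a ∈ wsw w, o a = false) → Run (T2 T) (Wd o w) (dbl o S) (dbl (updw o w) S')) ∧
  (∀ (α : Type) [DecidableEq α] (o : α → Bool) (w : List (It α)), (wsw w).Nodup →
    ∀ a, (a ∉ wsw w → updw o w a = o a) ∧ (a ∈ wsw w → updw o w a = !(o a))) ∧
  (∀ (α : Type) (T : Set α) (w : List (It α)) (S S' : List (Sym2 α)), Run T w S S' →
    ∀ a ∈ wsw w, a ∈ ball S) ∧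
  (∀ (α : Type) (o o' : α → Bool) (S S' : List (Sym2 α)),
    dbl o (S ++ S') = dbl o S ++ dbl o S' ∧
    ((∀ a ∈ ball S, o a = o' a) → dbl o S = dbl o' S)) ∧
  (∀ (α : Type) [DecidableEq α] (o : α → Bool) (w w' : List (It α)),
    Wd o (w ++ w') = Wd o w ++ Wd (updw o w) w' ∧ updw o (w ++ w') = updw (updw o w) w')

/-- **Target T_WLV** (the leaving move is doubled).  Let `K, L, q, z` be different, `k.tr`,
`o K = o L = false` and, if `k = U` or `k = L`, `o q = false`, if `k = L`, `o z = false`.
Then the gadget of `mv K L q z k` splits as `g1 ++ (mv (K,false) (L,false) q' z' k' :: g3)`, where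
`g1` is a run in the three lower bins which ends with a first bin `s(q', z')`, and `g3` is a run
after the leaving move in which `(K, false)` and `(L, false)` are tracked.

Proof.  With `i = mv K L q z k`, `dbl o i.l = [s((K,false),(L,false)), s((K,true),(L,true)),
s((q,o q),(z,o z)), s((q,!o q),(z,!o z))]`.
k = n: g1 = the first two items of the gadget, leaving item `mv 0 2 4 3 n` (`q' = (q, o q)`,
`z' = (L, true)`), g3 = the last item.  k = U: g1 = [], leaving item `mv 0 2 3 1 U`
(`q' = (L, true)`, `z' = (K, true)`), g3 = the last four items.  k = L: g1 = the first two items,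
leaving item `mv 0 2 5 3 n` (`q' = (q, !(o q))`, `z' = (L, true)`), g3 = the last two items.
The runs: as in T_WIT, by the map law from the coded runs on the codes 0, ..., 7: for `g1`
tracked set ∅, bins {1,3}, {4,6}, {5,7}; for `g3` the coded tracked set is {0, 2} (x = L is now
tracked as well; L is the code 2, its other strand 3 is not tracked; K is code 0, its other strand
1 = (K, true) is not tracked); start {2, q'}, {0, z'}, rest C; end the 4 bins of T_WIT.
In the items of `g3` the codes 0 and 2 occur only as the first entry: n: `mv 0 3 5 6`;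
U: `mv 0 1 4 6`, `mv 0 6 5 7`, `mv 1 4 5 6 U`, `mv 2 3 5 4`; L: `mv 0 3 4 1`, `mv 0 1 7 6 L`. -/
def T_WLV : Prop :=
  ∀ (α : Type) [DecidableEq α] (o : α → Bool) (K L q z : α) (k : Kd), k.tr →
    (ball (It.mv K L q z k).l).Nodup → o K = false → o L = false →
    (∀ a ∈ (It.mv K L q z k).sw, o a = false) →
    ∃ (g1 g3 : List (It (α × Bool))) (q' z' : α × Bool) (k' : Kd) (C : List (Sym2 (α × Bool))),
      Wit o (It.mv K L q z k) = g1 ++ (It.mv (K, false) (L, false) q' z' k' :: g3) ∧ k'.tr ∧
      Run ∅ g1 (dbl o (It.mv K L q z k).l).tail (s(q', z') :: C) ∧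
      Run {(K, false), (L, false)} g3 (s((L, false), q') :: s((K, false), z') :: C)
        (dbl (upd o (It.mv K L q z k)) (It.mv K L q z k).r)

/-- **Target T_WJN** (the joining move is doubled).  Let `L, y, x, K` be different, `k.tr`.
Suppose: if `k = n` then `o L = o K = true`; if `k = U` then `o K = true`; the balls swapped by
`mv L y x K k` have orientation false.  Then its gadget splits as
`j1 ++ (mv (L,false) y' x' (K,false) k' :: j3)`: `j1` is a run with `(K, false)`, `(L, false)`
tracked, which ends with the two last bins `s((L,false), y')`, `s((K,false), x')`; `j3` is a run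
outside the last bin.

Proof.  Write `i = mv L y x K k` (so the codes are 0, 1 for L; 2, 3 for y; 4, 5 for x; 6, 7 for K).
k = n: `o L = true`, so (L, false) is the code 1, (K, false) is the code 7.  j1 = the first item
`mv 1 3 4 6`, joining item `mv 1 6 5 7 n` (y' = code 6, x' = code 5), j3 = the last two items.
k = U: L is swapped, o L = false, so (L, false) is the code 0; o K = true so (K, false) is code 7.
j1 = the first two items `mv 0 2 3 1 U`, `mv 0 1 4 6 n`, joining item `mv 0 6 5 7 n`,
j3 = the last two.  k = L: L, x, K are swapped: (L, false) is code 0, (K, false) is code 6.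
j1 = the first four items `mv 6 4 5 7 n`, `mv 1 3 5 4 L`, `mv 0 2 5 3 n`, `mv 0 3 4 1 n`, joining
item
`mv 0 1 7 6 L` (y' = code 1, x' = code 7), j3 = [].
The runs from the coded runs by the map law (coded tracked sets {1, 7}, {0, 7}, {0, 6}; the codes in
these sets occur only as first entries in j1).  The last bin of `dbl (upd o i) i.r` is
`s((L, false), (K, false))`, and `j3` does not touch it. -/
def T_WJN : Prop :=
  ∀ (α : Type) [DecidableEq α] (o : α → Bool) (K L y x : α) (k : Kd), k.tr →
    (ball (It.mv L y x K k).l).Nodup →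
    (k = Kd.n → o L = true ∧ o K = true) → (k = Kd.U → o K = true) →
    (∀ a ∈ (It.mv L y x K k).sw, o a = false) →
    ∃ (j1 j3 : List (It (α × Bool))) (y' x' : α × Bool) (k' : Kd) (C : List (Sym2 (α × Bool))),
      Wit o (It.mv L y x K k) = j1 ++ (It.mv (L, false) y' x' (K, false) k' :: j3) ∧ k'.tr ∧
      Run {(K, false), (L, false)} j1 (dbl o (It.mv L y x K k).l)
        (C ++ [s((L, false), y'), s((K, false), x')]) ∧
      Run ∅ j3 (C ++ [s(y', x')]) (dbl (upd o (It.mv L y x K k)) (It.mv L y x K k).r).dropLast ∧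
      (dbl (upd o (It.mv L y x K k)) (It.mv L y x K k).r) =
        (dbl (upd o (It.mv L y x K k)) (It.mv L y x K k).r).dropLast ++
          [s((L, false), (K, false))]

/-- **Target T_WCT** (the numbers of the doubled word).
(1) `wN (Wd o w) = 4 * wN w + wF w`, `wQ (Wd o w) = 0`.
(2) If all items of `w` satisfy `isfq` then `wF (Wd o w) = 2 * wF w + 3 * wQ w` and the swapped
strands of `Wd o w` are both strands of every swapped ball of `w` (with multiplicity).
(3) If moreover `wQ w = 0` then all items of `Wd o w` satisfy `isfq`.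

Proof.  By induction on `w`, for all `o`; it is enough to look at one item.  The gadgets have 4
(n), 5 (U, L, ax, c) and 8 (quadrangle, which counts 2 moves) items, all of them moves.
n: no flag.  U: flags `mv 0 2 3 1 U` with the balls 0, 2, 3 and `mv 1 4 5 6 U` with the balls 1, 4,
5:
together both strands of p, x, q.  L: flags `mv 1 3 5 4 L` with the balls 1, 5, 4 and
`mv 0 1 7 6 L` with the balls 0, 7, 6: both strands of p, q, z.  Quadrangle: `mv 4 6 7 5 U`: 4, 6,
7;
`mv 5 8 9 10 U`: 5, 8, 9; `mv 2 3 9 8 ax`: 2, 3: both strands of d, a, x, c.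
The two strands `(a, o a)`, `(a, !(o a))` are `(a, false)`, `(a, true)` in some order. -/
def T_WCT : Prop :=
  ∀ (α : Type) [DecidableEq α] (o : α → Bool) (w : List (It α)),
    wN (Wd o w) = 4 * wN w + wF w ∧ wQ (Wd o w) = 0 ∧
    ((∀ i ∈ w, i.isfq) → wF (Wd o w) = 2 * wF w + 3 * wQ w ∧
      wsw (Wd o w) = (wsw w).bind (fun a => {(a, false), (a, true)}) ∧
      (wQ w = 0 → ∀ i ∈ Wd o w, i.isfq))

/-- **Target T_W** (the doubling of a clean word in which every ball is swapped exactly once).

Proof.  Let `o0 = fun _ => false`, `o1 = updw o0 c.w1`, `o2 = upd o1 c.lv`, `o3 = updw o2 c.w2`,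
`o4 = upd o3 c.jn`, `o5 = updw o4 c.w3`.  `c.Cov` and `c.nd`: `wsw c.word = ball c.S` has no
repetition, so `wsw c.w1`, `c.lv.sw`, `wsw c.w2`, `c.jn.sw`, `wsw c.w3` are disjoint and without
repetition, and their sum is `ball c.S`.  A ball which is swapped later has orientation false
before (T_WRUN (2)).  `K, L` are not in `ball B0`, so not in `wsw w1` (T_WRUN (3)): `o1 K = o1 L =
false`.  The balls of `A ++ [s(y, x)]` are those of B0 (they are `ball B0` by r3 and T_RUN (7)), so
`K, L` are not in `wsw w3`.  Hence if `c.jn` has kind n, both `K` and `L` are swapped before: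
`o3 K = o3 L = true`; if it has kind U, K is not swapped by it, so `o3 K = true`.
Take T_WLV with `o1`: `g1, g3, q', z', k', C`; T_WJN with `o3`: `j1, j3, y', x', k'', C'`.
Put `K' = (K, false)`, `L' = (L, false)`,
`B0' = s((K,true),(L,true)) :: dbl o0 B0`, `w1' = Wd o0 w1 ++ g1`,
`B1' = C ++ dbl o1 B1`, `w2' = g3 ++ (Wd o2 w2 ++ j1)`, `A' = dbl o3 A ++ C'`,
`w3' = j3 ++ Wd o4 w3`.
r1': `Wd o0 w1` in the context of the first bin `s((K,true),(L,true))`, then `g1` on
`(dbl o1 c.lv.l).tail = [s((K,true),(L,true)), ...]` in the context `dbl o1 B1` behind.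
r2': `g3` in the context `dbl o1 B1 = dbl o2 B1` (the balls of B1 are not swapped by lv) ends in
`dbl o2 (s(L,q) :: s(K,z) :: B1)`; note `c.lv.r = [s(L, q), s(K, z)]`; then T_WRUN for w2 (tracked
set `T2 {K, L} = {(K,false),(L,false)}`) to `dbl o3 (A ++ [s(L,y), s(K,x)])`, note
`c.jn.l = [s(L, y), s(x, K)]` and `s(x, K) = s(K, x)`; then `j1` in the context `dbl o3 A`.
r3': `j3` in the context `dbl o3 A = dbl o4 A`, to
`dbl o4 A ++ (dbl o4 c.jn.r).dropLast`, `c.jn.r = [s(y, x), s(L, K)]`, so this is
`dbl o4 (A ++ [s(y, x)]) ++ [s((L,true),(K,true))]` (here `o4 K = o4 L = true`, all balls K, L are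
swapped by now); then `Wd o4 w3` in the context of this last bin, to
`dbl o5 B0.reverse ++ [s((L,true),(K,true))]`.  Since all balls of B0 are swapped exactly once,
`o5 = true` on them, and `dbl o5 B0.reverse = (dbl o0 B0).reverse` (each pair of bins is
reversed).  So the end is `B0'.reverse`.
nd': the balls of the doubled start state are all strands of the balls of `c.S`.
The word of `c'` is `Wd o0 c.word` (T_WRUN (5)); so the numbers by T_WCT, the number of bins is
`2 * c.n`.  If `c.FullQ`: the swapped strands are all strands of `ball c.S`, this is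
`ball c'.S`. -/
def T_W : Prop :=
  ∀ (α : Type) [DecidableEq α] (c : CW α), c.Cov →
    ∃ c' : CW (α × Bool), c'.n = 2 * c.n ∧ c'.N = 4 * c.N + c.F ∧ c'.Q = 0 ∧
      (c.FullQ → c'.Cov ∧ c'.F = 2 * c.F + 3 * c.Q ∧ (c.Q = 0 → c'.FullQ))

end Bn
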