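import Pool.Agent.BIN.TA
import Pool.Agent.BIN.W
set_option autoImplicit false
set_option linter.all false

/-!
# BIN: the leaving move is doubled (target T_WLV)
-/

namespace Bn

/-- four different balls -/
theorem nd4_WLV {α : Type} {K L q z : α} {k : Kd} (h : (ball (It.mv K L q z k).l).Nodup) :
    K ≠ L ∧ K ≠ q ∧ K ≠ z ∧ L ≠ q ∧ L ≠ z ∧ q ≠ z := by
  have e : ball (It.mv K L q z k).l = (([K, L, q, z] : List α) : Multiset α) := by
    rfl
  rw [e, Multiset.coe_nodup] at h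
  simp at h
  tauto

/-- the tracked codes -/
theorem trk_WLV {α : Type} {o : α → Bool} {K L q z : α}
    (h : K ≠ L ∧ K ≠ q ∧ K ≠ z ∧ L ≠ q ∧ L ≠ z ∧ q ≠ z) (hK : o K = false) (hL : o L = false)
    (a : ℕ) (ha : str4 o K L q z a ∈ ({(K, false), (L, false)} : Set (α × Bool))) :
    a ∈ ({0, 2} : Set ℕ) := by
  obtain ⟨h1, h2, h3, h4, h5, h6⟩ := h
  have e : a = 0 ∨ a = 1 ∨ a = 2 ∨ a = 3 ∨ a = 4 ∨ a = 5 ∨ a = 6 ∨ a = 7 ∨ 8 ≤ a := by omega
  rcases e with rfl | rfl | rfl | rfl | rfl | rfl | rfl | rfl | h8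
  · simp
  · simp [str4, hK, h1] at ha
  · simp
  · simp [str4, hL, h1.symm] at ha
  · simp [str4, h2.symm, h4.symm] at ha
  · simp [str4, h2.symm, h4.symm] at ha
  · simp [str4, h3.symm, h5.symm] at ha
  · simp [str4, h3.symm, h5.symm] at ha
  · obtain ⟨b, rfl⟩ := Nat.exists_eq_add_of_le h8
    rw [Nat.add_comm] at ha
    simp [str4, h3.symm, h5.symm] at ha

/-- the empty run -/
theorem fin_WLV {α : Type} {T : Set α} {S S' : List (Sym2 α)} (h : S = S') : Run T [] S S' := h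

theorem p_WLV (h1 : T_RUN) : T_WLV := by
  obtain ⟨-, -, -, hmap, -⟩ := h1
  intro α _ o K L q z k hk hnd hK hL hsw
  have hd := nd4_WLV hnd
  have ht := trk_WLV (o := o) hd hK hL
  obtain ⟨d1, d2, d3, d4, d5, d6⟩ := hd
  have he : ∀ a : ℕ, str4 o K L q z a ∈ (∅ : Set (α × Bool)) → a ∈ (∅ : Set ℕ) := by
    intro a ha; exact absurd ha (Set.notMem_empty _)
  rcases hk with rfl | rfl | rfl
  · refine ⟨wmap (str4 o K L q z) [.mv 1 3 4 6 .n, .mv 1 6 5 7 .n],
      wmap (str4 o K L q z) [.mv 0 3 5 6 .n], (q, o q), (L, true), Kd.n,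
      smap (str4 o K L q z) [s(6, 5), s(1, 7)], ?_, Or.inl rfl, ?_, ?_⟩
    · simp [Wit, gad, wmap, It.map, str4, hK, hL]
    · have r : Run (∅ : Set ℕ) [.mv 1 3 4 6 .n, .mv 1 6 5 7 .n] [s(1, 3), s(4, 6), s(5, 7)]
          [s(4, 3), s(6, 5), s(1, 7)] := by
        refine ⟨by simp [It.ok], [], [s(5, 7)], by decide, by simp [It.ok], [s(3, 4)], [],
          by decide, fin_WLV (by decide)⟩
      have := hmap _ _ _ _ _ _ _ _ he r
      simpa [smap, dbl, It.l, str4, hK, hL] using this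
    · have r : Run ({0, 2} : Set ℕ) [.mv 0 3 5 6 .n] [s(2, 4), s(0, 3), s(6, 5), s(1, 7)]
          [s(2, 4), s(3, 5), s(0, 6), s(1, 7)] := by
        refine ⟨by simp [It.ok, Kd.tr], [s(2, 4)], [s(1, 7)], by decide, fin_WLV (by decide)⟩
      have := hmap _ _ _ _ _ _ _ _ ht r
      simpa [smap, dbl, It.l, It.r, str4, hK, hL, upd, It.sw] using this
  · have hq : o q = false := hsw q (by simp [It.sw])
    refine ⟨[], wmap (str4 o K L q z) [.mv 0 1 4 6 .n, .mv 0 6 5 7 .n, .mv 1 4 5 6 .U,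
        .mv 2 3 5 4 .n], (L, true), (K, true), Kd.U,
      smap (str4 o K L q z) [s(4, 6), s(5, 7)], ?_, Or.inr (Or.inl rfl), ?_, ?_⟩
    · simp [Wit, gad, wmap, It.map, str4, hK, hL]
    · simp [smap, dbl, It.l, str4, hK, hL, Run, Sym2.eq_swap]
    · have r : Run ({0, 2} : Set ℕ) [.mv 0 1 4 6 .n, .mv 0 6 5 7 .n, .mv 1 4 5 6 .U,
          .mv 2 3 5 4 .n] [s(2, 3), s(0, 1), s(4, 6), s(5, 7)]
          [s(3, 5), s(2, 4), s(1, 6), s(0, 7)] := by
        refine ⟨by simp [It.ok, Kd.tr], [s(2, 3)], [s(5, 7)], by decide,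
          by simp [It.ok, Kd.tr], [s(2, 3), s(1, 4)], [], by decide,
          by simp [It.ok, Kd.tr], [s(2, 3)], [s(0, 7)], by decide,
          by simp [It.ok, Kd.tr], [], [s(1, 6), s(0, 7)], by decide, fin_WLV (by decide)⟩
      have := hmap _ _ _ _ _ _ _ _ ht r
      have e1 : (q = K) = False := by simp [d2.symm]
      have e2 : (q = L) = False := by simp [d4.symm]
      have e3 : (z = K) = False := by simp [d3.symm]
      have e4 : (z = L) = False := by simp [d5.symm]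
      have e5 : (z = q) = False := by simp [d6.symm]
      simpa [smap, dbl, It.l, It.r, str4, hK, hL, hq, upd, It.sw, e1, e2, e3, e4, e5] using this
  · have hq : o q = false := hsw q (by simp [It.sw])
    have hz : o z = false := hsw z (by simp [It.sw])
    refine ⟨wmap (str4 o K L q z) [.mv 6 4 5 7 .n, .mv 1 3 5 4 .L],
      wmap (str4 o K L q z) [.mv 0 3 4 1 .n, .mv 0 1 7 6 .L], (q, !(o q)), (L, true), Kd.n,
      smap (str4 o K L q z) [s(1, 4), s(6, 7)], ?_, Or.inl rfl, ?_, ?_⟩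
    · simp [Wit, gad, wmap, It.map, str4, hK, hL]
    · have r : Run (∅ : Set ℕ) [.mv 6 4 5 7 .n, .mv 1 3 5 4 .L] [s(1, 3), s(4, 6), s(5, 7)]
          [s(5, 3), s(1, 4), s(6, 7)] := by
        refine ⟨by simp [It.ok], [s(1, 3)], [], by decide, by simp [It.ok], [], [s(6, 7)],
          by decide, fin_WLV (by decide)⟩
      have := hmap _ _ _ _ _ _ _ _ he r
      simpa [smap, dbl, It.l, str4, hK, hL] using this
    · have r : Run ({0, 2} : Set ℕ) [.mv 0 3 4 1 .n, .mv 0 1 7 6 .L]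
          [s(2, 5), s(0, 3), s(1, 4), s(6, 7)]
          [s(2, 5), s(3, 4), s(1, 7), s(0, 6)] := by
        refine ⟨by simp [It.ok, Kd.tr], [s(2, 5)], [s(6, 7)], by decide,
          by simp [It.ok, Kd.tr], [s(2, 5), s(3, 4)], [], by decide, fin_WLV (by decide)⟩
      have := hmap _ _ _ _ _ _ _ _ ht r
      have e0 : (L = K) = False := by simp [d1.symm]
      have e2 : (L = q) = False := by simp [d4]
      have e4 : (L = z) = False := by simp [d5]
      simpa [smap, dbl, It.l, It.r, str4, hK, hL, hq, hz, upd, It.sw, e0, e2, e4] using this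

end Bn
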