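import Pool.Agent.BIN.W
import Pool.Agent.BIN.TA
set_option autoImplicit false
set_option linter.all false

/-!
# BIN: WRUN, the doubling of a run (helper12)
-/

namespace Bn

namespace WRUN_

variable {α : Type}

theorem ball_append (S S' : List (Sym2 α)) : ball (S ++ S') = ball S + ball S' := by
  unfold ball
  rw [List.map_append, List.sum_append]

theorem wsw_cons (i : It α) (w : List (It α)) : wsw (i :: w) = i.sw + wsw w := by
  unfold wsw
  rw [List.map_cons, List.sum_cons]

theorem sw_sub (i : It α) : ∀ a ∈ i.sw, a ∈ ball i.l := by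
  intro a ha
  rcases i with ⟨p, x, q, z, k⟩ | ⟨e, d, b, x, c, w⟩
  · rcases k with _ | _ | _ | _ | _ <;> simp [It.sw, It.l, ball] at ha ⊢ <;> tauto
  · simp [It.sw, It.l, ball] at ha ⊢
    tauto

theorem tm (a b : α) : Sym2.toMultiset s(a, b) = {a} + {b} := rfl

theorem ball_r (i : It α) : ball i.r = ball i.l := by
  rcases i with ⟨p, x, q, z, k⟩ | ⟨e, d, b, x, c, w⟩
  · simp only [It.r, It.l, ball, List.map_cons, List.map_nil, List.sum_cons, List.sum_nil,
      tm, add_zero]
    abel
  · simp only [It.r, It.l, ball, List.map_cons, List.map_nil, List.sum_cons, List.sum_nil,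
      tm, add_zero]
    abel

theorem mem_ball {a : α} {S : List (Sym2 α)} {e : Sym2 α} (he : e ∈ S) (ha : a ∈ e) :
    a ∈ ball S := by
  induction S with
  | nil => simp at he
  | cons e' S ih =>
    unfold ball at ih ⊢
    rw [List.map_cons, List.sum_cons, Multiset.mem_add]
    rcases List.mem_cons.1 he with h | h
    · left
      rw [← h]
      exact Sym2.mem_toMultiset.2 ha
    · right
      exact ih h

theorem dbl_append (o : α → Bool) (S S' : List (Sym2 α)) :
    dbl o (S ++ S') = dbl o S ++ dbl o S' := by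
  unfold dbl
  rw [List.flatMap_append]

theorem dbl_congr {o o' : α → Bool} {S : List (Sym2 α)} (h : ∀ a ∈ ball S, o a = o' a) :
    dbl o S = dbl o' S := by
  unfold dbl
  refine List.flatMap_congr fun e he => ?_
  have h1 : e.map (fun a => (a, o a)) = e.map (fun a => (a, o' a)) :=
    Sym2.map_congr fun a ha => by rw [h a (mem_ball he ha)]
  have h2 : e.map (fun a => (a, !(o a))) = e.map (fun a => (a, !(o' a))) :=
    Sym2.map_congr fun a ha => by rw [h a (mem_ball he ha)]
  rw [h1, h2]

theorem upd_of_not [DecidableEq α] {o : α → Bool} {i : It α} {a : α} (h : a ∉ i.sw) :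
    upd o i a = o a := by
  unfold upd
  rw [if_neg h]

theorem upd_of [DecidableEq α] {o : α → Bool} {i : It α} {a : α} (h : a ∈ i.sw) :
    upd o i a = !(o a) := by
  unfold upd
  rw [if_pos h]

theorem disj {s t : Multiset α} (h : (s + t).Nodup) {a : α} (hs : a ∈ s) (ht : a ∈ t) :
    False := (Multiset.disjoint_left.1 (Multiset.nodup_add.1 h).2.2 hs) ht

/-- (1) -/
theorem run (h1 : T_RUN) (h2 : T_WIT) [DecidableEq α] (T : Set α) (w : List (It α)) :
    ∀ (o : α → Bool) (S S' : List (Sym2 α)), Run T w S S' → (ball S).Nodup → (wsw w).Nodup →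
    (∀ a ∈ wsw w, o a = false) → Run (T2 T) (Wd o w) (dbl o S) (dbl (updw o w) S') := by
  obtain ⟨r1, -, r3, -⟩ := h1
  induction w with
  | nil =>
    intro o S S' hr _ _ _
    have h3 : S = S' := hr
    rw [h3]
    rfl
  | cons i w ih =>
    intro o S S' hr hS hw ho
    obtain ⟨hok, A, B, rfl, hr⟩ := hr
    rw [wsw_cons] at hw ho
    rw [ball_append, ball_append] at hS
    have hS1 := Multiset.nodup_add.1 hS
    have hS2 := Multiset.nodup_add.1 hS1.2.1
    have hA : dbl o A = dbl (upd o i) A := dbl_congr fun a ha => by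
      rw [upd_of_not]
      intro h3
      exact disj hS ha (Multiset.mem_add.2 (Or.inl (sw_sub i a h3)))
    have hB : dbl o B = dbl (upd o i) B := dbl_congr fun a ha => by
      rw [upd_of_not]
      intro h3
      exact disj hS1.2.1 (sw_sub i a h3) ha
    have h3 : Run (T2 T) (Wit o i) (dbl o i.l) (dbl (upd o i) i.r) :=
      h2 α T o i hok hS2.1 fun a ha => ho a (Multiset.mem_add.2 (Or.inl ha))
    have h4 := r3 _ (T2 T) _ _ _ (dbl o A) (dbl o B) h3
    rw [← dbl_append, ← dbl_append] at h4
    rw [hA, hB, ← dbl_append, ← dbl_append] at h4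
    refine r1 _ _ _ _ _ _ _ h4 ?_
    refine ih (upd o i) _ _ hr ?_ (Multiset.nodup_add.1 hw).2.1 fun a ha => ?_
    · rw [ball_append, ball_append, ball_r]
      exact hS
    · rw [upd_of_not, ho a (Multiset.mem_add.2 (Or.inr ha))]
      intro h5
      exact disj hw h5 ha

/-- (2) -/
theorem upw [DecidableEq α] (w : List (It α)) : ∀ (o : α → Bool), (wsw w).Nodup →
    ∀ a, (a ∉ wsw w → updw o w a = o a) ∧ (a ∈ wsw w → updw o w a = !(o a)) := by
  induction w with
  | nil =>
    intro o _ a
    refine ⟨fun _ => rfl, fun h => ?_⟩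
    simp [wsw] at h
  | cons i w ih =>
    intro o hw a
    rw [wsw_cons] at hw ⊢
    have ih1 := ih (upd o i) (Multiset.nodup_add.1 hw).2.1 a
    refine ⟨fun h => ?_, fun h => ?_⟩
    · rw [Multiset.mem_add, not_or] at h
      show updw (upd o i) w a = o a
      rw [ih1.1 h.2, upd_of_not h.1]
    · show updw (upd o i) w a = !(o a)
      rcases Multiset.mem_add.1 h with h3 | h3
      · rw [ih1.1 (fun h4 => disj hw h3 h4), upd_of h3]
      · rw [ih1.2 h3, upd_of_not (fun h4 => disj hw h4 h3)]

/-- (3) -/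
theorem sub (T : Set α) (w : List (It α)) : ∀ (S S' : List (Sym2 α)), Run T w S S' →
    ∀ a ∈ wsw w, a ∈ ball S := by
  induction w with
  | nil =>
    intro S S' _ a ha
    simp [wsw] at ha
  | cons i w ih =>
    intro S S' hr a ha
    obtain ⟨hok, A, B, rfl, hr⟩ := hr
    rw [wsw_cons] at ha
    rcases Multiset.mem_add.1 ha with h3 | h3
    · rw [ball_append, ball_append]
      exact Multiset.mem_add.2 (Or.inr (Multiset.mem_add.2 (Or.inl (sw_sub i a h3))))
    · have h4 := ih _ _ hr a h3
      rw [ball_append, ball_append, ball_r] at h4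
      rw [ball_append, ball_append]
      exact h4

/-- (5) -/
theorem app [DecidableEq α] (w w' : List (It α)) : ∀ (o : α → Bool),
    Wd o (w ++ w') = Wd o w ++ Wd (updw o w) w' ∧ updw o (w ++ w') = updw (updw o w) w' := by
  induction w with
  | nil =>
    intro o
    exact ⟨rfl, rfl⟩
  | cons i w ih =>
    intro o
    obtain ⟨h1, h2⟩ := ih (upd o i)
    constructor
    · show Wit o i ++ Wd (upd o i) (w ++ w') =
        (Wit o i ++ Wd (upd o i) w) ++ Wd (updw (upd o i) w) w'
      rw [h1, List.append_assoc]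
    · show updw (upd o i) (w ++ w') = updw (updw (upd o i) w) w'
      exact h2

end WRUN_

/-- WRUN: the doubling of a run -/
theorem p_WRUN (h1 : T_RUN) (h2 : T_WIT) : T_WRUN := by
  refine ⟨?_, ?_, ?_, ?_, ?_⟩
  · intro α _ T o w S S' hr hS hw ho
    exact WRUN_.run h1 h2 T w o S S' hr hS hw ho
  · intro α _ o w hw a
    exact WRUN_.upw w o hw a
  · intro α T w S S' hr a ha
    exact WRUN_.sub T w S S' hr a ha
  · intro α o o' S S'
    exact ⟨WRUN_.dbl_append o S S', fun h => WRUN_.dbl_congr h⟩
  · intro α _ o w w'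
    exact WRUN_.app w w' o

end Bn
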