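import Pool.Agent.BIN.P_BAS
import Pool.Agent.BIN.P_BCAT
import Pool.Agent.BIN.P_BLKS
import Pool.Agent.BIN.P_CFG
import Pool.Agent.BIN.P_CHK
import Pool.Agent.BIN.P_CP0
import Pool.Agent.BIN.P_CP1
import Pool.Agent.BIN.P_CSUM
import Pool.Agent.BIN.P_CTAU
import Pool.Agent.BIN.P_CWD
import Pool.Agent.BIN.P_CYC
import Pool.Agent.BIN.P_FCT
import Pool.Agent.BIN.P_IFACE
import Pool.Agent.BIN.P_INT
import Pool.Agent.BIN.P_IRT
import Pool.Agent.BIN.P_IT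
import Pool.Agent.BIN.P_LRUN
import Pool.Agent.BIN.P_MKB
import Pool.Agent.BIN.P_NRUN
import Pool.Agent.BIN.P_NW
import Pool.Agent.BIN.P_OKS
import Pool.Agent.BIN.P_PALL
import Pool.Agent.BIN.P_PDWN
import Pool.Agent.BIN.P_PEND
import Pool.Agent.BIN.P_PEVN
import Pool.Agent.BIN.P_PODD
import Pool.Agent.BIN.P_PSWE
import Pool.Agent.BIN.P_PSWO
import Pool.Agent.BIN.P_REC
import Pool.Agent.BIN.P_RTAU
import Pool.Agent.BIN.P_RUN
import Pool.Agent.BIN.P_SBL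
import Pool.Agent.BIN.P_SEAM
import Pool.Agent.BIN.P_SMID
import Pool.Agent.BIN.P_SPLT
import Pool.Agent.BIN.P_STA
import Pool.Agent.BIN.P_STB
import Pool.Agent.BIN.P_STC
import Pool.Agent.BIN.P_STD
import Pool.Agent.BIN.P_STF
import Pool.Agent.BIN.P_STW
import Pool.Agent.BIN.P_THCK
import Pool.Agent.BIN.P_THCW
import Pool.Agent.BIN.P_THKR
import Pool.Agent.BIN.P_THKS
import Pool.Agent.BIN.P_W
import Pool.Agent.BIN.P_WCT
import Pool.Agent.BIN.P_WIT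
import Pool.Agent.BIN.P_WJN
import Pool.Agent.BIN.P_WLV
import Pool.Agent.BIN.P_WRUN
set_option autoImplicit false

/-!
# BIN: final assembly of the construction side of MP_ab7cc8_co
-/

namespace Bn

theorem f_LRUN : T_LRUN := p_LRUN p_RUN p_SPLT
theorem f_PALL : T_PALL := p_PALL p_RUN p_SPLT f_LRUN
theorem f_CFG : T_CFG := p_CFG p_RTAU
theorem f_CTAU : T_CTAU := p_CTAU p_RUN p_RTAU p_SPLT
theorem f_WIT : T_WIT := p_WIT p_RUN
theorem f_WRUN : T_WRUN := p_WRUN p_RUN f_WIT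
theorem f_WLV : T_WLV := p_WLV p_RUN
theorem f_W : T_W := p_W p_RUN f_WRUN f_WLV p_WJN p_WCT
theorem f_THKR : T_THKR := p_THKR p_RUN p_SPLT p_PODD p_PEVN
theorem f_THCW : T_THCW := p_THCW p_RUN p_SPLT f_PALL p_PODD p_PEND p_PDWN f_THKR
theorem f_THKS : T_THKS := p_THKS p_PSWO p_PSWE
theorem f_THCK : T_THCK := p_THCK f_THCW f_PALL p_PSWO p_PSWE f_THKS p_CSUM p_PEND p_PDWN
theorem f_SBL : T_SBL := p_SBL p_RUN p_CHK
theorem f_NW : T_NW := p_NW p_RUN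
theorem f_NRUN : T_NRUN := p_NRUN p_RUN f_NW
theorem f_SMID : T_SMID := p_SMID p_RUN p_SPLT f_SBL f_NW
theorem f_SEAM : T_SEAM := p_SEAM p_RUN p_SPLT f_PALL f_SBL f_NRUN f_SMID
theorem f_IT : T_IT := p_IT f_SEAM p_OKS
theorem f_INT : T_INT := p_INT f_SEAM p_OKS
theorem f_IRT : T_IRT := p_IRT f_SEAM p_OKS
theorem f_MKB : T_MKB := p_MKB p_CHK
theorem f_BAS : T_BAS := p_BAS f_MKB
theorem f_CP0 : T_CP0 := p_CP0 p_BCAT p_CYC p_BLKS
theorem f_CP1 : T_CP1 := p_CP1 p_BCAT p_CYC p_BLKS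
theorem f_CWD : T_CWD := p_CWD p_BCAT p_CYC p_BLKS
theorem f_STA : T_STA := p_STA f_THCK f_PALL
theorem f_STB : T_STB := p_STB f_THCK f_PALL f_CP0 f_CP1
theorem f_STC : T_STC := p_STC f_THCK f_PALL f_CTAU
theorem f_STD : T_STD := p_STD f_THCK f_PALL f_CWD
theorem f_STW : T_STW := p_STW f_W p_FCT f_CFG
theorem f_STF : T_STF := p_STF f_CFG
theorem f_REC : T_REC :=
  p_REC f_STA f_STB f_STC f_STD f_STW f_STF f_BAS f_IT f_INT f_IRT

/-- the construction side is complete -/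
theorem constr : Bq.T_CONSTR := constr_of p_RUN f_CFG f_REC

end Bn
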