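import Pool.Agent.BIN.Base
set_option autoImplicit false
set_option linter.all false

/-!
# BIN: target BAS, the base words (helper12)
-/

namespace Bn

namespace BAS_

/-- undecorated move, as a test -/
def nB : It ℕ → Bool
  | It.mv _ _ _ _ k => k == Kd.n
  | It.qd _ _ _ _ _ _ => false

/-- a move of kind n, U, L or a quadrangle, as a test -/
def fB : It ℕ → Bool
  | It.mv _ _ _ _ k => k == Kd.n || k == Kd.U || k == Kd.L
  | It.qd _ _ _ _ _ _ => true

theorem nB_isn {i : It ℕ} (h : nB i = true) : i.isn := by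
  rcases i with ⟨p, x, q, z, k⟩ | ⟨e, d, a, x, c, w⟩
  · simpa [nB, It.isn] using h
  · simp [nB] at h

theorem fB_isfq {i : It ℕ} (h : fB i = true) : i.isfq := by
  rcases i with ⟨p, x, q, z, k⟩ | ⟨e, d, a, x, c, w⟩
  · simpa [fB, It.isfq, Kd.tr, or_assoc] using h
  · trivial

theorem plain {c : CW ℕ} {d : BD} (hc : c.word = d.word) (h : d.word.all nB = true) :
    c.Plain := by
  intro i hi
  rw [hc] at hi
  exact nB_isn (List.all_eq_true.1 h i hi)

theorem fullQ {c : CW ℕ} {d : BD} (hc : c.word = d.word) (h : d.word.all fB = true) :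
    c.FullQ := by
  intro i hi
  rw [hc] at hi
  exact fB_isfq (List.all_eq_true.1 h i hi)

end BAS_

open BAS_ in
/-- BAS: the base words -/
theorem p_BAS (h2 : T_MKB) : T_BAS := by
  refine ⟨?_, ?_, ?_, ?_⟩
  · obtain ⟨c, hn, hw, hS⟩ := h2 bd2 (by decide +kernel)
    refine ⟨ℕ, inferInstance, c, hn, plain hw (by decide +kernel), ?_⟩
    unfold CW.N
    rw [hw]
    decide +kernel
  · obtain ⟨c, hn, hw, hS⟩ := h2 bd4 (by decide +kernel)
    refine ⟨ℕ, inferInstance, c, hn, plain hw (by decide +kernel), ?_⟩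
    unfold CW.N
    rw [hw]
    decide +kernel
  · obtain ⟨c, hn, hw, hS⟩ := h2 bd11 (by decide +kernel)
    refine ⟨ℕ, inferInstance, c, hn, ?_, ?_, ?_, ?_⟩
    · unfold CW.Cov CW.sw
      rw [hw, hS]
      decide +kernel
    · unfold CW.Q
      rw [hw]
      decide +kernel
    · unfold CW.F
      rw [hw]
      decide +kernel
    · unfold CW.N
      rw [hw]
      decide +kernel
  · obtain ⟨c, hn, hw, hS⟩ := h2 bd12 (by decide +kernel)
    refine ⟨ℕ, inferInstance, c, hn, ?_, fullQ hw (by decide +kernel), ?_, ?_⟩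
    · unfold CW.Cov CW.sw
      rw [hw, hS]
      decide +kernel
    · unfold CW.Q
      rw [hw]
      decide +kernel
    · unfold CW.N
      rw [hw]
      decide +kernel

end Bn
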