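import Pool.Agent.BIN.TD
set_option autoImplicit false
set_option linter.all false

/-!
# BIN: proof of the target T_IT (the seam T)
-/

namespace Bn

namespace IT_

variable {α β : Type}

lemma wN_append (v w : List (It α)) : wN (v ++ w) = wN v + wN w := by
  simp [wN]

lemma wN_map (f : α → β) (w : List (It α)) : wN (wmap f w) = wN w := by
  induction w with
  | nil => rfl
  | cons i w ih =>
    have h1 : wN (wmap f (i :: w)) = It.N (i.map f) + wN (wmap f w) := rfl
    have h2 : wN (i :: w) = It.N i + wN w := rfl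
    have h3 : It.N (i.map f) = It.N i := by cases i <;> rfl
    rw [h1, h2, h3, ih]

lemma isn_map (f : α → β) (w : List (It α)) (h : ∀ i ∈ w, i.isn) :
    ∀ i ∈ wmap f w, i.isn := by
  intro i hi
  obtain ⟨j, hj, rfl⟩ := List.mem_map.1 hi
  have := h j hj
  cases j with
  | mv p x q z k => exact this
  | qd e d a x c w => exact this

lemma wN_Wc (f : Bool) : wN (DT.Wc f) = 7 := by cases f <;> rfl

lemma wN_We (f : Bool) : wN (DT.We1 f) + (1 + wN (DT.We2 f)) = 7 := by cases f <;> rfl

def bn (i : It ℕ) : Bool :=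
  match i with
  | .mv _ _ _ _ k => decide (k = Kd.n)
  | .qd _ _ _ _ _ _ => false

lemma bn_isn (i : It ℕ) (h : bn i = true) : i.isn := by
  cases i with
  | mv p x q z k =>
    have h' : decide (k = Kd.n) = true := h
    have h'' : k = Kd.n := by simpa using h'
    exact h''
  | qd e d a x c w => exact absurd h (by simp [bn])

lemma all_isn (w : List (It ℕ)) (h : w.all bn = true) : ∀ i ∈ w, i.isn :=
  fun i hi => bn_isn i (List.all_eq_true.1 h i hi)

lemma isn_Wc (f : Bool) : ∀ i ∈ DT.Wc f, i.isn := by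
  apply all_isn
  cases f <;> rfl

lemma isn_We1 (f : Bool) : ∀ i ∈ DT.We1 f, i.isn := by
  apply all_isn
  cases f <;> rfl

lemma isn_We2 (f : Bool) : ∀ i ∈ DT.We2 f, i.isn := by
  apply all_isn
  cases f <;> rfl

lemma isn_b : ∀ i ∈ DT.Wb1 ++ (It.mv (100 + DT.kp) 0 DT.lq DT.lz DT.lk :: DT.Wb2), i.isn := by
  apply all_isn
  rfl

lemma isn_e (f : Bool) :
    ∀ i ∈ DT.We1 f ++ (It.mv 0 DT.jy DT.jx 300 DT.jk :: DT.We2 f), i.isn := by
  apply all_isn
  cases f <;> rfl

lemma wN_C (l : List (α × α)) : ∀ (f : Bool) (y : α), wN (seamC DT f y l) = 7 * l.length := by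
  induction l with
  | nil => intro f y; rfl
  | cons e l ih =>
    intro f y
    obtain ⟨q, z⟩ := e
    have h1 : seamC DT f y ((q, z) :: l) = wmap (cf id y q z) (DT.Wc f) ++ seamC DT false z l := rfl
    rw [h1, wN_append, wN_map, wN_Wc, ih, List.length_cons]
    ring

lemma isn_C (l : List (α × α)) : ∀ (f : Bool) (y : α), ∀ i ∈ seamC DT f y l, i.isn := by
  induction l with
  | nil =>
    intro f y i hi
    exact absurd hi (by simp [seamC])
  | cons e l ih =>
    intro f y i hi
    obtain ⟨q, z⟩ := e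
    have h1 : seamC DT f y ((q, z) :: l) = wmap (cf id y q z) (DT.Wc f) ++ seamC DT false z l := rfl
    rw [h1, List.mem_append] at hi
    rcases hi with hi | hi
    · exact isn_map _ _ (isn_Wc f) i hi
    · exact ih false z i hi

lemma wN_B (K q z : α) : wN (seamB DT K q z) = 8 := by
  unfold seamB
  rw [wN_map]
  rfl

lemma wN_E (f : Bool) (K y x : α) : wN (seamE DT f K y x) = 7 := by
  unfold seamE
  rw [wN_map]
  cases f <;> rfl

end IT_

open IT_ in
/-- the seam T -/
theorem p_IT (h1 : T_SEAM) (h2 : T_OKS) : T_IT := by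
  rintro n hn ⟨α, hα, c, hcn, hpl, hN⟩
  obtain ⟨c', hn', hN', -, -, -, hit, hlen, -⟩ := h1 α DT 1 c h2.1 hpl
  have hG : DT.Gt.length = 1 := rfl
  have hk : DT.k = 3 := rfl
  rw [hG, hk, hcn] at hn'
  rw [hk, hcn] at hN'
  rw [hcn] at hlen
  have hW : wN (seamAll DT c) = 8 + (7 * (lmv c.L c.w2).length + 7) := by
    unfold seamAll
    rw [wN_append, wN_append, wN_B, wN_C, wN_E]
  rw [hW] at hN'
  obtain ⟨m, rfl⟩ : ∃ m, n = m + 2 := ⟨n - 2, by omega⟩
  have hl : (lmv c.L c.w2).length = m := by omega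
  rw [hl] at hN'
  have hn3 : c'.n = 3 * (m + 2) - 1 := by omega
  refine ⟨Option α × ℕ, inferInstance, c', hn3, ?_, ?_⟩
  · intro i hi
    rcases hit i hi with h | h
    · exact h
    · unfold seamAll at h
      rw [List.mem_append, List.mem_append] at h
      rcases h with h | h | h
      · exact isn_map _ _ isn_b i h
      · exact isn_C _ _ _ i h
      · exact isn_map _ _ (isn_e _) i h
  · have h3 : 3 * (m + 2) - 1 = 3 * m + 5 := by omega
    rw [h3]
    nlinarith [hN, hN']

end Bn
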