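import Pool.Agent.BIN.TD
import Pool.Agent.BIN.TA
set_option autoImplicit false

/-!
# BIN: target SBL, the block words in terms of balls
-/

namespace Bn

namespace SBL_

variable {α : Type}

theorem smst {β : Type} (f : ℕ → β) (S : List (ℕ × ℕ)) :
    smap f (st S) = S.map (fun e => s(f e.1, f e.2)) := by
  simp only [smap, st, List.map_map]
  rfl

theorem st_app (S S' : List (ℕ × ℕ)) : st (S ++ S') = st S ++ st S' := by
  unfold st
  exact List.map_append

theorem smap_app {β γ : Type} (f : β → γ) (A B : List (Sym2 β)) :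
    smap f (A ++ B) = smap f A ++ smap f B := by
  unfold smap
  exact List.map_append

theorem below_iff (b : ℕ) (S : List (ℕ × ℕ)) :
    below b S = true ↔ ∀ e ∈ S, e.1 < b ∧ e.2 < b := by
  simp [below, List.all_eq_true]

theorem avoid_iff (a b : ℕ) (S : List (ℕ × ℕ)) :
    avoid a b S = true ↔ ∀ e ∈ S, ¬ (a ≤ e.1 ∧ e.1 < b) ∧ ¬ (a ≤ e.2 ∧ e.2 < b) := by
  simp only [avoid, List.all_eq_true]
  refine forall₂_congr fun e _ => ?_
  simp
  omega

/-- two code functions which agree on the codes of a state -/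
theorem smap_congr {β : Type} (f g : ℕ → β) (S : List (ℕ × ℕ))
    (h : ∀ e ∈ S, f e.1 = g e.1 ∧ f e.2 = g e.2) : smap f (st S) = smap g (st S) := by
  rw [smst, smst]
  refine List.map_congr_left fun e he => ?_
  rw [(h e he).1, (h e he).2]

/-- codes moved by a function -/
theorem smap_move {β : Type} (f g : ℕ → β) (u : ℕ → ℕ) (S : List (ℕ × ℕ))
    (h : ∀ e ∈ S, f (u e.1) = g e.1 ∧ f (u e.2) = g e.2) :
    smap f (st (S.map (fun e => (u e.1, u e.2)))) = smap g (st S) := by
  rw [smst, smst, List.map_map]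
  refine List.map_congr_left fun e he => ?_
  simp only [Function.comp_apply]
  rw [(h e he).1, (h e he).2]

theorem cf1 (κ : ℕ → ℕ) (y z w : α) {x : ℕ} (hx : x < 100) : cf κ y z w x = (none, x) := by
  simp [cf, hx]

theorem cf2 (κ : ℕ → ℕ) (y z w : α) {i : ℕ} (hi : i < 100) :
    cf κ y z w (100 + i) = (some y, i) := by
  have h1 : ¬ 100 + i < 100 := by omega
  have h2 : 100 + i < 200 := by omega
  simp [cf, h1, h2]

theorem cf3 (κ : ℕ → ℕ) (y z w : α) {i : ℕ} (hi : i < 100) :
    cf κ y z w (200 + i) = (some z, i) := by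
  have h1 : ¬ 200 + i < 100 := by omega
  have h2 : ¬ 200 + i < 200 := by omega
  have h3 : 200 + i < 300 := by omega
  simp [cf, h1, h2, h3]

theorem cf4 (κ : ℕ → ℕ) (y z w : α) (i : ℕ) : cf κ y z w (300 + i) = (some w, κ i) := by
  have h1 : ¬ 300 + i < 100 := by omega
  have h2 : ¬ 300 + i < 200 := by omega
  have h3 : ¬ 300 + i < 300 := by omega
  simp [cf, h1, h2, h3]

/-- codes below 200 see only the first name -/
theorem cf_low (κ κ' : ℕ → ℕ) (y z w z' w' : α) {x : ℕ} (hx : x < 200) :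
    cf κ y z w x = cf κ' y z' w' x := by
  rcases Nat.lt_or_ge x 100 with h | h
  · rw [cf1 _ _ _ _ h, cf1 _ _ _ _ h]
  · obtain ⟨i, rfl⟩ := Nat.exists_eq_add_of_le h
    rw [cf2 _ _ _ _ (by omega), cf2 _ _ _ _ (by omega)]

/-- the four kinds of codes -/
theorem cases4 (x : ℕ) : x < 100 ∨ (∃ i < 100, x = 100 + i) ∨ (∃ i < 100, x = 200 + i) ∨
    ∃ i, x = 300 + i := by
  rcases Nat.lt_or_ge x 100 with h | h
  · exact Or.inl h
  rcases Nat.lt_or_ge x 200 with h2 | h2
  · exact Or.inr (Or.inl ⟨x - 100, by omega, by omega⟩)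
  rcases Nat.lt_or_ge x 300 with h3 | h3
  · exact Or.inr (Or.inr (Or.inl ⟨x - 200, by omega, by omega⟩))
  · exact Or.inr (Or.inr (Or.inr ⟨x - 300, by omega⟩))

theorem cf_none (κ : ℕ → ℕ) (y z w : α) {x j : ℕ} (h : cf κ y z w x = (none, j)) : x = j := by
  rcases cases4 x with hx | ⟨i, hi, rfl⟩ | ⟨i, hi, rfl⟩ | ⟨i, rfl⟩
  · rw [cf1 _ _ _ _ hx] at h
    exact (Prod.ext_iff.1 h).2
  · rw [cf2 _ _ _ _ hi] at h
    exact absurd (Prod.ext_iff.1 h).1 (by simp)
  · rw [cf3 _ _ _ _ hi] at h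
    exact absurd (Prod.ext_iff.1 h).1 (by simp)
  · rw [cf4] at h
    exact absurd (Prod.ext_iff.1 h).1 (by simp)

/-- a code of the ball `(some K, j)` -/
theorem cf_some (κ : ℕ → ℕ) (y z w K : α) {x j : ℕ} (h : cf κ y z w x = (some K, j)) :
    (y = K ∧ x = 100 + j) ∨ z = K ∨ (w = K ∧ ∃ i, x = 300 + i ∧ κ i = j) := by
  rcases cases4 x with hx | ⟨i, hi, rfl⟩ | ⟨i, hi, rfl⟩ | ⟨i, rfl⟩
  · rw [cf1 _ _ _ _ hx] at h
    exact absurd (Prod.ext_iff.1 h).1 (by simp)
  · rw [cf2 _ _ _ _ hi] at h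
    have h1 := Prod.ext_iff.1 h
    simp only [Option.some.injEq] at h1
    exact Or.inl ⟨h1.1, by rw [h1.2]⟩
  · rw [cf3 _ _ _ _ hi] at h
    have h1 := Prod.ext_iff.1 h
    simp only [Option.some.injEq] at h1
    exact Or.inr (Or.inl h1.1)
  · rw [cf4] at h
    have h1 := Prod.ext_iff.1 h
    simp only [Option.some.injEq] at h1
    exact Or.inr (Or.inr ⟨h1.1, i, rfl, h1.2⟩)

/-- the state of a scaled bin -/
theorem smap_scc {β : Type} (f : ℕ → β) (k : ℕ) (a b : ℕ → ℕ) :
    smap f (st (scc k a b)) = (List.range k).map (fun i => s(f (a i), f (b i))) := by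
  rw [smst]
  unfold scc
  rw [List.map_map]
  rfl

theorem sc_eq (k : ℕ) (ρ : α → ℕ → ℕ) (a b : α) :
    sc k ρ s(a, b) = (List.range k).map (fun i => s((some a, ρ a i), (some b, ρ b i))) := rfl

/-- the bins z, w -/
theorem bin_zw (κ : ℕ → ℕ) (k : ℕ) (hk : k ≤ 100) (y z w : α) :
    smap (cf κ y z w) (st (scc k (fun i => 200 + i) (fun i => 300 + i))) =
      (List.range k).map (fun i => s((some z, i), (some w, κ i))) := by
  rw [smap_scc]
  refine List.map_congr_left fun i hi => ?_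
  have hi' := List.mem_range.1 hi
  rw [cf3 _ _ _ _ (by omega), cf4]

/-- the reversed bins y, z -/
theorem bin_yz (κ : ℕ → ℕ) (k : ℕ) (hk : k ≤ 100) (y z w : α) :
    smap (cf κ y z w)
      (st (scc k (fun i => 100 + (k - 1 - i)) (fun i => 200 + (k - 1 - i)))) =
      sc k (rre k) s(y, z) := by
  rw [smap_scc, sc_eq]
  refine List.map_congr_left fun i hi => ?_
  have hi' := List.mem_range.1 hi
  rw [cf2 _ _ _ _ (by omega), cf3 _ _ _ _ (by omega)]
  rfl

theorem rK_ne [DecidableEq α] (kap : ℕ → ℕ) (K a : α) (h : a ≠ K) (i : ℕ) :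
    rK kap K a i = i := by
  simp [rK, h]

theorem rK_eq [DecidableEq α] (kap : ℕ → ℕ) (K : α) (i : ℕ) : rK kap K K i = kap i := by
  simp [rK]

/-- the checks, one by one -/
theorem okb_all (D : Seam) (h : D.okb = true) :
    chk [] D.Wb1 (D.Gt ++ scc D.k (fun i => 200 + i) (fun i => 300 + i))
      ((D.lq, D.lz) :: D.Cb) = true ∧
    chk [100 + D.kp, 0] D.Wb2 ((0, D.lq) :: (100 + D.kp, D.lz) :: D.Cb)
      (shs 100 (D.GM true) ++ scc D.k (fun i => 100 + D.kap i) (fun i => 300 + i)) = true ∧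
    (∀ f : Bool,
      chk [0] (D.Wc f) (D.GM f ++ scc D.k (fun i => 200 + i) (fun i => 300 + i))
        (scc D.k (fun i => 100 + (D.k - 1 - i)) (fun i => 200 + (D.k - 1 - i)) ++
          shs 200 (D.GM false)) = true ∧
      chk [300, 0] (D.We1 f) (D.GM f ++ scc D.k (fun i => 200 + i) (fun i => 300 + i))
        (D.Ce f ++ [(0, D.jy), (300, D.jx)]) = true ∧
      chk [] (D.We2 f) (D.Ce f ++ [(D.jy, D.jx)])
        (scc D.k (fun i => 100 + (D.k - 1 - i)) (fun i => 200 + (D.k - 1 - i)) ++ D.GE) =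
          true ∧
      below 200 (D.GM f) = true) ∧
    eqS (D.GE.map (fun e => (kk D.kap e.1, kk D.kap e.2))) D.Gt.reverse = true ∧
    below 200 D.Gt = true ∧ avoid 100 300 D.GE = true ∧ D.kp < 100 ∧ D.kap 0 = D.kp ∧
    D.k ≤ 100 := by
  unfold Seam.okb at h
  simp only [Bool.and_eq_true, List.all_cons, List.all_nil, Bool.and_true,
    decide_eq_true_eq] at h
  obtain ⟨⟨⟨⟨⟨⟨⟨⟨⟨⟨⟨h1, h2⟩, h3t, h3f⟩, h4⟩, h5⟩, h6⟩, h7⟩, h8⟩, h9⟩, h10⟩, h11⟩, h12⟩ := h
  refine ⟨h1, h2, ?_, h4, h5, h6, h7, h8, h12⟩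
  intro f
  cases f
  · exact ⟨h3f.1.1.1, h3f.1.1.2, h3f.1.2, h3f.2⟩
  · exact ⟨h3t.1.1.1, h3t.1.1.2, h3t.1.2, h3t.2⟩

end SBL_

open SBL_ in
theorem p_SBL (h1 : T_RUN) (h2 : T_CHK) : T_SBL := by
  intro α _ D e K y q z x hD hy hq hz hx
  obtain ⟨-, -, -, hren, -⟩ := h1
  obtain ⟨hchk, -⟩ := h2
  obtain ⟨c1, c2, c3, c4, c5, c6, c7, c8, c9⟩ := okb_all D hD.okb
  rw [below_iff] at c5
  rw [avoid_iff] at c6
  have hGM : ∀ f, ∀ e ∈ D.GM f, e.1 < 200 ∧ e.2 < 200 := fun f => by
    have := (c3 f).2.2.2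
    rwa [below_iff] at this
  have hf0 : ∀ (κ : ℕ → ℕ) (y z w : α), cf κ y z w 0 = (none, 0) := fun κ y z w =>
    cf1 κ y z w (by norm_num)
  -- states with codes below 200
  have hlow : ∀ (κ : ℕ → ℕ) (y z w z' w' : α) (S : List (ℕ × ℕ)),
      (∀ e ∈ S, e.1 < 200 ∧ e.2 < 200) →
      smap (cf κ y z w) (st S) = smap (cf id y z' w') (st S) := by
    intro κ y z w z' w' S hS
    exact smap_congr _ _ S fun e he => ⟨cf_low _ _ _ _ _ _ _ (hS e he).1,
      cf_low _ _ _ _ _ _ _ (hS e he).2⟩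
  have hsh1 : ∀ x : ℕ, x < 200 → cf id K q z (sh 100 x) = cf id q q q x := by
    intro x hx
    rcases Nat.lt_or_ge x 100 with h | h
    · rw [sh, if_pos h, cf1 _ _ _ _ h, cf1 _ _ _ _ h]
    · obtain ⟨i, rfl⟩ := Nat.exists_eq_add_of_le h
      have e1 : sh 100 (100 + i) = 200 + i := by
        rw [sh, if_neg (by omega)]
        omega
      rw [e1, cf3 _ _ _ _ (by omega), cf2 _ _ _ _ (by omega)]
  have hsh2 : ∀ x : ℕ, x < 200 → cf id y q z (sh 200 x) = cf id z z z x := by
    intro x hx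
    rcases Nat.lt_or_ge x 100 with h | h
    · rw [sh, if_pos h, cf1 _ _ _ _ h, cf1 _ _ _ _ h]
    · obtain ⟨i, rfl⟩ := Nat.exists_eq_add_of_le h
      have e1 : sh 200 (100 + i) = 300 + i := by
        rw [sh, if_neg (by omega)]
        omega
      rw [e1, cf4, cf2 _ _ _ _ (by omega)]
      rfl
  refine ⟨?_, ?_, ?_, ?_, ?_⟩
  · have h := hren ℕ _ (cf id K q z) {a | a ∈ ([] : List ℕ)} ∅ _ _ _
      (fun a ha => absurd ha (Set.notMem_empty _)) (hchk _ _ _ _ c1)
    rw [st_app, smap_app, bin_zw id D.k c9 K q z, hlow id K q z K K D.Gt c5] at h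
    exact h
  · have h := hren ℕ _ (cf id K q z) {a | a ∈ ([100 + D.kp, 0] : List ℕ)}
      {(some K, D.kp), (none, 0)} _ _ _ ?_ (hchk _ _ _ _ c2)
    · rw [st_app, smap_app, smap_scc] at h
      have e1 : smap (cf id K q z) (st (shs 100 (D.GM true))) =
          smap (cf id q q q) (st (D.GM true)) :=
        smap_move _ _ (sh 100) _ fun e he => ⟨hsh1 _ (hGM _ e he).1, hsh1 _ (hGM _ e he).2⟩
      have e2 : (List.range D.k).map
          (fun i => s(cf id K q z (100 + D.kap i), cf id K q z (300 + i))) =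
          sc D.k (rK D.kap K) s(K, z) := by
        rw [sc_eq]
        refine List.map_congr_left fun i hi => ?_
        have hi' := hD.lt i (List.mem_range.1 hi)
        rw [cf2 _ _ _ _ (by omega), cf4, rK_eq, rK_ne _ _ _ hz]
        rfl
      rw [e1, e2] at h
      have e3 : smap (cf id K q z) (st ((0, D.lq) :: (100 + D.kp, D.lz) :: D.Cb)) =
          s((none, 0), cf id K q z D.lq) :: s((some K, D.kp), cf id K q z D.lz) ::
            smap (cf id K q z) (st D.Cb) := by
        have e4 : smap (cf id K q z) (st ((0, D.lq) :: (100 + D.kp, D.lz) :: D.Cb)) =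
          s(cf id K q z 0, cf id K q z D.lq) ::
            s(cf id K q z (100 + D.kp), cf id K q z D.lz) ::
            smap (cf id K q z) (st D.Cb) := rfl
        rw [e4, hf0, cf2 _ _ _ _ c7]
      rw [e3] at h
      exact h
    · intro a ha
      rcases ha with ha | ha
      · rcases cf_some id K q z K ha with h | h | h
        · rw [h.2]
          simp
        · exact absurd h hq
        · exact absurd h.1 hz
      · have := cf_none id K q z (show cf id K q z a = (none, 0) from ha)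
        rw [this]
        simp
  · intro f
    have h := hren ℕ _ (cf id y q z) {a | a ∈ ([0] : List ℕ)}
      {(some K, D.kp), (none, 0)} _ _ _ ?_ (hchk _ _ _ _ (c3 f).1)
    · rw [st_app, smap_app, st_app, smap_app, bin_zw id D.k c9 y q z,
        bin_yz id D.k c9 y q z, hlow id y q z y y (D.GM f) (hGM f)] at h
      have e1 : smap (cf id y q z) (st (shs 200 (D.GM false))) =
          smap (cf id z z z) (st (D.GM false)) :=
        smap_move _ _ (sh 200) _ fun e he => ⟨hsh2 _ (hGM _ e he).1, hsh2 _ (hGM _ e he).2⟩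
      have e2 : (List.range D.k).map
          (fun i => s(((some q : Option α), i), ((some z : Option α), id i))) =
          sc D.k (rK D.kap K) s(q, z) := by
        rw [sc_eq]
        refine List.map_congr_left fun i _ => ?_
        rw [rK_ne _ _ _ hq, rK_ne _ _ _ hz]
        rfl
      rw [e1, e2] at h
      exact h
    · intro a ha
      rcases ha with ha | ha
      · rcases cf_some id y q z K ha with h | h | h
        · exact absurd h.1 hy
        · exact absurd h hq
        · exact absurd h.1 hz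
      · have := cf_none id y q z (show cf id y q z a = (none, 0) from ha)
        rw [this]
        simp
  · intro f
    have h := hren ℕ _ (cf D.kap y x K) {a | a ∈ ([300, 0] : List ℕ)}
      {(some K, D.kp), (none, 0)} _ _ _ ?_ (hchk _ _ _ _ (c3 f).2.1)
    · rw [st_app, smap_app, st_app, smap_app, bin_zw D.kap D.k c9 y x K,
        hlow D.kap y x K y y (D.GM f) (hGM f)] at h
      have e2 : (List.range D.k).map
          (fun i => s(((some x : Option α), i), ((some K : Option α), D.kap i))) =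
          sc D.k (rK D.kap K) s(K, x) := by
        rw [sc_eq]
        refine List.map_congr_left fun i _ => ?_
        rw [rK_ne _ _ _ hx, rK_eq]
        exact Sym2.eq_swap
      have e3 : smap (cf D.kap y x K) (st [(0, D.jy), (300, D.jx)]) =
          [s((none, 0), cf D.kap y x K D.jy), s((some K, D.kp), cf D.kap y x K D.jx)] := by
        have e4 : smap (cf D.kap y x K) (st [(0, D.jy), (300, D.jx)]) =
          [s(cf D.kap y x K 0, cf D.kap y x K D.jy),
            s(cf D.kap y x K (300 + 0), cf D.kap y x K D.jx)] := rfl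
        rw [e4, hf0, cf4, c8]
      rw [e2, e3] at h
      exact h
    · intro a ha
      rcases ha with ha | ha
      · rcases cf_some D.kap y x K K ha with h | h | h
        · exact absurd h.1 hy
        · exact absurd h hx
        · obtain ⟨-, i, h3, h4⟩ := h
          have h5 : i = 0 := hD.inj (h4.trans c8.symm)
          rw [h3, h5]
          simp
      · have := cf_none D.kap y x K (show cf D.kap y x K a = (none, 0) from ha)
        rw [this]
        simp
  · intro f
    have h := hren ℕ _ (cf D.kap y x K) {a | a ∈ ([] : List ℕ)} ∅ _ _ _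
      (fun a ha => absurd ha (Set.notMem_empty _)) (hchk _ _ _ _ (c3 f).2.2.1)
    rw [st_app, smap_app, st_app, smap_app, bin_yz D.kap D.k c9 y x K] at h
    have e1 : st (D.GE.map (fun e => (kk D.kap e.1, kk D.kap e.2))) = st D.Gt.reverse :=
      hchk [] [] _ _ c4
    have e2 : ∀ e ∈ D.GE, kk D.kap e.1 < 200 ∧ kk D.kap e.2 < 200 := by
      intro e he
      have m1 : s(kk D.kap e.1, kk D.kap e.2) ∈ st D.Gt.reverse := by
        rw [← e1]
        unfold st
        rw [List.map_map]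
        exact List.mem_map.2 ⟨e, he, rfl⟩
      unfold st at m1
      obtain ⟨e', he', m2⟩ := List.mem_map.1 m1
      have m3 := c5 e' (List.mem_reverse.1 he')
      rcases Sym2.eq_iff.1 m2 with m4 | m4
      · rw [← m4.1, ← m4.2]
        exact m3
      · rw [← m4.1, ← m4.2]
        exact ⟨m3.2, m3.1⟩
    have e3 : ∀ c : ℕ, ¬ (100 ≤ c ∧ c < 300) → kk D.kap c < 200 →
        cf id K K K (kk D.kap c) = cf D.kap y x K c := by
      intro c hc hk
      rcases Nat.lt_or_ge c 300 with h3 | h3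
      · have h4 : c < 100 := by omega
        rw [kk, if_pos h3, cf1 _ _ _ _ h4, cf1 _ _ _ _ h4]
      · obtain ⟨i, rfl⟩ := Nat.exists_eq_add_of_le h3
        have h5 : kk D.kap (300 + i) = 100 + D.kap i := by
          rw [kk, if_neg (by omega), Nat.add_sub_cancel_left]
        rw [h5] at hk ⊢
        rw [cf2 _ _ _ _ (by omega), cf4]
    have e4 : smap (cf D.kap y x K) (st D.GE) = (smap (cf id K K K) (st D.Gt)).reverse := by
      have e5 := smap_move (cf id K K K) (cf D.kap y x K) (kk D.kap) D.GE fun e he =>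
        ⟨e3 _ (c6 e he).1 (e2 e he).1, e3 _ (c6 e he).2 (e2 e he).2⟩
      rw [← e5, e1]
      simp only [smap, st, List.map_reverse]
    rw [e4] at h
    exact h

end Bn
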