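import Pool.Agent.BIN.TA
import Pool.Agent.BIN.W
import Pool.Agent.BIN.P_CHK
set_option autoImplicit false
set_option linter.all false

/-!
# BIN: doubling of one item (target T_WIT)
-/

namespace Bn

namespace WIT_

lemma rn : Run {a | a ∈ [0, 1]} (gad Kd.n) (st [(0, 2), (1, 3), (4, 6), (5, 7)])
    (st [(2, 4), (3, 5), (0, 6), (1, 7)]) := p_CHK.1 _ _ _ _ (by decide)

lemma rU : Run {a | a ∈ [0]} (gad Kd.U) (st [(0, 2), (1, 3), (4, 6), (5, 7)])
    (st [(3, 5), (2, 4), (1, 6), (0, 7)]) := p_CHK.1 _ _ _ _ (by decide)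

lemma rL : Run {a | a ∈ [0]} (gad Kd.L) (st [(0, 2), (1, 3), (4, 6), (5, 7)])
    (st [(2, 5), (3, 4), (1, 7), (0, 6)]) := p_CHK.1 _ _ _ _ (by decide)

lemma rax : Run {a | a ∈ ([] : List ℕ)} (gad Kd.ax) (st [(0, 2), (1, 3), (4, 6), (5, 7)])
    (st [(3, 4), (2, 5), (1, 6), (0, 7)]) := p_CHK.1 _ _ _ _ (by decide)

lemma rc : Run {a | a ∈ ([] : List ℕ)} (gad Kd.c) (st [(0, 2), (1, 3), (4, 6), (5, 7)])
    (st [(2, 5), (3, 4), (0, 6), (1, 7)]) := p_CHK.1 _ _ _ _ (by decide)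

lemma rqd : Run {a | a ∈ ([] : List ℕ)} gadQ
    (st [(0, 2), (1, 3), (4, 6), (5, 7), (8, 10), (9, 11)])
    (st [(0, 7), (1, 6), (3, 9), (2, 8), (5, 10), (4, 11)]) := p_CHK.1 _ _ _ _ (by decide)

/-- the codes of the strands of the ball `p` -/
lemma c4 {α : Type} {T : Set α} {o : α → Bool} {p x q z : α} (hx : x ∉ T) (hq : q ∉ T)
    (hz : z ∉ T) (a : ℕ) (ha : str4 o p x q z a ∈ T2 T) : p ∈ T ∧ (a = 0 ∨ a = 1) := by
  have e : a = 0 ∨ a = 1 ∨ a = 2 ∨ a = 3 ∨ a = 4 ∨ a = 5 ∨ a = 6 ∨ a = 7 ∨ 8 ≤ a := by omega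
  rcases e with rfl | rfl | rfl | rfl | rfl | rfl | rfl | rfl | h8
  · exact ⟨ha.1, Or.inl rfl⟩
  · exact ⟨ha.1, Or.inr rfl⟩
  · exact absurd ha.1 hx
  · exact absurd ha.1 hx
  · exact absurd ha.1 hq
  · exact absurd ha.1 hq
  · exact absurd ha.1 hz
  · exact absurd ha.1 hz
  · obtain ⟨b, rfl⟩ := Nat.exists_eq_add_of_le h8
    rw [Nat.add_comm] at ha
    exact absurd ha.1 hz

/-- no code of six balls is tracked -/
lemma c6 {α : Type} {T : Set α} {o : α → Bool} {e d a x c w : α} (he : e ∉ T) (hd : d ∉ T)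
    (ha : a ∉ T) (hx : x ∉ T) (hc : c ∉ T) (hw : w ∉ T) (n : ℕ) :
    str6 o e d a x c w n ∉ T2 T := by
  intro hn
  have e : n = 0 ∨ n = 1 ∨ n = 2 ∨ n = 3 ∨ n = 4 ∨ n = 5 ∨ n = 6 ∨ n = 7 ∨ n = 8 ∨ n = 9 ∨
    n = 10 ∨ 11 ≤ n := by omega
  rcases e with rfl | rfl | rfl | rfl | rfl | rfl | rfl | rfl | rfl | rfl | rfl | h8
  · exact he hn.1
  · exact he hn.1
  · exact hd hn.1
  · exact hd hn.1
  · exact ha hn.1
  · exact ha hn.1
  · exact hx hn.1
  · exact hx hn.1
  · exact hc hn.1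
  · exact hc hn.1
  · exact hw hn.1
  · obtain ⟨b, rfl⟩ := Nat.exists_eq_add_of_le h8
    rw [Nat.add_comm] at hn
    exact hw hn.1

/-- four different balls -/
lemma nd4 {α : Type} {K L q z : α} {k : Kd} (h : (ball (It.mv K L q z k).l).Nodup) :
    K ≠ L ∧ K ≠ q ∧ K ≠ z ∧ L ≠ q ∧ L ≠ z ∧ q ≠ z := by
  have e : ball (It.mv K L q z k).l = (([K, L, q, z] : List α) : Multiset α) := by
    rfl
  rw [e, Multiset.coe_nodup] at h
  simp at h
  tauto

/-- six different balls -/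
lemma nd6 {α : Type} {e d a x c w : α} (h : (ball (It.qd e d a x c w).l).Nodup) :
    (e ≠ d ∧ e ≠ a ∧ e ≠ x ∧ e ≠ c ∧ e ≠ w) ∧ (d ≠ a ∧ d ≠ x ∧ d ≠ c ∧ d ≠ w) ∧
      (a ≠ x ∧ a ≠ c ∧ a ≠ w) ∧ (x ≠ c ∧ x ≠ w) ∧ c ≠ w := by
  have e : ball (It.qd e d a x c w).l = (([e, d, a, x, c, w] : List α) : Multiset α) := by
    rfl
  rw [e, Multiset.coe_nodup] at h
  simp at h
  tauto

end WIT_

open WIT_ in
/-- doubling of one item -/
theorem p_WIT (h1 : T_RUN) : T_WIT := by
  obtain ⟨-, -, -, hmap, -⟩ := h1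
  intro α _ T o i hok hnd hsw
  cases i with
  | mv p x q z k =>
    obtain ⟨hx, hq, hz, hp⟩ := hok
    obtain ⟨d1, d2, d3, d4, d5, d6⟩ := nd4 hnd
    have g1 := d1.symm
    have g2 := d2.symm
    have g3 := d3.symm
    have g4 := d4.symm
    have g5 := d5.symm
    have g6 := d6.symm
    cases k with
    | n =>
      have ht : ∀ a : ℕ, str4 o p x q z a ∈ T2 T → a ∈ ({a | a ∈ [0, 1]} : Set ℕ) := by
        intro a ha
        rcases (c4 hx hq hz a ha).2 with rfl | rfl <;> simp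
      have := hmap _ _ _ _ _ _ _ _ ht rn
      simpa [Wit, smap, st, dbl, It.l, It.r, str4, upd, It.sw] using this
    | U =>
      have op : o p = false := hsw p (by simp [It.sw])
      have ox : o x = false := hsw x (by simp [It.sw])
      have oq : o q = false := hsw q (by simp [It.sw])
      have ht : ∀ a : ℕ, str4 o p x q z a ∈ T2 T → a ∈ ({a | a ∈ [0]} : Set ℕ) := by
        intro a ha
        rcases (c4 hx hq hz a ha).2 with rfl | rfl
        · simp
        · exact absurd ha.2 (by simp [str4, op])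
      have := hmap _ _ _ _ _ _ _ _ ht rU
      simpa [Wit, smap, st, dbl, It.l, It.r, str4, upd, It.sw, op, ox, oq, d1, d2, d3, d4, d5, d6,
        g1, g2, g3, g4, g5, g6] using this
    | L =>
      have op : o p = false := hsw p (by simp [It.sw])
      have oq : o q = false := hsw q (by simp [It.sw])
      have oz : o z = false := hsw z (by simp [It.sw])
      have ht : ∀ a : ℕ, str4 o p x q z a ∈ T2 T → a ∈ ({a | a ∈ [0]} : Set ℕ) := by
        intro a ha
        rcases (c4 hx hq hz a ha).2 with rfl | rfl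
        · simp
        · exact absurd ha.2 (by simp [str4, op])
      have := hmap _ _ _ _ _ _ _ _ ht rL
      simpa [Wit, smap, st, dbl, It.l, It.r, str4, upd, It.sw, op, oq, oz, d1, d2, d3, d4, d5, d6,
        g1, g2, g3, g4, g5, g6] using this
    | ax =>
      have op : o p = false := hsw p (by simp [It.sw])
      have ox : o x = false := hsw x (by simp [It.sw])
      have ht : ∀ a : ℕ, str4 o p x q z a ∈ T2 T → a ∈ ({a | a ∈ ([] : List ℕ)} : Set ℕ) := by
        intro a ha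
        have := hp (c4 hx hq hz a ha).1
        simp [Kd.tr] at this
      have := hmap _ _ _ _ _ _ _ _ ht rax
      simpa [Wit, smap, st, dbl, It.l, It.r, str4, upd, It.sw, op, ox, d1, d2, d3, d4, d5, d6,
        g1, g2, g3, g4, g5, g6] using this
    | c =>
      have oq : o q = false := hsw q (by simp [It.sw])
      have ht : ∀ a : ℕ, str4 o p x q z a ∈ T2 T → a ∈ ({a | a ∈ ([] : List ℕ)} : Set ℕ) := by
        intro a ha
        have := hp (c4 hx hq hz a ha).1
        simp [Kd.tr] at this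
      have := hmap _ _ _ _ _ _ _ _ ht rc
      simpa [Wit, smap, st, dbl, It.l, It.r, str4, upd, It.sw, oq, d1, d2, d3, d4, d5, d6,
        g1, g2, g3, g4, g5, g6] using this
  | qd e d a x c w =>
    obtain ⟨he, hd, ha, hx, hc, hw⟩ := hok
    obtain ⟨⟨a1, a2, a3, a4, a5⟩, ⟨b1, b2, b3, b4⟩, ⟨c1, c2, c3⟩, ⟨d1, d2⟩, e1⟩ := nd6 hnd
    have od : o d = false := hsw d (by simp [It.sw])
    have oa : o a = false := hsw a (by simp [It.sw])
    have ox : o x = false := hsw x (by simp [It.sw])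
    have oc : o c = false := hsw c (by simp [It.sw])
    have ht : ∀ n : ℕ, str6 o e d a x c w n ∈ T2 T → n ∈ ({a | a ∈ ([] : List ℕ)} : Set ℕ) := by
      intro n hn
      exact absurd hn (c6 he hd ha hx hc hw n)
    have := hmap _ _ _ _ _ _ _ _ ht rqd
    have f1 := e1.symm
    have f2 := c3.symm
    have f3 := d2.symm
    have f4 := b4.symm
    have s1 : ∀ (u v : α × Bool), s(u, v) = s(v, u) := fun u v => Sym2.eq_swap
    have h9 : s((c, true), (d, true)) = s((d, true), (c, true)) := s1 _ _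
    have h8 : s((c, false), (d, false)) = s((d, false), (c, false)) := s1 _ _
    simpa [Wit, smap, st, dbl, It.l, It.r, str6, upd, It.sw, od, oa, ox, oc, a1, a2, a3, a4, a5,
      b1, b2, b3, b4, c1, c2, c3, d1, d2, e1, f1, f2, f3, f4, h8, h9] using this

end Bn
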