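import Pool.Agent.BIN.Defs
import Pool.Agent.BIN.Exec
import Pool.Agent.BIN.Th
set_option autoImplicit false
set_option linter.all false

/-!
# BIN: seams
Every old ball `a` different from `L` becomes `k` strands `(some a, i)`, `i < k`; the ball `L`
becomes the balls `(none, j)`.  The bin of `L` with its mate `y` becomes a block of
`D.Gt.length + 1` bins.  Coded balls in the blocks: codes below 100 are the balls `(none, j)`;
`100 + i`, `200 + i`, `300 + i` are the strands of the balls y, z, w of the block.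
* Block b (leaving move): y = K, z = q, w = z.   * Block c (move `mv L y q z`): y = y, z = q, w = z.
* Block e (joining move `mv L y x K`): y = y, z = x, w = K, with the strands of K in the order
`kap`.
The boolean is `true` before the first move of `L` in the phase `w2`, and `false` later.
-/

namespace Bn

structure Seam where
  k : ℕ
  kap : ℕ → ℕ
  kp : ℕ
  Gt : List (ℕ × ℕ)
  GM : Bool → List (ℕ × ℕ)
  Wb1 : List (It ℕ)
  lq : ℕ
  lz : ℕ
  lk : Kd
  Wb2 : List (It ℕ)
  Cb : List (ℕ × ℕ)
  Wc : Bool → List (It ℕ)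
  We1 : Bool → List (It ℕ)
  jy : ℕ
  jx : ℕ
  jk : Kd
  We2 : Bool → List (It ℕ)
  Ce : Bool → List (ℕ × ℕ)
  GE : List (ℕ × ℕ)

/-- the coded scaled bin -/
def scc (k : ℕ) (a b : ℕ → ℕ) : List (ℕ × ℕ) := (List.range k).map (fun (i : ℕ) => (a i, b i))

/-- shift of the codes which are not below 100 -/
def sh (d x : ℕ) : ℕ := if x < 100 then x else x + d

/-- shift of a coded state -/
def shs (d : ℕ) (S : List (ℕ × ℕ)) : List (ℕ × ℕ) := S.map (fun e => (sh d e.1, sh d e.2))

/-- the codes `300 + i` become `100 + kap i` -/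
def kk (kap : ℕ → ℕ) (x : ℕ) : ℕ := if x < 300 then x else 100 + kap (x - 300)

/-- all codes of a state are below `b` -/
def below (b : ℕ) (S : List (ℕ × ℕ)) : Bool := S.all (fun e => decide (e.1 < b) && decide (e.2 < b))

/-- no code of a state is at least a and below b -/
def avoid (a b : ℕ) (S : List (ℕ × ℕ)) : Bool :=
  S.all (fun e => !(decide (a ≤ e.1) && decide (e.1 < b)) &&
    !(decide (a ≤ e.2) && decide (e.2 < b)))

/-- the checks of the block words -/
def Seam.okb (D : Seam) : Bool :=
  let sz := scc D.k (fun i => 200 + i) (fun i => 300 + i)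
  let rv := scc D.k (fun i => 100 + (D.k - 1 - i)) (fun i => 200 + (D.k - 1 - i))
  chk [] D.Wb1 (D.Gt ++ sz) ((D.lq, D.lz) :: D.Cb) &&
  chk [100 + D.kp, 0] D.Wb2 ((0, D.lq) :: (100 + D.kp, D.lz) :: D.Cb)
    (shs 100 (D.GM true) ++ scc D.k (fun i => 100 + D.kap i) (fun i => 300 + i)) &&
  [true, false].all (fun f =>
    chk [0] (D.Wc f) (D.GM f ++ sz) (rv ++ shs 200 (D.GM false)) &&
    chk [300, 0] (D.We1 f) (D.GM f ++ sz) (D.Ce f ++ [(0, D.jy), (300, D.jx)]) &&
    chk [] (D.We2 f) (D.Ce f ++ [(D.jy, D.jx)]) (rv ++ D.GE) &&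
    below 200 (D.GM f)) &&
  eqS (D.GE.map (fun e => (kk D.kap e.1, kk D.kap e.2))) D.Gt.reverse &&
  below 200 D.Gt && avoid 100 300 D.GE && decide (D.kp < 100) && decide (D.kap 0 = D.kp) &&
  decide (D.lk.tr) && decide (D.jk.tr) && decide (0 < D.k) && decide (D.k ≤ 100)

/-- a correct seam with `e` balls which replace `L` -/
structure SeamOK (D : Seam) (e : ℕ) : Prop where
  okb : D.okb = true
  inj : Function.Injective D.kap
  lt : ∀ i, i < D.k → D.kap i < D.k
  he : e ≤ 100
  bal : ball (st ((100 + D.kp, 0) :: D.Gt)) =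
    Multiset.range e + (Multiset.range D.k).map (fun i => 100 + i)

variable {α : Type}

/-- the ball of a code -/
def cf (κ : ℕ → ℕ) (y z w : α) (x : ℕ) : Option α × ℕ :=
  if x < 100 then (none, x) else if x < 200 then (some y, x - 100)
  else if x < 300 then (some z, x - 200) else (some w, κ (x - 300))

/-- the scaled bin; `ρ a i` is the index of the strand of `a` in the bin number `i` -/
def sc (k : ℕ) (ρ : α → ℕ → ℕ) (e : Sym2 α) : List (Sym2 (Option α × ℕ)) :=
  (List.range k).map (fun (i : ℕ) => e.map (fun a => (some a, ρ a i)))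

/-- the scaled state -/
def Phi (k : ℕ) (ρ : α → ℕ → ℕ) (S : List (Sym2 α)) : List (Sym2 (Option α × ℕ)) :=
  S.flatMap (sc k ρ)

/-- order of the strands at the start -/
def rid : α → ℕ → ℕ := fun _ i => i
/-- reversed order -/
def rre (k : ℕ) : α → ℕ → ℕ := fun _ i => k - 1 - i
/-- the order below `L` in the middle phase -/
def rK [DecidableEq α] (kap : ℕ → ℕ) (K : α) : α → ℕ → ℕ := fun a i => if a = K then kap i else i

/-- the moves of `L`: pairs (q, z) -/
def lmv [DecidableEq α] (L : α) : List (It α) → List (α × α)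
  | [] => []
  | (It.mv p _ q z _) :: w => if p = L then (q, z) :: lmv L w else lmv L w
  | (It.qd _ _ _ _ _ _) :: w => lmv L w

/-- the c blocks -/
def seamC (D : Seam) : Bool → α → List (α × α) → List (It (Option α × ℕ))
  | _, _, [] => []
  | f, y, (q, z) :: l => wmap (cf id y q z) (D.Wc f) ++ seamC D false z l

/-- the b block -/
def seamB (D : Seam) (K q z : α) : List (It (Option α × ℕ)) :=
  wmap (cf id K q z) (D.Wb1 ++ (It.mv (100 + D.kp) 0 D.lq D.lz D.lk :: D.Wb2))

/-- the e block -/
def seamE (D : Seam) (f : Bool) (K y x : α) : List (It (Option α × ℕ)) :=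
  wmap (cf D.kap y x K) (D.We1 f ++ (It.mv 0 D.jy D.jx 300 D.jk :: D.We2 f))

/-- all blocks of the scaled word -/
def seamAll [DecidableEq α] (D : Seam) (c : CW α) : List (It (Option α × ℕ)) :=
  seamB D c.K c.q c.z ++ (seamC D true c.q (lmv c.L c.w2) ++
    seamE D (lmv c.L c.w2).isEmpty c.K c.y c.x)

end Bn
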