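import Pool.Agent.BIN.Th
set_option autoImplicit false
set_option linter.all false

/-!
# BIN: group E, the labels (exact covers of the cyclic band)
-/

namespace Bn

/-- indices of the new balls swapped by the label at time `t` (integers) -/
def hZ (t : ℤ) : Lab → Multiset ℤ
  | Lab.A => {t + 1}
  | Lab.B s d => {t + (if s then 1 else 0) - (d : ℤ), t + (if s then 1 else 0) + (d : ℤ)}
  | _ => 0

/-- times of the passing balls swapped by the label at time `t` -/
def yN (t : ℕ) : Lab → Multiset ℕ
  | Lab.no => 0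
  | Lab.A => {t, t + 1}
  | Lab.B _ _ => {t}
  | Lab.S => {t}

/-- new balls of a list of labels which starts at time `t` -/
def cH : ℤ → List Lab → Multiset ℤ
  | _, [] => 0
  | t, l :: ls => hZ t l + cH (t + 1) ls

/-- passing balls of a list of labels which starts at time `t` -/
def cY : ℕ → List Lab → Multiset ℕ
  | _, [] => 0
  | t, l :: ls => yN t l + cY (t + 1) ls

/-- every A is followed by no, the last label is not A -/
def aOK : List Lab → Bool
  | [] => true
  | [l] => !(l == Lab.A)
  | l :: l' :: r => (!(l == Lab.A) || l' == Lab.no) && aOK (l' :: r)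

/-- all numbers `d` are between 1 and `m` -/
def dOK (m : ℕ) (l : List Lab) : Bool :=
  l.all (fun x => match x with
    | Lab.B _ d => decide (1 ≤ d) && decide (d ≤ m)
    | _ => true)

/-- no label S -/
def sNo (l : List Lab) : Bool := l.all (fun x => !(x == Lab.S))

/-- a block: the new balls `i - D`, `i < length`, are covered up to the boundary `E`, and all
passing
balls except those at the times `X` -/
structure Blk (D : ℕ) (E : List ℤ) (X : List ℕ) (l : List Lab) : Prop where
  h : cH 0 l + (E : Multiset ℤ) =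
    (((List.range l.length).map (fun (i : ℕ) => (i : ℤ) - (D : ℤ)) : List ℤ) : Multiset ℤ) +
      ((E.map (fun a => a + (l.length : ℤ)) : List ℤ) : Multiset ℤ)
  y : cY 0 l + (X : Multiset ℕ) = Multiset.range l.length
  a : aOK l = true


/-- labels, length 9; boundary [-3, -2, -1]; places without y: [] -/
def L9 : List Lab :=
  [.B false 4, .B false 1, .A, .no, .B false 3, .A, .no, .A, .no]

/-- labels, length 12; boundary [-4, -2, -1, 1]; places without y: [] -/
def L12 : List Lab :=
  [.B false 3, .A, .no, .B false 3, .A, .no, .B true 3, .A, .no, .B true 3, .A, .no]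

/-- labels, length 15; boundary [-4, -2, -1, 1]; places without y: [] -/
def L15 : List Lab :=
  [.B true 4, .A, .no, .B true 4, .B true 2, .A, .no, .B false 3, .A, .no, .A, .no, .A, .no,
   .B true 1]

/-- labels, length 21; boundary [-4, -2, -1, 1]; places without y: [] -/
def L21 : List Lab :=
  [.B false 3, .A, .no, .B false 3, .A, .no, .B true 3, .A, .no, .B true 1, .B true 4, .A,
   .no, .A, .no, .B true 3, .A, .no, .B true 3, .A, .no]

/-- labels, length 17; boundary [-3, -1]; places without y: [] -/
def L17 : List Lab :=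
  [.B false 2, .S, .B false 1, .B false 3, .A, .no, .B true 3, .A, .no, .B true 1, .B false 3,
   .A, .no, .A, .no, .A, .no]

/-- labels, length 29; boundary [-3, -1]; places without y: [] -/
def L29 : List Lab :=
  [.B false 2, .S, .B false 1, .B false 3, .A, .no, .B true 3, .A, .no, .B true 3, .A, .no, .B
   false 3, .A, .no, .B false 3, .A, .no, .B true 3, .A, .no, .B true 1, .B false 3, .A,
   .no, .A, .no, .A, .no]

/-- labels, length 18; boundary [-3, -1]; places without y: [] -/
def L18 : List Lab :=
  [.B true 1, .B false 3, .A, .no, .B false 3, .A, .no, .B true 3, .A, .no, .B true 1, .B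
   false 3, .A, .no, .A, .no, .A, .no]

/-- labels, length 19; boundary [-3, -2, -1, 0, 2]; places without y: [2, 3, 6, 8, 10, 11, 12, 17]
-/
def L19 : List Lab :=
  [.A, .no, .no, .no, .B true 1, .B false 2, .no, .B false 2, .no, .B true 2, .no, .no, .no,
   .B false 3, .B false 3, .B true 2, .B false 3, .no, .B false 3]

/-- labels, length 18; boundary [-3, -2, -1, 0, 2]; places without y: [] -/
def M18 : List Lab :=
  [.A, .no, .A, .no, .A, .no, .B true 1, .B false 3, .A, .no, .B false 3, .A, .no, .B true 3,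
   .A, .no, .B true 1, .B false 3]
/-- **Target T_BCAT** (blocks can be put together): a block with missing times `X`, followed by a
block without missing times and with the same boundary, is a block with missing times `X`;
repetition: `l ++ (List.replicate k l').flatten`.

Proof.  `cH t l = (cH 0 l).map (fun a => a + t)` by induction (for all starting times), so
`cH 0 (l ++ l') = cH 0 l + (cH 0 l').map (fun a => a + λ)`, `λ = l.length`.  Add `E`:
`cH 0 l + E = {i - D | i < λ} + (E + λ)` and
`(cH 0 l').map (a + λ) + (E + λ) = ({i - D | i < λ'} + (E + λ')).map (a + λ)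
 = {i - D | λ ≤ i < λ + λ'} + (E + (λ + λ'))`.  Together
(cancel nothing, only add): the claim.  The same for `cY` (here no boundary; `X` stays) with
`Multiset.range (λ + λ') = range λ + (range λ').map (· + λ)`.  `aOK (l ++ l')` because the last
label of `l` is not A.  (If `l = []`: trivial.) -/
def T_BCAT : Prop :=
  (∀ (D : ℕ) (E : List ℤ) (X : List ℕ) (l l' : List Lab), Blk D E X l → Blk D E [] l' →
    Blk D E X (l ++ l')) ∧
  (∀ (D : ℕ) (E : List ℤ) (X : List ℕ) (l l' : List Lab) (k : ℕ), Blk D E X l →
    Blk D E [] l' → Blk D E X (l ++ (List.replicate k l').flatten))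

/-- **Target T_CYC** (from a block of length `2 m + 1` to labels).  Let `l` be a block of length
`2 m + 1`, `lab t = l.getD t no`, all numbers d between 1 and m, label S only at time 1 (and then
`m ≥ 2`).  Then the labels are correct and their triangles cover every ball once.

Proof.  LabOK: B from `dOK` (membership `l.getD t no ∈ l` for `t < l.length`), A from `aOK` (by
induction on the list: if entry `t` is A then `t + 1 < l.length` and entry `t + 1` is `no`), S by
hypothesis.
Cover: `cov m Y t l = ((yN t l).map (fun t => ob m (Y t))) + ((hZ t l).map (fun a => hb α m a))`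
(cast of an integer to `ZMod (2m+1)`; cases of the label).  So the sum over `t < 2m + 1` is
`(cY 0 l).map (ob m (Y ·)) + (cH 0 l).map (hb α m ((· : ℤ) : ZMod _))` (induction on the list, for
all starting times).  First part plus the missing balls: `Blk.y`.  Second part: map `Blk.h` to
`ZMod (2m+1)`: `E` and `E + (2m+1)` have the same image, cancel it
(`add_right_cancel` for multisets); the numbers `i - D`, `i < 2m + 1`, have as images all elements
of `ZMod (2m+1)` once (the map `i ↦ i` from `range (2m+1)` to `ZMod (2m+1)` is a bijection, and the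
shift by `-D` is a bijection of `ZMod`).
Flags: the sum of `nlab (lab t)` is the sum over the list. -/
def T_CYC : Prop :=
  ∀ (m D : ℕ) (E : List ℤ) (X : List ℕ) (l : List Lab), 1 ≤ m → l.length = 2 * m + 1 →
    Blk D E X l → dOK m l = true →
    (∀ t, l.getD t Lab.no = Lab.S → t = 1 ∧ 2 ≤ m) →
    LabOK m (fun t => l.getD t Lab.no) ∧
    (∀ (α : Type) (Y : ℕ → α),
      ∑ t ∈ Finset.range (2 * m + 1), cov m Y t (l.getD t Lab.no) +
          (X : Multiset ℕ).map (fun t => ob m (Y t)) =
        (Multiset.range (2 * m + 1)).map (fun t => ob m (Y t)) +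
          (Finset.univ : Finset (ZMod (2 * m + 1))).val.map (hb α m)) ∧
    ∑ t ∈ Finset.range (2 * m + 1), nlab (l.getD t Lab.no) = (l.map nlab).sum

/-- **Target T_BLKS** (the explicit blocks), all by `decide` or `decide +kernel` on the three
fields. -/
def T_BLKS : Prop :=
  Blk 4 [-3, -2, -1] [] L9 ∧ Blk 4 [-4, -2, -1, 1] [] L12 ∧ Blk 4 [-4, -2, -1, 1] [] L15 ∧
  Blk 4 [-4, -2, -1, 1] [] L21 ∧ Blk 3 [-3, -1] [] L17 ∧ Blk 3 [-3, -1] [] L29 ∧
  Blk 3 [-3, -1] [] L18 ∧ Blk 3 [-3, -2, -1, 0, 2] [2, 3, 6, 8, 10, 11, 12, 17] L19 ∧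
  Blk 3 [-3, -2, -1, 0, 2] [] M18

/-- **Target T_CP0** (labels for PZ): `2 m + 1 = 3` mod 6, `m ≥ 4`.

Proof.  `m = 4`: `L9`.  Otherwise `2m + 1 ≥ 15`, and `2m + 1 = 15 + 12 k` or `21 + 12 k`:
`l = L15 ++ (List.replicate k L12).flatten` or `L21 ++ ..`.  T_BLKS, T_BCAT, T_CYC.  All d are at
most 4 ≤ m; there is no S (all entries of the list are entries of the blocks). -/
def T_CP0 : Prop :=
  ∀ m : ℕ, 4 ≤ m → (2 * m + 1) % 6 = 3 → ∃ lab : ℕ → Lab, LabOK m lab ∧
    (∀ t, lab t ≠ Lab.S) ∧
    ∀ (α : Type) (Y : ℕ → α), ∑ t ∈ Finset.range (2 * m + 1), cov m Y t (lab t) =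
      (Multiset.range (2 * m + 1)).map (fun t => ob m (Y t)) +
        (Finset.univ : Finset (ZMod (2 * m + 1))).val.map (hb α m)

/-- **Target T_CP1** (labels for PE): `m = 8`, or `m ≥ 14` and `2 m + 1 = 11` mod 18.

Proof.  `m = 8`: `L17` (12 flags).  Otherwise `2m + 1 = 29 + 18 k`,
`l = L29 ++ (List.replicate k L18).flatten` (20 + 12 k flags).  S is only the entry 1 of `L17` and
`L29`. -/
def T_CP1 : Prop :=
  ∀ m : ℕ, (m = 8 ∨ (14 ≤ m ∧ (2 * m + 1) % 18 = 11)) → ∃ lab : ℕ → Lab, LabOK m lab ∧
    3 * ∑ t ∈ Finset.range (2 * m + 1), nlab (lab t) = 2 * (2 * m + 1) + 2 ∧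
    ∀ (α : Type) (Y : ℕ → α), ∑ t ∈ Finset.range (2 * m + 1), cov m Y t (lab t) =
      (Multiset.range (2 * m + 1)).map (fun t => ob m (Y t)) +
        (Finset.univ : Finset (ZMod (2 * m + 1))).val.map (hb α m)

/-- **Target T_CWD** (labels for WDI): `m ≥ 9`, `2 m + 1 = 1` mod 18.

Proof.  `2m + 1 = 19 + 18 k`, `l = L19 ++ (List.replicate k M18).flatten`. -/
def T_CWD : Prop :=
  ∀ m : ℕ, 9 ≤ m → (2 * m + 1) % 18 = 1 → ∃ lab : ℕ → Lab, LabOK m lab ∧
    (∀ t, lab t ≠ Lab.S) ∧
    ∀ (α : Type) (Y : ℕ → α), ∑ t ∈ Finset.range (2 * m + 1), cov m Y t (lab t) +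
      {ob m (Y 2), ob m (Y 3), ob m (Y 6), ob m (Y 8), ob m (Y 10), ob m (Y 11), ob m (Y 12),
        ob m (Y 17)} =
      (Multiset.range (2 * m + 1)).map (fun t => ob m (Y t)) +
        (Finset.univ : Finset (ZMod (2 * m + 1))).val.map (hb α m)

end Bn
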