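import Pool.Agent.BIN.TC
import Pool.Agent.BIN.TA
import Pool.Agent.BIN.TD
import Pool.Agent.BIN.TE
import Pool.Agent.BIN.W
import Pool.Agent.BIN.Base
set_option autoImplicit false
set_option linter.all false

/-!
# BIN: group F, the steps of the recursion
-/

namespace Bn

/-- **Target T_STA** (thick doubling without labels): `Perf n → Perf (2 n - 1)` and
`NearP n → NearP (2 n - 1)`.

Proof.  `n = m + 1`, `m ≥ 1` (a clean word has at least two bins: T_PALL gives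
`nmv L w2 + 2 = c.n`).  T_THCK with `lab = fun _ => no` (LabOK is trivial) and
`Y t = c.P.getD (t % (2m+1)) c.K` (`c.P` has length `2m + 1`, T_PALL (5)).
`2 n - 1 = 2 m + 1`; `3 (N + m (2m+1)) + (2m+1) = 2 (2m+1)^2` follows from
`3 N + (m+1) = 2 (m+1)^2` (`nlinarith` or `ring_nf` with omega); with `+ 2` on both sides for
NearP. -/
def T_STA : Prop :=
  (∀ n, Perf n → Perf (2 * n - 1)) ∧ (∀ n, NearP n → NearP (2 * n - 1))

/-- **Target T_STB** (thick doubling with labels): `PZ (2 n - 1)` and `PE (2 n - 1)` from `Perf n`.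

Proof.  As T_STA, with the labels of T_CP0 (`m = n - 1 ≥ 4`, `2 m + 1 = 2 n - 1`) resp. T_CP1.
`c` is plain, so `c.sw = 0` and `c.Q = 0`; `c'.sw` is the sum of the `cov`, which is the sum of the
old
balls `ob m (Y t)`, `t < 2m+1`, and all new balls; this is `ball c'.S`: `Cov`.  For PZ there is no
label S, so `c'.FullQ`.  For PE the number of flags is the sum of `nlab`. -/
def T_STB : Prop :=
  (∀ n, 5 ≤ n → (2 * n - 1) % 6 = 3 → Perf n → PZ (2 * n - 1)) ∧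
  (∀ n, (n = 9 ∨ (15 ≤ n ∧ (2 * n - 1) % 18 = 11)) → Perf n → PE (2 * n - 1))

/-- **Target T_STC** (thick doubling along the other ball of the top bin): `NPW n → NPW (2 n - 1)`.

Proof.  Let `c` be the word, `n = m + 1`.  T_CTAU gives `c1` with `c1.PK = c.K :: c.P.tail.reverse`,
the same swapped balls, `PlainQ`, `Q = 2`.  T_THCK for `c1` with `lab = no` gives `c2` with
`PlainQ`,
`Q = 2`, `c2.sw = c.sw.map (ob m)`,
`c2.PK = hb 0 :: (hs ++ (c.P.tail.reverse).map (ob m))`.  T_CTAU for `c2` gives `c3` with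
`c3.P = c2.L :: c2.PK.tail.reverse = c2.L :: ((c.P.tail).map (ob m) ++ hs.reverse)`.
As `c.P.tail = (range 17).map b ++ r`: take `b3 = ob m ∘ b`, `r3 = r.map (ob m) ++ hs.reverse`.
The number of moves as in T_STA. -/
def T_STC : Prop := ∀ n, NPW n → NPW (2 * n - 1)

/-- **Target T_STD** (thick doubling with labels of a word with two quadrangles).

Proof.  `n = m + 1`, `m ≥ 9`.  `Y t = c.P.getD (t % (2m+1)) c.K`, so `Y (i + 1) = b i` for `i < 17`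
(`c.P = a :: (b 0, ..., b 16, r)`, length `2m + 1 ≥ 19`).  T_CWD and T_THCK:
`c'.sw = {ob (b 1), ob (b 2), ob (b 5), ob (b 7), ob (b 9), ob (b 10), ob (b 11), ob (b 16)} +
∑ cov = {ob (Y 2), ob (Y 3), ob (Y 6), ...} + ∑ cov`, which is `ball c'.S`.  `FullQ` since there is
no
label S, `Q = 2`, number of moves as in T_STA. -/
def T_STD : Prop := ∀ n, 10 ≤ n → (2 * n - 1) % 18 = 1 → NPW n → WDI (2 * n - 1)

/-- **Target T_STW** (the doubling W).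

Proof.  T_W and T_FCT (`3 F + 4 Q = 2 n` for the words with FullQ and Cov).
`PZ`: `N' = 4 N + F`, `3 F = 2 n`: `3 N' + 2 n = 4 (2 n^2 - n) + 4 n = 8 n^2`; `c'` has `Cov`,
`FullQ`,
`Q = 0`.  `PE n → NearP (2 n)`: `3 N' = 4 (2 n^2 - n) + 2 n + 2`, and T_CFG makes the word plain.
`WDI n → PE (2 n)`: `3 F + 8 = 2 n`, `3 N' = 4 (2 n^2 - n + 2) + 2 n - 8 = 8 n^2 - 2 n`;
`F' = 2 F + 6`, `3 F' = 4 n + 2`. -/
def T_STW : Prop :=
  (∀ n, PZ n → PZ (2 * n)) ∧ (∀ n, PE n → NearP (2 * n)) ∧ (∀ n, WDI n → PE (2 * n))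

/-- **Target T_STF** (forgetting), by T_CFG. -/
def T_STF : Prop := (∀ n, PZ n → Perf n) ∧ (∀ n, PE n → Perf n) ∧ (∀ n, NPW n → NearP n)

/-- **Target T_REC** (the recursion): `Perf n` or `NearP n` for all `n ≥ 2`, `n ≠ 6`.

Proof.  Strong induction on `n` of the conjunction of:
(P) `n ≥ 2`, `n ≠ 6`, `n % 3 ≠ 1` → `Perf n`;
(Z) `n ≥ 9`, `n % 3 = 0` → `PZ n`;
(E) `n ≥ 11`, `n % 9 = 2` → `PE n`;
(Q) `n ≥ 10`, `n % 9 = 1` → `NPW n`;
(N) `n ≥ 4`, `n % 3 = 1` → `NearP n`.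
For a given n prove (Z), (E), (Q) first, then (P), (N) (they use (Z), (E), (Q) for the same n).
(Z) n odd: `n = 2 k - 1`, `k = (n+1)/2 ≥ 5`, `k % 3 = 2`, `k ≠ 6`: (P) for k and T_STB.  n even:
n = 12: T_BAS; otherwise `n ≥ 18`, `n / 2 ≥ 9`, `(n/2) % 3 = 0`: (Z) for n/2 and T_STW.
(E) n = 11: T_BAS.  n odd: `n % 18 = 11`, `n ≥ 29`, `k = (n+1)/2 ≥ 15`, `k % 3 = 0`: (P) for k,
T_STB.  n even: `n % 36 = 2`: `n ≥ 38`, `k = (n+2)/4`, `k % 9 = 1`, `k ≥ 10`: (Q) for k, T_STD gives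
`WDI (2k - 1)`, `2 (2k - 1) = n`, T_STW.  `n % 36 = 20`: `k = (n+4)/12`, `k % 3 = 2`, `k ≥ 2`:
(P) for k, T_IRT: `12 k - 4 = n`.
(Q) n odd: `n ≥ 19`, `k = (n+1)/2`, `k % 9 = 1`, `k ≥ 10`: (Q) for k, T_STC.  n even: `n % 18 = 10`,
`k = (n+2)/6`, `k % 3 = 2`, `k ≥ 2`: (P) for k, T_INT: `6 k - 2 = n`.
(P) n = 2: T_BAS; n = 11: (E), T_STF.  n odd, n ≠ 11: `k = (n+1)/2`, `k ≥ 2`, `k ≠ 6`, `k % 3 ≠ 1`:
(P)
for k, T_STA.  n even, `n % 6 = 0`: `n ≥ 12`, (Z) for n, T_STF.  n even, `n % 6 = 2`, `n ≥ 8`,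
`n % 18 ≠ 2`: `k = (n+1)/3`, `k % 3 ≠ 1`, k odd so `k ≠ 6`, `k ≥ 3`: (P) for k, T_IT: `3 k - 1 = n`.
`n % 18 = 2`, `n ≥ 20`: (E) for n, T_STF.
(N) n = 4: T_BAS.  n odd: `k = (n+1)/2 ≥ 4`, `k % 3 = 1`: (N) for k, T_STA.  n even: `n = 6 t + 4`,
`t ≥ 1`.  If `t % 3 ≠ 0`, `t ≠ 5`: (P) for t + 1, T_INT gives `NPW (6 (t+1) - 2)`, T_STF.  If
`t % 3 = 0`: `3 t + 2 ≥ 11`, `(3t+2) % 9 = 2`: (E) for 3t + 2, T_STW gives `NearP (6 t + 4)`.  If
t = 5 (n = 34): (P) for 9, T_STB gives `PE 17`, T_STW gives `NearP 34`. -/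
def T_REC : Prop := ∀ n, 2 ≤ n → n ≠ 6 → Perf n ∨ NearP n

end Bn
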